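import Pool.Agent.Work.MP_042f46_an.Lin
import Pool.Agent.Work.MP_042f46_an.XH

-- merged part: Pool.Agent.Work.MP_042f46_an.T.B7
section
-- merged part: Pool.Agent.Work.MP_042f46_an.T.Defs
section
/-!
# Typical rotation numbers: definitions

Write-up: /team-store/h9_042f46_typical.md.  `T` is the circle of length one.  `Lev` = closest returns of a rotation, `Kit` = the three measures on pairs of points of an invariant curve, `Sys` = both, `FK` = the same data as bilinear forms, `Sy` = rotation domain centred at infinity, `Cf` = the same with an invariant curve and a Riemann map of its inside.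
-/

open Set Metric Topology Filter MeasureTheory
open scoped ENNReal NNReal

noncomputable section
namespace Pool.Agent.Work.MP_042f46_an.Ty

/-- the circle of length one -/
abbrev T : Type := UnitAddCircle

/-- the point of the unit circle with a given angle -/
def eT (x : T) : ℂ := (AddCircle.toCircle x : ℂ)

/-- the angle of a complex number -/
def argT (ζ : ℂ) : T := ((Complex.arg ζ / (2 * Real.pi) : ℝ) : T)

/-- projection to the unit interval -/
def clamp (s : ℝ) : ℝ := max 0 (min 1 s)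

/-- truncation: the part of `s` outside `[-ε, ε]` -/
def tr (ε s : ℝ) : ℝ := max 0 (s - ε) - max 0 (-s - ε)

/-- bump in the plane around a point of the unit circle -/
def bumpC (c : T) (θ : ℝ) (ζ : ℂ) : ℝ := clamp (8 - ‖ζ - eT c‖ / θ)

/-- its restriction to the circle -/
def bump (c : T) (θ : ℝ) (x : T) : ℝ := bumpC c θ (eT x)

/-- closed arc -/
def arc (a b : ℝ) : Set T := ((↑) : ℝ → T) '' Icc a b

/-- pairs whose translate by `a` lies in `X` -/
def sh (a : ℝ) (X : Set (T × T)) : Set (T × T) := {p | (p.1 + (a : T), p.2 + (a : T)) ∈ X}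

/-- pairs starting in `A` with jump in `[r, s)` -/
def SS (A : Set T) (r s : ℝ) : Set (T × T) :=
  {p | p.1 ∈ A ∧ r ≤ dist p.1 p.2 ∧ dist p.1 p.2 < s}

/-- sets of pairs at positive distance from the diagonal -/
def Off (X : Set (T × T)) : Prop := ∃ r > 0, ∀ p ∈ X, r ≤ dist p.1 p.2

/-- the Douglas integral -/
def DD (H : Measure (T × T)) (u : T → ℝ) : ℝ≥0∞ :=
  ∫⁻ p, ENNReal.ofReal ((u p.1 - u p.2) ^ 2) ∂H

/-- bumps of all small scales have bounded Douglas integral -/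
def FinB (H : Measure (T × T)) : Prop :=
  ∃ R : ℝ, ∀ (x : T) (θ : ℝ), 0 < θ → θ ≤ 1 → DD H (bump x θ) ≤ ENNReal.ofReal R

/-- duality of the two rectangles spanned by four points -/
def Dual (H : Measure (T × T)) : Prop :=
  ∀ x₁ x₂ x₃ x₄ : ℝ, x₁ < x₂ → x₂ < x₃ → x₃ < x₄ → x₄ < x₁ + 1 →
    (Real.exp (H.real (arc x₁ x₂ ×ˢ arc x₃ x₄)) - 1) *
      (Real.exp (H.real (arc x₂ x₃ ×ˢ arc x₄ (x₁ + 1))) - 1) = 1

/-- pulling a bump back by the rotation -/
def Pull (H : Measure (T × T)) (α : ℝ) (N : ℕ) : Prop :=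
  ∀ (x : T) (θ : ℝ), 0 < θ →
    DD H (fun y => bump x θ (y + (α : T))) ≤ (N : ℝ≥0∞) * (DD H (bump x θ) + N)

/-- closest returns of the rotation by `α` -/
structure Lev (α : ℝ) where
  q : ℕ → ℕ
  θ : ℕ → ℝ
  θ_zero : θ 0 = 1
  θ_pos : ∀ n, 0 < θ n
  θ_anti : Antitone θ
  θ_half : ∀ n, 2 * θ (n + 2) ≤ θ n
  q_one : q 1 = 1
  q_mono : Monotone q
  q_two : ∀ n, 2 * q n ≤ q (n + 2)
  ret : ∀ n, ‖(((q (n + 1) : ℝ) * α : ℝ) : T)‖ = θ (n + 1)
  sep : ∀ n i : ℕ, 0 < i → i < q (n + 1) → θ n ≤ ‖(((i : ℝ) * α : ℝ) : T)‖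
  dense : ∀ (n : ℕ) (x : T), ∃ i < q (n + 2), ∃ t ∈ Ico 0 (2 * θ (n + 1)),
    x = (((i : ℝ) * α + t : ℝ) : T)

/-- around infinitely many levels the ratios of consecutive scales grow polynomially -/
def Lev.Good {α : ℝ} (Λ : Lev α) : Prop :=
  ∃ C : ℝ, ∀ L : ℕ, ∃ l, L ≤ l ∧ ∀ m, Λ.θ m ≤ C * (1 + (Nat.dist m l : ℝ)) ^ 4 * Λ.θ (m + 1)

/-- the class of rotation numbers -/
def Typ (α : ℝ) : Prop :=
  Irrational α ∧ ∃ C : ℝ, ∀ K : ℕ, ∃ k, K ≤ k ∧ ∀ q : ℕ, 1 ≤ q →
    1 ≤ C * (1 + (Nat.dist (Nat.log 2 q) k : ℝ)) ^ 2 * ((q : ℝ) * ‖(((q : ℝ) * α : ℝ) : T)‖)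

/-- excursion measure `H`, hitting part `h`, bad part `b`, marks `M` -/
structure Kit (α : ℝ) (N : ℕ) where
  H : Measure (T × T)
  h : Measure (T × T)
  b : Measure (T × T)
  M : Finset T
  M_ne : M.Nonempty
  M_card : M.card ≤ N
  h_fin : IsFiniteMeasure h
  b_fin : IsFiniteMeasure b
  H_symm : H.map Prod.swap = H
  h_symm : h.map Prod.swap = h
  line : ∀ y : T, H (univ ×ˢ {y}) = 0
  E1 : ∀ X, MeasurableSet X → Off X → H X + h (sh α X) = H (sh α X) + b (sh α X)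
  marg : ∀ A, MeasurableSet A → h (A ×ˢ univ) = b (A ×ˢ univ)
  psd : ∀ A B, MeasurableSet A → MeasurableSet B → 2 * h (A ×ˢ B) ≤ h (A ×ˢ A) + h (B ×ˢ B)
  le : ∀ A B, MeasurableSet A → MeasurableSet B → Disjoint A B → h (A ×ˢ B) ≤ H (A ×ˢ B)
  dual : Dual H
  marks : ∀ a a' : ℝ, (∀ s ∈ Icc a a', (s : T) ∉ M) → b (arc a a' ×ˢ arc a a') ≤ N
  pull : Pull H α N
  fin : FinB H

/-- levels and measures together -/
structure Sys (α : ℝ) (N : ℕ) extends Lev α, Kit α N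

namespace Sys

variable {α : ℝ} {N : ℕ} (σ : Sys α N)

instance : IsFiniteMeasure σ.h := σ.h_fin

instance : IsFiniteMeasure σ.b := σ.b_fin

/-- points far from all marks -/
def Far (r : ℝ) : Set T := {x | ∀ m ∈ σ.M, r ≤ dist x m}

/-- points near some mark -/
def Near (r : ℝ) : Set T := ⋃ m ∈ σ.M, ball m r

/-- pairs with no mark between them -/
def G : Set (T × T) := {p | ∀ m ∈ σ.M, dist p.1 p.2 < max (dist p.1 m) (dist p.2 m)}

/-- mass of the long jumps from a ball -/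
def κ (c : T) (r s : ℝ) : ℝ := σ.H.real (SS (ball c r) s 2)

/-- the atom at `c` from level `g₁` to level `g₀` -/
def a (c : T) (g₁ g₀ : ℕ) : ℝ := σ.κ c (σ.θ g₁ / 2) (2 * σ.θ g₀)

/-- the largest atom -/
def At (g₁ g₀ : ℕ) : ℝ := ⨆ c : T, σ.a c g₁ g₀

/-- the degeneration at level `n` -/
def K (n : ℕ) : ℝ := σ.At n n

/-- bad mass with jumps between two levels -/
def J (l₁ l₂ : ℕ) : ℝ := σ.b.real (SS univ (2 * σ.θ l₂) (2 * σ.θ l₁))

/-- short hitting mass away from the marks -/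
def D (n : ℕ) : ℝ := σ.h.real (SS (σ.Far (3 * σ.θ n)) 0 (2 * σ.θ n))

/-- mass of the jumps of class `j` from a set -/
def cl (A : Set T) (j : ℕ) : ℝ := σ.H.real (SS A (2 * σ.θ (j + 1)) (2 * σ.θ j))

/-- bounds valid in a window of levels -/
structure Win (lo hi : ℕ) (V P : ℝ) : Prop where
  V_nonneg : 0 ≤ V
  one_le : 1 ≤ P
  K_le : ∀ n, lo ≤ n → n ≤ hi → σ.K n ≤ V
  J_le : σ.J lo hi ≤ V
  J_tail : ∀ j, hi ≤ j → σ.J j (j + 1) ≤ V * (11 / 10) ^ (j - hi)
  ratio : ∀ j, lo ≤ j → σ.θ j ≤ P * (11 / 10) ^ (j - hi) * σ.θ (j + 1)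

end Sys

/-- Lipschitz functions on the circle -/
def LipT : Submodule ℝ (T → ℝ) where
  carrier := {u | ∃ K, LipschitzWith K u}
  add_mem' := fun ⟨_, h⟩ ⟨_, h'⟩ => ⟨_, h.add h'⟩
  zero_mem' := ⟨0, LipschitzWith.const 0⟩
  smul_mem' := fun c _ ⟨_, h⟩ => ⟨_, (lipschitzWith_smul c).comp h⟩

/-- the constant function one -/
def oneT : LipT := ⟨fun _ => 1, 0, LipschitzWith.const 1⟩

/-- supports at positive distance -/
def Apart (u v : T → ℝ) : Prop := ∃ r > 0, ∀ x y, u x ≠ 0 → v y ≠ 0 → r ≤ dist x y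

/-- the data of a `Kit` as bilinear forms on Lipschitz functions -/
structure FK (α : ℝ) (N : ℕ) where
  H : Measure (T × T)
  hf : LipT →ₗ[ℝ] LipT →ₗ[ℝ] ℝ
  bf : LipT →ₗ[ℝ] LipT →ₗ[ℝ] ℝ
  M : Finset T
  M_ne : M.Nonempty
  M_card : M.card ≤ N
  H_symm : H.map Prod.swap = H
  line : ∀ y : T, H (univ ×ˢ {y}) = 0
  dual : Dual H
  pull : Pull H α N
  fin : FinB H
  h_pos : ∀ u v : LipT, (∀ x, 0 ≤ u.1 x) → (∀ x, 0 ≤ v.1 x) → 0 ≤ hf u v
  b_pos : ∀ u v : LipT, (∀ x, 0 ≤ u.1 x) → (∀ x, 0 ≤ v.1 x) → 0 ≤ bf u v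
  h_symm : ∀ u v, hf u v = hf v u
  psd : ∀ u, 0 ≤ hf u u
  marg : ∀ u, hf u oneT = bf u oneT
  E1 : ∀ u v : LipT, Apart u.1 v.1 → ∫ p, u.1 (p.1 - (α : T)) * v.1 (p.2 - (α : T)) ∂H + hf u v =
    ∫ p, u.1 p.1 * v.1 p.2 ∂H + bf u v
  le : ∀ u v : LipT, (∀ x, 0 ≤ u.1 x) → (∀ x, 0 ≤ v.1 x) → Apart u.1 v.1 →
    hf u v ≤ ∫ p, u.1 p.1 * v.1 p.2 ∂H
  marks : ∀ (u : LipT) (a a' : ℝ), (∀ x, u.1 x ∈ Icc (0 : ℝ) 1) → (∀ s ∈ Icc a a', (s : T) ∉ M) →
    (∀ x, u.1 x ≠ 0 → x ∈ arc a a') → bf u u ≤ N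

/-- Lipschitz near every point of `O` -/
def LL {E : Type} [PseudoEMetricSpace E] (O : Set ℂ) (f : ℂ → E) : Prop :=
  ∀ z ∈ O, ∃ K, ∃ t ∈ 𝓝 z, LipschitzOnWith K f t

/-- the gradient as a complex number -/
def gr (f : ℂ → ℝ) (z : ℂ) : ℂ := ⟨fderiv ℝ f z 1, fderiv ℝ f z Complex.I⟩

/-- real scalar product -/
def dot (a b : ℂ) : ℝ := a.re * b.re + a.im * b.im

/-- Dirichlet energy -/
def En (O : Set ℂ) (f : ℂ → ℝ) : ℝ≥0∞ := ∫⁻ z in O, ‖gr f z‖ₑ ^ 2

/-- Dirichlet scalar product -/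
def Ip (O : Set ℂ) (f g : ℂ → ℝ) : ℝ := ∫ z in O, dot (gr f z) (gr g z)

/-- continuous on `Ob`, locally Lipschitz on `O`, finite energy on `O` -/
structure IsV (O Ob : Set ℂ) (f : ℂ → ℝ) : Prop where
  cont : ContinuousOn f Ob
  lip : LL O f
  fin : En O f ≠ ∞

/-- locally Lipschitz off the origin and zero near infinity -/
structure Nice (Ξ : ℂ → ℝ) : Prop where
  lip : LL {0}ᶜ Ξ
  supp : ∃ R : ℝ, ∀ ζ : ℂ, R ≤ ‖ζ‖ → Ξ ζ = 0

/-- radial extension of a function on the circle -/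
def rad (u : T → ℝ) (ζ : ℂ) : ℝ := u (argT ζ) * max 0 (2 - ‖ζ‖)

/-- the Herglotz integral -/
def Hol (f : T → ℝ) (w : ℂ) : ℂ := ∫ x : T, (eT x + w) / (eT x - w) * (f x : ℂ)

/-- the excursion measure of the unit disc -/
def H0 : Measure (T × T) := ((volume : Measure T).prod volume).withDensity
  fun p => ENNReal.ofReal (4 * Real.pi ^ 2 / ‖eT p.1 - eT p.2‖ ^ 2)

/-- a rotation domain around infinity of a branched covering with poles `P` -/
structure Sy where
  F : ℂ → ℂ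
  φ : ℂ → ℂ
  α : ℝ
  V : Finset ℂ
  P : Set ℂ
  d : ℕ
  v₀ : ℂ
  φ_diff : DifferentiableOn ℂ φ {ζ | 1 < ‖ζ‖}
  φ_inj : InjOn φ {ζ | 1 < ‖ζ‖}
  φ_top : Tendsto φ (Bornology.cobounded ℂ) (Bornology.cobounded ℂ)
  conj : ∀ ζ, 1 < ‖ζ‖ → F (φ ζ) = φ (e α * ζ)
  P_fin : P.Finite
  cov : IsCoveringMapOn F (↑V : Set ℂ)ᶜ
  F_diff : DifferentiableOn ℂ F Pᶜ
  P_V : ∀ z ∈ P, F z ∈ V
  P_Ω : ∀ z ∈ P, z ∉ φ '' {ζ | 1 < ‖ζ‖}
  P_top : ∀ z ∈ P, Tendsto F (𝓝[≠] z) (Bornology.cobounded ℂ)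
  fib : ∀ y, {z | z ∉ P ∧ F z = y}.encard ≤ d
  v₀_Ω : v₀ ∉ φ '' {ζ | 1 < ‖ζ‖}

/-- the constant of the kit -/
def Sy.N (σ : Sy) : ℕ := 80 * σ.V.card + σ.d + 1300

/-- an invariant curve and a Riemann map of its inside -/
structure Cf extends Sy where
  ρ : ℝ
  ψ : ℂ → ℂ
  R : ℝ
  β : ℝ → ℝ
  βT : T → T
  ρ_gt : 1 < ρ
  R_gt : 1 < R
  ψ_diff : DifferentiableOn ℂ ψ (ball 0 R)
  ψ_inj : InjOn ψ (ball 0 R)
  ψ_img : ψ '' ball 0 1 = (ext φ ρ)ᶜ
  β_cont : Continuous β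
  β_mono : StrictMono β
  β_per : ∀ s, β (s + 1) = β s + 1
  β_coe : ∀ s : ℝ, βT (s : T) = (β s : T)
  β_lip : ∃ K, LipschitzWith K βT
  ψ_e : ∀ x : T, ψ (eT x) = φ ((ρ : ℂ) * eT (βT x))

namespace Cf

variable (C : Cf)

/-- the rotation domain -/
def Ω : Set ℂ := C.φ '' {ζ | 1 < ‖ζ‖}

/-- the inside of the curve -/
def U : Set ℂ := (ext C.φ C.ρ)ᶜ

/-- the closed inside of the curve -/
def Ub : Set ℂ := (C.φ '' {ζ | C.ρ < ‖ζ‖})ᶜ

/-- the preimage of the inside -/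
def W : Set ℂ := {z | z ∈ C.U ∧ z ∉ C.P ∧ C.F z ∈ C.U}

/-- the curve -/
def γ (x : T) : ℂ := C.φ ((C.ρ : ℂ) * eT x)

/-- linearising coordinate -/
def φi : ℂ → ℂ := Function.invFunOn C.φ {ζ | 1 < ‖ζ‖}

/-- uniformising coordinate -/
def ψi : ℂ → ℂ := Function.invFunOn C.ψ (ball 0 C.R)

/-- radial cut-off -/
def χ (s : ℝ) : ℝ := clamp ((2 * s - 1 - C.ρ) / (C.ρ - 1))

/-- a function of the linearising coordinate, cut off inside the curve -/
def extC (Ξ : ℂ → ℝ) : ℂ → ℝ := C.Ω.indicator fun z => Ξ (C.φi z / C.ρ) * C.χ ‖C.φi z‖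

/-- collar extension of a function on the curve -/
def ex (u : T → ℝ) : ℂ → ℝ := C.extC (rad u)

/-- holomorphic function on the inside whose real part has boundary values `u` -/
def Ho (u : T → ℝ) (z : ℂ) : ℂ := Hol (fun x => u (C.βT x)) (C.ψi z)

open Classical in
/-- harmonic extension to the inside -/
def Po (u : T → ℝ) (z : ℂ) : ℝ := if z ∈ C.U then (C.Ho u z).re else C.ex u z

/-- Lipschitz approximation of the harmonic extension, continued by `Ξ` outside -/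
def PE (Ξ : ℂ → ℝ) (ε : ℝ) (z : ℂ) : ℝ :=
  C.extC Ξ z + C.U.indicator (fun z => tr ε (C.Po (fun x => Ξ (eT x)) z - C.extC Ξ z)) z

/-- pull-back of a function vanishing near infinity -/
def pb (Φ : ℂ → ℝ) : ℂ → ℝ := C.Pᶜ.indicator fun z => Φ (C.F z)

/-- the main inverse branch -/
def mb (z : ℂ) : ℂ := C.φ (e (-C.α) * C.φi z)

/-- the excursion measure in the angles of the linearising coordinate -/
def H : Measure (T × T) := H0.map (Prod.map C.βT C.βT)

end Cf

end Pool.Agent.Work.MP_042f46_an.Ty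
end
end

-- merged part: Pool.Agent.Work.MP_042f46_an.T.A0
section
/-!
# The circle, chords, bumps

Plans.  `eT_coe`: `AddCircle.toCircle_apply_mk`, `Circle.coe_exp`.  `exists_rep`: `y - x` is the class of a real `s`; take `t = s - round s` (`UnitAddCircle.norm_eq`, `abs_sub_round`).  `chord`: with `y = x + t`, `‖e t - 1‖ = 2 |sin (π t)|` (`Complex.norm_exp_I_mul_ofReal_sub_one`), `Real.mul_le_sin` (Jordan) and `Real.abs_sin_le_abs`.  `eT_argT`: `Complex.norm_mul_exp_arg_mul_I`; the other `argT` lemmas follow from `eT_inj`.  `LL_argT`: near `z ≠ 0`, `4 dist (argT a) (argT b) ≤ ‖a / ‖a‖ - b / ‖b‖‖ ≤ 2 ‖a - b‖ / ‖a‖` (for `a, b` in the ball of radius `‖z‖ / 2`).  Bumps: `clamp` is 1-Lipschitz, `2 π ≤ 7`.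
-/

open Set Metric Topology Filter MeasureTheory
open scoped ENNReal NNReal

noncomputable section
namespace Pool.Agent.Work.MP_042f46_an.Ty

theorem eT_coe (t : ℝ) : eT (t : T) = e t := by
  rw [eT, AddCircle.toCircle_apply_mk, Circle.coe_exp, e]
  congr 1
  push_cast
  ring

theorem norm_eT (x : T) : ‖eT x‖ = 1 := by
  exact Circle.norm_coe _

theorem eT_ne (x : T) : eT x ≠ 0 := by
  exact Circle.coe_ne_zero _

theorem eT_add (x y : T) : eT (x + y) = eT x * eT y := by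
  rw [eT, AddCircle.toCircle_add, Circle.coe_mul, eT, eT]

theorem continuous_eT : Continuous eT := by
  exact continuous_subtype_val.comp AddCircle.continuous_toCircle

theorem eT_inj : Function.Injective eT := by
  exact fun x y h => AddCircle.injective_toCircle one_ne_zero (Circle.ext h)

theorem exists_eT {ζ : ℂ} (h : ‖ζ‖ = 1) : ∃ x, eT x = ζ := by
  obtain ⟨t, ht⟩ := exists_e ζ
  exact ⟨t, by rw [eT_coe, ht, h, Complex.ofReal_one, one_mul]⟩

theorem continuous_coeT : Continuous ((↑) : ℝ → T) := by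
  exact AddCircle.continuous_mk' 1

theorem exists_coe (x : T) : ∃ t ∈ Ico (0 : ℝ) 1, x = (t : T) := by
  obtain ⟨t, ht, h⟩ := AddCircle.eq_coe_Ico x
  exact ⟨t, ht, h.symm⟩

theorem coe_add_one (t : ℝ) : ((t + 1 : ℝ) : T) = (t : T) := by
  exact AddCircle.coe_add_period 1 t

theorem dist_le_half (x y : T) : dist x y ≤ 1 / 2 := by
  have h := AddCircle.norm_le_half_period 1 (x := x - y) one_ne_zero
  rwa [abs_one, ← dist_eq_norm] at h

theorem exists_rep (x y : T) : ∃ t : ℝ, y = x + (t : T) ∧ |t| = dist y x := by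
  obtain ⟨s, -, hs⟩ := exists_coe (y - x)
  have h0 : (((round s : ℤ) : ℝ) : T) = 0 :=
    (AddCircle.coe_eq_zero_iff 1).2 ⟨round s, by rw [zsmul_eq_mul, mul_one]⟩
  refine ⟨s - round s, ?_, ?_⟩
  · rw [AddCircle.coe_sub, h0, sub_zero, ← hs, add_sub_cancel]
  · rw [dist_eq_norm, hs, UnitAddCircle.norm_eq]

theorem dist_add_coe_le (x : T) (s t : ℝ) : dist (x + (s : T)) (x + (t : T)) ≤ |s - t| := by
  rw [dist_add_left, dist_eq_norm, ← AddCircle.coe_sub]
  exact QuotientAddGroup.norm_mk_le_norm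

theorem dist_coe_le (s t : ℝ) : dist (s : T) (t : T) ≤ |s - t| := by
  simpa using dist_add_coe_le 0 s t

theorem le_dist_coe {s t r : ℝ} (h₁ : r ≤ |s - t|) (h₂ : |s - t| ≤ 1 - r) :
    r ≤ dist (s : T) (t : T) := by
  rw [dist_eq_norm, ← AddCircle.coe_sub, UnitAddCircle.norm_eq]
  rcases eq_or_ne (round (s - t)) 0 with h | h
  · rwa [h, Int.cast_zero, sub_zero]
  · have h1 : (1 : ℝ) ≤ |((round (s - t) : ℤ) : ℝ)| := by exact_mod_cast Int.one_le_abs h
    have h2 := abs_sub_abs_le_abs_sub ((round (s - t) : ℤ) : ℝ) (s - t)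
    rw [abs_sub_comm]
    linarith only [h₂, h1, h2]

theorem dist_add_self (x : T) (t : ℝ) : dist (x + (t : T)) x = ‖(t : T)‖ := by
  rw [dist_eq_norm, add_sub_cancel_left]

theorem A0_chord (x y : T) : ∃ t : ℝ, |t| = dist x y ∧
    ‖eT x - eT y‖ = 2 * |Real.sin (Real.pi * t)| := by
  obtain ⟨t, rfl, ht⟩ := exists_rep y x
  refine ⟨t, ht, ?_⟩
  have h : e t = Complex.exp (Complex.I * ((2 * Real.pi * t : ℝ) : ℂ)) := by
    rw [e]
    congr 1
    push_cast
    ring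
  rw [eT_add, eT_coe, ← mul_sub_one, norm_mul, norm_eT, one_mul, h,
    Complex.norm_exp_I_mul_ofReal_sub_one, Real.norm_eq_abs, abs_mul, abs_two,
    show 2 * Real.pi * t / 2 = Real.pi * t by ring]

theorem chord_ge (x y : T) : 4 * dist x y ≤ ‖eT x - eT y‖ := by
  obtain ⟨t, ht, h⟩ := A0_chord x y
  have h1 := dist_le_half x y
  have h2 : |Real.pi * t| = Real.pi * dist x y := by rw [abs_mul, abs_of_pos Real.pi_pos, ht]
  have h3 := Real.mul_abs_le_abs_sin (x := Real.pi * t) (by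
    rw [h2]
    linarith only [h1, Real.pi_pos, mul_nonneg_of_nonpos_of_nonpos (Mathlib.Tactic.Linarith.sub_nonpos_of_le h1) (le_of_lt (Mathlib.Tactic.Linarith.sub_neg_of_lt Real.pi_pos))])
  rw [h2, ← mul_assoc, div_mul_cancel₀ _ Real.pi_ne_zero] at h3
  linarith only [h, h3]

theorem chord_le (x y : T) : ‖eT x - eT y‖ ≤ 7 * dist x y := by
  obtain ⟨t, ht, h⟩ := A0_chord x y
  have h3 := Real.abs_sin_le_abs (x := Real.pi * t)
  rw [abs_mul, abs_of_pos Real.pi_pos, ht] at h3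
  nlinarith only [h, h3, Real.pi_lt_d2, dist_nonneg (x := x) (y := y)]

theorem lipschitz_eT : LipschitzWith 7 eT := by
  exact LipschitzWith.of_dist_le_mul fun x y => by
    rw [dist_eq_norm]
    exact_mod_cast chord_le x y

theorem eT_argT {ζ : ℂ} (h : ζ ≠ 0) : eT (argT ζ) = ζ / (‖ζ‖ : ℂ) := by
  have h1 : (‖ζ‖ : ℂ) ≠ 0 := Complex.ofReal_ne_zero.2 (norm_ne_zero_iff.2 h)
  have h2 : (Real.pi : ℂ) ≠ 0 := Complex.ofReal_ne_zero.2 Real.pi_ne_zero
  rw [eq_div_iff h1, mul_comm, argT, eT_coe, e]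
  refine Eq.trans ?_ (Complex.norm_mul_exp_arg_mul_I ζ)
  congr 2
  push_cast
  field_simp

theorem argT_mul {r : ℝ} (hr : 0 < r) (x : T) : argT ((r : ℂ) * eT x) = x := by
  have h1 : (r : ℂ) ≠ 0 := Complex.ofReal_ne_zero.2 hr.ne'
  refine eT_inj ?_
  rw [eT_argT (mul_ne_zero h1 (eT_ne x)), norm_mul, norm_eT, mul_one,
    Complex.norm_of_nonneg hr.le, mul_div_cancel_left₀ _ h1]

theorem argT_eT (x : T) : argT (eT x) = x := by
  simpa using argT_mul one_pos x

theorem argT_rot (a : ℝ) {ζ : ℂ} (h : ζ ≠ 0) : argT (e a * ζ) = argT ζ + (a : T) := by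
  have h1 : e a ≠ 0 := eT_coe a ▸ eT_ne _
  refine eT_inj ?_
  rw [eT_add, eT_argT h, eT_argT (mul_ne_zero h1 h), Sg_norm, eT_coe]
  ring

theorem A0_unit {a b : ℂ} (ha : a ≠ 0) (hb : b ≠ 0) :
    ‖a‖ * ‖a / (‖a‖ : ℂ) - b / (‖b‖ : ℂ)‖ ≤ 2 * ‖a - b‖ := by
  have h1 : (‖a‖ : ℂ) ≠ 0 := Complex.ofReal_ne_zero.2 (norm_ne_zero_iff.2 ha)
  have h2 : (‖b‖ : ℂ) ≠ 0 := Complex.ofReal_ne_zero.2 (norm_ne_zero_iff.2 hb)
  have h3 : (‖a‖ : ℂ) * (a / (‖a‖ : ℂ) - b / (‖b‖ : ℂ)) =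
      (a - b) + ((‖b‖ - ‖a‖ : ℝ) : ℂ) * eT (argT b) := by
    rw [eT_argT hb]
    push_cast
    field_simp
    ring
  have h4 := congrArg norm h3
  rw [norm_mul, Complex.norm_of_nonneg (norm_nonneg a)] at h4
  have h5 := norm_add_le (a - b) (((‖b‖ - ‖a‖ : ℝ) : ℂ) * eT (argT b))
  rw [norm_mul, norm_eT, mul_one, Complex.norm_real, Real.norm_eq_abs, abs_sub_comm] at h5
  linarith only [h4, h5, abs_norm_sub_norm_le a b]

theorem LL_argT : LL {0}ᶜ argT := by
  intro z hz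
  have hz0 : 0 < ‖z‖ := norm_pos_iff.2 hz
  have h1 : ∀ a ∈ ball z (‖z‖ / 2), ‖z‖ / 2 ≤ ‖a‖ := fun a ha => by
    have h := norm_sub_norm_le z a
    rw [mem_ball, dist_comm, dist_eq_norm] at ha
    linarith only [ha, h]
  have h2 : ∀ a ∈ ball z (‖z‖ / 2), a ≠ 0 := fun a ha =>
    norm_pos_iff.1 ((half_pos hz0).trans_le (h1 a ha))
  refine ⟨⟨‖z‖⁻¹, by positivity⟩, ball z (‖z‖ / 2), ball_mem_nhds z (half_pos hz0),
    LipschitzOnWith.of_dist_le_mul fun a ha b hb => ?_⟩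
  have h3 := chord_ge (argT a) (argT b)
  rw [eT_argT (h2 a ha), eT_argT (h2 b hb)] at h3
  have h4 := A0_unit (h2 a ha) (h2 b hb)
  have h5 := mul_le_mul (h1 a ha) h3 (by positivity) (norm_nonneg a)
  change _ ≤ ‖z‖⁻¹ * _
  rw [le_inv_mul_iff₀ hz0, dist_eq_norm a b]
  linarith only [h4, h5]

theorem clamp_mem (s : ℝ) : clamp s ∈ Icc (0 : ℝ) 1 := by
  exact ⟨le_max_left _ _, max_le zero_le_one (min_le_left _ _)⟩

theorem clamp_one {s : ℝ} (h : 1 ≤ s) : clamp s = 1 := by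
  rw [clamp, min_eq_left h, max_eq_right zero_le_one]

theorem clamp_zero {s : ℝ} (h : s ≤ 0) : clamp s = 0 := by
  exact max_eq_left ((min_le_right _ _).trans h)

theorem lipschitz_clamp : LipschitzWith 1 clamp := by
  exact (LipschitzWith.id.const_min 1).const_max 0

theorem lipschitz_tr (ε : ℝ) : LipschitzWith 2 (tr ε) := by
  refine LipschitzWith.of_dist_le_mul fun a b => ?_
  have h1 := abs_max_sub_max_le_abs (a - ε) (b - ε) 0
  have h2 := abs_max_sub_max_le_abs (-a - ε) (-b - ε) 0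
  rw [sub_sub_sub_cancel_right] at h1 h2
  rw [neg_sub_neg, abs_sub_comm b a] at h2
  rw [Real.dist_eq, Real.dist_eq, tr, tr, max_comm 0, max_comm 0, max_comm 0, max_comm 0,
    NNReal.coe_ofNat, abs_le]
  rw [abs_le] at h1 h2
  constructor <;> linarith only [h1, h2, h1.1, h1.2, h2.1, h2.2]

theorem tr_zero {ε s : ℝ} (h : |s| ≤ ε) : tr ε s = 0 := by
  rw [abs_le] at h
  rw [tr, max_eq_left (by linarith only [h, h.2]), max_eq_left (by linarith [h.1]), sub_zero]

theorem add_tr_nonneg {ε a b : ℝ} (hε : 0 ≤ ε) (ha : 0 ≤ a) (hb : 0 ≤ b) :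
    0 ≤ a + tr ε (b - a) := by
  have h1 := le_max_left 0 (b - a - ε)
  have h2 : max 0 (-(b - a) - ε) ≤ a := max_le ha (by linarith only [hε, hb])
  rw [tr]
  linarith

variable {c : T} {θ : ℝ}

theorem bumpC_lip (hθ : 0 < θ) (a b : ℂ) : |bumpC c θ a - bumpC c θ b| ≤ ‖a - b‖ / θ := by
  have h := lipschitz_clamp.dist_le_mul (8 - ‖a - eT c‖ / θ) (8 - ‖b - eT c‖ / θ)
  rw [NNReal.coe_one, one_mul, Real.dist_eq, Real.dist_eq, sub_sub_sub_cancel_left, ← sub_div,
    abs_div, abs_of_pos hθ, abs_sub_comm ‖b - eT c‖] at h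
  have h1 := abs_norm_sub_norm_le (a - eT c) (b - eT c)
  rw [sub_sub_sub_cancel_right] at h1
  exact h.trans (div_le_div_of_nonneg_right h1 hθ.le)

theorem bumpC_one (hθ : 0 < θ) {ζ : ℂ} (h : ‖ζ - eT c‖ ≤ 7 * θ) : bumpC c θ ζ = 1 := by
  have h1 := (div_le_iff₀ hθ).2 h
  exact clamp_one (by linarith only [h1])

theorem bumpC_zero (hθ : 0 < θ) {ζ : ℂ} (h : 8 * θ ≤ ‖ζ - eT c‖) : bumpC c θ ζ = 0 := by
  have h1 := (le_div_iff₀ hθ).2 h
  exact clamp_zero (by linarith only [h1])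

theorem bump_mem (c : T) (θ : ℝ) (x : T) : bump c θ x ∈ Icc (0 : ℝ) 1 := by
  exact clamp_mem _

theorem bump_one (hθ : 0 < θ) {x : T} (h : dist x c ≤ θ) : bump c θ x = 1 := by
  exact bumpC_one hθ (by linarith only [h, chord_le x c])

theorem bump_zero (hθ : 0 < θ) {x : T} (h : 2 * θ ≤ dist x c) : bump c θ x = 0 := by
  exact bumpC_zero hθ (by linarith only [h, chord_ge x c])

theorem bump_lip (hθ : 0 < θ) (x y : T) : |bump c θ x - bump c θ y| ≤ 7 * dist x y / θ := by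
  exact (bumpC_lip hθ _ _).trans (div_le_div_of_nonneg_right (chord_le x y) hθ.le)

theorem bump_add (c a : T) (θ : ℝ) (x : T) : bump (c + a) θ (x + a) = bump c θ x := by
  rw [bump, bump, bumpC, bumpC, eT_add, eT_add, ← sub_mul, norm_mul, norm_eT, mul_one]

theorem continuous_bump (c : T) (θ : ℝ) : Continuous (bump c θ) := by
  exact lipschitz_clamp.continuous.comp
    (continuous_const.sub ((continuous_eT.sub continuous_const).norm.div_const θ))

end Pool.Agent.Work.MP_042f46_an.Ty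
end
end

-- merged part: Pool.Agent.Work.MP_042f46_an.T.B1
section
/-!
# Locally Lipschitz functions and their gradients

Plans.  Closure properties: intersect the neighbourhoods; for products bound both factors on a small neighbourhood; for `comp` use continuity of `g` at the point; `of_diff`: `AnalyticAt.contDiffAt`, `ContDiffAt.exists_lipschitzOnWith` (over the reals, `restrict_scalars`).  `lip_compact`: `LocallyLipschitzOn.exists_lipschitzOnWith_of_compact`.  `lip_global`: `f` is Lipschitz on the closed ball of radius `|R| + 1` and bounded by some `B`; if one point is outside that ball then either both values vanish or the points are at distance at least one.  `ae_diff`: `O` is covered by countably many open sets on which `f` is Lipschitz (`TopologicalSpace.countable_cover_nhdsWithin` or `isOpen_sUnion_countable`), `LipschitzOnWith.ae_differentiableWithinAt_of_mem`.  `gr_level`: for `c = 0`, at a point where `f = 0`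 and `max 0 f`, `max 0 (-f)` are differentiable both have a local minimum (`IsLocalMin.fderiv_eq_zero`) and `f` is their difference.  `gr_pos`: near a point with `f > 0` (`f < 0`) the function is `f` (zero); at `f = 0` it has a minimum.  `gr_min`: `min f g = f - max 0 (f - g)`.  `gr_comp_zero`: `|f (g w) - f (g z)| ≤ K ‖g w - g z‖ = o (w - z)`.
-/

open Set Metric Topology Filter MeasureTheory
open scoped ENNReal NNReal

noncomputable section
namespace Pool.Agent.Work.MP_042f46_an.Ty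

variable {O O' : Set ℂ} {f g : ℂ → ℝ} {z : ℂ}

theorem LL.mono {E : Type} [PseudoEMetricSpace E] {f : ℂ → E} (h : LL O f) (hO : O' ⊆ O) :
    LL O' f := fun z hz => h z (hO hz)

theorem LL.of_lip {E : Type} [PseudoEMetricSpace E] {f : ℂ → E} {K : ℝ≥0} (h : LipschitzWith K f)
    (O : Set ℂ) : LL O f := by
  exact fun z _ => ⟨K, univ, univ_mem, h.lipschitzOnWith⟩

theorem LL.of_local {E : Type} [PseudoEMetricSpace E] {f : ℂ → E}
    (h : ∀ z ∈ O, ∃ g : ℂ → E, LL {z} g ∧ f =ᶠ[𝓝 z] g) : LL O f := by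
  intro z hz
  obtain ⟨g, hg, e⟩ := h z hz
  obtain ⟨K, t, ht, k⟩ := hg z rfl
  refine ⟨K, t ∩ {w | f w = g w}, inter_mem ht e, fun x hx y hy => ?_⟩
  rw [hx.2, hy.2]
  exact k hx.1 hy.1

theorem LL.continuousAt {E : Type} [PseudoEMetricSpace E] {f : ℂ → E} (h : LL O f) (hz : z ∈ O) :
    ContinuousAt f z := by
  obtain ⟨K, t, ht, k⟩ := h z hz
  exact k.continuousOn.continuousAt ht

theorem B1_comp' {E E' : Type} [PseudoEMetricSpace E] [PseudoEMetricSpace E'] {f : ℂ → E}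
    {k : E → E'} (hf : LL O f) (hk : ∀ z ∈ O, ∃ K, ∃ t ∈ 𝓝 (f z), LipschitzOnWith K k t) :
    LL O fun z => k (f z) := by
  intro z hz
  obtain ⟨K, t, ht, h⟩ := hf z hz
  obtain ⟨K', t', ht', h'⟩ := hk z hz
  exact ⟨K' * K, t ∩ f ⁻¹' t', inter_mem ht (hf.continuousAt hz ht'),
    h'.comp (h.mono inter_subset_left) fun _ hx => hx.2⟩

theorem B1_comp {E E' : Type} [PseudoEMetricSpace E] [PseudoEMetricSpace E'] {f : ℂ → E}
    {k : E → E'} (hf : LL O f) (hk : LocallyLipschitz k) : LL O fun z => k (f z) :=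
  B1_comp' hf fun _ _ => hk _

theorem B1_prod (hf : LL O f) (hg : LL O g) : LL O fun z => (f z, g z) := by
  intro z hz
  obtain ⟨K, t, ht, h⟩ := hf z hz
  obtain ⟨K', t', ht', h'⟩ := hg z hz
  exact ⟨_, t ∩ t', inter_mem ht ht', (h.mono inter_subset_left).prodMk (h'.mono inter_subset_right)⟩

theorem LL.const (O : Set ℂ) (c : ℝ) : LL O fun _ => c := by
  exact LL.of_lip (LipschitzWith.const c) O

theorem LL.add (hf : LL O f) (hg : LL O g) : LL O fun z => f z + g z := by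
  exact B1_comp (B1_prod hf hg) (LipschitzWith.prod_fst.add LipschitzWith.prod_snd).locallyLipschitz

theorem LL.sub (hf : LL O f) (hg : LL O g) : LL O fun z => f z - g z := by
  exact B1_comp (B1_prod hf hg) (LipschitzWith.prod_fst.sub LipschitzWith.prod_snd).locallyLipschitz

theorem LL.mul (hf : LL O f) (hg : LL O g) : LL O fun z => f z * g z := by
  exact B1_comp (B1_prod hf hg) (k := fun p : ℝ × ℝ => p.1 * p.2)
    (ContDiff.locallyLipschitz (𝕂 := ℝ) (contDiff_fst.mul contDiff_snd))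

theorem LL.min (hf : LL O f) (hg : LL O g) : LL O fun z => min (f z) (g z) := by
  exact B1_comp (B1_prod hf hg) (LipschitzWith.prod_fst.min LipschitzWith.prod_snd).locallyLipschitz

theorem LL.max (hf : LL O f) (hg : LL O g) : LL O fun z => max (f z) (g z) := by
  exact B1_comp (B1_prod hf hg) (LipschitzWith.prod_fst.max LipschitzWith.prod_snd).locallyLipschitz

theorem LL.lip_comp {E E' : Type} [PseudoEMetricSpace E] [PseudoEMetricSpace E'] {f : ℂ → E}
    {k : E → E'} {K : ℝ≥0} (hf : LL O f) (hk : LipschitzWith K k) : LL O fun z => k (f z) := by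
  exact B1_comp hf hk.locallyLipschitz

theorem LL.comp {E : Type} [PseudoEMetricSpace E] {f : ℂ → E} {g : ℂ → ℂ} (hf : LL O' f)
    (hg : LL O g) (h : MapsTo g O O') : LL O fun z => f (g z) := by
  exact B1_comp' hg fun z hz => hf _ (h hz)

theorem LL.of_diff {g : ℂ → ℂ} (hO : IsOpen O) (hg : DifferentiableOn ℂ g O) : LL O g := by
  exact fun z hz => (hg.analyticOnNhd hO z hz).contDiffAt.exists_lipschitzOnWith

theorem LL.lip_compact {E : Type} [PseudoMetricSpace E] {f : ℂ → E} (h : LL O f) (hO : IsCompact O) :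
    ∃ K, LipschitzOnWith K f O := by
  refine LocallyLipschitzOn.exists_lipschitzOnWith_of_compact hO fun z hz => ?_
  obtain ⟨K, t, ht, k⟩ := h z hz
  exact ⟨K, t, mem_nhdsWithin_of_mem_nhds ht, k⟩

theorem LL.lip_global (h : LL univ f) {R : ℝ} (hR : ∀ z, R ≤ ‖z‖ → f z = 0) :
    ∃ K, LipschitzWith K f := by
  have hc := isCompact_closedBall (0 : ℂ) (R + 1)
  obtain ⟨K, hK⟩ := (h.mono (subset_univ _)).lip_compact hc
  obtain ⟨B, hB⟩ := hc.exists_bound_of_continuousOn hK.continuousOn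
  have key : ∀ x y, x ∉ closedBall (0 : ℂ) (R + 1) →
      dist (f x) (f y) ≤ (K + B.toNNReal : ℝ≥0) * dist x y := fun x y hx => by
    rw [mem_closedBall_zero_iff, not_le] at hx
    rw [hR x (by linarith)]
    by_cases hy : R ≤ ‖y‖
    · rw [hR y hy, dist_self]
      positivity
    have h1 : 1 ≤ dist x y := by
      rw [dist_eq_norm]
      linarith only [hx, hy, norm_sub_norm_le x y]
    have h2 := (hB y (mem_closedBall_zero_iff.2 (by linarith))).trans (Real.le_coe_toNNReal B)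
    rw [dist_zero_left, NNReal.coe_add]
    linarith only [h2, h1, K.2, B.toNNReal.2, mul_nonneg_of_nonpos_of_nonpos (Mathlib.Tactic.Linarith.sub_nonpos_of_le (NNReal.coe_nonneg B.toNNReal)) (Mathlib.Tactic.Linarith.sub_nonpos_of_le h1), mul_nonneg_of_nonpos_of_nonpos (Mathlib.Tactic.Linarith.sub_nonpos_of_le (NNReal.coe_nonneg K)) (Mathlib.Tactic.Linarith.sub_nonpos_of_le h1)]
  refine ⟨K + B.toNNReal, LipschitzWith.of_dist_le_mul fun x y => ?_⟩
  by_cases hx : x ∈ closedBall (0 : ℂ) (R + 1)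
  · by_cases hy : y ∈ closedBall (0 : ℂ) (R + 1)
    · exact (hK.weaken le_self_add).dist_le_mul x hx y hy
    · rw [dist_comm, dist_comm x]
      exact key y x hy
  · exact key x y hx

theorem LL.ae_diff (h : LL O f) : ∀ᵐ z, z ∈ O → DifferentiableAt ℝ f z := by
  refine measure_null_of_locally_null _ fun x hx => ?_
  obtain ⟨K, t, ht, k⟩ := h x (Classical.not_imp.1 hx).1
  refine ⟨_, ?_, (k.mono interior_subset).ae_differentiableWithinAt_of_mem⟩
  filter_upwards [self_mem_nhdsWithin, mem_nhdsWithin_of_mem_nhds (interior_mem_nhds.2 ht)]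
    with y h1 h2 h3
  exact h1 fun _ => (h3 h2).differentiableAt (isOpen_interior.mem_nhds h2)

theorem measurable_gr (f : ℂ → ℝ) : Measurable (gr f) := by
  exact Complex.measurableEquivRealProd.symm.measurable.comp
    ((measurable_fderiv_apply_const ℝ f 1).prodMk (measurable_fderiv_apply_const ℝ f Complex.I))

theorem fderiv_eq_dot (f : ℂ → ℝ) (z v : ℂ) : fderiv ℝ f z v = dot (gr f z) v := by
  have e : v = v.re • (1 : ℂ) + v.im • Complex.I := by simp
  conv_lhs => rw [e, map_add, map_smul, map_smul]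
  simp only [dot, gr, smul_eq_mul, mul_comm]

theorem dot_comm (a b : ℂ) : dot a b = dot b a := by
  simp only [dot, mul_comm]

theorem dot_self (a : ℂ) : dot a a = ‖a‖ ^ 2 := by
  rw [Complex.sq_norm, Complex.normSq_apply, dot]

theorem abs_dot_le (a b : ℂ) : |dot a b| ≤ ‖a‖ * ‖b‖ := by
  refine abs_le_of_sq_le_sq ?_ (by positivity)
  rw [mul_pow, ← dot_self, ← dot_self, dot, dot, dot]
  linarith only [sq_nonneg (a.re * b.im - a.im * b.re), sq_nonneg (a.re * b.im - a.im * b.re)]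

theorem dot_mul (c a b : ℂ) : dot (c * a) (c * b) = ‖c‖ ^ 2 * dot a b := by
  rw [← dot_self]
  simp only [dot, Complex.mul_re, Complex.mul_im]
  ring

theorem gr_congr (h : f =ᶠ[𝓝 z] g) : gr f z = gr g z := by
  rw [gr, gr, h.fderiv_eq]

theorem B1_zero (h : fderiv ℝ f z = 0) : gr f z = 0 := by
  rw [gr, h]
  rfl

theorem B1_min (h : f z = 0) : gr (fun z => max 0 (f z)) z = 0 :=
  B1_zero (IsLocalMin.fderiv_eq_zero (Eventually.of_forall fun w => by
    simp only [h, max_self, le_max_left]))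

theorem B1_pos (h : ContinuousAt f z) :
    gr (fun z => max 0 (f z)) z = if 0 < f z then gr f z else 0 := by
  rcases lt_trichotomy 0 (f z) with k | k | k
  · rw [if_pos k]
    exact gr_congr ((continuousAt_const.eventually_lt h k).mono fun w hw => max_eq_right hw.le)
  · rw [if_neg k.ge.not_gt, B1_min k.symm]
  · rw [if_neg k.not_gt]
    exact B1_zero ((EventuallyEq.fderiv_eq ((h.eventually_lt continuousAt_const k).mono
      fun w hw => max_eq_left hw.le)).trans (hasFDerivAt_const (0 : ℝ) z).fderiv)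

theorem B1_gr {A : ℂ → ℂ} (hA : DifferentiableAt ℂ A z) (hf : DifferentiableAt ℝ f (A z)) :
    gr (fun z => f (A z)) z = starRingEnd ℂ (deriv A z) * gr f (A z) := by
  have e : ∀ v, fderiv ℝ (fun z => f (A z)) z v = dot (gr f (A z)) (v * deriv A z) := fun v => by
    rw [← fderiv_eq_dot]
    exact congrArg (fun L : ℂ →L[ℝ] ℝ => L v)
      (hf.hasFDerivAt.comp z (hA.hasDerivAt.hasFDerivAt.restrictScalars ℝ)).fderiv
  rw [gr, e, e]
  refine Complex.ext ?_ ?_ <;> simp [dot] <;> ring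

theorem gr_const (c : ℝ) (z : ℂ) : gr (fun _ => c) z = 0 := by
  exact B1_zero (hasFDerivAt_const c z).fderiv

theorem gr_add (hf : DifferentiableAt ℝ f z) (hg : DifferentiableAt ℝ g z) :
    gr (fun z => f z + g z) z = gr f z + gr g z := by
  simp only [gr, fderiv_fun_add hf hg]
  rfl

theorem gr_sub (hf : DifferentiableAt ℝ f z) (hg : DifferentiableAt ℝ g z) :
    gr (fun z => f z - g z) z = gr f z - gr g z := by
  simp only [gr, fderiv_fun_sub hf hg]
  rfl

theorem gr_mul (c : ℝ) (f : ℂ → ℝ) (z : ℂ) : gr (fun z => c * f z) z = (c : ℂ) * gr f z := by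
  have e : fderiv ℝ (fun z => c * f z) z = c • fderiv ℝ f z :=
    congrFun (fderiv_const_smul_field (𝕜 := ℝ) (f := f) c) z
  refine Complex.ext ?_ ?_ <;> simp [gr, e]

theorem gr_re {A : ℂ → ℂ} (hA : DifferentiableAt ℂ A z) :
    gr (fun z => (A z).re) z = starRingEnd ℂ (deriv A z) := by
  rw [B1_gr hA Complex.reCLM.differentiableAt (f := fun z => z.re)]
  have e : fderiv ℝ (fun z : ℂ => z.re) (A z) = Complex.reCLM := Complex.reCLM.fderiv
  refine Complex.ext ?_ ?_ <;> simp [gr, e]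

theorem gr_comp {A : ℂ → ℂ} (hA : DifferentiableAt ℂ A z) (hf : DifferentiableAt ℝ f (A z)) :
    gr (fun z => f (A z)) z = starRingEnd ℂ (deriv A z) * gr f (A z) := by
  exact B1_gr hA hf

theorem gr_comp_zero {A : ℂ → ℂ} (hA : DifferentiableAt ℂ A z) (h0 : deriv A z = 0)
    (hf : LL {A z} f) : gr (fun z => f (A z)) z = 0 := by
  obtain ⟨K, t, ht, k⟩ := hf _ rfl
  have h1 := hasDerivAt_iff_isLittleO.1 hA.hasDerivAt
  simp only [h0, smul_zero, sub_zero] at h1
  refine B1_zero (HasFDerivAt.fderiv (hasFDerivAt_iff_isLittleO.2 ?_))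
  simp only [zero_apply, sub_zero]
  refine (Asymptotics.IsBigO.of_bound K ?_).trans_isLittleO h1
  filter_upwards [hA.continuousAt ht] with w hw using k.norm_sub_le hw (mem_of_mem_nhds ht)

theorem norm_gr_le {K : ℝ≥0} {t : Set ℂ} (h : LipschitzOnWith K f t) (ht : t ∈ 𝓝 z) :
    ‖gr f z‖ ≤ K := by
  have h1 := ((fderiv ℝ f z).le_opNorm (gr f z)).trans
    (mul_le_mul_of_nonneg_right (norm_fderiv_le_of_lipschitzOn ℝ ht h) (norm_nonneg _))
  rw [fderiv_eq_dot, dot_self, norm_pow, norm_norm, sq] at h1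
  rcases (norm_nonneg (gr f z)).eq_or_lt with e | e
  · exact e ▸ K.2
  · exact le_of_mul_le_mul_right h1 e

theorem LL.gr_level (h : LL O f) (c : ℝ) : ∀ᵐ z, z ∈ O → f z = c → gr f z = 0 := by
  filter_upwards [((LL.const O 0).max (h.sub (LL.const O c))).ae_diff,
    ((LL.const O 0).max ((LL.const O c).sub h)).ae_diff] with z h1 h2 hz e
  have e1 : f = fun z => (Max.max 0 (f z - c) - Max.max 0 (c - f z)) + c := funext fun w => by
    rcases le_total (f w) c with k | k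
    · rw [max_eq_left (sub_nonpos.2 k), max_eq_right (sub_nonneg.2 k)]
      ring
    · rw [max_eq_right (sub_nonneg.2 k), max_eq_left (sub_nonpos.2 k)]
      ring
  rw [e1, gr_add ((h1 hz).fun_sub (h2 hz)) (differentiableAt_const c), gr_sub (h1 hz) (h2 hz),
    gr_const, B1_min (sub_eq_zero.2 e), B1_min (sub_eq_zero.2 e.symm), sub_self, add_zero]

theorem LL.gr_pos (h : LL O f) :
    ∀ᵐ z, z ∈ O → gr (fun z => Max.max 0 (f z)) z = if 0 < f z then gr f z else 0 := by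
  exact Eventually.of_forall fun z hz => B1_pos (h.continuousAt hz)

theorem LL.gr_tr (h : LL O f) {ε : ℝ} (hε : 0 ≤ ε) :
    ∀ᵐ z, z ∈ O → gr (fun z => tr ε (f z)) z = if ε < |f z| then gr f z else 0 := by
  have a1 := h.sub (LL.const O ε)
  have a2 : LL O fun z => -f z - ε := (h.lip_comp LipschitzWith.id.neg).sub (LL.const O ε)
  filter_upwards [((LL.const O 0).max a1).ae_diff, ((LL.const O 0).max a2).ae_diff] with z h1 h2 hz
  have e1 : gr (fun z => f z - ε) z = gr f z := by simp only [gr, fderiv_sub_const]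
  have e2 : gr (fun z => -f z - ε) z = -gr f z := by
    simp only [gr, fderiv_sub_const, fderiv_fun_neg]
    rfl
  simp only [tr]
  rw [gr_sub (h1 hz) (h2 hz), B1_pos (a1.continuousAt hz), B1_pos (a2.continuousAt hz), e1, e2]
  by_cases k : 0 < f z - ε
  · rw [if_pos k, if_neg (by linarith only [hε, k]), if_pos (lt_abs.2 (Or.inl (by linarith))), sub_zero]
  by_cases k' : 0 < -f z - ε
  · rw [if_neg k, if_pos k', if_pos (lt_abs.2 (Or.inr (by linarith only [k']))), zero_sub, neg_neg]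
  · rw [if_neg k, if_neg k', if_neg (not_lt.2 (abs_le.2 ⟨by linarith, by linarith⟩)), sub_self]

theorem LL.gr_min (hf : LL O f) (hg : LL O g) : ∀ᵐ z, z ∈ O →
    gr (fun z => Min.min (f z) (g z)) z = gr f z ∨ gr (fun z => Min.min (f z) (g z)) z = gr g z := by
  filter_upwards [hf.ae_diff, (hf.min hg).ae_diff] with z h1 h2 hz
  rcases lt_trichotomy (f z) (g z) with k | k | k
  · exact Or.inl (gr_congr (((hf.continuousAt hz).eventually_lt (hg.continuousAt hz) k).mono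
      fun w hw => min_eq_left hw.le))
  · refine Or.inl (sub_eq_zero.1 ((gr_sub (h1 hz) (h2 hz)).symm.trans (B1_zero
      (IsLocalMin.fderiv_eq_zero (Eventually.of_forall fun w => ?_))))).symm
    simp only [k, min_self, sub_self, sub_nonneg, min_le_left]
  · exact Or.inr (gr_congr (((hg.continuousAt hz).eventually_lt (hf.continuousAt hz) k).mono
      fun w hw => min_eq_right hw.le))

end Pool.Agent.Work.MP_042f46_an.Ty
end
end

-- merged part: Pool.Agent.Work.MP_042f46_an.T.B2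
section
/-!
# Energy, the space of functions of finite energy, conformal change of variables

Plans.  Almost everywhere statements pass to `volume.restrict O` with `ae_restrict_iff'`.  `En_add_le`: `‖a + b‖ ^ 2 ≤ 2 ‖a‖ ^ 2 + 2 ‖b‖ ^ 2`.  `integrable_dot`: `|dot a b| ≤ ‖a‖ ^ 2 + ‖b‖ ^ 2`, `integrable_toReal_of_lintegral_ne_top` or `hasFiniteIntegral_iff_enorm`.  `Ip_sq_le`: discriminant of `t ↦ Ip (f + t g) (f + t g)` (`discrim_le_zero`), or Hoelder.  `lint_mult`: as `X9_part`, `X9_mult` in `X9.lean`, with the weight `k` (`lintegral_image_eq_lintegral_abs_det_fderiv_mul`, compare `lintegral_univ_img` in `Area.lean`): cut `A` into countably many measurable pieces on which `g` is injective and a rest on which `deriv g = 0`.  `gr_comp_ae`: apply `lint_mult`-like pieces (or `lint_inj` on each piece) to the indicator of a measurable null set containing the points of `O'` where `f` is not differentiable; where `deriv g = 0` use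 `gr_comp_zero`.  `Ip_comp_eq`: `integral_image_eq_integral_abs_det_fderiv_smul`, `dot_mul`.  `tr_tend`: the gradient of `f - tr ε f` is that of `f` on `|f| ≤ ε` and zero elsewhere; dominated convergence (`tendsto_lintegral_filter_of_dominated_convergence`), `gr_level`.
-/

open Set Metric Topology Filter MeasureTheory
open scoped ENNReal NNReal

noncomputable section
namespace Pool.Agent.Work.MP_042f46_an.Ty

variable {O Ob O' A B : Set ℂ} {f f' : ℂ → ℝ} {g : ℂ → ℂ}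

theorem En_mono (h : A ⊆ B) (f : ℂ → ℝ) : En A f ≤ En B f := lintegral_mono_set h

theorem B2_le (hA : MeasurableSet A) (h : ∀ᵐ z, z ∈ A → ‖gr f z‖ ≤ ‖gr f' z‖) : En A f ≤ En A f' :=
  lintegral_mono_ae (((ae_restrict_iff' hA).2 h).mono fun _ hz =>
    pow_le_pow_left' (enorm_le_iff_norm_le.2 hz) 2)

theorem B2_sq (a : ℂ) : ‖a‖ₑ ^ 2 = ENNReal.ofReal (‖a‖ ^ 2) := by
  rw [← ofReal_norm, ENNReal.ofReal_pow (norm_nonneg a)]

theorem B2_meas (f : ℂ → ℝ) : Measurable fun z => ‖gr f z‖ₑ ^ 2 :=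
  (measurable_gr f).enorm.pow_const 2

theorem B2_dot_meas (f f' : ℂ → ℝ) : Measurable fun z => dot (gr f z) (gr f' z) :=
  ((Complex.measurable_re.comp (measurable_gr f)).mul
    (Complex.measurable_re.comp (measurable_gr f'))).add
    ((Complex.measurable_im.comp (measurable_gr f)).mul
      (Complex.measurable_im.comp (measurable_gr f')))

theorem B2_int (h : En A f ≠ ∞) : IntegrableOn (fun z => ‖gr f z‖ ^ 2) A := by
  refine ⟨((measurable_gr f).norm.pow_const 2).aestronglyMeasurable, ?_⟩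
  rw [hasFiniteIntegral_iff_ofReal (Eventually.of_forall fun z => sq_nonneg _)]
  simp only [← B2_sq]
  exact h.lt_top

theorem B2_dot_add (a b c : ℂ) : dot (a + b) c = dot a c + dot b c := by
  simp only [dot, Complex.add_re, Complex.add_im]
  ring

theorem B2_dot_sub (a b c : ℂ) : dot (a - b) c = dot a c - dot b c := by
  simp only [dot, Complex.sub_re, Complex.sub_im]
  ring

theorem B2_dot_smul (t : ℝ) (a b : ℂ) : dot ((t : ℂ) * a) b = t * dot a b := by
  simp only [dot, Complex.re_ofReal_mul, Complex.im_ofReal_mul]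
  ring

theorem En_congr (hO : IsOpen O) (h : EqOn f f' O) : En O f = En O f' := by
  exact setLIntegral_congr_fun hO.measurableSet fun z hz => by
    rw [gr_congr (h.eventuallyEq_of_mem (hO.mem_nhds hz))]

theorem Ip_congr (hO : IsOpen O) {k k' : ℂ → ℝ} (h : EqOn f f' O) (h' : EqOn k k' O) :
    Ip O f k = Ip O f' k' := by
  exact setIntegral_congr_fun hO.measurableSet fun z hz => by
    rw [gr_congr (h.eventuallyEq_of_mem (hO.mem_nhds hz)),
      gr_congr (h'.eventuallyEq_of_mem (hO.mem_nhds hz))]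

theorem Ip_comm (O : Set ℂ) (f f' : ℂ → ℝ) : Ip O f f' = Ip O f' f := by
  simp only [Ip, dot_comm (gr f _)]

theorem Ip_self (O : Set ℂ) (f : ℂ → ℝ) : Ip O f f = (En O f).toReal := by
  simp only [Ip, En, dot_self, B2_sq]
  exact integral_eq_lintegral_of_nonneg_ae (Eventually.of_forall fun z => sq_nonneg _)
    ((measurable_gr f).norm.pow_const 2).aestronglyMeasurable

theorem En_add_le (hO : IsOpen O) (h : LL O f) (h' : LL O f') :
    En O (fun z => f z + f' z) ≤ 2 * En O f + 2 * En O f' := by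
  rw [En, En, En, ← lintegral_const_mul _ (B2_meas f), ← lintegral_const_mul _ (B2_meas f'),
    ← lintegral_add_left ((B2_meas f).const_mul _)]
  refine lintegral_mono_ae ((ae_restrict_iff' hO.measurableSet).2 ?_)
  filter_upwards [h.ae_diff, h'.ae_diff] with z h1 h2 hz
  rw [gr_add (h1 hz) (h2 hz), B2_sq, B2_sq, B2_sq, ← ENNReal.ofReal_ofNat 2,
    ← ENNReal.ofReal_mul zero_le_two, ← ENNReal.ofReal_mul zero_le_two,
    ← ENNReal.ofReal_add (by positivity) (by positivity)]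
  refine ENNReal.ofReal_le_ofReal ?_
  have h3 := pow_le_pow_left₀ (norm_nonneg _) (norm_add_le (gr f z) (gr f' z)) 2
  linarith only [h3, sq_nonneg (‖gr f z‖ - ‖gr f' z‖), sq_nonneg (‖gr f z‖ - ‖gr f' z‖)]

theorem En_mul (O : Set ℂ) (c : ℝ) (f : ℂ → ℝ) :
    En O (fun z => c * f z) = ENNReal.ofReal (c ^ 2) * En O f := by
  rw [En, En, ← lintegral_const_mul _ (B2_meas f)]
  refine lintegral_congr fun z => ?_
  rw [gr_mul, B2_sq, B2_sq, ← ENNReal.ofReal_mul (sq_nonneg c), norm_mul, mul_pow, Complex.norm_real,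
    Real.norm_eq_abs, sq_abs]

theorem En_pos_le (hO : IsOpen O) (h : LL O f) : En O (fun z => max 0 (f z)) ≤ En O f := by
  refine B2_le hO.measurableSet (h.gr_pos.mono fun z hz hzO => ?_)
  rw [hz hzO]
  split_ifs
  · exact le_rfl
  · exact norm_zero.trans_le (norm_nonneg _)

theorem En_tr_le (hO : IsOpen O) (h : LL O f) {ε : ℝ} (hε : 0 ≤ ε) :
    En O (fun z => tr ε (f z)) ≤ En O f := by
  refine B2_le hO.measurableSet ((h.gr_tr hε).mono fun z hz hzO => ?_)
  rw [hz hzO]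
  split_ifs
  · exact le_rfl
  · exact norm_zero.trans_le (norm_nonneg _)

theorem En_min_le (hO : IsOpen O) (h : LL O f) (h' : LL O f') :
    En O (fun z => min (f z) (f' z)) ≤ En O f + En O f' := by
  rw [En, En, En, ← lintegral_add_left (B2_meas f)]
  refine lintegral_mono_ae ((ae_restrict_iff' hO.measurableSet).2 ?_)
  filter_upwards [h.gr_min h'] with z h1 hz
  rcases h1 hz with e | e
  · rw [e]
    exact le_self_add
  · rw [e]
    exact le_add_self

theorem En_le_of_bound (hB : MeasurableSet B) {K : ℝ} (h : ∀ z ∈ A, z ∈ B → ‖gr f z‖ ≤ K)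
    (h0 : ∀ z ∈ A, z ∉ B → gr f z = 0) (hA : MeasurableSet A) :
    En A f ≤ ENNReal.ofReal (K ^ 2) * volume B := by
  rw [← lintegral_indicator_const hB]
  refine le_trans (setLIntegral_mono' hA fun z hz => ?_) (setLIntegral_le_lintegral A _)
  by_cases hz' : z ∈ B
  · rw [indicator_of_mem hz', B2_sq]
    exact ENNReal.ofReal_le_ofReal (pow_le_pow_left₀ (norm_nonneg _) (h z hz hz') 2)
  · rw [h0 z hz hz']
    simp

theorem integrable_dot (h : En A f ≠ ∞) (h' : En A f' ≠ ∞) :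
    IntegrableOn (fun z => dot (gr f z) (gr f' z)) A := by
  refine Integrable.mono' ((B2_int h).add (B2_int h')) (B2_dot_meas f f').aestronglyMeasurable
    (Eventually.of_forall fun z => (abs_dot_le _ _).trans ?_)
  simp only [Pi.add_apply]
  linarith only [sq_nonneg (‖gr f z‖ - ‖gr f' z‖), norm_nonneg (gr f z), norm_nonneg (gr f' z), sq_nonneg (‖gr f z‖ - ‖gr f' z‖), sq_nonneg ‖gr f z‖, sq_nonneg ‖gr f' z‖]

theorem Ip_sq_le (h : En A f ≠ ∞) (h' : En A f' ≠ ∞) :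
    Ip A f f' ^ 2 ≤ (En A f).toReal * (En A f').toReal := by
  have i1 := integrable_dot h h
  have i2 := integrable_dot h h'
  have i3 := integrable_dot h' h'
  have key := discrim_le_zero (a := Ip A f f) (b := 2 * Ip A f f') (c := Ip A f' f') fun t => by
    have e : Ip A f f * (t * t) + 2 * Ip A f f' * t + Ip A f' f' =
        ∫ z in A, (dot (gr f z) (gr f z) * (t * t) + 2 * dot (gr f z) (gr f' z) * t +
          dot (gr f' z) (gr f' z)) := by
      have i4 : IntegrableOn (fun z => dot (gr f z) (gr f z) * (t * t) +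
          2 * dot (gr f z) (gr f' z) * t) A := (i1.mul_const _).add ((i2.const_mul _).mul_const _)
      rw [integral_add i4 i3, integral_add (i1.mul_const _) ((i2.const_mul _).mul_const _), integral_mul_const,
        integral_mul_const, integral_const_mul]
      rfl
    rw [e]
    refine integral_nonneg fun z => ?_
    simp only [dot, Pi.zero_apply]
    linarith only [sq_nonneg ((gr f z).re * t + (gr f' z).re), sq_nonneg ((gr f z).im * t + (gr f' z).im), sq_nonneg ((gr f z).im * t + (gr f' z).im), sq_nonneg ((gr f z).re * t + (gr f' z).re)]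
  rw [discrim, Ip_self, Ip_self] at key
  linarith only [key]

theorem Ip_add (hO : IsOpen O) {k : ℂ → ℝ} (h : LL O f) (h' : LL O f') (e : En O f ≠ ∞)
    (e' : En O f' ≠ ∞) (hk : En O k ≠ ∞) :
    Ip O (fun z => f z + f' z) k = Ip O f k + Ip O f' k := by
  rw [Ip, Ip, Ip, ← integral_add (integrable_dot e hk) (integrable_dot e' hk)]
  refine integral_congr_ae ((ae_restrict_iff' hO.measurableSet).2 ?_)
  filter_upwards [h.ae_diff, h'.ae_diff] with z h1 h2 hz
  rw [gr_add (h1 hz) (h2 hz), B2_dot_add]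

theorem Ip_sub (hO : IsOpen O) {k : ℂ → ℝ} (h : LL O f) (h' : LL O f') (e : En O f ≠ ∞)
    (e' : En O f' ≠ ∞) (hk : En O k ≠ ∞) :
    Ip O (fun z => f z - f' z) k = Ip O f k - Ip O f' k := by
  rw [Ip, Ip, Ip, ← integral_sub (integrable_dot e hk) (integrable_dot e' hk)]
  refine integral_congr_ae ((ae_restrict_iff' hO.measurableSet).2 ?_)
  filter_upwards [h.ae_diff, h'.ae_diff] with z h1 h2 hz
  rw [gr_sub (h1 hz) (h2 hz), B2_dot_sub]

theorem Ip_mul (O : Set ℂ) (c : ℝ) (f k : ℂ → ℝ) : Ip O (fun z => c * f z) k = c * Ip O f k := by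
  simp only [Ip, gr_mul, B2_dot_smul, integral_const_mul]

theorem Ip_restrict (hA : MeasurableSet A) (hB : MeasurableSet B) (hAB : A ⊆ B)
    (h : ∀ᵐ z, z ∈ B → z ∉ A → gr f z = 0) (f' : ℂ → ℝ) : Ip B f f' = Ip A f f' := by
  refine setIntegral_eq_of_subset_of_ae_sdiff_eq_zero hB.nullMeasurableSet hAB
    (h.mono fun z hz hz' => ?_)
  rw [hz hz'.1 hz'.2]
  simp [dot]

theorem IsV.add (hO : IsOpen O) (h : IsV O Ob f) (h' : IsV O Ob f') :
    IsV O Ob fun z => f z + f' z := by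
  exact ⟨h.cont.add h'.cont, h.lip.add h'.lip, ne_top_of_le_ne_top (ENNReal.add_ne_top.2
    ⟨ENNReal.mul_ne_top ENNReal.ofNat_ne_top h.fin, ENNReal.mul_ne_top ENNReal.ofNat_ne_top h'.fin⟩)
    (En_add_le hO h.lip h'.lip)⟩

theorem IsV.mul (c : ℝ) (h : IsV O Ob f) : IsV O Ob fun z => c * f z := by
  exact ⟨continuousOn_const.mul h.cont, (LL.const O c).mul h.lip,
    En_mul O c f ▸ ENNReal.mul_ne_top ENNReal.ofReal_ne_top h.fin⟩

theorem IsV.sub (hO : IsOpen O) (h : IsV O Ob f) (h' : IsV O Ob f') :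
    IsV O Ob fun z => f z - f' z := by
  have h1 := h.add hO (h'.mul (-1))
  simpa only [neg_mul, one_mul, ← sub_eq_add_neg] using h1

theorem IsV.pos (hO : IsOpen O) (h : IsV O Ob f) : IsV O Ob fun z => max 0 (f z) := by
  exact ⟨continuousOn_const.sup h.cont, (LL.const O 0).max h.lip,
    ne_top_of_le_ne_top h.fin (En_pos_le hO h.lip)⟩

theorem IsV.min (hO : IsOpen O) (h : IsV O Ob f) (h' : IsV O Ob f') :
    IsV O Ob fun z => min (f z) (f' z) := by
  exact ⟨h.cont.inf h'.cont, h.lip.min h'.lip,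
    ne_top_of_le_ne_top (ENNReal.add_ne_top.2 ⟨h.fin, h'.fin⟩) (En_min_le hO h.lip h'.lip)⟩

theorem LL.isV (hO : IsOpen O) (hOb : IsCompact Ob) (h : O ⊆ Ob) (hf : LL Ob f) : IsV O Ob f := by
  obtain ⟨K, hK⟩ := hf.lip_compact hOb
  refine ⟨fun z hz => (hf.continuousAt hz).continuousWithinAt, hf.mono h, ne_top_of_le_ne_top
    (ENNReal.mul_ne_top ENNReal.ofReal_ne_top ((measure_mono h).trans_lt hOb.measure_lt_top).ne)
    (En_le_of_bound (K := K) hO.measurableSet (fun z hz _ => norm_gr_le hK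
      (mem_of_superset (hO.mem_nhds hz) h)) (fun z hz hz' => (hz' hz).elim) hO.measurableSet)⟩

/-- the space of functions of finite energy -/
def VV (O Ob : Set ℂ) (hO : IsOpen O) : Submodule ℝ (ℂ → ℝ) where
  carrier := {f | IsV O Ob f}
  add_mem' := fun h h' => IsV.add hO h h'
  zero_mem' := ⟨continuousOn_const, LL.const O 0, by
    have : En O (0 : ℂ → ℝ) = 0 := by
      have e : ∀ z, gr (0 : ℂ → ℝ) z = 0 := gr_const 0
      simp [En, e]
    exact this ▸ ENNReal.zero_ne_top⟩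
  smul_mem' := fun c _ h => IsV.mul c h

/-- the Dirichlet form -/
def BV (O Ob : Set ℂ) (hO : IsOpen O) : VV O Ob hO →ₗ[ℝ] VV O Ob hO →ₗ[ℝ] ℝ :=
  LinearMap.mk₂ ℝ (fun f g => Ip O f.1 g.1)
    (fun f f' k => Ip_add hO f.2.lip f'.2.lip f.2.fin f'.2.fin k.2.fin)
    (fun c f k => Ip_mul O c f.1 k.1)
    (fun k f f' => by
      rw [Ip_comm, Ip_comm O k.1 f.1, Ip_comm O k.1 f'.1]
      exact Ip_add hO f.2.lip f'.2.lip f.2.fin f'.2.fin k.2.fin)
    (fun c k f => by
      rw [Ip_comm, Ip_comm O k.1 f.1]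
      exact Ip_mul O c f.1 k.1)

theorem BV_apply (hO : IsOpen O) (f g : VV O Ob hO) : BV O Ob hO f g = Ip O f.1 g.1 := rfl

end Pool.Agent.Work.MP_042f46_an.Ty
end
end

-- merged part: Pool.Agent.Work.MP_042f46_an.T.B4
section
/-!
# The Poisson integral

Plans.  `int_T`: `UnitAddCircle.intervalIntegral_preimage`, `Real.circleAverage_def`, `intervalIntegral.integral_comp_mul_left` (`circleMap 0 1 (2 π t) = e t`).  With it `Hol f w` is the circle average of `herglotzRieszKernel 0 w ζ • f (argT ζ)` and `Mathlib/Analysis/Complex/Poisson.lean` gives the derivative and `Hol_one` (`DiffContOnCl.circleAverage`, or `circleAverage_re_herglotzRieszKernel_smul` for the constant one).  The real part of the kernel is `(1 - ‖w‖ ^ 2) / ‖eT x - w‖ ^ 2 ≥ 0`.  `Hol_tend`: `re (Hol f w) - f x₀` is the integral of the kernel times `f x - f x₀`; split into `dist x x₀ < δ` (total mass of the kernel is one) and the rest, where `‖eT x - w‖ ≥ 2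 δ` for `w` near `eT x₀` (`chord_ge`) and the kernel is at most `(1 - ‖w‖ ^ 2) / (4 δ ^ 2)`.
-/

open Set Metric Topology Filter MeasureTheory
open scoped ENNReal NNReal

noncomputable section
namespace Pool.Agent.Work.MP_042f46_an.Ty

theorem B4_circ (t : ℝ) : circleMap 0 1 (2 * Real.pi * t) = eT (t : T) := by
  rw [eT_coe, e, circleMap_zero]
  push_cast
  rw [one_mul]
  congr 1
  ring

theorem B4_ne {w : ℂ} (hw : ‖w‖ < 1) (x : T) : eT x - w ≠ 0 := fun h => by
  rw [← sub_eq_zero.1 h, norm_eT] at hw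
  exact lt_irrefl _ hw

theorem B4_int {E : Type} [NormedAddCommGroup E] {g : T → E} (hg : Continuous g) :
    Integrable g :=
  hg.integrable_of_hasCompactSupport (HasCompactSupport.of_compactSpace _)

theorem B4_intH {f : T → ℝ} (hf : Continuous f) {w : ℂ} (hw : ‖w‖ < 1) :
    Integrable fun x : T => (eT x + w) / (eT x - w) * (f x : ℂ) :=
  B4_int (((continuous_eT.add continuous_const).div (continuous_eT.sub continuous_const)
    (B4_ne hw)).mul (Complex.continuous_ofReal.comp hf))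

theorem B4_contP {w : ℂ} (hw : ‖w‖ < 1) :
    Continuous fun x : T => (1 - ‖w‖ ^ 2) / ‖eT x - w‖ ^ 2 :=
  continuous_const.div ((continuous_eT.sub continuous_const).norm.pow 2)
    fun x => pow_ne_zero _ (norm_ne_zero_iff.2 (B4_ne hw x))

theorem B4_num {w : ℂ} (hw : ‖w‖ < 1) : 0 ≤ 1 - ‖w‖ ^ 2 := by
  linarith only [hw, norm_nonneg w, mul_nonneg_of_nonpos_of_nonpos (le_of_lt (Mathlib.Tactic.Linarith.sub_neg_of_lt hw)) (Mathlib.Tactic.Linarith.sub_nonpos_of_le (norm_nonneg w))]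

theorem int_T (G : ℂ → ℂ) : ∫ x : T, G (eT x) = Real.circleAverage G 0 1 := by
  have k := intervalIntegral.integral_comp_mul_left (fun θ => G (circleMap 0 1 θ)) (a := 0)
    (b := 1) (c := 2 * Real.pi) Real.two_pi_pos.ne'
  simp only [mul_zero, mul_one, B4_circ] at k
  rw [← UnitAddCircle.intervalIntegral_preimage 0, Real.circleAverage_def, zero_add, k]

theorem int_hol {G : ℂ → ℂ} (hG : DiffContOnCl ℂ G (ball 0 1)) : ∫ x : T, G (eT x) = G 0 := by
  rw [int_T]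
  exact DiffContOnCl.circleAverage (by rwa [abs_one])

theorem Hol_deriv {f : T → ℝ} (hf : Continuous f) {w : ℂ} (hw : ‖w‖ < 1) :
    HasDerivAt (Hol f) (∫ x : T, 2 * eT x / (eT x - w) ^ 2 * (f x : ℂ)) w := by
  have hc : CircleIntegrable (fun ζ => (f (argT ζ) : ℂ)) 0 1 := by
    have e1 : (fun θ : ℝ => (f (argT (circleMap 0 1 θ)) : ℂ)) =
        fun θ : ℝ => (f ((θ / (2 * Real.pi) : ℝ) : T) : ℂ) := by
      funext θ
      rw [← argT_eT ((θ / (2 * Real.pi) : ℝ) : T), ← B4_circ,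
        mul_div_cancel₀ _ Real.two_pi_pos.ne']
    rw [circleIntegrable_def, e1]
    exact (Complex.continuous_ofReal.comp (hf.comp (continuous_coeT.comp
      (continuous_id.div_const _)))).intervalIntegrable _ _
  have k := hasDerivAt_circleAverage_herglotzRieszKernel_smul hc (mem_ball_zero_iff.2 hw)
  simp only [← int_T, argT_eT, herglotzRieszKernel_def, sub_zero, smul_eq_mul] at k
  exact k

theorem Hol_diff {f : T → ℝ} (hf : Continuous f) : DifferentiableOn ℂ (Hol f) (ball 0 1) :=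
  fun _ hw => (Hol_deriv hf (mem_ball_zero_iff.1 hw)).differentiableAt.differentiableWithinAt

theorem Hol_add {f g : T → ℝ} (hf : Continuous f) (hg : Continuous g) {w : ℂ} (hw : ‖w‖ < 1) :
    Hol (fun x => f x + g x) w = Hol f w + Hol g w := by
  simp only [Hol, Complex.ofReal_add, mul_add]
  exact integral_add (B4_intH hf hw) (B4_intH hg hw)

theorem Hol_mul (c : ℝ) (f : T → ℝ) (w : ℂ) : Hol (fun x => c * f x) w = c * Hol f w := by
  simp only [Hol, Complex.ofReal_mul, mul_left_comm _ (c : ℂ)]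
  exact integral_const_mul _ _

theorem Hol_re {f : T → ℝ} (hf : Continuous f) {w : ℂ} (hw : ‖w‖ < 1) :
    (Hol f w).re = ∫ x : T, (1 - ‖w‖ ^ 2) / ‖eT x - w‖ ^ 2 * f x := by
  refine (Complex.reCLM.integral_comp_comm (B4_intH hf hw)).symm.trans
    (integral_congr_ae (.of_forall fun x => ?_))
  have k := congrFun (poissonKernel_eq_re_herglotzRieszKernel (c := 0) (w := w)) (eT x)
  simp only [poissonKernel_def, herglotzRieszKernel_def, Function.comp_apply, sub_zero, norm_eT,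
    one_pow] at k
  simp only [Complex.reCLM_apply, Complex.re_mul_ofReal, k]

theorem Hol_one {w : ℂ} (hw : ‖w‖ < 1) : ∫ x : T, (1 - ‖w‖ ^ 2) / ‖eT x - w‖ ^ 2 = 1 := by
  have k := (diffContOnCl_const (𝕜 := ℂ) (c := (1 : ℂ))).circleAverage_poissonKernel_smul'
    (mem_ball_zero_iff.2 hw)
  simp only [← int_T, sub_zero, norm_eT, one_pow, Complex.real_smul, mul_one,
    integral_complex_ofReal] at k
  exact_mod_cast k

theorem Hol_nonneg {f : T → ℝ} (hf : Continuous f) (h : ∀ x, 0 ≤ f x) {w : ℂ} (hw : ‖w‖ < 1) :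
    0 ≤ (Hol f w).re := by
  rw [Hol_re hf hw]
  exact integral_nonneg fun x => mul_nonneg (div_nonneg (B4_num hw) (sq_nonneg _)) (h x)

theorem Hol_tend {f : T → ℝ} (hf : Continuous f) (x : T) :
    Tendsto (fun w => (Hol f w).re) (𝓝[ball 0 1] (eT x)) (𝓝 (f x)) := by
  refine Metric.tendsto_nhds.2 fun ε hε => ?_
  obtain ⟨δ, hδ, hd⟩ := Metric.continuousAt_iff.1 (hf.continuousAt (x := x)) (ε / 2) (half_pos hε)
  obtain ⟨M, hM⟩ := isCompact_univ.exists_bound_of_continuousOn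
    (hf.sub (continuous_const (y := f x))).continuousOn
  have M0 : 0 ≤ M := (norm_nonneg _).trans (hM x trivial)
  have t1 : ∀ᶠ w in 𝓝 (eT x), (1 - ‖w‖ ^ 2) / (2 * δ) ^ 2 * M < ε / 2 := by
    have c : Continuous fun w : ℂ => (1 - ‖w‖ ^ 2) / (2 * δ) ^ 2 * M := by fun_prop
    refine (c.tendsto _).eventually_lt_const ?_
    rw [norm_eT, one_pow, sub_self, zero_div, zero_mul]
    exact half_pos hε
  filter_upwards [self_mem_nhdsWithin, mem_nhdsWithin_of_mem_nhds t1,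
    mem_nhdsWithin_of_mem_nhds (ball_mem_nhds (eT x) (by positivity : 0 < 2 * δ))] with w h1 h2 h3
  have hw := mem_ball_zero_iff.1 h1
  have cP := B4_contP hw
  have n0 := B4_num hw
  have e1 : (Hol f w).re - f x = ∫ y : T, (1 - ‖w‖ ^ 2) / ‖eT y - w‖ ^ 2 * (f y - f x) := by
    simp only [mul_sub]
    rw [integral_sub (B4_int (cP.fun_mul hf)) (B4_int (cP.fun_mul continuous_const)), ← Hol_re hf hw,
      integral_mul_const, Hol_one hw, one_mul]
  have e2 : ∫ y : T, ((1 - ‖w‖ ^ 2) / ‖eT y - w‖ ^ 2 * (ε / 2) +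
      (1 - ‖w‖ ^ 2) / (2 * δ) ^ 2 * M) = ε / 2 + (1 - ‖w‖ ^ 2) / (2 * δ) ^ 2 * M := by
    rw [integral_add (B4_int (cP.fun_mul continuous_const)) (integrable_const _),
      integral_mul_const, Hol_one hw, one_mul, integral_const, measureReal_def,
      UnitAddCircle.measure_univ, ENNReal.toReal_one, one_smul]
  rw [dist_eq_norm, e1]
  refine lt_of_le_of_lt (norm_integral_le_of_norm_le
    (B4_int ((cP.fun_mul continuous_const).fun_add continuous_const)) (.of_forall fun y => ?_))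
    (e2.trans_lt (by linarith only [h2]))
  have p0 : 0 ≤ (1 - ‖w‖ ^ 2) / ‖eT y - w‖ ^ 2 := div_nonneg n0 (sq_nonneg _)
  rw [norm_mul, Real.norm_of_nonneg p0]
  rcases lt_or_ge (dist y x) δ with hy | hy
  · have k := (hd hy).le
    rw [dist_eq_norm] at k
    exact (mul_le_mul_of_nonneg_left k p0).trans (le_add_of_nonneg_right (by positivity))
  · have k1 : 2 * δ ≤ ‖eT y - w‖ := by
      have a := chord_ge y x
      have b := norm_sub_le_norm_sub_add_norm_sub (eT y) w (eT x)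
      rw [mem_ball, dist_eq_norm] at h3
      linarith only [h3, hy, a, b]
    refine le_trans ?_ (le_add_of_nonneg_left (mul_nonneg p0 (half_pos hε).le))
    exact mul_le_mul (by gcongr) (hM y trivial) (norm_nonneg _) (by positivity)

end Pool.Agent.Work.MP_042f46_an.Ty
end
end

-- merged part: Pool.Agent.Work.MP_042f46_an.T.BA
section
/-!
# The Douglas formula

Plans.  Write `κ z = z / (1 - z) ^ 2`.  `bergman`: polar coordinates (`Complex.integral_comp_polarCoord_symm`, or average over rotations); on the circle `‖w‖ = t` one has `conj w = t ^ 2 / w`, so the mean value of `1 / ((1 - w a) ^ 2 (1 - conj w b) ^ 2)` is `(2 π I)⁻¹ ∮ w G w / (w - t ^ 2 b) ^ 2` with `G w = 1 / (1 - w a) ^ 2`, that is the derivative of `w G w` at `t ^ 2 b` (Cauchy formula for the derivative), equal to `(1 + t ^ 2 a b) / (1 - t ^ 2 a b) ^ 3`; the integral of `2 π t` times this over `(0, s)` is `π s ^ 2 / (1 - s ^ 2 a b) ^ 2`.  (Expanding both factors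 in power series and using orthogonality of the powers is also possible.)
`douglas_s`: `‖deriv (Hol f) w‖ ^ 2` is a double integral over the circle (`Hol_deriv`, `integral_conj`, `integral_prod_mul`), with `eT x / (eT x - w) ^ 2 = conj (eT x) / (1 - w conj (eT x)) ^ 2`; Fubini and `bergman` give `4 π ∬ f x f y re (κ (s ^ 2 conj (eT x) eT y))`; the kernel is symmetric and has integral zero in each variable (`int_hol`), and `f x f y = (f x ^ 2 + f y ^ 2 - (f x - f y) ^ 2) / 2`.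
`douglas`: `‖κ (σ z)‖ ≤ 1 / ‖1 - z‖ ^ 2` for `‖z‖ = 1`, `0 ≤ σ ≤ 1` (since `‖1 - σ z‖ ^ 2 = (1 - σ) ^ 2 + σ ‖1 - z‖ ^ 2`), `κ z = -1 / ‖1 - z‖ ^ 2`, and `(f x - f y) ^ 2 / ‖eT x - eT y‖ ^ 2` is bounded (`chord_ge`); dominated convergence on the right (on the diagonal the integrand is zero), monotone convergence on the left along `s n = 1 - 1 / (n + 2)`; `gr_re`, `lintegral_withDensity_eq_lintegral_mul`.
-/

open Set Metric Topology Filter MeasureTheory
open scoped ENNReal NNReal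

noncomputable section
namespace Pool.Agent.Work.MP_042f46_an.Ty

theorem BA_ne {a w : ℂ} (ha : ‖a‖ = 1) (hw : ‖w‖ < 1) : 1 - w * a ≠ 0 := by
  intro h
  have h2 : w * a = 1 := by linear_combination -h
  have h3 := congrArg norm h2
  rw [norm_mul, ha, norm_one, mul_one] at h3
  exact hw.ne h3

theorem BA_circ {a b : ℂ} (ha : ‖a‖ = 1) (hb : ‖b‖ = 1) {t : ℝ} (h0 : 0 < t) (h1 : t < 1) :
    ∫ θ in Ioo (-Real.pi) Real.pi, 1 / ((1 - circleMap 0 t θ * a) ^ 2 *
        (1 - starRingEnd ℂ (circleMap 0 t θ) * b) ^ 2) =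
      2 * Real.pi * ((1 + t ^ 2 * a * b) / (1 - t ^ 2 * a * b) ^ 3) := by
  have hc : ((t : ℂ) ^ 2 * b) ∈ ball (0 : ℂ) t := by
    rw [mem_ball_zero_iff, norm_mul, hb, mul_one, norm_pow, Complex.norm_real, Real.norm_eq_abs,
      abs_of_pos h0]
    linarith only [h0, h1, mul_pos_of_neg_of_neg (Mathlib.Tactic.Linarith.sub_neg_of_lt h0) (Mathlib.Tactic.Linarith.sub_neg_of_lt h1)]
  have hd : DifferentiableOn ℂ (fun w : ℂ => w / (1 - w * a) ^ 2) (ball 0 1) := by
    intro w hw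
    have := BA_ne ha (mem_ball_zero_iff.1 hw)
    have h2 : DifferentiableAt ℂ (fun w : ℂ => (1 - w * a) ^ 2) w := by fun_prop
    exact (differentiableAt_id.div h2 (pow_ne_zero 2 this)).differentiableWithinAt
  have key := Complex.two_pi_I_inv_smul_circleIntegral_sub_sq_inv_smul_of_differentiable
    isOpen_ball (closedBall_subset_ball h1) hd hc
  have hne : 1 - (t : ℂ) ^ 2 * b * a ≠ 0 :=
    BA_ne ha ((mem_ball_zero_iff.1 hc).trans h1)
  have hder : deriv (fun w : ℂ => w / (1 - w * a) ^ 2) ((t : ℂ) ^ 2 * b) =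
      (1 + t ^ 2 * a * b) / (1 - t ^ 2 * a * b) ^ 3 := by
    have h2 : HasDerivAt (fun w : ℂ => (1 - w * a) ^ 2)
        (2 * (1 - (t : ℂ) ^ 2 * b * a) * (-a)) ((t : ℂ) ^ 2 * b) := by
      have h3 : HasDerivAt (fun w : ℂ => 1 - w * a) (-a) ((t : ℂ) ^ 2 * b) := by
        simpa using ((hasDerivAt_id ((t : ℂ) ^ 2 * b)).mul_const a).const_sub 1
      simpa using h3.fun_pow 2
    have h4 := (hasDerivAt_id ((t : ℂ) ^ 2 * b)).div h2 (pow_ne_zero 2 hne)
    have h5 : (1 : ℂ) - t ^ 2 * a * b = 1 - t ^ 2 * b * a := by ring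
    rw [h5]
    refine h4.deriv.trans ?_
    simp only [id]
    field_simp
    ring
  rw [hder] at key
  have hper : Function.Periodic (fun θ : ℝ => 1 / ((1 - circleMap 0 t θ * a) ^ 2 *
      (1 - starRingEnd ℂ (circleMap 0 t θ) * b) ^ 2)) (2 * Real.pi) := by
    intro θ
    simp only [periodic_circleMap 0 t θ]
  have hI := hper.intervalIntegral_add_eq (-Real.pi) 0
  rw [show -Real.pi + 2 * Real.pi = Real.pi by ring, zero_add] at hI
  rw [← integral_Ioc_eq_integral_Ioo,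
    ← intervalIntegral.integral_of_le (by linarith only [Real.pi_pos]), hI, ← key, circleIntegral,
    smul_eq_mul]
  have hpi : (Real.pi : ℂ) ≠ 0 := by exact_mod_cast Real.pi_ne_zero
  rw [show ∀ X : ℂ, 2 * (Real.pi : ℂ) * ((2 * Real.pi * Complex.I)⁻¹ * X) = (-Complex.I) * X by
    intro X; field_simp; rw [Complex.I_sq]; ring, ← intervalIntegral.integral_const_mul]
  refine intervalIntegral.integral_congr fun θ _ => ?_
  simp only [deriv_circleMap, smul_eq_mul]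
  set w := circleMap 0 t θ with hw
  have hn : ‖w‖ = t := by rw [hw, norm_circleMap_zero, abs_of_pos h0]
  have hw0 : w ≠ 0 := by
    intro h
    rw [h, norm_zero] at hn
    exact h0.ne hn
  have hcj : starRingEnd ℂ w = (t : ℂ) ^ 2 / w := by
    rw [eq_div_iff hw0, mul_comm, Complex.mul_conj, Complex.normSq_eq_norm_sq, hn]
    push_cast
    ring
  have h6 : w - (t : ℂ) ^ 2 * b ≠ 0 := by
    intro h
    have h7 : w = (t : ℂ) ^ 2 * b := by linear_combination h
    have h8 := mem_ball_zero_iff.1 hc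
    rw [← h7, hn] at h8
    exact lt_irrefl _ h8
  have h9 : 1 - w * a ≠ 0 := BA_ne ha (hn ▸ h1)
  have h10 : 1 - (t : ℂ) ^ 2 / w * b = (w - t ^ 2 * b) / w := by field_simp
  rw [hcj, h10]
  field_simp
  rw [Complex.I_sq]
  ring

theorem bergman {a b : ℂ} (ha : ‖a‖ = 1) (hb : ‖b‖ = 1) {s : ℝ} (h0 : 0 < s) (h1 : s < 1) :
    ∫ w in ball (0 : ℂ) s, 1 / ((1 - w * a) ^ 2 * (1 - starRingEnd ℂ w * b) ^ 2) =
      Real.pi * s ^ 2 / (1 - s ^ 2 * a * b) ^ 2 := by
  set F : ℂ → ℂ := fun w => 1 / ((1 - w * a) ^ 2 * (1 - starRingEnd ℂ w * b) ^ 2) with hF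
  have hsym : ∀ p : ℝ × ℝ, Complex.polarCoord.symm p = circleMap 0 p.1 p.2 := by
    intro p
    rw [Complex.polarCoord_symm_apply, circleMap, zero_add, Complex.exp_mul_I]
    push_cast
    ring
  have hm : MeasurableSet (Ioo (0 : ℝ) s ×ˢ Ioo (-Real.pi) Real.pi) :=
    measurableSet_Ioo.prod measurableSet_Ioo
  have e1 : ∫ w in ball (0 : ℂ) s, F w =
      ∫ p in Ioo (0 : ℝ) s ×ˢ Ioo (-Real.pi) Real.pi, (p.1 : ℂ) * F (circleMap 0 p.1 p.2) := by
    rw [← integral_indicator measurableSet_ball, ← Complex.integral_comp_polarCoord_symm,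
      ← integral_indicator hm, ← integral_indicator polarCoord.open_target.measurableSet]
    congr 1
    funext p
    by_cases hp : p ∈ Ioo (0 : ℝ) s ×ˢ Ioo (-Real.pi) Real.pi
    · have hp2 : p ∈ polarCoord.target := ⟨hp.1.1, hp.2⟩
      have hp3 : circleMap 0 p.1 p.2 ∈ ball (0 : ℂ) s := by
        rw [mem_ball_zero_iff, norm_circleMap_zero, abs_of_pos hp.1.1]
        exact hp.1.2
      rw [indicator_of_mem hp, indicator_of_mem hp2, hsym, indicator_of_mem hp3, Complex.real_smul]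
    · rw [indicator_of_notMem hp]
      by_cases hp2 : p ∈ polarCoord.target
      · have hp3 : circleMap 0 p.1 p.2 ∉ ball (0 : ℂ) s := by
          rw [mem_ball_zero_iff, norm_circleMap_zero, abs_of_pos hp2.1]
          exact fun h => hp ⟨⟨hp2.1, h⟩, hp2.2⟩
        rw [indicator_of_mem hp2, hsym, indicator_of_notMem hp3, smul_zero]
      · rw [indicator_of_notMem hp2]
  have hcm : Continuous fun p : ℝ × ℝ => circleMap 0 p.1 p.2 := by
    unfold circleMap
    fun_prop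
  have hint : IntegrableOn (fun p : ℝ × ℝ => (p.1 : ℂ) * F (circleMap 0 p.1 p.2))
      (Ioo (0 : ℝ) s ×ˢ Ioo (-Real.pi) Real.pi) (volume.prod volume) := by
    have hK : IsCompact (Icc (0 : ℝ) s ×ˢ Icc (-Real.pi) Real.pi) := isCompact_Icc.prod isCompact_Icc
    refine (ContinuousOn.integrableOn_compact hK ?_).mono_set
      (prod_mono Ioo_subset_Icc_self Ioo_subset_Icc_self)
    refine ContinuousOn.mul (by fun_prop) ?_
    refine ContinuousOn.div continuousOn_const ?_ ?_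
    · refine Continuous.continuousOn ?_
      have := Complex.continuous_conj.comp hcm
      exact ((continuous_const.sub (hcm.mul continuous_const)).pow 2).mul
        ((continuous_const.sub (this.mul continuous_const)).pow 2)
    · intro p hp
      have hn : ‖circleMap 0 p.1 p.2‖ < 1 := by
        rw [norm_circleMap_zero, abs_of_nonneg hp.1.1]
        exact hp.1.2.trans_lt h1
      exact mul_ne_zero (pow_ne_zero 2 (BA_ne ha hn))
        (pow_ne_zero 2 (BA_ne hb (by rwa [Complex.norm_conj])))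
  rw [e1, Measure.volume_eq_prod, setIntegral_prod _ hint]
  have e2 : ∫ t in Ioo (0 : ℝ) s, ∫ θ in Ioo (-Real.pi) Real.pi,
      (t : ℂ) * F (circleMap 0 t θ) = ∫ t in Ioo (0 : ℝ) s,
      (t : ℂ) * (2 * Real.pi * ((1 + t ^ 2 * a * b) / (1 - t ^ 2 * a * b) ^ 3)) := by
    refine setIntegral_congr_fun measurableSet_Ioo fun t ht => ?_
    rw [integral_const_mul, hF, BA_circ ha hb ht.1 (ht.2.trans h1)]
  rw [e2, ← integral_Ioc_eq_integral_Ioo, ← intervalIntegral.integral_of_le h0.le]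
  have hne : ∀ t ∈ uIcc (0 : ℝ) s, 1 - (t : ℂ) ^ 2 * a * b ≠ 0 := by
    intro t ht
    rw [uIcc_of_le h0.le] at ht
    refine BA_ne hb ?_
    rw [norm_mul, ha, mul_one, norm_pow, Complex.norm_real, Real.norm_eq_abs, abs_of_nonneg ht.1]
    linarith only [h0, h1, ht, ht.1, ht.2, mul_pos_of_neg_of_neg (Mathlib.Tactic.Linarith.sub_neg_of_lt h0) (Mathlib.Tactic.Linarith.sub_neg_of_lt h1), mul_nonneg_of_nonpos_of_nonpos (le_of_lt (Mathlib.Tactic.Linarith.sub_neg_of_lt h0)) (Mathlib.Tactic.Linarith.sub_nonpos_of_le ht.right), mul_pos_of_neg_of_neg (Mathlib.Tactic.Linarith.sub_neg_of_lt h1) (Mathlib.Tactic.Linarith.sub_neg_of_lt h1), mul_nonneg_of_nonpos_of_nonpos (Mathlib.Tactic.Linarith.sub_nonpos_of_le ht.left) (Mathlib.Tactic.Linarith.sub_nonpos_of_le ht.right)]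
  rw [intervalIntegral.integral_eq_sub_of_hasDerivAt
    (f := fun t : ℝ => (Real.pi : ℂ) * t ^ 2 / (1 - t ^ 2 * a * b) ^ 2)]
  · simp
  · intro t ht
    have hz := hne t ht
    have h2 : HasDerivAt (fun w : ℂ => (Real.pi : ℂ) * w ^ 2 / (1 - w ^ 2 * a * b) ^ 2)
        ((t : ℂ) * (2 * Real.pi * ((1 + t ^ 2 * a * b) / (1 - t ^ 2 * a * b) ^ 3))) (t : ℂ) := by
      have h3 : HasDerivAt (fun w : ℂ => w ^ 2) (2 * (t : ℂ)) (t : ℂ) := by
        simpa using hasDerivAt_pow 2 (t : ℂ)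
      have h4 := (((h3.mul_const a).mul_const b).const_sub 1).fun_pow 2
      have h5 := (h3.const_mul (Real.pi : ℂ)).fun_div h4 (pow_ne_zero 2 hz)
      refine h5.congr_deriv ?_
      field_simp
      ring
    exact h2.comp_ofReal
  · refine ContinuousOn.intervalIntegrable ?_
    refine ContinuousOn.mul (by fun_prop) (ContinuousOn.mul continuousOn_const ?_)
    exact ContinuousOn.div (by fun_prop) (by fun_prop) fun t ht => pow_ne_zero 3 (hne t ht)

end Pool.Agent.Work.MP_042f46_an.Ty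
end
end

-- merged part: Pool.Agent.Work.MP_042f46_an.T.B5
section
/-!
# The Douglas formula

Plans.  Write `κ z = z / (1 - z) ^ 2`.  `bergman`: polar coordinates (`Complex.integral_comp_polarCoord_symm`, or average over rotations); on the circle `‖w‖ = t` one has `conj w = t ^ 2 / w`, so the mean value of `1 / ((1 - w a) ^ 2 (1 - conj w b) ^ 2)` is `(2 π I)⁻¹ ∮ w G w / (w - t ^ 2 b) ^ 2` with `G w = 1 / (1 - w a) ^ 2`, that is the derivative of `w G w` at `t ^ 2 b` (Cauchy formula for the derivative), equal to `(1 + t ^ 2 a b) / (1 - t ^ 2 a b) ^ 3`; the integral of `2 π t` times this over `(0, s)` is `π s ^ 2 / (1 - s ^ 2 a b) ^ 2`.  (Expanding both factors in power series and using orthogonality of the powers is also possible.)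
`douglas_s`: `‖deriv (Hol f) w‖ ^ 2` is a double integral over the circle (`Hol_deriv`, `integral_conj`, `integral_prod_mul`), with `eT x / (eT x - w) ^ 2 = conj (eT x) / (1 - w conj (eT x)) ^ 2`; Fubini and `bergman` give `4 π ∬ f x f y re (κ (s ^ 2 conj (eT x) eT y))`; the kernel is symmetric and has integral zero in each variable (`int_hol`), and `f x f y = (f x ^ 2 + f y ^ 2 - (f x - f y) ^ 2) / 2`.
`douglas`: `‖κ (σ z)‖ ≤ 1 / ‖1 - z‖ ^ 2` for `‖z‖ = 1`, `0 ≤ σ ≤ 1` (since `‖1 - σ z‖ ^ 2 = (1 - σ) ^ 2 + σ ‖1 - z‖ ^ 2`), `κ z = -1 / ‖1 - z‖ ^ 2`, and `(f x - f y) ^ 2 / ‖eT x - eT y‖ ^ 2` is bounded (`chord_ge`); dominated convergence on the right (on the diagonal the integrand is zero), monotone convergence on the left along `s n = 1 - 1 / (n + 2)`; `gr_re`, `lintegral_withDensity_eq_lintegral_mul`.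
-/

open Set Metric Topology Filter MeasureTheory
open scoped ENNReal NNReal

noncomputable section
namespace Pool.Agent.Work.MP_042f46_an.Ty

/-- the kernel -/
def B5_K (s : ℝ) (p : T × T) : ℂ := (s : ℂ) ^ 2 * starRingEnd ℂ (eT p.1) * eT p.2 /
  (1 - (s : ℂ) ^ 2 * starRingEnd ℂ (eT p.1) * eT p.2) ^ 2

theorem B5_ne {w a : ℂ} (hw : ‖w‖ < 1) (ha : ‖a‖ ≤ 1) : 1 - w * a ≠ 0 := fun h => by
  have h1 := congrArg norm (sub_eq_zero.1 h)
  rw [norm_one, norm_mul] at h1
  linarith only [hw, h1, ha, norm_nonneg w, norm_nonneg a, mul_nonneg_of_nonpos_of_nonpos (Mathlib.Tactic.Linarith.sub_nonpos_of_le ha) (Mathlib.Tactic.Linarith.sub_nonpos_of_le (norm_nonneg w))]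

theorem B5_conj (x : T) : ‖starRingEnd ℂ (eT x)‖ = 1 := by rw [RCLike.norm_conj, norm_eT]

theorem B5_mul (x : T) : eT x * starRingEnd ℂ (eT x) = 1 := by
  rw [Complex.mul_conj, Complex.normSq_eq_norm_sq, norm_eT]
  simp

theorem B5_s {s : ℝ} (h0 : 0 < s) (h1 : s < 1) (x : T) :
    ‖(s : ℂ) ^ 2 * starRingEnd ℂ (eT x)‖ < 1 := by
  rw [norm_mul, B5_conj, mul_one, norm_pow, Complex.norm_real, Real.norm_of_nonneg h0.le]
  exact pow_lt_one₀ h0.le h1 two_ne_zero

theorem B5_cont {s : ℝ} (h0 : 0 < s) (h1 : s < 1) : Continuous (B5_K s) := by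
  have c1 : Continuous fun p : T × T => (s : ℂ) ^ 2 * starRingEnd ℂ (eT p.1) * eT p.2 :=
    (continuous_const.mul (Complex.continuous_conj.comp (continuous_eT.comp continuous_fst))).mul
      (continuous_eT.comp continuous_snd)
  exact c1.div ((continuous_const.sub c1).pow 2) fun p =>
    pow_ne_zero 2 (B5_ne (B5_s h0 h1 _) (norm_eT _).le)

theorem B5_int {X E : Type} [TopologicalSpace X] [CompactSpace X] [MeasurableSpace X]
    [OpensMeasurableSpace X] [NormedAddCommGroup E] {μ : Measure X} [IsFiniteMeasure μ] {g : X → E}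
    (hg : Continuous g) : Integrable g μ :=
  hg.integrable_of_hasCompactSupport (HasCompactSupport.of_compactSpace g)

theorem B5_symm (s : ℝ) (x y : T) : (B5_K s (x, y)).re = (B5_K s (y, x)).re := by
  rw [← Complex.conj_re]
  simp only [B5_K, map_div₀, map_mul, map_pow, map_sub, map_one, Complex.conj_ofReal,
    Complex.conj_conj, mul_right_comm]

theorem B5_zero {s : ℝ} (h0 : 0 < s) (h1 : s < 1) (x : T) : ∫ y, (B5_K s (x, y)).re = 0 := by
  have h := int_hol (G := fun z => (s : ℂ) ^ 2 * starRingEnd ℂ (eT x) * z /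
    (1 - (s : ℂ) ^ 2 * starRingEnd ℂ (eT x) * z) ^ 2) (DifferentiableOn.diffContOnCl (by
      rw [closure_ball _ one_ne_zero]
      refine DifferentiableOn.div (by fun_prop) (by fun_prop) fun z hz => ?_
      exact pow_ne_zero 2 (B5_ne (B5_s h0 h1 _) (mem_closedBall_zero_iff.1 hz))))
  refine (integral_re (f := fun y => B5_K s (x, y))
    (B5_int ((B5_cont h0 h1).comp (Continuous.prodMk_right x)))).trans ?_
  simp only [B5_K, h]
  simp

theorem B5_sq {f : T → ℝ} (hf : Continuous f) {w : ℂ} (hw : ‖w‖ < 1) :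
    ((‖deriv (Hol f) w‖ ^ 2 : ℝ) : ℂ) = ∫ p : T × T,
      (4 * f p.1 * f p.2 * (starRingEnd ℂ (eT p.1) * eT p.2)) *
        (1 / ((1 - w * starRingEnd ℂ (eT p.1)) ^ 2 * (1 - starRingEnd ℂ w * eT p.2) ^ 2))
      ∂((volume : Measure T).prod volume) := by
  have k : ∀ x, 2 * eT x / (eT x - w) ^ 2 * (f x : ℂ) =
      2 * f x * starRingEnd ℂ (eT x) / (1 - w * starRingEnd ℂ (eT x)) ^ 2 := fun x => by
    have h1 := B5_ne hw (B5_conj x).le
    have h2 := eT_ne x
    have h3 : eT x - w = eT x * (1 - w * starRingEnd ℂ (eT x)) := by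
      linear_combination w * B5_mul x
    rw [h3]
    field_simp
    linear_combination (-(f x : ℂ)) * B5_mul x
  rw [(Hol_deriv hf hw).deriv, ← Complex.normSq_eq_norm_sq, ← Complex.mul_conj, ← integral_conj,
    ← integral_prod_mul]
  refine integral_congr_ae (Eventually.of_forall fun p => ?_)
  simp only [k, map_div₀, map_mul, map_pow, map_sub, map_one, Complex.conj_ofReal,
    Complex.conj_conj, map_ofNat]
  rw [div_mul_div_comm]
  ring

theorem B5_main {f : T → ℝ} (hf : Continuous f) {s : ℝ} (h0 : 0 < s) (h1 : s < 1) :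
    ∫ w in ball (0 : ℂ) s, ‖deriv (Hol f) w‖ ^ 2 =
      ∫ p : T × T, 4 * Real.pi * f p.1 * f p.2 * (B5_K s p).re
        ∂((volume : Measure T).prod volume) := by
  have c1 := continuous_eT
  have c2 := Complex.continuous_conj
  have hi : Integrable (Function.uncurry fun (w : ℂ) (p : T × T) =>
      (4 * f p.1 * f p.2 * (starRingEnd ℂ (eT p.1) * eT p.2)) *
        (1 / ((1 - w * starRingEnd ℂ (eT p.1)) ^ 2 * (1 - starRingEnd ℂ w * eT p.2) ^ 2)))
      ((volume.restrict (ball (0 : ℂ) s)).prod ((volume : Measure T).prod volume)) := by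
    rw [Measure.restrict_prod_eq_prod_univ]
    refine (ContinuousOn.integrableOn_compact ((isCompact_closedBall 0 s).prod isCompact_univ)
      ?_).mono_set (prod_mono ball_subset_closedBall subset_rfl)
    refine ContinuousOn.mul (Continuous.continuousOn (by fun_prop))
      (continuousOn_const.div (Continuous.continuousOn (by fun_prop)) fun q hq => ?_)
    have hw : ‖q.1‖ < 1 := (mem_closedBall_zero_iff.1 hq.1).trans_lt h1
    exact mul_ne_zero (pow_ne_zero 2 (B5_ne hw (B5_conj _).le))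
      (pow_ne_zero 2 (B5_ne (by rwa [RCLike.norm_conj]) (norm_eT _).le))
  have e : ((∫ w in ball (0 : ℂ) s, ‖deriv (Hol f) w‖ ^ 2 : ℝ) : ℂ) =
      ∫ p : T × T, ((4 * Real.pi * f p.1 * f p.2 : ℝ) : ℂ) * B5_K s p
        ∂((volume : Measure T).prod volume) := by
    rw [← integral_complex_ofReal, setIntegral_congr_fun measurableSet_ball fun w hw =>
      B5_sq hf ((mem_ball_zero_iff.1 hw).trans h1), integral_integral_swap hi]
    refine integral_congr_ae (Eventually.of_forall fun p => ?_)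
    simp only
    rw [integral_const_mul, bergman (B5_conj _) (norm_eT _) h0 h1, B5_K]
    push_cast
    ring
  have c3 := B5_cont h0 h1
  rw [← Complex.ofReal_re (∫ w in ball (0 : ℂ) s, _), e]
  refine (integral_re (f := fun p : T × T => ((4 * Real.pi * f p.1 * f p.2 : ℝ) : ℂ) * B5_K s p)
    (B5_int (by fun_prop))).symm.trans ?_
  simp only [RCLike.re_to_complex, Complex.re_ofReal_mul]

theorem douglas_s {f : T → ℝ} (hf : Continuous f) {s : ℝ} (h0 : 0 < s) (h1 : s < 1) :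
    ∫ w in ball (0 : ℂ) s, ‖deriv (Hol f) w‖ ^ 2 = ∫ p : T × T, (f p.1 - f p.2) ^ 2 *
      (-2 * Real.pi * ((s : ℂ) ^ 2 * starRingEnd ℂ (eT p.1) * eT p.2 /
        (1 - (s : ℂ) ^ 2 * starRingEnd ℂ (eT p.1) * eT p.2) ^ 2).re)
      ∂((volume : Measure T).prod volume) := by
  have c := Complex.continuous_re.comp (B5_cont h0 h1)
  have i1 : Integrable (fun p : T × T => f p.1 ^ 2 * (B5_K s p).re)
      ((volume : Measure T).prod volume) := B5_int (((hf.comp continuous_fst).pow 2).mul c)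
  have i2 : Integrable (fun p : T × T => f p.2 ^ 2 * (B5_K s p).re)
      ((volume : Measure T).prod volume) := B5_int (((hf.comp continuous_snd).pow 2).mul c)
  have i3 : Integrable (fun p : T × T => 4 * Real.pi * f p.1 * f p.2 * (B5_K s p).re)
      ((volume : Measure T).prod volume) := B5_int (((continuous_const.mul
        (hf.comp continuous_fst)).mul (hf.comp continuous_snd)).mul c)
  have z1 : ∫ p : T × T, f p.1 ^ 2 * (B5_K s p).re ∂((volume : Measure T).prod volume) = 0 := by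
    rw [integral_prod _ i1]
    simp only [integral_const_mul, B5_zero h0 h1, mul_zero, integral_zero]
  have z2 : ∫ p : T × T, f p.2 ^ 2 * (B5_K s p).re ∂((volume : Measure T).prod volume) = 0 := by
    rw [integral_prod_symm _ i2]
    simp only [integral_const_mul, fun x y => B5_symm s x y, B5_zero h0 h1, mul_zero, integral_zero]
  have i4 : Integrable (fun p : T × T => f p.1 ^ 2 * (B5_K s p).re + f p.2 ^ 2 * (B5_K s p).re)
      ((volume : Measure T).prod volume) := i1.add i2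
  have e := integral_sub i3 (i4.const_mul (2 * Real.pi))
  rw [integral_const_mul, integral_add i1 i2, z1, z2, add_zero, mul_zero, sub_zero] at e
  rw [B5_main hf h0 h1, ← e]
  refine integral_congr_ae (Eventually.of_forall fun p => ?_)
  simp only [B5_K]
  ring

theorem B5_chord (x y : T) : ‖1 - starRingEnd ℂ (eT x) * eT y‖ = ‖eT x - eT y‖ := by
  rw [← one_mul ‖1 - starRingEnd ℂ (eT x) * eT y‖, ← norm_eT x, ← norm_mul, mul_sub,
    ← mul_assoc, B5_mul, mul_one, one_mul]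

theorem B5_lip {f : T → ℝ} (hf : f ∈ LipT) :
    ∃ C : ℝ, 0 ≤ C ∧ ∀ x y, (f x - f y) ^ 2 ≤ C * ‖eT x - eT y‖ ^ 2 := by
  obtain ⟨K, hK⟩ := hf
  refine ⟨(K : ℝ) ^ 2, by positivity, fun x y => ?_⟩
  have h1 := hK.dist_le_mul x y
  have h2 := chord_ge x y
  have h3 : dist x y ≤ ‖eT x - eT y‖ := by linarith only [h2, dist_nonneg (x := x) (y := y)]
  rw [← sq_abs, ← mul_pow, ← Real.dist_eq]
  exact pow_le_pow_left₀ dist_nonneg (h1.trans (mul_le_mul_of_nonneg_left h3 K.2)) 2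

theorem B5_DD {f : T → ℝ} (hf : f ∈ LipT) : DD H0 f = ENNReal.ofReal (∫ p : T × T,
    4 * Real.pi ^ 2 / ‖eT p.1 - eT p.2‖ ^ 2 * (f p.1 - f p.2) ^ 2
      ∂((volume : Measure T).prod volume)) := by
  obtain ⟨C, hC, h⟩ := B5_lip hf
  obtain ⟨K, hK⟩ := hf
  have c0 := hK.continuous
  have c1 := continuous_eT
  have m1 : Measurable fun p : T × T => 4 * Real.pi ^ 2 / ‖eT p.1 - eT p.2‖ ^ 2 :=
    measurable_const.div (Continuous.measurable (by fun_prop))
  have m2 : Measurable fun p : T × T => (f p.1 - f p.2) ^ 2 := Continuous.measurable (by fun_prop)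
  rw [DD, H0, lintegral_withDensity_eq_lintegral_mul _ m1.ennreal_ofReal m2.ennreal_ofReal,
    ofReal_integral_eq_lintegral_ofReal (Integrable.of_bound (m1.fun_mul m2).aestronglyMeasurable
      (4 * Real.pi ^ 2 * C) (Eventually.of_forall fun p => ?_))
      (Eventually.of_forall fun p => by positivity)]
  · exact lintegral_congr fun p => (ENNReal.ofReal_mul (by positivity)).symm
  · rw [Real.norm_of_nonneg (by positivity), div_mul_eq_mul_div, mul_div_assoc]
    exact mul_le_mul_of_nonneg_left (div_le_of_le_mul₀ (by positivity) hC (h _ _)) (by positivity)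

theorem DD0_fin {f : T → ℝ} (hf : f ∈ LipT) : DD H0 f ≠ ∞ := by
  rw [B5_DD hf]
  exact ENNReal.ofReal_ne_top

theorem B5_bd (s : ℝ) (p : T × T) : ‖eT p.1 - eT p.2‖ ^ 2 * ‖B5_K s p‖ ≤ 1 := by
  have h : ‖starRingEnd ℂ (eT p.1) * eT p.2‖ = 1 := by rw [norm_mul, B5_conj, norm_eT, mul_one]
  rw [← B5_chord, B5_K, mul_assoc ((s : ℂ) ^ 2), norm_div, norm_mul, h, norm_pow, norm_pow,
    Complex.norm_real, Real.norm_eq_abs, sq_abs, ← mul_div_assoc]
  refine div_le_one_of_le₀ ?_ (by positivity)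
  generalize starRingEnd ℂ (eT p.1) * eT p.2 = z at h
  have h' : z.re * z.re + z.im * z.im = 1 := by
    rw [← Complex.normSq_apply, Complex.normSq_eq_norm_sq, h, one_pow]
  simp only [← Complex.normSq_eq_norm_sq, Complex.normSq_apply, ← Complex.ofReal_pow,
    Complex.sub_re, Complex.sub_im, Complex.one_re, Complex.one_im, Complex.re_ofReal_mul,
    Complex.im_ofReal_mul]
  generalize s ^ 2 = σ
  have e : (1 - σ * z.re) * (1 - σ * z.re) + (0 - σ * z.im) * (0 - σ * z.im) -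
      ((1 - z.re) * (1 - z.re) + (0 - z.im) * (0 - z.im)) * (σ * 1) = (1 - σ) ^ 2 := by
    linear_combination (σ ^ 2 - σ) * h'
  linarith only [e, sq_nonneg (1 - σ)]

theorem B5_one (p : T × T) : (B5_K 1 p).re = -(1 / ‖eT p.1 - eT p.2‖ ^ 2) := by
  have h : starRingEnd ℂ (eT p.1) * eT p.2 * starRingEnd ℂ (starRingEnd ℂ (eT p.1) * eT p.2) = 1 := by
    rw [map_mul, Complex.conj_conj]
    linear_combination (eT p.2 * starRingEnd ℂ (eT p.2)) * B5_mul p.1 + B5_mul p.2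
  rw [← B5_chord, B5_K, Complex.ofReal_one, one_pow, one_mul, ← Complex.ofReal_re (-_)]
  generalize starRingEnd ℂ (eT p.1) * eT p.2 = z at h
  refine congrArg _ ?_
  rw [← Complex.normSq_eq_norm_sq, Complex.ofReal_neg, Complex.ofReal_div, ← Complex.mul_conj,
    map_sub, map_one]
  by_cases k : 1 - z = 0
  · simp [k]
  · have k' : 1 - starRingEnd ℂ z ≠ 0 := fun e => k (by linear_combination (-z) * e - h)
    field_simp
    rw [Complex.ofReal_one]
    linear_combination (-1) * h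

theorem douglas {f : T → ℝ} (hf : f ∈ LipT) :
    ENNReal.ofReal (2 * Real.pi) * En (ball 0 1) (fun w => (Hol f w).re) = DD H0 f := by
  obtain ⟨C, hC, h⟩ := B5_lip hf
  have c0 : Continuous f := hf.choose_spec.continuous
  obtain ⟨u, u1, u2, u3⟩ := exists_seq_strictMono_tendsto' (zero_lt_one' ℝ)
  have t1 := tendsto_measure_iUnion_atTop (s := fun n => ball (0 : ℂ) (u n))
    (μ := volume.withDensity fun w => ENNReal.ofReal (‖deriv (Hol f) w‖ ^ 2))
    fun n m k => ball_subset_ball (u1.monotone k)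
  have e1 : ⋃ n, ball (0 : ℂ) (u n) = ball 0 1 := by
    ext w
    simp only [mem_iUnion, mem_ball]
    exact ⟨fun ⟨n, k⟩ => k.trans (u2 n).2, fun k => (u3.eventually (lt_mem_nhds k)).exists⟩
  have e2 : En (ball 0 1) (fun w => (Hol f w).re) =
      ∫⁻ w in ball (0 : ℂ) 1, ENNReal.ofReal (‖deriv (Hol f) w‖ ^ 2) :=
    setLIntegral_congr_fun measurableSet_ball fun w hw => by
      rw [gr_re ((Hol_diff c0).differentiableAt (isOpen_ball.mem_nhds hw)), ← ofReal_norm,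
        RCLike.norm_conj, ENNReal.ofReal_pow (norm_nonneg _)]
  rw [e1, withDensity_apply _ measurableSet_ball, ← e2] at t1
  have t2 := tendsto_integral_of_dominated_convergence (μ := (volume : Measure T).prod volume)
    (F := fun n p => (f p.1 - f p.2) ^ 2 * (-2 * Real.pi * (B5_K (u n) p).re))
    (f := fun p => (f p.1 - f p.2) ^ 2 * (-2 * Real.pi * (B5_K 1 p).re))
    (fun _ => 2 * Real.pi * C) (fun n => Continuous.aestronglyMeasurable (by
      have := B5_cont (u2 n).1 (u2 n).2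
      fun_prop)) (integrable_const _) (fun n => Eventually.of_forall fun p => by
        have k1 := mul_le_mul (h p.1 p.2) (Complex.abs_re_le_norm (B5_K (u n) p)) (abs_nonneg _)
          (by positivity)
        have k2 := mul_le_mul_of_nonneg_left (B5_bd (u n) p) hC
        rw [norm_mul, norm_mul, Real.norm_of_nonneg (sq_nonneg _), neg_mul, norm_neg,
          Real.norm_of_nonneg (by positivity), Real.norm_eq_abs, mul_left_comm]
        exact mul_le_mul_of_nonneg_left (by linarith only [k1, k2]) (by positivity))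
      (Eventually.of_forall fun p => by
        by_cases k : p.1 = p.2
        · simp [k]
        · refine ((((Complex.continuous_re.tendsto _).comp ((ContinuousAt.div (by fun_prop)
            (by fun_prop) (pow_ne_zero 2 ?_) : ContinuousAt (fun s => B5_K s p) 1).tendsto.comp
              u3)).const_mul _).const_mul _)
          rw [Complex.ofReal_one, one_pow, one_mul, ← norm_ne_zero_iff, B5_chord, norm_ne_zero_iff]
          exact sub_ne_zero.2 fun e => k (eT_inj e))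
  have e3 := tendsto_nhds_unique t1 ((ENNReal.tendsto_ofReal t2).congr fun n => by
    have c1 : ContinuousOn (fun w => ‖deriv (Hol f) w‖ ^ 2) (closedBall 0 (u n)) :=
      ((((Hol_diff c0).deriv isOpen_ball).continuousOn.mono
        (closedBall_subset_ball (u2 n).2)).norm).pow 2
    rw [Function.comp_apply, withDensity_apply _ measurableSet_ball,
      ← ofReal_integral_eq_lintegral_ofReal ((c1.integrableOn_compact
        (isCompact_closedBall _ _)).mono_set ball_subset_closedBall)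
        (Eventually.of_forall fun w => by positivity), douglas_s c0 (u2 n).1 (u2 n).2]
    rfl)
  rw [e3, B5_DD hf, ← ENNReal.ofReal_mul (by positivity), ← integral_const_mul]
  refine congrArg _ (integral_congr_ae (Eventually.of_forall fun p => ?_))
  simp only [B5_one]
  ring

end Pool.Agent.Work.MP_042f46_an.Ty
end
end

-- merged part: Pool.Agent.Work.MP_042f46_an.T.B7
section
/-!
# Projection for a semidefinite form, measures from positive bilinear forms

Plans.  `proj`: make `E` a seminormed inner product space from `B` (`PreInnerProductSpace.Core`, `InnerProductSpace.Core.toSeminormedAddCommGroup`, `InnerProductSpace.ofCore`, on a copy of the type if needed), map it into `UniformSpace.Completion`, let `N` be the closure of the image of `E₀` and `W x y = ⟪x - p x, y⟫` with `p` the orthogonal projection onto `N` (`Submodule.starProjection`); choose `t n ∈ E₀` tending to `p x` (`mem_closure_iff_seq_limit`), `s n = x -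 t n`.
`exists_pu`: points `x i = ↑(i / n)`, tents `r i = clamp (2 - dist · (x i) / δ')`, `p i = r i * ∏ j < i, (1 - r j)`, the sum telescopes to `1 - ∏ (1 - r j) = 1`; products of bounded Lipschitz functions are Lipschitz.
`exists_meas`: `μ n = ∑ i j, β (p i) (p j) • dirac (x i, x j)` is a finite measure of mass `β 1 1`; `|∫ u ⊗ v dμ n - β u v| ≤ (K_u ‖v‖ + ‖u‖ K_v) δ β 1 1` because `|β a b| ≤ A B β 1 1` when `|a| ≤ A`, `|b| ≤ B` and `∑ u (x i) p i` is uniformly close to `u`; take a cluster point in the compact set of `isCompact_setOfPred_finiteMeasure_eq_of_compactSpace` and use continuity of the integral (`FiniteMeasure.continuous_integral_boundedContinuousFunction`).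
-/

open Set Metric Topology Filter MeasureTheory
open scoped ENNReal NNReal

noncomputable section
namespace Pool.Agent.Work.MP_042f46_an.Ty

theorem B7_emb {E : Type} [AddCommGroup E] [Module ℝ E] (B : E →ₗ[ℝ] E →ₗ[ℝ] ℝ)
    (hs : ∀ x y, B x y = B y x) (hp : ∀ x, 0 ≤ B x x) :
    ∃ (H : Type) (_ : NormedAddCommGroup H) (_ : InnerProductSpace ℝ H) (_ : CompleteSpace H)
      (i : E →ₗ[ℝ] H), ∀ x y, B x y = inner ℝ (i x) (i y) := by
  let c : PreInnerProductSpace.Core ℝ E :=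
    { inner := fun x y => B x y
      conj_inner_symm := fun x y => hs y x
      re_inner_nonneg := hp
      add_left := fun x y z => by rw [map_add, LinearMap.add_apply]
      smul_left := fun x y r => by rw [map_smul, LinearMap.smul_apply]; rfl }
  let _ : SeminormedAddCommGroup E := InnerProductSpace.Core.toSeminormedAddCommGroup (c := c)
  let _ : InnerProductSpace ℝ E := InnerProductSpace.ofCore c
  exact ⟨UniformSpace.Completion E, inferInstance, inferInstance, inferInstance,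
    (UniformSpace.Completion.toComplₗᵢ : E →ₗᵢ[ℝ] _).toLinearMap,
    fun x y => (UniformSpace.Completion.inner_coe (𝕜 := ℝ) x y).symm⟩

theorem proj {E : Type} [AddCommGroup E] [Module ℝ E] (B : E →ₗ[ℝ] E →ₗ[ℝ] ℝ)
    (hs : ∀ x y, B x y = B y x) (hp : ∀ x, 0 ≤ B x x) (E₀ : Submodule ℝ E) :
    ∃ W : E →ₗ[ℝ] E →ₗ[ℝ] ℝ, (∀ x y, W x y = W y x) ∧ (∀ x, ∀ y ∈ E₀, W x y = 0) ∧
      (∀ x, W x x ≤ B x x) ∧ ∀ x, ∃ s : ℕ → E, (∀ n, s n - x ∈ E₀) ∧
        (∀ y, Tendsto (fun n => B (s n) y) atTop (𝓝 (W x y))) ∧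
        Tendsto (fun n => B (s n) (s n)) atTop (𝓝 (W x x)) := by
  obtain ⟨H, _, _, _, i, hi⟩ := B7_emb B hs hp
  let N := (E₀.map i).topologicalClosure
  let q : E →ₗ[ℝ] H := Nᗮ.starProjection.toLinearMap ∘ₗ i
  have hq : ∀ x, q x = i x - N.starProjection (i x) := fun x => N.starProjection_orthogonal_val _
  have h1 : ∀ x y, inner ℝ (q x) (q y) = inner ℝ (q x) (i y) := fun x y => by
    rw [hq y, inner_sub_right, Submodule.inner_left_of_mem_orthogonal
      (N.starProjection_apply_mem _) (show q x ∈ Nᗮ from Nᗮ.starProjection_apply_mem _), sub_zero]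
  refine ⟨(innerₗ H).compl₁₂ q q, fun x y => real_inner_comm _ _, fun x y hy => (h1 x y).trans
    (Submodule.inner_left_of_mem_orthogonal ((E₀.map i).le_topologicalClosure ⟨y, hy, rfl⟩)
      (Nᗮ.starProjection_apply_mem _)), fun x => ?_, fun x => ?_⟩
  · change inner ℝ (q x) (q x) ≤ _
    rw [hi, real_inner_self_eq_norm_sq, real_inner_self_eq_norm_sq]
    exact pow_le_pow_left₀ (norm_nonneg _) (Nᗮ.norm_starProjection_apply_le _) 2
  · obtain ⟨t, t1, t2⟩ := mem_closure_iff_seq_limit.1 (N.starProjection_apply_mem (i x))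
    choose u u1 u2 using t1
    have h2 : Tendsto (fun n => i (x - u n)) atTop (𝓝 (q x)) := by
      simp only [map_sub, u2, hq]
      exact t2.const_sub _
    refine ⟨fun n => x - u n, fun n => ?_, fun y => ?_, ?_⟩
    · rw [sub_sub_cancel_left]
      exact neg_mem (u1 n)
    · simp only [hi]
      exact (h2.inner (𝕜 := ℝ) tendsto_const_nhds).trans (congrArg 𝓝 (h1 x y)).ge
    · simp only [hi]
      exact h2.inner (𝕜 := ℝ) h2

end Pool.Agent.Work.MP_042f46_an.Ty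
end
end
end

-- merged part: Pool.Agent.Work.MP_042f46_an.T.R3
section
-- merged part: Pool.Agent.Work.MP_042f46_an.T.C1
section
/-!
# Geometry of an invariant curve

Plans.  Compare `X1.lean` (same facts for the structure `Sx`); `isClosed_ext`, `RM4_isOpen`, `isCompact_compl_open`, `isOpen_image_of_injOn`, `inv_diff`.  `exists_cf`: `exists_unif` with `z₀ = v₀`; `βT` is the map induced by `β` (`Function.Periodic.lift` of `s ↦ ↑(β s)`, or `x ↦ argT (φi (ψ (eT x)))`); since `ρ * eT (βT x) = φi (ψ (eT x))` and `φi ∘ ψ` is Lipschitz on the unit circle (`LL.of_diff`, `LL.comp`, `LL.lip_compact`), `chord_ge`, `chord_le` make `βT` Lipschitz.  `βT_surj`: `β` is continuous and unbounded in both directions.  `βT_inj`: `ψ_e`, `ψ_inj`, `eT_inj`.  `βT_arc`: `β` is a strictly monotone surjection.  `vol_γ`: `addHaar_image_eq_zero_of_differentiableOn_of_addHaar_eq_zero`, `Measure.addHaar_sphere`.  `far`: the complement of `φ '' {max R 2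 < ‖ζ‖}` is compact.  `loc_inj`: `IsCoveringMapOn.isLocalHomeomorphOn`.  `H_dual`: choose preimages of the four points under `β` (`β (s + 1) = β s + 1`), `Measure.map_apply`, `βT_arc`, `H0_dual`.
-/

open Set Metric Topology Filter MeasureTheory
open scoped ENNReal NNReal

noncomputable section
namespace Pool.Agent.Work.MP_042f46_an.Ty

namespace Cf

variable (C : Cf) {z : ℂ}

theorem ρ_pos : 0 < C.ρ := one_pos.trans C.ρ_gt

theorem norm_ρ (x : T) : ‖(C.ρ : ℂ) * eT x‖ = C.ρ := by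
  rw [norm_mul, norm_eT, mul_one, Complex.norm_of_nonneg C.ρ_pos.le]

theorem C1_mem (x : T) : 1 < ‖(C.ρ : ℂ) * eT x‖ := C.ρ_gt.trans_eq (C.norm_ρ x).symm

theorem C1_rot {ζ : ℂ} (h : 1 < ‖ζ‖) (t : ℝ) : 1 < ‖e t * ζ‖ := h.trans_eq (Sg_norm t ζ).symm

theorem C1_inv (t : ℝ) (ζ : ℂ) : e (-t) * (e t * ζ) = ζ := by
  rw [← mul_assoc, ← e_add, neg_add_cancel]
  simp [e]

theorem C1_inv' (t : ℝ) (ζ : ℂ) : e t * (e (-t) * ζ) = ζ := by
  rw [mul_left_comm, C1_inv]

theorem isOpen_Ω : IsOpen C.Ω :=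
  isOpen_image_of_injOn (RM4_open 1) C.φ_diff C.φ_inj

theorem isOpen_U : IsOpen C.U :=
  (isClosed_ext C.φ_diff C.φ_inj C.φ_top C.ρ_gt).isOpen_compl

theorem isCompact_Ub : IsCompact C.Ub :=
  isCompact_compl_open C.φ_diff C.φ_inj C.φ_top C.ρ_gt

theorem U_sub : C.U ⊆ C.Ub :=
  compl_subset_compl.2 (RM4_sub _ _)

theorem isOpen_P : IsOpen C.Pᶜ := C.P_fin.isClosed.isOpen_compl

theorem isOpen_W : IsOpen C.W := by
  have h := (C.F_diff.continuousOn.isOpen_inter_preimage C.isOpen_P C.isOpen_U)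
  exact C.isOpen_U.inter h

theorem W_sub : C.W ⊆ C.U := fun _ h => h.1

theorem φi_φ {ζ : ℂ} (h : 1 < ‖ζ‖) : C.φi (C.φ ζ) = ζ :=
  C.φ_inj.leftInvOn_invFunOn h

theorem φ_φi (h : z ∈ C.Ω) : C.φ (C.φi z) = z :=
  Function.invFunOn_eq h

theorem φi_gt (h : z ∈ C.Ω) : 1 < ‖C.φi z‖ :=
  Function.invFunOn_mem (s := {ζ | 1 < ‖ζ‖}) h

theorem φi_diff : DifferentiableOn ℂ C.φi C.Ω :=
  inv_diff (RM4_open 1) C.φ_diff C.φ_inj

theorem φi_inj : InjOn C.φi C.Ω :=
  fun a ha b hb h => by rw [← C.φ_φi ha, h, C.φ_φi hb]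

theorem not_P (h : z ∈ C.Ω) : z ∉ C.P := fun k => C.P_Ω z k h

theorem F_Ω (h : z ∈ C.Ω) : C.F z ∈ C.Ω := by
  obtain ⟨ζ, h, rfl⟩ := h
  exact ⟨_, C1_rot h _, (C.conj ζ h).symm⟩

theorem φi_F (h : z ∈ C.Ω) : C.φi (C.F z) = e C.α * C.φi z := by
  obtain ⟨ζ, h, rfl⟩ := h
  rw [C.conj ζ h, C.φi_φ h, C.φi_φ (C1_rot h _)]

theorem F_inj : InjOn C.F C.Ω :=
  fun a ha b hb h => C.φi_inj ha hb (mul_left_cancel₀ (Rot_e_ne C.α) (by
    rw [← C.φi_F ha, h, C.φi_F hb]))

theorem mem_U (h : z ∈ C.Ω) : z ∈ C.U ↔ ‖C.φi z‖ < C.ρ := by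
  refine ⟨fun k => not_le.1 fun k' => k ⟨_, k', C.φ_φi h⟩, fun k ⟨ζ, h1, h2⟩ => ?_⟩
  rw [← h2, C.φi_φ (C.ρ_gt.trans_le h1)] at k
  exact k.not_ge h1

theorem mem_Ub (h : z ∈ C.Ω) : z ∈ C.Ub ↔ ‖C.φi z‖ ≤ C.ρ := by
  refine ⟨fun k => not_lt.1 fun k' => k ⟨_, k', C.φ_φi h⟩, fun k ⟨ζ, h1, h2⟩ => ?_⟩
  rw [← h2, C.φi_φ (C.ρ_gt.trans h1)] at k
  exact k.not_gt h1

theorem U_of_not (h : z ∉ C.Ω) : z ∈ C.U :=
  fun ⟨ζ, h1, h2⟩ => h ⟨ζ, C.ρ_gt.trans_le h1, h2⟩

theorem mem_W (h : z ∈ C.Ω) (h' : z ∈ C.U) : z ∈ C.W := by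
  refine ⟨h', C.not_P h, (C.mem_U (C.F_Ω h)).2 ?_⟩
  rw [C.φi_F h, Sg_norm]
  exact (C.mem_U h).1 h'

theorem F_Ub (h : z ∈ C.Ω) (h' : z ∈ C.Ub) : C.F z ∈ C.Ub := by
  rw [C.mem_Ub (C.F_Ω h), C.φi_F h, Sg_norm]
  exact (C.mem_Ub h).1 h'

theorem F_img : C.F '' (C.U ∩ C.Ω) = C.U ∩ C.Ω := by
  refine Subset.antisymm ?_ fun z h => ?_
  · rintro _ ⟨z, h, rfl⟩
    exact ⟨(C.mem_W h.2 h.1).2.2, C.F_Ω h.2⟩
  · have k := C1_rot (C.φi_gt h.2) (-C.α)
    have k' : C.φ (e (-C.α) * C.φi z) ∈ C.Ω := ⟨_, k, rfl⟩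
    refine ⟨_, ⟨(C.mem_U k').2 ?_, k'⟩, ?_⟩
    · rw [C.φi_φ k, Sg_norm]
      exact (C.mem_U h.2).1 h.1
    · rw [C.conj _ k, C1_inv', C.φ_φi h.2]

theorem γ_Ω (x : T) : C.γ x ∈ C.Ω :=
  ⟨_, C.C1_mem x, rfl⟩

theorem φi_γ (x : T) : C.φi (C.γ x) = (C.ρ : ℂ) * eT x :=
  C.φi_φ (C.C1_mem x)

theorem γ_Ub (x : T) : C.γ x ∈ C.Ub := by
  rw [C.mem_Ub (C.γ_Ω x), C.φi_γ, C.norm_ρ]

theorem γ_not_U (x : T) : C.γ x ∉ C.U := by
  rw [C.mem_U (C.γ_Ω x), C.φi_γ, C.norm_ρ]
  exact lt_irrefl _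

theorem exists_γ (h : z ∈ C.Ub) (h' : z ∉ C.U) : ∃ x, z = C.γ x := by
  have k : z ∈ C.Ω := by_contra fun k => h' (C.U_of_not k)
  have e1 : ‖C.φi z‖ = C.ρ := ((C.mem_Ub k).1 h).antisymm (not_lt.1 fun k' => h' ((C.mem_U k).2 k'))
  have n : (C.ρ : ℂ) ≠ 0 := Complex.ofReal_ne_zero.2 C.ρ_pos.ne'
  obtain ⟨x, hx⟩ := exists_eT (ζ := C.φi z / C.ρ) (by
    rw [norm_div, e1, Complex.norm_of_nonneg C.ρ_pos.le, div_self C.ρ_pos.ne'])
  exact ⟨x, by rw [γ, hx, mul_div_cancel₀ _ n, C.φ_φi k]⟩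

theorem γ_inj : Function.Injective C.γ :=
  fun x y h => eT_inj (mul_left_cancel₀ (Complex.ofReal_ne_zero.2 C.ρ_pos.ne')
    (C.φ_inj (C.C1_mem x) (C.C1_mem y) h))

theorem continuous_γ : Continuous C.γ :=
  C.φ_diff.continuousOn.comp_continuous (continuous_const.mul continuous_eT) C.C1_mem

theorem F_γ (x : T) : C.F (C.γ x) = C.γ (x + (C.α : T)) := by
  rw [γ, γ, C.conj _ (C.C1_mem x), eT_add, eT_coe, mul_comm, mul_assoc]

theorem mb_Ω (h : z ∈ C.Ω) : C.mb z ∈ C.Ω :=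
  ⟨_, C1_rot (C.φi_gt h) _, rfl⟩

theorem F_mb (h : z ∈ C.Ω) : C.F (C.mb z) = z := by
  rw [mb, C.conj _ (C1_rot (C.φi_gt h) _), C1_inv', C.φ_φi h]

theorem mb_F (h : z ∈ C.Ω) : C.mb (C.F z) = z := by
  rw [mb, C.φi_F h, C1_inv, C.φ_φi h]

theorem mb_cont : ContinuousOn C.mb C.Ω :=
  C.φ_diff.continuousOn.comp (continuousOn_const.mul C.φi_diff.continuousOn)
    fun _ h => C1_rot (C.φi_gt h) _

theorem mb_γ (x : T) : C.mb (C.γ (x + (C.α : T))) = C.γ x := by
  rw [← C.F_γ, C.mb_F (C.γ_Ω x)]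

theorem vol_γ : volume (C.Ub \ C.U) = 0 := by
  refine measure_mono_null (t := C.φ '' sphere 0 C.ρ) (fun z h => ?_)
    (addHaar_image_eq_zero_of_differentiableOn_of_addHaar_eq_zero volume
      ((C.φ_diff.restrictScalars ℝ).mono fun ζ h =>
        C.ρ_gt.trans_eq (mem_sphere_zero_iff_norm.1 h).symm) (Measure.addHaar_sphere _ _ _))
  obtain ⟨x, rfl⟩ := C.exists_γ h.1 h.2
  exact ⟨_, mem_sphere_zero_iff_norm.2 (C.norm_ρ x), rfl⟩

theorem far (R : ℝ) : ∃ R' : ℝ, ∀ z : ℂ, R' ≤ ‖z‖ → z ∈ C.Ω ∧ R ≤ ‖C.φi z‖ := by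
  have h2 : (1 : ℝ) < max R 2 := one_lt_two.trans_le (le_max_right _ _)
  obtain ⟨R', hR⟩ := (isCompact_compl_open C.φ_diff C.φ_inj C.φ_top h2).isBounded.subset_ball 0
  refine ⟨R', fun z hz => ?_⟩
  obtain ⟨ζ, h, rfl⟩ : z ∈ C.φ '' {ζ | max R 2 < ‖ζ‖} :=
    by_contra fun k => (mem_ball_zero_iff.1 (hR k)).not_ge hz
  refine ⟨⟨ζ, h2.trans h, rfl⟩, ?_⟩
  rw [C.φi_φ (h2.trans h)]
  exact (le_max_left _ _).trans (le_of_lt h)

theorem loc_inj (h : C.F z ∉ C.V) : ∃ N ∈ 𝓝 z, InjOn C.F N := by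
  obtain ⟨E, h1, h2⟩ := C.cov.isLocalHomeomorphOn z h
  exact ⟨E.source, E.open_source.mem_nhds h1, h2 ▸ E.injOn⟩

end Cf

end Pool.Agent.Work.MP_042f46_an.Ty
end
end

-- merged part: Pool.Agent.Work.MP_042f46_an.T.BB
section
/-!
# Energy, the space of functions of finite energy, conformal change of variables

Plans.  Almost everywhere statements pass to `volume.restrict O` with `ae_restrict_iff'`.  `En_add_le`: `‖a + b‖ ^ 2 ≤ 2 ‖a‖ ^ 2 + 2 ‖b‖ ^ 2`.  `integrable_dot`: `|dot a b| ≤ ‖a‖ ^ 2 + ‖b‖ ^ 2`, `integrable_toReal_of_lintegral_ne_top` or `hasFiniteIntegral_iff_enorm`.  `Ip_sq_le`: discriminant of `t ↦ Ip (f + t g) (f + t g)` (`discrim_le_zero`), or Hoelder.  `lint_mult`: as `X9_part`, `X9_mult` in `X9.lean`, with the weight `k` (`lintegral_image_eq_lintegral_abs_det_fderiv_mul`, compare `lintegral_univ_img` in `Area.lean`): cut `A` into countably many measurable pieces on which `g` is injective and a rest on which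 `deriv g = 0`.  `gr_comp_ae`: apply `lint_mult`-like pieces (or `lint_inj` on each piece) to the indicator of a measurable null set containing the points of `O'` where `f` is not differentiable; where `deriv g = 0` use `gr_comp_zero`.  `Ip_comp_eq`: `integral_image_eq_integral_abs_det_fderiv_smul`, `dot_mul`.  `tr_tend`: the gradient of `f - tr ε f` is that of `f` on `|f| ≤ ε` and zero elsewhere; dominated convergence (`tendsto_lintegral_filter_of_dominated_convergence`), `gr_level`.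
-/

open Set Metric Topology Filter MeasureTheory
open scoped ENNReal NNReal

noncomputable section
namespace Pool.Agent.Work.MP_042f46_an.Ty

variable {O O' A B : Set ℂ} {f f' : ℂ → ℝ} {g : ℂ → ℂ}

theorem BB_det (c : ℂ) : |(c • (1 : ℂ →L[ℝ] ℂ)).det| = ‖c‖ ^ 2 := by
  have e : ((c • (1 : ℂ →L[ℝ] ℂ) : ℂ →L[ℝ] ℂ) : ℂ →ₗ[ℝ] ℂ) = Algebra.lmul ℝ ℂ c :=
    LinearMap.ext fun z => rfl
  rw [ContinuousLinearMap.det, e, ← Algebra.norm_apply, Algebra.norm_complex_apply,
    Complex.normSq_eq_norm_sq, abs_of_nonneg (sq_nonneg _)]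

theorem BB_inj (hO : IsOpen O) (hg : DifferentiableOn ℂ g O) (hA : MeasurableSet A) (hAO : A ⊆ O)
    (hi : InjOn g A) (k : ℂ → ℝ≥0∞) :
    ∫⁻ w in g '' A, k w = ∫⁻ z in A, ‖deriv g z‖ₑ ^ 2 * k (g z) := by
  rw [lintegral_image_eq_lintegral_abs_det_fderiv_mul volume hA
    (f' := fun u => deriv g u • (1 : ℂ →L[ℝ] ℂ)) (fun u hu => ((hg.differentiableAt
      (hO.mem_nhds (hAO hu))).hasDerivAt.complexToReal_fderiv).hasFDerivWithinAt) hi]
  refine lintegral_congr fun u => ?_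
  rw [BB_det, ENNReal.ofReal_pow (norm_nonneg _), ofReal_norm]

theorem BB_part (hO : IsOpen O) (hg : DifferentiableOn ℂ g O) (hA : MeasurableSet A)
    (hAO : A ⊆ O) : ∃ S : ℕ → Set ℂ, Pairwise (Function.onFun Disjoint S) ∧ (∀ n, S n ⊆ A) ∧
      (∀ n, MeasurableSet (S n)) ∧ (∀ n, InjOn g (S n)) ∧
      ∀ z ∈ A, z ∉ ⋃ n, S n → deriv g z = 0 := by
  obtain ⟨C, hC, hC1, hC2⟩ := TopologicalSpace.isOpen_sUnion_countable
    {U : Set ℂ | IsOpen U ∧ InjOn g U} fun _ h => h.1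
  obtain ⟨U, hU⟩ := (hC.insert ∅).exists_eq_range (insert_nonempty _ _)
  have h1 : ∀ n, IsOpen (U n) ∧ InjOn g (U n) := fun n => by
    rcases (hU ▸ mem_range_self n : U n ∈ insert ∅ C) with h | h
    · rw [h]
      exact ⟨isOpen_empty, injOn_empty g⟩
    · exact hC1 h
  refine ⟨fun n => A ∩ disjointed U n, fun a b hab =>
    (disjoint_disjointed U hab).mono inter_subset_right inter_subset_right,
    fun n => inter_subset_left,
    fun n => hA.inter (MeasurableSet.disjointed (fun n => (h1 n).1.measurableSet) n),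
    fun n => (h1 n).2.mono (inter_subset_right.trans (disjointed_subset U n)), fun z hz hz' => ?_⟩
  by_contra h
  obtain ⟨V, hV, hV1, hV2⟩ := _root_.eventually_nhds_iff.1
    ((hg.analyticAt (hO.mem_nhds (hAO hz))).hasStrictDerivAt.eventually_left_inverse h)
  have h5 : z ∈ ⋃₀ C := hC2 ▸ ⟨V, ⟨hV1, fun a ha b hb e => by
    rw [← hV a ha, e, hV b hb]⟩, hV2⟩
  obtain ⟨W, hW, hzW⟩ := h5
  obtain ⟨n, rfl⟩ : W ∈ range U := hU ▸ mem_insert_of_mem _ hW
  rw [← inter_iUnion, iUnion_disjointed] at hz'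
  exact hz' ⟨hz, mem_iUnion.2 ⟨n, hzW⟩⟩

theorem lint_mult (hO : IsOpen O) (hg : DifferentiableOn ℂ g O) (hA : MeasurableSet A) (hAO : A ⊆ O)
    (hB : MeasurableSet B) (hAB : MapsTo g A B) {d : ℕ} (hd : ∀ w, {z ∈ A | g z = w}.encard ≤ d)
    {k : ℂ → ℝ≥0∞} (hk : Measurable k) :
    ∫⁻ z in A, ‖deriv g z‖ₑ ^ 2 * k (g z) ≤ d * ∫⁻ w in B, k w := by
  obtain ⟨S, h1, h2, h3, h4, h5⟩ := BB_part hO hg hA hAO
  have h6 : ∀ n, MeasurableSet (g '' S n) := fun n => (h3 n).image_of_continuousOn_injOn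
    (hg.continuousOn.mono ((h2 n).trans hAO)) (h4 n)
  have hU : MeasurableSet (⋃ n, S n) := MeasurableSet.iUnion h3
  rw [← lintegral_inter_add_sdiff _ A hU, setLIntegral_eq_zero (hA.diff hU)
    (fun z hz => by simp [h5 z hz.1 hz.2]), add_zero]
  refine (lintegral_mono_set inter_subset_right).trans ((lintegral_iUnion_le _ _).trans ?_)
  simp only [← fun n => BB_inj hO hg (h3 n) ((h2 n).trans hAO) (h4 n) k,
    ← lintegral_indicator (h6 _)]
  rw [← lintegral_tsum fun n => (hk.indicator (h6 n)).aemeasurable, ← lintegral_const_mul _ hk,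
    ← lintegral_indicator hB]
  refine lintegral_mono fun w => ?_
  by_cases h : w ∈ B
  · have e : ∀ n, (g '' S n).indicator k w = {n | w ∈ g '' S n}.indicator (fun _ => k w) n :=
      fun n => rfl
    simp only [e]
    rw [indicator_of_mem h, ← tsum_subtype, ENNReal.tsum_set_const]
    refine mul_le_mul_left ?_ _
    have : ∀ n, w ∈ g '' S n → ∃ z ∈ S n, g z = w := fun _ h => h
    choose! z hz hz' using this
    have k1 : {n | w ∈ g '' S n}.encard ≤ d :=
      (encard_le_encard_of_injOn (f := z) (t := {z ∈ A | g z = w})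
        (fun n hn => ⟨h2 _ (hz n hn), hz' n hn⟩) fun n hn m hm e => by
          by_contra hnm
          exact disjoint_left.1 (h1 hnm) (hz _ hn) (e ▸ hz _ hm)).trans (hd w)
    exact_mod_cast k1
  · exact (ENNReal.tsum_eq_zero.2 fun n => indicator_of_notMem (fun a => h
      ((hAB.mono_left (h2 n)).image_subset a)) _).trans_le zero_le

theorem gr_comp_ae (hO : IsOpen O) (hg : DifferentiableOn ℂ g O) (h : MapsTo g O O') (hf : LL O' f) :
    ∀ᵐ z, z ∈ O → gr (fun z => f (g z)) z = starRingEnd ℂ (deriv g z) * gr f (g z) := by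
  classical
  obtain ⟨N, hN1, hN2, hN3⟩ := exists_measurable_superset_of_null (ae_iff.1 hf.ae_diff)
  have hm : Measurable (O.piecewise g fun _ => 0) :=
    hg.continuousOn.measurable_piecewise continuousOn_const hO.measurableSet
  have hT : MeasurableSet (O ∩ O.piecewise g (fun _ => 0) ⁻¹' N) := hO.measurableSet.inter (hm hN2)
  obtain ⟨S, -, h2, -, h4⟩ := X9_part hO hg hT inter_subset_left
  have h5 : ∑' n, volume (g '' S n) = 0 := ENNReal.tsum_eq_zero.2 fun n =>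
    measure_mono_null (by
      rintro _ ⟨z, hz, rfl⟩
      have := (h2 n hz).2
      rwa [mem_preimage, piecewise_eq_of_mem _ _ _ (h2 n hz).1] at this) hN3
  have h6 := (lintegral_eq_zero_iff ((measurable_deriv g).enorm.pow_const 2)).1
    (le_antisymm (h4.trans h5.le) zero_le)
  filter_upwards [(ae_restrict_iff' hT).1 h6] with z hz hzO
  have hd := hg.differentiableAt (hO.mem_nhds hzO)
  by_cases hN : g z ∈ N
  · have h0 : deriv g z = 0 := by
      simpa using hz ⟨hzO, by rwa [mem_preimage, piecewise_eq_of_mem _ _ _ hzO]⟩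
    rw [gr_comp_zero hd h0 (hf.mono (singleton_subset_iff.2 (h hzO))), h0, map_zero, zero_mul]
  · refine gr_comp hd ?_
    by_contra k
    exact hN (hN1 fun a => k (a (h hzO)))

theorem BB_En (hO : IsOpen O) (hg : DifferentiableOn ℂ g O) (h : MapsTo g O O') (hf : LL O' f)
    (hA : MeasurableSet A) (hAO : A ⊆ O) :
    En A (fun z => f (g z)) = ∫⁻ z in A, ‖deriv g z‖ₑ ^ 2 * ‖gr f (g z)‖ₑ ^ 2 := by
  refine lintegral_congr_ae ((ae_restrict_iff' hA).2 ?_)
  filter_upwards [gr_comp_ae hO hg h hf] with z h1 hz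
  rw [h1 (hAO hz), enorm_mul, RCLike.enorm_conj, mul_pow]

theorem En_comp_le (hO : IsOpen O) (hg : DifferentiableOn ℂ g O) (h : MapsTo g O O') (hf : LL O' f)
    (hA : MeasurableSet A) (hAO : A ⊆ O) (hB : MeasurableSet B) (hAB : MapsTo g A B) {d : ℕ}
    (hd : ∀ w, {z ∈ A | g z = w}.encard ≤ d) : En A (fun z => f (g z)) ≤ d * En B f := by
  rw [BB_En hO hg h hf hA hAO]
  exact lint_mult hO hg hA hAO hB hAB hd ((measurable_gr f).enorm.pow_const 2)

theorem En_comp_eq (hO : IsOpen O) (hg : DifferentiableOn ℂ g O) (hi : InjOn g O)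
    (hf : LL (g '' O) f) : En O (fun z => f (g z)) = En (g '' O) f := by
  rw [BB_En hO hg (mapsTo_image g O) hf hO.measurableSet Subset.rfl]
  exact (lintegral_univ_img hO hg hi fun w => ‖gr f w‖ₑ ^ 2).symm

theorem Ip_comp_eq (hO : IsOpen O) (hg : DifferentiableOn ℂ g O) (hi : InjOn g O)
    (hf : LL (g '' O) f) (hf' : LL (g '' O) f') :
    Ip O (fun z => f (g z)) (fun z => f' (g z)) = Ip (g '' O) f f' := by
  unfold Ip
  rw [integral_image_eq_integral_abs_det_fderiv_smul volume hO.measurableSet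
    (f' := fun u => deriv g u • (1 : ℂ →L[ℝ] ℂ)) (fun u hu =>
      ((hg.differentiableAt (hO.mem_nhds hu)).hasDerivAt.complexToReal_fderiv).hasFDerivWithinAt) hi]
  refine setIntegral_congr_ae hO.measurableSet ?_
  filter_upwards [gr_comp_ae hO hg (mapsTo_image g O) hf, gr_comp_ae hO hg (mapsTo_image g O) hf']
    with z h1 h2 hz
  rw [h1 hz, h2 hz, dot_mul, BB_det, Complex.norm_conj, smul_eq_mul]

theorem tr_tend (hO : IsOpen O) (h : LL O f) (e : En O f ≠ ∞) :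
    Tendsto (fun ε => En O fun z => f z - tr ε (f z)) (𝓝[>] 0) (𝓝 0) := by
  have key : ∀ ε : ℝ, 0 < ε →
      (fun z => ‖gr (fun z => f z - tr ε (f z)) z‖ₑ ^ 2) =ᵐ[volume.restrict O]
        fun z => if ε < |f z| then 0 else ‖gr f z‖ₑ ^ 2 := fun ε hε => by
    refine (ae_restrict_iff' hO.measurableSet).2 ?_
    filter_upwards [h.ae_diff, (h.lip_comp (lipschitz_tr ε)).ae_diff, h.gr_tr hε.le]
      with z h1 h2 h3 hz
    rw [gr_sub (h1 hz) (h2 hz), h3 hz]
    split_ifs <;> simp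
  have lim := tendsto_lintegral_filter_of_dominated_convergence' (μ := volume.restrict O)
    (l := 𝓝[>] (0 : ℝ)) (F := fun ε z => if ε < |f z| then 0 else ‖gr f z‖ₑ ^ 2)
    (f := fun _ => 0) (fun z => ‖gr f z‖ₑ ^ 2)
    (eventually_mem_nhdsWithin.mono fun ε hε =>
      (((measurable_gr _).enorm.pow_const 2).aemeasurable).congr (key ε hε))
    (Eventually.of_forall fun ε => Eventually.of_forall fun z => by
      split_ifs
      · exact zero_le
      · exact le_rfl) e (by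
    refine (ae_restrict_iff' hO.measurableSet).2 ?_
    filter_upwards [h.gr_level 0] with z h1 hz
    by_cases h0 : f z = 0
    · simp [h1 hz h0]
    · refine tendsto_const_nhds.congr' ?_
      filter_upwards [mem_nhdsWithin_of_mem_nhds (Iio_mem_nhds (abs_pos.2 h0))] with ε hε
      exact (if_pos hε).symm)
  rw [lintegral_zero] at lim
  refine lim.congr' ?_
  filter_upwards [eventually_mem_nhdsWithin] with ε hε
  exact (lintegral_congr_ae (key ε hε)).symm

end Pool.Agent.Work.MP_042f46_an.Ty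
end
end

-- merged part: Pool.Agent.Work.MP_042f46_an.T.C2
section
/-!
# Extensions from the curve and pull-backs

Plans.  `Nice.lipT`: `LL.lip_compact` on the unit sphere and `lipschitz_eT`.  `nice_rad`: `LL_argT`, `LL.lip_comp`, `LL.mul`.  `extC_LL`: on `Ω` a product of compositions; a point outside `Ω` lies in the open complement of `ext φ ((1 + ρ) / 2)` (`isClosed_ext`), on which `extC` vanishes.  `extC_out`: on the open set `Ubᶜ = φ '' {ρ < ‖ζ‖}` the function is `Ξ ∘ g` with `g z = φi z / ρ` injective and holomorphic, with image `{1 < ‖ζ‖}`; `En_congr`, `En_comp_eq`.  `extC_in`: on `U ∩ Ω` the function is `k ∘ φi` with `k ζ = Ξ (ζ / ρ) * χ ‖ζ‖`, which is Lipschitz with constant `K / ρ + 2 / (ρ - 1)` and vanishes off the closed ball of radius `ρ r` around `ρ c`; on `U \ Ω` the gradient vanishes; `En_comp_le` with `d = 1`, `En_le_of_bound`, `norm_gr_le`, `Complex.volume_closedBall`.  `pb_LL`: off the poles a composition;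 near a pole `pb Φ` vanishes (`P_top`, the poles are isolated).  `pb_en`: `U \ P` has full measure in `U`; `En_comp_le` with `O = Pᶜ`, `fib`.
-/

open Set Metric Topology Filter MeasureTheory
open scoped ENNReal NNReal

noncomputable section
namespace Pool.Agent.Work.MP_042f46_an.Ty

theorem Nice.lipT {Ξ : ℂ → ℝ} (h : Nice Ξ) : (fun x => Ξ (eT x)) ∈ LipT := by
  have hs : ∀ x : T, eT x ∈ sphere (0 : ℂ) 1 := fun x => by simp [norm_eT]
  obtain ⟨K, hK⟩ := (h.lip.mono (O' := sphere (0 : ℂ) 1) fun ζ hζ h0 => by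
    rw [mem_singleton_iff] at h0
    simp [h0] at hζ).lip_compact (isCompact_sphere 0 1)
  exact ⟨K * 7, lipschitzOnWith_univ.1
    (hK.comp (lipschitz_eT.lipschitzOnWith (s := univ)) fun x _ => hs x)⟩

theorem nice_rad {u : T → ℝ} (hu : u ∈ LipT) : Nice (rad u) := by
  obtain ⟨K, hK⟩ := hu
  refine ⟨(LL_argT.lip_comp hK).mul ((LL.const _ 0).max
    ((LL.const _ 2).sub (LL.of_lip lipschitzWith_one_norm _))), 2, fun ζ hζ => ?_⟩
  rw [rad, max_eq_left (by linarith only [hζ]), mul_zero]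

theorem rad_eT (u : T → ℝ) (x : T) : rad u (eT x) = u x := by
  rw [rad, argT_eT, norm_eT]
  norm_num

theorem lipschitz_bumpC (c : T) {θ : ℝ} (hθ : 0 < θ) :
    LipschitzWith (Real.toNNReal θ⁻¹) (bumpC c θ) := by
  refine LipschitzWith.of_dist_le_mul fun a b => ?_
  rw [Real.coe_toNNReal _ (inv_pos.2 hθ).le, Real.dist_eq, dist_eq_norm, mul_comm, ← div_eq_mul_inv]
  exact bumpC_lip hθ a b

theorem nice_bumpC (c : T) {θ : ℝ} (hθ : 0 < θ) : Nice (bumpC c θ) := by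
  refine ⟨LL.of_lip (lipschitz_bumpC c hθ) _, 8 * θ + 1, fun ζ hζ => bumpC_zero hθ ?_⟩
  have h := norm_sub_norm_le ζ (eT c)
  rw [norm_eT] at h
  linarith only [hζ, h]

theorem C2_lip {k : ℂ → ℝ} {L : ℝ} (hL : 0 ≤ L) (hk : ∀ a b, |k a - k b| ≤ L * ‖a - b‖) :
    LipschitzWith (Real.toNNReal L) k := by
  refine LipschitzWith.of_dist_le_mul fun a b => ?_
  rw [Real.coe_toNNReal _ hL, Real.dist_eq, dist_eq_norm]
  exact hk a b

theorem C2_en {k : ℂ → ℝ} {L r : ℝ} {c : ℂ} (hL : 0 ≤ L) (hk : ∀ a b, |k a - k b| ≤ L * ‖a - b‖)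
    (h0 : ∀ ζ, r ≤ ‖ζ - c‖ → k ζ = 0) :
    En univ k ≤ ENNReal.ofReal (L ^ 2 * (Real.pi * r ^ 2)) := by
  refine (En_le_of_bound (B := closedBall c r) (K := L) measurableSet_closedBall (fun z _ _ => ?_)
    (fun z _ hz => ?_) MeasurableSet.univ).trans ?_
  · have := norm_gr_le ((C2_lip hL hk).lipschitzOnWith (s := univ)) (univ_mem (f := 𝓝 z))
    rwa [Real.coe_toNNReal _ hL] at this
  · rw [← gr_const 0 z]
    refine gr_congr (mem_of_superset (isClosed_closedBall.isOpen_compl.mem_nhds hz) fun w hw => ?_)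
    rw [mem_compl_iff, mem_closedBall, dist_eq_norm, not_le] at hw
    exact h0 w hw.le
  · rw [Complex.volume_closedBall, ENNReal.ofReal_mul (sq_nonneg L), mul_comm Real.pi,
      ENNReal.ofReal_mul (sq_nonneg r), ← NNReal.coe_real_pi, ENNReal.ofReal_coe_nnreal]
    gcongr
    rcases le_total 0 r with h | h
    · rw [ENNReal.ofReal_pow h]
    · rw [ENNReal.ofReal_of_nonpos h]
      simp

theorem En_bumpC (c : T) {θ : ℝ} (hθ : 0 < θ) :
    En univ (bumpC c θ) ≤ ENNReal.ofReal (64 * Real.pi) := by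
  refine (C2_en (L := θ⁻¹) (c := eT c) (r := 8 * θ) (inv_pos.2 hθ).le (fun a b => ?_)
    fun ζ hζ => bumpC_zero hθ hζ).trans (le_of_eq ?_)
  · rw [mul_comm, ← div_eq_mul_inv]
    exact bumpC_lip hθ a b
  · congr 1
    field_simp
    norm_num

theorem LipT.shift {u : T → ℝ} (hu : u ∈ LipT) (a : T) : (fun x => u (x + a)) ∈ LipT := by
  obtain ⟨K, hK⟩ := hu
  refine ⟨K, LipschitzWith.of_dist_le_mul fun x y => ?_⟩
  rw [← dist_add_right x y a]
  exact hK.dist_le_mul _ _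

/-- composition with the inverse rotation -/
def rotL (a : T) : LipT →ₗ[ℝ] LipT where
  toFun u := ⟨fun x => u.1 (x - a), by simpa only [sub_eq_add_neg] using LipT.shift u.2 (-a)⟩
  map_add' _ _ := rfl
  map_smul' _ _ := rfl

namespace Cf

variable (C : Cf) {z : ℂ}

variable {Ξ Φ : ℂ → ℝ} {u v : T → ℝ}

theorem C2_on (Ξ : ℂ → ℝ) (h : z ∈ C.Ω) :
    C.extC Ξ z = Ξ (C.φi z / C.ρ) * C.χ ‖C.φi z‖ := indicator_of_mem h _

theorem C2_one {s : ℝ} (h : C.ρ ≤ s) : C.χ s = 1 := by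
  have := C.ρ_gt
  exact clamp_one ((one_le_div (by linarith)).2 (by linarith only [h]))

theorem C2_zero {s : ℝ} (h : s ≤ (1 + C.ρ) / 2) : C.χ s = 0 := by
  have := C.ρ_gt
  exact clamp_zero (div_nonpos_of_nonpos_of_nonneg (by linarith only [h]) (by linarith only [this]))

theorem C2_χ (a b : ℂ) : |C.χ ‖a‖ - C.χ ‖b‖| ≤ 2 / (C.ρ - 1) * ‖a - b‖ := by
  have hρ : 0 < C.ρ - 1 := sub_pos.2 C.ρ_gt
  have h := lipschitz_clamp.dist_le_mul ((2 * ‖a‖ - 1 - C.ρ) / (C.ρ - 1))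
    ((2 * ‖b‖ - 1 - C.ρ) / (C.ρ - 1))
  rw [Real.dist_eq, Real.dist_eq, NNReal.coe_one, one_mul] at h
  refine h.trans ?_
  have e : (2 * ‖a‖ - 1 - C.ρ) / (C.ρ - 1) - (2 * ‖b‖ - 1 - C.ρ) / (C.ρ - 1) =
      2 / (C.ρ - 1) * (‖a‖ - ‖b‖) := by
    field_simp
    ring
  rw [e, abs_mul, abs_of_pos (div_pos two_pos hρ)]
  exact mul_le_mul_of_nonneg_left (abs_norm_sub_norm_le a b) (div_pos two_pos hρ).le

theorem C2_ρ : (C.ρ : ℂ) ≠ 0 := Complex.ofReal_ne_zero.2 C.ρ_pos.ne'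

theorem C2_norm (ζ : ℂ) : ‖ζ / (C.ρ : ℂ)‖ = ‖ζ‖ / C.ρ := by
  rw [norm_div, Complex.norm_real, Real.norm_of_nonneg C.ρ_pos.le]

theorem C2_ne (h : z ∈ C.Ω) : C.φi z / (C.ρ : ℂ) ≠ 0 :=
  div_ne_zero (norm_pos_iff.1 (one_pos.trans (C.φi_gt h))) C.C2_ρ

theorem extC_off (Ξ : ℂ → ℝ) (h : z ∉ C.Ω) : C.extC Ξ z = 0 := by
  exact indicator_of_notMem h _

theorem C2_near (Ξ : ℂ → ℝ) (h : z ∉ C.Ω) : C.extC Ξ =ᶠ[𝓝 z] fun _ => 0 := by
  have hρ : 1 < (1 + C.ρ) / 2 := by linarith only [C.ρ_gt]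
  have hc := isClosed_ext C.φ_diff C.φ_inj C.φ_top hρ
  have hz : z ∈ (ext C.φ ((1 + C.ρ) / 2))ᶜ := fun ⟨ζ, hζ, e⟩ => h ⟨ζ, hρ.trans_le hζ, e⟩
  refine mem_of_superset (hc.isOpen_compl.mem_nhds hz) fun w hw => ?_
  by_cases k : w ∈ C.Ω
  · have : ‖C.φi w‖ ≤ (1 + C.ρ) / 2 := by
      by_contra l
      exact hw ⟨C.φi w, (not_le.1 l).le, C.φ_φi k⟩
    change C.extC Ξ w = 0
    rw [C.C2_on Ξ k, C.C2_zero this, mul_zero]
  · exact C.extC_off Ξ k

theorem extC_γ (Ξ : ℂ → ℝ) (x : T) : C.extC Ξ (C.γ x) = Ξ (eT x) := by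
  rw [C.C2_on Ξ (C.γ_Ω x), C.φi_γ, C.norm_ρ, C.C2_one le_rfl, mul_one,
    mul_div_cancel_left₀ _ C.C2_ρ]

theorem extC_nonneg (h : ∀ ζ, 0 ≤ Ξ ζ) (z : ℂ) : 0 ≤ C.extC Ξ z := by
  exact indicator_nonneg (fun w _ => mul_nonneg (h _) (clamp_mem _).1) z

theorem extC_LL (h : Nice Ξ) : LL univ (C.extC Ξ) := by
  have h1 : LL C.Ω fun z => Ξ (C.φi z / C.ρ) :=
    h.lip.comp (LL.of_diff C.isOpen_Ω (C.φi_diff.div_const _)) fun w hw => C.C2_ne hw
  have h2 : LL C.Ω fun z => C.χ ‖C.φi z‖ :=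
    (LL.of_diff C.isOpen_Ω C.φi_diff).lip_comp (k := fun ζ => C.χ ‖ζ‖)
      (C2_lip (div_pos two_pos (sub_pos.2 C.ρ_gt)).le C.C2_χ)
  refine LL.of_local fun z _ => ?_
  by_cases k : z ∈ C.Ω
  · exact ⟨_, (h1.mul h2).mono (singleton_subset_iff.2 k),
      mem_of_superset (C.isOpen_Ω.mem_nhds k) fun w hw => C.C2_on Ξ hw⟩
  · exact ⟨_, LL.const _ 0, C.C2_near Ξ k⟩

theorem extC_far (h : Nice Ξ) : ∃ R : ℝ, ∀ z : ℂ, R ≤ ‖z‖ → C.extC Ξ z = 0 := by
  obtain ⟨R, hR⟩ := h.supp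
  obtain ⟨R', hR'⟩ := C.far (R * C.ρ)
  refine ⟨R', fun z hz => ?_⟩
  rw [C.C2_on Ξ (hR' z hz).1, hR _ (by
    rw [C.C2_norm, le_div_iff₀ C.ρ_pos]
    exact (hR' z hz).2), zero_mul]

theorem extC_V (h : Nice Ξ) : IsV C.U C.Ub (C.extC Ξ) :=
  LL.isV C.isOpen_U C.isCompact_Ub C.U_sub ((C.extC_LL h).mono (subset_univ _))

theorem extC_out (h : Nice Ξ) : En C.Ubᶜ (C.extC Ξ) = En {ζ | 1 < ‖ζ‖} Ξ := by
  have hO : IsOpen C.Ubᶜ := C.isCompact_Ub.isClosed.isOpen_compl
  have hs : C.Ubᶜ ⊆ C.Ω := fun z hz => by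
    by_contra k
    exact hz (C.U_sub (C.U_of_not k))
  have hg : ∀ z ∈ C.Ubᶜ, C.ρ < ‖C.φi z‖ := fun z hz =>
    not_le.1 fun k => hz ((C.mem_Ub (hs hz)).2 k)
  have hi : (fun z => C.φi z / (C.ρ : ℂ)) '' C.Ubᶜ = {ζ | 1 < ‖ζ‖} := by
    refine Subset.antisymm ?_ fun ζ (hζ : 1 < ‖ζ‖) => ?_
    · rintro _ ⟨z, hz, rfl⟩
      change 1 < ‖C.φi z / (C.ρ : ℂ)‖
      rw [C.C2_norm, one_lt_div C.ρ_pos]
      exact hg z hz
    · have h1 : C.ρ < ‖(C.ρ : ℂ) * ζ‖ := by
        rw [norm_mul, Complex.norm_real, Real.norm_of_nonneg C.ρ_pos.le]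
        exact lt_mul_of_one_lt_right C.ρ_pos hζ
      have h2 := C.ρ_gt.trans h1
      refine ⟨C.φ (C.ρ * ζ), fun k => k ⟨_, h1, rfl⟩, ?_⟩
      change C.φi (C.φ (C.ρ * ζ)) / (C.ρ : ℂ) = ζ
      rw [C.φi_φ h2, mul_div_cancel_left₀ _ C.C2_ρ]
  rw [En_congr hO (f' := fun z => Ξ (C.φi z / C.ρ)) fun z hz => by
    rw [C.C2_on Ξ (hs hz), C.C2_one (hg z hz).le, mul_one], ← hi]
  refine En_comp_eq hO ((C.φi_diff.mono hs).div_const _) (fun a ha b hb e => ?_) ?_
  · exact C.φi_inj (hs ha) (hs hb) ((div_left_inj' C.C2_ρ).1 e)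
  · rw [hi]
    refine h.lip.mono fun ζ (hζ : 1 < ‖ζ‖) => norm_pos_iff.1 (one_pos.trans hζ)

theorem extC_in {K : ℝ≥0} (h : LipschitzWith K Ξ) (h1 : ∀ ζ, |Ξ ζ| ≤ 1) {c : ℂ} {r : ℝ}
    (h0 : ∀ ζ, r ≤ ‖ζ - c‖ → Ξ ζ = 0) :
    En C.U (C.extC Ξ) ≤ ENNReal.ofReal ((K / C.ρ + 2 / (C.ρ - 1)) ^ 2 * (Real.pi * (C.ρ * r) ^ 2)) := by
  have hρ := C.ρ_pos
  have hρ1 : 0 < C.ρ - 1 := sub_pos.2 C.ρ_gt
  have hL : 0 ≤ K / C.ρ + 2 / (C.ρ - 1) := by positivity
  have hk : ∀ a b : ℂ, |Ξ (a / C.ρ) * C.χ ‖a‖ - Ξ (b / C.ρ) * C.χ ‖b‖| ≤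
      (K / C.ρ + 2 / (C.ρ - 1)) * ‖a - b‖ := fun a b => by
    have e : Ξ (a / C.ρ) * C.χ ‖a‖ - Ξ (b / C.ρ) * C.χ ‖b‖ =
        (Ξ (a / C.ρ) - Ξ (b / C.ρ)) * C.χ ‖a‖ + Ξ (b / C.ρ) * (C.χ ‖a‖ - C.χ ‖b‖) := by ring
    have i1 := h.dist_le_mul (a / C.ρ) (b / C.ρ)
    rw [Real.dist_eq, dist_eq_norm, ← sub_div, C.C2_norm] at i1
    have i2 : |C.χ ‖a‖| ≤ 1 :=
      abs_le.2 ⟨(neg_one_lt_zero.le).trans (clamp_mem _).1, (clamp_mem _).2⟩
    have i3 := mul_le_mul i1 i2 (abs_nonneg _) (by positivity)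
    have i4 := mul_le_mul (h1 (b / C.ρ)) (C.C2_χ a b) (abs_nonneg _) zero_le_one
    rw [e]
    refine (abs_add_le _ _).trans ?_
    rw [abs_mul, abs_mul]
    refine (add_le_add i3 i4).trans (le_of_eq ?_)
    ring
  have hΩ : En univ (C.extC Ξ) = En C.Ω (C.extC Ξ) := by
    rw [En, En, Measure.restrict_univ]
    refine (setLIntegral_eq_of_support_subset fun z hz => ?_).symm
    by_contra k
    refine hz ?_
    change ‖gr (C.extC Ξ) z‖ₑ ^ 2 = 0
    rw [gr_congr (C.C2_near Ξ k), gr_const]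
    simp
  refine (En_mono (subset_univ _) _).trans ?_
  rw [hΩ, En_congr C.isOpen_Ω (f' := fun z => (fun a : ℂ => Ξ (a / C.ρ) * C.χ ‖a‖) (C.φi z))
    fun z hz => C.C2_on Ξ hz,
    En_comp_eq C.isOpen_Ω C.φi_diff C.φi_inj (LL.of_lip (C2_lip hL hk) _)]
  refine (En_mono (subset_univ _) _).trans (C2_en (c := C.ρ * c) hL hk fun ζ hζ => ?_)
  rw [h0 _ ?_, zero_mul]
  have e : ζ / C.ρ - c = (ζ - C.ρ * c) / C.ρ := by
    rw [sub_div, mul_div_cancel_left₀ _ C.C2_ρ]
  rw [e, C.C2_norm, le_div_iff₀ hρ, mul_comm]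
  exact hζ

theorem ex_γ (u : T → ℝ) (x : T) : C.ex u (C.γ x) = u x := by
  rw [ex, C.extC_γ, rad_eT]

theorem ex_add (u v : T → ℝ) (z : ℂ) : C.ex (fun x => u x + v x) z = C.ex u z + C.ex v z := by
  by_cases k : z ∈ C.Ω
  · simp only [ex, C.C2_on _ k, rad]
    ring
  · simp only [ex, C.extC_off _ k, add_zero]

theorem ex_mul (c : ℝ) (u : T → ℝ) (z : ℂ) : C.ex (fun x => c * u x) z = c * C.ex u z := by
  by_cases k : z ∈ C.Ω
  · simp only [ex, C.C2_on _ k, rad]
    ring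
  · simp only [ex, C.extC_off _ k, mul_zero]

theorem ex_nonneg (h : ∀ x, 0 ≤ u x) (z : ℂ) : 0 ≤ C.ex u z := by
  exact C.extC_nonneg (fun ζ => mul_nonneg (h _) (le_max_left _ _)) z

theorem ex_rot (u : T → ℝ) (h : z ∈ C.Ω) :
    C.ex (fun x => u (x - (C.α : T))) (C.F z) = C.ex u z := by
  rw [ex, ex, C.C2_on _ (C.F_Ω h), C.C2_on _ h, C.φi_F h, mul_div_assoc, rad, rad,
    argT_rot _ (C.C2_ne h), add_sub_cancel_right, norm_mul, norm_mul, norm_e, one_mul, one_mul]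

theorem ex_ne (h : C.ex u z ≠ 0) : z ∈ C.Ω ∧ u (argT (C.φi z)) ≠ 0 := by
  have k : z ∈ C.Ω := by
    by_contra k
    exact h (C.extC_off _ k)
  refine ⟨k, fun l => h ?_⟩
  have e : argT (C.φi z / C.ρ) = argT (C.φi z) := by
    rw [argT, argT, div_eq_inv_mul (C.φi z), ← Complex.ofReal_inv,
      Complex.arg_real_mul _ (inv_pos.2 C.ρ_pos)]
  rw [ex, C.C2_on _ k, rad, e, l, zero_mul, zero_mul]

theorem ex_V (hu : u ∈ LipT) : IsV C.U C.Ub (C.ex u) := C.extC_V (nice_rad hu)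

theorem pb_eq (Φ : ℂ → ℝ) (h : z ∉ C.P) : C.pb Φ z = Φ (C.F z) := by
  exact indicator_of_mem (s := C.Pᶜ) h _

theorem pb_nonneg (h : ∀ z, 0 ≤ Φ z) (z : ℂ) : 0 ≤ C.pb Φ z := by
  exact indicator_nonneg (fun w _ => h _) z

theorem pb_γ (Φ : ℂ → ℝ) (x : T) : C.pb Φ (C.γ x) = Φ (C.γ (x + (C.α : T))) := by
  rw [C.pb_eq Φ (C.not_P (C.γ_Ω x)), C.F_γ]

theorem pb_LL (h : LL univ Φ) {R : ℝ} (hR : ∀ z : ℂ, R ≤ ‖z‖ → Φ z = 0) : LL univ (C.pb Φ) := by
  have h1 : LL C.Pᶜ fun z => Φ (C.F z) :=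
    h.comp (LL.of_diff C.isOpen_P C.F_diff) fun w _ => mem_univ _
  have h0 : ∀ w ∈ C.P, C.pb Φ w = 0 := fun w hw =>
    indicator_of_notMem (s := C.Pᶜ) (not_not.2 hw) _
  refine LL.of_local fun z _ => ?_
  by_cases k : z ∈ C.P
  · refine ⟨_, LL.const _ 0, ?_⟩
    have h2 := (tendsto_norm_atTop_iff_cobounded.2 (C.P_top z k)).eventually_ge_atTop R
    refine (eventually_nhdsWithin_iff.1 h2).mono fun w hw => ?_
    by_cases l : w ∈ C.P
    · exact h0 w l
    · rw [C.pb_eq Φ l]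
      exact hR _ (hw fun e => l (mem_singleton_iff.1 e ▸ k))
  · exact ⟨_, h1.mono (singleton_subset_iff.2 k),
      mem_of_superset (C.isOpen_P.mem_nhds k) fun w hw => C.pb_eq Φ hw⟩

theorem pb_en (h : LL univ Φ) : En C.U (C.pb Φ) ≤ C.d * En univ Φ := by
  have hO : IsOpen (C.U \ C.P) := C.isOpen_U.inter C.isOpen_P
  have e : En C.U (C.pb Φ) = En (C.U \ C.P) (C.pb Φ) :=
    setLIntegral_congr (sdiff_null_ae_eq_self (C.P_fin.measure_zero _)).symm
  rw [e, En_congr hO (f' := fun z => Φ (C.F z)) fun z hz => C.pb_eq Φ hz.2]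
  refine En_comp_le C.isOpen_P C.F_diff (fun w _ => mem_univ _) h hO.measurableSet
    (fun z hz => hz.2) MeasurableSet.univ (fun w _ => mem_univ _) fun w => ?_
  exact le_trans (encard_le_encard fun z hz => And.intro hz.1.2 hz.2) (C.fib w)

end Cf

end Pool.Agent.Work.MP_042f46_an.Ty
end
end

-- merged part: Pool.Agent.Work.MP_042f46_an.T.A1
section
/-!
# Sets of pairs, covering and counting

Plans.  `cover`: centres `c + (-R + k r)`, `k < n`; a point `c + t` with `|t| < R` (`exists_rep`) has `k = ⌊(t + R) / r⌋₊`.  `sep_card`: write `x i = c + t i` with `|t i| < R`; `i ↦ ⌊(t i + R) / η⌋₊` is injective (`dist_add_coe_le`) with values in `range (⌊2 R / η⌋₊ + 1)`.  `mult`: integrate `∑ indicator (X i) 1 ≤ k * indicator Y 1` (`integral_indicator_one`, `integral_finset_sum`).  `DD_ge`: `lintegral_indicator_one`, `lintegral_mono`.  `off_fin`: for `0 < r ≤ 1` cover the circle (the ball of radius one) by balls of radius `r / 4`;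 a pair at distance at least `r` starting in `ball c (r / 4)` lies in `ball c (r / 4) ×ˢ {y | r / 2 ≤ dist y c}`, use `DD_ge` with `bump c (r / 4)`.  `off_arc`: `le_dist_coe` with `r = min (x₃ - x₂) (x₁ + 1 - x₄)`.
-/

open Set Metric Topology Filter MeasureTheory
open scoped ENNReal NNReal

noncomputable section
namespace Pool.Agent.Work.MP_042f46_an.Ty

theorem isCompact_arc (a b : ℝ) : IsCompact (arc a b) := by
  exact isCompact_Icc.image continuous_coeT

theorem measurableSet_arc (a b : ℝ) : MeasurableSet (arc a b) := by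
  exact (isCompact_arc a b).isClosed.measurableSet

theorem arc_mono {a b a' b' : ℝ} (h₁ : a' ≤ a) (h₂ : b ≤ b') : arc a b ⊆ arc a' b' := by
  exact image_mono (Icc_subset_Icc h₁ h₂)

theorem arc_add_one (a b : ℝ) : arc (a + 1) (b + 1) = arc a b := by
  ext x
  constructor
  · rintro ⟨t, ht, rfl⟩
    refine ⟨t - 1, ⟨by linarith [ht.1], by linarith [ht.2]⟩, ?_⟩
    rw [← coe_add_one, sub_add_cancel]
  · rintro ⟨t, ht, rfl⟩
    exact ⟨t + 1, ⟨by linarith [ht.1], by linarith [ht.2]⟩, coe_add_one t⟩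

theorem measurableSet_SS {A : Set T} (hA : MeasurableSet A) (r s : ℝ) :
    MeasurableSet (SS A r s) := by
  have h : Measurable fun p : T × T => dist p.1 p.2 := continuous_dist.measurable
  exact (measurable_fst hA).inter ((measurableSet_le measurable_const h).inter
    (measurableSet_lt h measurable_const))

theorem measurableSet_sh (a : ℝ) {X : Set (T × T)} (hX : MeasurableSet X) :
    MeasurableSet (sh a X) := by
  have h : Continuous fun p : T × T => (p.1 + (a : T), p.2 + (a : T)) := by fun_prop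
  exact h.measurable hX

theorem sh_sh (a b : ℝ) (X : Set (T × T)) : sh a (sh b X) = sh (a + b) X := by
  ext p
  simp only [sh, mem_ofPred_eq, AddCircle.coe_add, add_assoc]

theorem sh_zero (X : Set (T × T)) : sh 0 X = X := by
  ext p
  simp [sh]

theorem sh_mono (a : ℝ) {X Y : Set (T × T)} (h : X ⊆ Y) : sh a X ⊆ sh a Y := by
  exact fun _ hp => h hp

theorem sh_SS (a : ℝ) (A : Set T) (r s : ℝ) :
    sh a (SS A r s) = SS {x | x + (a : T) ∈ A} r s := by
  ext p
  simp only [sh, SS, mem_ofPred_eq, dist_add_right]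

theorem sh_ball (a : ℝ) (c : T) (R r s : ℝ) :
    sh a (SS (ball (c + (a : T)) R) r s) = SS (ball c R) r s := by
  ext p
  simp only [sh, SS, mem_ofPred_eq, mem_ball, dist_add_right]

theorem SS_mono {A A' : Set T} {r s r' s' : ℝ} (hA : A ⊆ A') (hr : r' ≤ r) (hs : s ≤ s') :
    SS A r s ⊆ SS A' r' s' := by
  exact fun _ hp => ⟨hA hp.1, hr.trans hp.2.1, hp.2.2.trans_le hs⟩

theorem SS_sub_two (A : Set T) (r s : ℝ) : SS A r s ⊆ SS A r 2 := by
  exact fun p hp => ⟨hp.1, hp.2.1, by linarith only [dist_le_half p.1 p.2]⟩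

theorem SS_split (A : Set T) (r s t : ℝ) : SS A r t ⊆ SS A r s ∪ SS A s t := by
  intro p hp
  rcases lt_or_ge (dist p.1 p.2) s with h | h
  · exact Or.inl ⟨hp.1, hp.2.1, h⟩
  · exact Or.inr ⟨hp.1, h, hp.2.2⟩

theorem SS_two (A : Set T) (s : ℝ) : SS A 2 s = ∅ := by
  exact eq_empty_of_forall_notMem fun p hp => by linarith only [hp, dist_le_half p.1 p.2, hp.2.1]

theorem Off.mono {X Y : Set (T × T)} (h : Off Y) (hX : X ⊆ Y) : Off X := by
  obtain ⟨r, hr, h⟩ := h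
  exact ⟨r, hr, fun p hp => h p (hX hp)⟩

theorem Off.union {X Y : Set (T × T)} (hX : Off X) (hY : Off Y) : Off (X ∪ Y) := by
  obtain ⟨r, hr, h⟩ := hX
  obtain ⟨r', hr', h'⟩ := hY
  refine ⟨min r r', lt_min hr hr', fun p hp => hp.elim (fun k => ?_) fun k => ?_⟩
  · exact (min_le_left _ _).trans (h p k)
  · exact (min_le_right _ _).trans (h' p k)

theorem Off.sh {X : Set (T × T)} (h : Off X) (a : ℝ) : Off (sh a X) := by
  obtain ⟨r, hr, h⟩ := h
  exact ⟨r, hr, fun p hp => by simpa only [dist_add_right] using h _ hp⟩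

theorem off_SS (A : Set T) {r : ℝ} (hr : 0 < r) (s : ℝ) : Off (SS A r s) := by
  exact ⟨r, hr, fun _ hp => hp.2.1⟩

theorem off_arc {x₁ x₂ x₃ x₄ : ℝ} (h₂ : x₂ < x₃) (h₄ : x₄ < x₁ + 1) :
    Off (arc x₁ x₂ ×ˢ arc x₃ x₄) := by
  refine ⟨min (x₃ - x₂) (x₁ + 1 - x₄), lt_min (by linarith) (by linarith), ?_⟩
  rintro ⟨_, _⟩ ⟨⟨s, hs, rfl⟩, ⟨t, ht, rfl⟩⟩
  have h1 := min_le_left (x₃ - x₂) (x₁ + 1 - x₄)
  have h2 := min_le_right (x₃ - x₂) (x₁ + 1 - x₄)
  have h3 : |s - t| = t - s := by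
    rw [abs_sub_comm, abs_of_nonneg (by linarith only [h₂, hs, ht, hs.2, ht.1])]
  exact le_dist_coe (by linarith only [h1, h3, hs, ht, hs.2, ht.1]) (by linarith only [h2, h3, hs, ht, hs.1, ht.2])

theorem cover (c : T) {R r : ℝ} (hr : 0 < r) (n : ℕ) (h : 2 * R ≤ n * r) :
    ∃ x : ℕ → T, ball c R ⊆ ⋃ k ∈ Finset.range n, ball (x k) r := by
  refine ⟨fun k => c + ((-R + k * r : ℝ) : T), fun y hy => ?_⟩
  obtain ⟨t, rfl, ht⟩ := exists_rep c y
  obtain ⟨h1, h2⟩ := abs_lt.1 (ht.trans_lt hy)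
  have h3 : 0 ≤ (t + R) / r := div_nonneg (by linarith only [h1]) hr.le
  have h4 := (le_div_iff₀ hr).1 (Nat.floor_le h3)
  have h5 := (div_lt_iff₀ hr).1 (Nat.lt_floor_add_one ((t + R) / r))
  refine mem_biUnion (x := ⌊(t + R) / r⌋₊) ?_ ((dist_add_coe_le c _ _).trans_lt ?_)
  · rw [Finset.mem_coe, Finset.mem_range, Nat.floor_lt h3, div_lt_iff₀ hr]
    linarith only [h, h2]
  · rw [abs_lt]
    constructor <;> linarith only [hr, h4, h5]

theorem sep_card {ι : Type} (s : Finset ι) (x : ι → T) (c : T) {R η : ℝ} (hR : 0 ≤ R) (hη : 0 < η)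
    (hs : ∀ i ∈ s, ∀ j ∈ s, i ≠ j → η ≤ dist (x i) (x j)) (hb : ∀ i ∈ s, x i ∈ ball c R) :
    (s.card : ℝ) ≤ 2 * R / η + 1 := by
  choose t ht using fun i => exists_rep c (x i)
  have h1 : ∀ i ∈ s, -R < t i ∧ t i < R := fun i hi => abs_lt.1 ((ht i).2.trans_lt (hb i hi))
  have h2 : s.card ≤ (Finset.range (⌊2 * R / η⌋₊ + 1)).card := by
    refine Finset.card_le_card_of_injOn (fun i => ⌊(t i + R) / η⌋₊) (fun i hi => ?_)
      fun i hi j hj e => ?_
    · rw [Finset.mem_coe, Finset.mem_range, Nat.lt_succ_iff]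
      exact Nat.floor_mono (div_le_div_of_nonneg_right (by linarith [(h1 i hi).2]) hη.le)
    · by_contra hne
      have k := hs i hi j hj hne
      rw [(ht i).1, (ht j).1] at k
      have k1 := k.trans (dist_add_coe_le c _ _)
      have a1 := (le_div_iff₀ hη).1 (Nat.floor_le
        (div_nonneg (show 0 ≤ t i + R by linarith only [h1, hi, (h1 i hi).1]) hη.le))
      have a2 := (div_lt_iff₀ hη).1 (Nat.lt_floor_add_one ((t i + R) / η))
      have a3 := (le_div_iff₀ hη).1 (Nat.floor_le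
        (div_nonneg (show 0 ≤ t j + R by linarith only [h1, hj, (h1 j hj).1]) hη.le))
      have a4 := (div_lt_iff₀ hη).1 (Nat.lt_floor_add_one ((t j + R) / η))
      simp only at e
      rw [e] at a1 a2
      refine absurd k1 (not_le.2 (abs_lt.2 ?_))
      constructor <;> linarith only [a1, a4, a2, a3]
  rw [Finset.card_range] at h2
  have h3 : (s.card : ℝ) ≤ (⌊2 * R / η⌋₊ : ℝ) + 1 := by exact_mod_cast h2
  linarith only [h3, hR, hη, Nat.floor_le (show 0 ≤ 2 * R / η by positivity)]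

open Classical in
theorem mult {Z ι : Type} [MeasurableSpace Z] (μ : Measure Z) [IsFiniteMeasure μ] (s : Finset ι)
    {X : ι → Set Z} {Y : Set Z} (hX : ∀ i ∈ s, MeasurableSet (X i)) (hY : MeasurableSet Y)
    (hXY : ∀ i ∈ s, X i ⊆ Y) {k : ℝ} (hk : ∀ p ∈ Y, ((s.filter fun i => p ∈ X i).card : ℝ) ≤ k) :
    ∑ i ∈ s, μ.real (X i) ≤ k * μ.real Y := by
  have hi : ∀ i ∈ s, Integrable ((X i).indicator (1 : Z → ℝ)) μ := fun i hi =>
    (integrable_const (1 : ℝ)).indicator (hX i hi)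
  have h1 : ∑ i ∈ s, μ.real (X i) = ∫ p, ∑ i ∈ s, (X i).indicator (1 : Z → ℝ) p ∂μ := by
    rw [integral_finsetSum _ hi]
    exact Finset.sum_congr rfl fun i hi => (integral_indicator_one (hX i hi)).symm
  rw [h1, ← integral_indicator_one hY, ← integral_const_mul]
  refine integral_mono (integrable_finsetSum _ hi)
    (((integrable_const (1 : ℝ)).indicator hY).const_mul k) fun p => ?_
  by_cases hp : p ∈ Y
  · simpa [indicator_apply, hp] using hk p hp
  · have : ∀ i ∈ s, (X i).indicator (1 : Z → ℝ) p = 0 := fun i hi =>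
      indicator_of_notMem (fun k => hp (hXY i hi k)) _
    simp [Finset.sum_eq_zero this, hp]

theorem swap_apply {μ : Measure (T × T)} (h : μ.map Prod.swap = μ) {X : Set (T × T)}
    (hX : MeasurableSet X) : μ (Prod.swap ⁻¹' X) = μ X := by
  rw [← Measure.map_apply measurable_swap hX, h]

theorem swap_prod {μ : Measure (T × T)} (h : μ.map Prod.swap = μ) {A B : Set T}
    (hA : MeasurableSet A) (hB : MeasurableSet B) : μ (A ×ˢ B) = μ (B ×ˢ A) := by
  rw [← swap_apply h (hA.prod hB), preimage_swap_prod]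

theorem DD_ge (H : Measure (T × T)) {u : T → ℝ} {X : Set (T × T)} (hX : MeasurableSet X)
    (h : ∀ p ∈ X, u p.1 = 1 ∧ u p.2 = 0) : H X ≤ DD H u := by
  rw [← lintegral_indicator_one hX]
  refine lintegral_mono fun p => ?_
  by_cases hp : p ∈ X
  · simp [hp, (h p hp).1, (h p hp).2]
  · simp [hp]

theorem off_fin {H : Measure (T × T)} (hH : FinB H) {X : Set (T × T)} (hX : Off X) : H X ≠ ∞ := by
  obtain ⟨R, hR⟩ := hH
  obtain ⟨r, hr, hr1, h⟩ : ∃ r : ℝ, 0 < r ∧ r ≤ 1 ∧ ∀ p ∈ X, r ≤ dist p.1 p.2 := by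
    obtain ⟨r, hr, h⟩ := hX
    exact ⟨min r 1, lt_min hr one_pos, min_le_right _ _, fun p hp => (min_le_left _ _).trans (h p hp)⟩
  have hq : 0 < r / 4 := by positivity
  obtain ⟨x, hx⟩ := cover 0 (R := 1) hq ⌈2 * 1 / (r / 4)⌉₊ ((div_le_iff₀ hq).1 (Nat.le_ceil _))
  have h1 : X ⊆ ⋃ k ∈ Finset.range ⌈2 * 1 / (r / 4)⌉₊,
      ball (x k) (r / 4) ×ˢ {y | 2 * (r / 4) ≤ dist y (x k)} := fun p hp => by
    obtain ⟨k, hk, h2⟩ := mem_iUnion₂.1 (hx (show p.1 ∈ ball (0 : T) 1 from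
      (dist_le_half _ _).trans_lt (by norm_num)))
    refine mem_iUnion₂.2 ⟨k, hk, h2, ?_⟩
    have h3 := dist_triangle_right p.1 p.2 (x k)
    have h4 := h p hp
    have h5 := mem_ball.1 h2
    change 2 * (r / 4) ≤ dist p.2 (x k)
    linarith only [hr, h3, h4, h5]
  refine ne_top_of_le_ne_top ?_ ((measure_mono h1).trans (measure_biUnion_finset_le _ _))
  refine ENNReal.sum_ne_top.2 fun k _ => ne_top_of_le_ne_top ENNReal.ofReal_ne_top
    ((DD_ge H ?_ fun p hp => ?_).trans (hR (x k) (r / 4) hq (by linarith only [hr1])))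
  · exact measurableSet_ball.prod
      (isClosed_le continuous_const (continuous_id.dist continuous_const)).measurableSet
  · exact ⟨bump_one hq (mem_ball.1 hp.1).le, bump_zero hq hp.2⟩

end Pool.Agent.Work.MP_042f46_an.Ty
end
end

-- merged part: Pool.Agent.Work.MP_042f46_an.T.B6
section
/-!
# The excursion measure of the disc

Plans.  `H0_symm`: for measurable `X`, `withDensity_apply`, `lintegral_prod_swap` or `Measure.measurePreserving_swap`.  `H0_line`: the product measure of the line is zero, `withDensity_absolutelyContinuous`.  `H0_rect`: `‖e s - e t‖ ^ 2 = 4 sin (π (s - t)) ^ 2`; the map from `Ioc x₁ (x₁ + 1)` to the circle preserves measure (`UnitAddCircle.measurePreserving_mk`, `UnitAddCircle.lintegral_preimage`), so the mass is the iterated integral of `π ^ 2 / sin (π (t - s)) ^ 2` over `s ∈ [x₁, x₂]`, `t ∈ [x₃, x₄]`; all differences `t - s` lie in `(0, 1)`; primitives `-π cot (π (t - s))` in `t` and `log sin`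 in `s`.  `H0_dual`: `H0_rect` twice (the second time with `x₂, x₃, x₄, x₁ + 1`), `sin (π (x + 1 - y)) = sin (π (y - x))`, and the identity `sin (c - a) sin (d - b) = sin (b - a) sin (d - c) + sin (c - b) sin (d - a)`.
-/

open Set Metric Topology Filter MeasureTheory
open scoped ENNReal NNReal

noncomputable section
namespace Pool.Agent.Work.MP_042f46_an.Ty

theorem B6_meas : Measurable fun p : T × T =>
    ENNReal.ofReal (4 * Real.pi ^ 2 / ‖eT p.1 - eT p.2‖ ^ 2) :=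
  (measurable_const.div (((continuous_eT.comp continuous_fst).sub
    (continuous_eT.comp continuous_snd)).norm.pow 2).measurable).ennreal_ofReal

theorem B6_chord (s t : ℝ) : ‖eT s - eT t‖ ^ 2 = 4 * Real.sin (Real.pi * (t - s)) ^ 2 := by
  have h : e t - e s = e s * (Complex.exp (Complex.I * (2 * (Real.pi * (t - s)) : ℝ)) - 1) := by
    rw [mul_sub, mul_one, e, e, ← Complex.exp_add]
    push_cast
    ring_nf
  rw [eT_coe, eT_coe, norm_sub_rev, h, norm_mul, norm_e, Complex.norm_exp_I_mul_ofReal_sub_one,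
    one_mul, Real.norm_eq_abs, sq_abs, mul_div_cancel_left₀ _ two_ne_zero]
  ring

theorem B6_sin {t : ℝ} (h₀ : 0 < t) (h₁ : t < 1) : 0 < Real.sin (Real.pi * t) :=
  Real.sin_pos_of_pos_of_lt_pi (mul_pos Real.pi_pos h₀) (mul_lt_of_lt_one_right Real.pi_pos h₁)

theorem B6_arc {a b : ℝ} (h : b < a + 1) (f : T → ℝ≥0∞) :
    ∫⁻ x in arc a b, f x = ∫⁻ s in Icc a b, f s := by
  have sub : Icc a b ⊆ Ioc (b - 1) (b - 1 + 1) := fun s hs => ⟨by linarith [hs.1], by linarith [hs.2]⟩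
  rw [← lintegral_indicator (measurableSet_arc a b), ← UnitAddCircle.lintegral_preimage (b - 1),
    ← inter_eq_left.2 sub, ← Measure.restrict_restrict measurableSet_Icc,
    ← lintegral_indicator measurableSet_Icc]
  refine setLIntegral_congr_fun measurableSet_Ioc fun s hs => ?_
  by_cases k : s ∈ Icc a b
  · simp only [indicator_of_mem k, indicator_of_mem (mem_image_of_mem ((↑) : ℝ → T) k), arc]
  · rw [indicator_of_notMem k, indicator_of_notMem]
    rintro ⟨u, hu, e⟩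
    exact k ((AddCircle.coe_eq_coe_iff_of_mem_Ioc (sub hu) hs).1 e ▸ hu)

theorem B6_ftc {F f : ℝ → ℝ} {a b : ℝ} (h : a ≤ b) (hF : ∀ t ∈ Icc a b, HasDerivAt F (f t) t)
    (h0 : ∀ t ∈ Icc a b, 0 ≤ f t) :
    0 ≤ F b - F a ∧ ∫⁻ t in Icc a b, ENNReal.ofReal (f t) = ENNReal.ofReal (F b - F a) := by
  have c : ContinuousOn F (Icc a b) := fun t ht => (hF t ht).continuousAt.continuousWithinAt
  have d := fun t ht => hF t (Ioo_subset_Icc_self ht)
  have i := intervalIntegral.integrableOn_deriv_of_nonneg c d fun t ht =>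
    h0 t (Ioo_subset_Icc_self ht)
  rw [← intervalIntegral.integral_eq_sub_of_hasDerivAt_of_le h c d
    ((intervalIntegrable_iff_integrableOn_Ioc_of_le h).2 i)]
  refine ⟨intervalIntegral.integral_nonneg h h0, ?_⟩
  rw [intervalIntegral.integral_of_le h, ofReal_integral_eq_lintegral_ofReal i
    (ae_restrict_of_forall_mem measurableSet_Ioc fun t ht => h0 t (Ioc_subset_Icc_self ht)),
    Measure.restrict_congr_set Ioc_ae_eq_Icc]

theorem H0_symm : H0.map Prod.swap = H0 := by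
  ext X hX
  rw [Measure.map_apply measurable_swap hX, H0, withDensity_apply _ (measurable_swap hX),
    withDensity_apply _ hX, ← Measure.measurePreserving_swap.setLIntegral_comp_preimage hX B6_meas]
  simp only [Prod.fst_swap, Prod.snd_swap, norm_sub_rev]

theorem H0_line (y : T) : H0 (univ ×ˢ {y}) = 0 := by
  refine withDensity_absolutelyContinuous _ _ ?_
  rw [Measure.prod_prod, ← closedBall_zero, AddCircle.volume_closedBall]
  simp

theorem H0_rect {x₁ x₂ x₃ x₄ : ℝ} (h₁ : x₁ < x₂) (h₂ : x₂ < x₃) (h₃ : x₃ < x₄) (h₄ : x₄ < x₁ + 1) :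
    H0.real (arc x₁ x₂ ×ˢ arc x₃ x₄) =
      Real.log (Real.sin (Real.pi * (x₃ - x₁)) * Real.sin (Real.pi * (x₄ - x₂)) /
        (Real.sin (Real.pi * (x₃ - x₂)) * Real.sin (Real.pi * (x₄ - x₁)))) := by
  have sp : ∀ s ∈ Icc x₁ x₂, ∀ t ∈ Icc x₃ x₄, Real.sin (Real.pi * (t - s)) ≠ 0 := fun s hs t ht =>
    (B6_sin (by linarith only [h₂, hs, ht, hs.2, ht.1]) (by linarith only [h₄, hs, ht, hs.1, ht.2])).ne'
  have d : ∀ s t : ℝ, HasDerivAt (fun t => Real.pi * (t - s)) Real.pi t := fun s t => by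
    simpa using ((hasDerivAt_id t).sub_const s).const_mul Real.pi
  have d' : ∀ s t : ℝ, HasDerivAt (fun s => Real.pi * (t - s)) (-Real.pi) s := fun s t => by
    simpa using ((hasDerivAt_id s).const_sub t).const_mul Real.pi
  have i1 := fun s hs => B6_ftc (f := fun t => Real.pi ^ 2 / Real.sin (Real.pi * (t - s)) ^ 2)
    (F := fun t => -Real.pi * (Real.cos (Real.pi * (t - s)) / Real.sin (Real.pi * (t - s)))) h₃.le
    (fun t ht => (((d s t).cos.div (d s t).sin (sp s hs t ht)).const_mul _).congr_deriv (by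
      have := sp s hs t ht
      field_simp
      linear_combination Real.sin_sq_add_cos_sq (Real.pi * (t - s)))) fun t _ => by positivity
  have i2 := B6_ftc (F := fun s => Real.log (Real.sin (Real.pi * (x₄ - s))) -
    Real.log (Real.sin (Real.pi * (x₃ - s)))) h₁.le (fun s hs =>
      (((d' s x₄).sin.log (sp s hs _ ⟨h₃.le, le_rfl⟩)).sub
        ((d' s x₃).sin.log (sp s hs _ ⟨le_rfl, h₃.le⟩))).congr_deriv (by ring))
    fun s hs => (i1 s hs).1
  have l : x₁ ∈ Icc x₁ x₂ := ⟨le_rfl, h₁.le⟩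
  have r : x₂ ∈ Icc x₁ x₂ := ⟨h₁.le, le_rfl⟩
  have l' : x₃ ∈ Icc x₃ x₄ := ⟨le_rfl, h₃.le⟩
  have r' : x₄ ∈ Icc x₃ x₄ := ⟨h₃.le, le_rfl⟩
  rw [Measure.real, H0, withDensity_apply _ ((measurableSet_arc _ _).prod (measurableSet_arc _ _)),
    setLIntegral_prod _ B6_meas.aemeasurable, B6_arc (by linarith only [h₂, h₃, h₄]),
    setLIntegral_congr_fun measurableSet_Icc fun s hs => ?_, i2.2, ENNReal.toReal_ofReal i2.1,
    Real.log_div (mul_ne_zero (sp _ l _ l') (sp _ r _ r')) (mul_ne_zero (sp _ r _ l') (sp _ l _ r')),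
    Real.log_mul (sp _ l _ l') (sp _ r _ r'), Real.log_mul (sp _ r _ l') (sp _ l _ r')]
  · ring
  · rw [B6_arc (by linarith), ← (i1 s hs).2]
    simp only [B6_chord, mul_div_mul_left _ _ (four_ne_zero (α := ℝ))]

theorem H0_dual : Dual H0 := by
  intro x₁ x₂ x₃ x₄ h₁ h₂ h₃ h₄
  have e : ∀ y, Real.sin (Real.pi * (x₁ + 1 - y)) = Real.sin (Real.pi * (y - x₁)) := fun y => by
    rw [← Real.sin_pi_sub]
    ring_nf
  have p21 := B6_sin (t := x₂ - x₁) (by linarith) (by linarith)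
  have p31 := B6_sin (t := x₃ - x₁) (by linarith) (by linarith only [h₃, h₄])
  have p41 := B6_sin (t := x₄ - x₁) (by linarith) (by linarith)
  have p32 := B6_sin (t := x₃ - x₂) (by linarith) (by linarith only [h₁, h₃, h₄])
  have p42 := B6_sin (t := x₄ - x₂) (by linarith only [h₂, h₃]) (by linarith only [h₁, h₄])
  have p43 := B6_sin (t := x₄ - x₃) (by linarith only [h₃]) (by linarith only [h₁, h₂, h₄])
  have k : Real.sin (Real.pi * (x₃ - x₁)) * Real.sin (Real.pi * (x₄ - x₂)) =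
      Real.sin (Real.pi * (x₂ - x₁)) * Real.sin (Real.pi * (x₄ - x₃)) +
        Real.sin (Real.pi * (x₃ - x₂)) * Real.sin (Real.pi * (x₄ - x₁)) := by
    simp only [mul_sub, Real.sin_sub]
    ring
  rw [H0_rect h₁ h₂ h₃ h₄, H0_rect h₂ h₃ h₄ (by linarith only [h₁]), e, e, Real.exp_log (by positivity),
    Real.exp_log (by positivity), mul_comm (Real.sin (Real.pi * (x₄ - x₂))), k]
  field_simp
  ring

end Pool.Agent.Work.MP_042f46_an.Ty
end
end

-- merged part: Pool.Agent.Work.MP_042f46_an.T.B3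
section
/-!
# Harmonic functions are orthogonal to functions vanishing on the boundary

Plans.  `green_cpt`: choose a Lipschitz cut-off `χ` with compact support in `O` equal to one near `S` (`IsCompact.exists_cthickening_subset_open`, `clamp (2 - infDist z S / δ)`); `a = indicator O (χ * re (deriv A))` and `b = indicator O (χ * im (deriv A))` are Lipschitz on the plane (`LL.lip_global`); `LipschitzWith.integral_lineDeriv_mul_eq` in the directions `1` and `I` turns the integral of `a ∂₁ζ - b ∂₂ζ` into that of `-(∂₁a - ∂₂b) ζ`, which vanishes by the Cauchy-Riemann equations for `deriv A` near `S` (`gr_re` for `deriv A` and for `-I * deriv A`); off `S` both `ζ` and its gradient vanish.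
`green`: `ζ ε = indicator Ob (tr ε ∘ ζ)` vanishes off the compact set `S = {z ∈ Ob | ε ≤ |ζ z|} ⊆ O`, it is locally Lipschitz on the plane, hence Lipschitz; on `O` it equals `tr ε ∘ ζ`; let `ε → 0` with `tr_tend`, `Ip_sub`, `Ip_sq_le`.
-/

open Set Metric Topology Filter MeasureTheory
open scoped ENNReal NNReal

noncomputable section
namespace Pool.Agent.Work.MP_042f46_an.Ty

theorem B3_lip {O S : Set ℂ} (hS : IsCompact S) (hSO : S ⊆ O) {p : ℂ → ℝ} (hp : LL O p)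
    (h0 : ∀ z, z ∉ S → p z = 0) : ∃ K, LipschitzWith K p := by
  obtain ⟨R, hR⟩ := hS.isBounded.subset_ball 0
  refine LL.lip_global (R := R) (fun z _ => ?_) fun z hz => h0 z fun h => ?_
  · by_cases hz : z ∈ S
    · exact hp z (hSO hz)
    · refine ⟨0, Sᶜ, hS.isClosed.isOpen_compl.mem_nhds hz, fun x hx y hy => ?_⟩
      simp [h0 x hx, h0 y hy]
  · exact absurd (mem_ball_zero_iff.1 (hR h)) (not_lt.2 hz)

theorem B3_off {S : Set ℂ} (hS : IsCompact S) {p : ℂ → ℝ} (h0 : ∀ z, z ∉ S → p z = 0) {z : ℂ}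
    (hz : z ∉ S) : fderiv ℝ p z = 0 := by
  have e : p =ᶠ[𝓝 z] fun _ => 0 := by
    filter_upwards [hS.isClosed.isOpen_compl.mem_nhds hz] with w hw using h0 w hw
  rw [e.fderiv_eq]
  simp

theorem B3_zero {O S : Set ℂ} (hS : IsCompact S) (hSO : S ⊆ O) {p : ℂ → ℝ} (hp : LL O p)
    (h0 : ∀ z, z ∉ S → p z = 0) (v : ℂ) :
    Integrable (fun z => fderiv ℝ p z v) ∧ ∫ z, fderiv ℝ p z v = 0 := by
  obtain ⟨K, hK⟩ := B3_lip hS hSO hp h0
  have e : (fun z => lineDeriv ℝ p z v) =ᵐ[volume] fun z => fderiv ℝ p z v := by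
    filter_upwards [hK.ae_differentiableAt] with z hz using hz.lineDeriv_eq_fderiv
  constructor
  · refine (integrableOn_iff_integrable_of_support_subset (s := S) fun z hz => ?_).1
      (((hK.locallyIntegrable_lineDeriv v).integrableOn_isCompact hS).congr (ae_restrict_of_ae e))
    by_contra h
    exact hz (by simp [B3_off hS h0 h])
  · have h := (LipschitzWith.const (1 : ℝ)).integral_lineDeriv_mul_eq (μ := volume) hK
      (HasCompactSupport.intro hS h0) (-v)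
    have e0 : ∀ z : ℂ, lineDeriv ℝ (fun _ : ℂ => (1 : ℝ)) z (-v) = 0 := fun z => by
      rw [(differentiableAt_const _).lineDeriv_eq_fderiv]
      simp
    simp only [e0, zero_mul, integral_zero, neg_neg, mul_one] at h
    rw [← integral_congr_ae e, ← h]

theorem green_cpt {O S : Set ℂ} (hO : IsOpen O) (hS : IsCompact S) (hSO : S ⊆ O) {A : ℂ → ℂ}
    (hA : DifferentiableOn ℂ A O) {ζ : ℂ → ℝ} {K : ℝ≥0} (hζ : LipschitzWith K ζ)
    (h0 : ∀ z, z ∉ S → ζ z = 0) : Ip O (fun z => (A z).re) ζ = 0 := by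
  have hd : DifferentiableOn ℂ (deriv A) O := hA.deriv hO
  have hl := LL.of_diff hO hd
  obtain ⟨i1, e1⟩ := B3_zero (p := fun z => (deriv A z).re * ζ z) hS hSO
    ((hl.lip_comp Complex.reCLM.lipschitz).mul (LL.of_lip hζ O)) (fun z hz => by simp [h0 z hz]) 1
  obtain ⟨i2, e2⟩ := B3_zero (p := fun z => (deriv A z).im * ζ z) hS hSO
    ((hl.lip_comp Complex.imCLM.lipschitz).mul (LL.of_lip hζ O)) (fun z hz => by simp [h0 z hz])
    Complex.I
  have e := integral_sub i1 i2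
  rw [e1, e2, sub_zero] at e
  rw [Ip, ← integral_indicator hO.measurableSet, ← e]
  refine integral_congr_ae ?_
  filter_upwards [hζ.ae_differentiableAt] with z hz
  by_cases hzO : z ∈ O
  · have h1 := (hd.differentiableAt (hO.mem_nhds hzO)).hasDerivAt.complexToReal_fderiv
    have h2 : HasFDerivAt (fun z => (deriv A z).re * ζ z) _ z :=
      (Complex.reCLM.hasFDerivAt.comp z h1).mul hz.hasFDerivAt
    have h3 : HasFDerivAt (fun z => (deriv A z).im * ζ z) _ z :=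
      (Complex.imCLM.hasFDerivAt.comp z h1).mul hz.hasFDerivAt
    rw [indicator_of_mem hzO, gr_re (hA.differentiableAt (hO.mem_nhds hzO)), h2.fderiv, h3.fderiv]
    simp [dot, gr]
    ring
  · have hzS : z ∉ S := fun h => hzO (hSO h)
    rw [indicator_of_notMem hzO, B3_off hS (fun z hz => by simp [h0 z hz]) hzS,
      B3_off hS (fun z hz => by simp [h0 z hz]) hzS]
    simp

theorem green {O U Ob : Set ℂ} (hO : IsOpen O) (hOU : O ⊆ U) (hU : U ⊆ Ob) (hOb : IsCompact Ob)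
    {A : ℂ → ℂ} (hA : DifferentiableOn ℂ A O) (hE : En O (fun z => (A z).re) ≠ ∞) {ζ : ℂ → ℝ}
    (hζ : IsV U Ob ζ) (h0 : ∀ z ∈ Ob, z ∉ O → ζ z = 0) : Ip O (fun z => (A z).re) ζ = 0 := by
  have hl : LL O ζ := hζ.lip.mono hOU
  have hf : En O ζ ≠ ∞ := ne_top_of_le_ne_top hζ.fin (En_mono hOU ζ)
  have key : ∀ ε : ℝ, 0 < ε → Ip O (fun z => tr ε (ζ z)) (fun z => (A z).re) = 0 := fun ε hε => by
    have hS : IsCompact (Ob ∩ ζ ⁻¹' {s | ε ≤ |s|}) :=
      hOb.of_isClosed_subset (hζ.cont.preimage_isClosed_of_isClosed hOb.isClosed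
        (isClosed_le continuous_const continuous_abs)) inter_subset_left
    have hSO : Ob ∩ ζ ⁻¹' {s | ε ≤ |s|} ⊆ O := fun z hz => by
      by_contra h
      have k : ε ≤ |ζ z| := hz.2
      rw [h0 z hz.1 h, abs_zero] at k
      exact absurd k (not_le.2 hε)
    have hz : ∀ z, z ∉ Ob ∩ ζ ⁻¹' {s | ε ≤ |s|} → O.indicator (fun z => tr ε (ζ z)) z = 0 :=
      fun z hz => by
        by_cases h : z ∈ O
        · rw [indicator_of_mem h]
          exact tr_zero (le_of_not_ge fun k => hz ⟨hU (hOU h), k⟩)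
        · exact indicator_of_notMem h _
    obtain ⟨K, hK⟩ := B3_lip hS hSO (LL.of_local fun z hz =>
      ⟨fun z => tr ε (ζ z), (hl.lip_comp (lipschitz_tr ε)).mono (singleton_subset_iff.2 hz), by
        filter_upwards [hO.mem_nhds hz] with w hw using indicator_of_mem hw _⟩) hz
    rw [Ip_comm, ← green_cpt hO hS hSO hA hK hz]
    exact Ip_congr hO (fun _ _ => rfl) fun z h =>
      (indicator_of_mem h fun z => tr ε (ζ z)).symm
  have ht := tr_tend hO hl hf
  have h1 : Tendsto (fun ε => (En O fun z => ζ z - tr ε (ζ z)).toReal *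
      (En O fun z => (A z).re).toReal) (𝓝[>] 0) (𝓝 0) := by
    simpa using ((ENNReal.tendsto_toReal ENNReal.zero_ne_top).comp ht).mul_const
      (En O fun z => (A z).re).toReal
  have h2 : Ip O ζ (fun z => (A z).re) ^ 2 ≤ 0 := by
    refine ge_of_tendsto h1 ?_
    filter_upwards [ht.eventually (gt_mem_nhds ENNReal.zero_lt_top), self_mem_nhdsWithin]
      with ε h hε
    have := Ip_sq_le h.ne hE
    rwa [Ip_sub hO hl (hl.lip_comp (lipschitz_tr ε)) hf
      (ne_top_of_le_ne_top hf (En_tr_le hO hl (le_of_lt hε))) hE, key ε hε, sub_zero] at this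
  rw [Ip_comm]
  exact pow_eq_zero_iff two_ne_zero |>.1 (le_antisymm h2 (sq_nonneg _))

end Pool.Agent.Work.MP_042f46_an.Ty
end
end

-- merged part: Pool.Agent.Work.MP_042f46_an.T.A2
section
/-!
# Levels, real valued masses, rectangles

Plans.  All masses of `H` are taken on sets off the diagonal, where `H` is finite (`off_fin`); use `measureReal_mono`, `measureReal_union_le`, `measureReal_biUnion_finset_le`, `measureReal_biUnion_finset`.  `a` is bounded above by the mass of `SS univ (2 θ g₀) 2`, so `le_ciSup`, `ciSup_le` apply.  `cross`: if both masses exceed one, both factors in `dual` exceed `exp 1 - 1 > 1`.  `iter`: induction with `E1r` applied to `sh (n α) X` and `sh_sh`.  `h_rect`: with `B = {y | s + r ≤ dist y c}` one has `SS (ball c r) (s + 2 r) 2 ⊆ ball c r ×ˢ B ⊆ SS (ball c r) s 2`, use `le`.  `b_rect`: for `X = ball (c + α) r ×ˢ B'`, `E1r` and `le` give `b (sh α X) ≤ H X`.  `b_G`: for a mark `m = ↑m'` let `I m`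 be the set of `↑(m' + t)`, `0 < t`, with no mark `↑(m' + s)`, `0 < s ≤ t`; `I m ×ˢ I m` is an increasing union of squares of mark-free arcs `arc (m' + l / (n + 2)) (m' + l - l / (n + 2))`, `l` the least positive `t` with `↑(m' + t)` a mark (so `l ≤ 1`), hence has mass at most `N` (`marks`, `measure_iUnion_eq_iSup`); a pair in `G` has no mark on the short closed arc between its points (`exists_rep`), take the last mark before that arc.
-/

open Set Metric Topology Filter MeasureTheory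
open scoped ENNReal NNReal

noncomputable section
namespace Pool.Agent.Work.MP_042f46_an.Ty

namespace Lev

variable {α : ℝ} (σ : Lev α)

theorem θ_le_one (n : ℕ) : σ.θ n ≤ 1 := by
  exact σ.θ_zero ▸ σ.θ_anti (Nat.zero_le n)

theorem θ_pow (n k : ℕ) : 2 ^ k * σ.θ (n + 2 * k) ≤ σ.θ n := by
  induction k with
  | zero => simp
  | succ k ih =>
    have := mul_le_mul_of_nonneg_left (σ.θ_half (n + 2 * k)) (by positivity : (0 : ℝ) ≤ 2 ^ k)
    rw [pow_succ, mul_assoc]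
    exact this.trans ih

theorem θ_two {m n : ℕ} (h : n + 2 ≤ m) : 2 * σ.θ m ≤ σ.θ n := by
  linarith only [h, σ.θ_half n, σ.θ_anti h]

theorem θ_four {m n : ℕ} (h : n + 4 ≤ m) : 4 * σ.θ m ≤ σ.θ n := by
  linarith only [h, σ.θ_half n, σ.θ_half (n + 2), σ.θ_anti h]

theorem θ_geom {g j : ℕ} (h : g ≤ j) : σ.θ j ≤ 2 * (3 / 4) ^ (j - g) * σ.θ g := by
  obtain ⟨n, rfl⟩ := Nat.exists_eq_add_of_le h
  rw [Nat.add_sub_cancel_left]
  clear h
  induction n using Nat.twoStepInduction with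
  | zero => simpa using by linarith only [σ.θ_pos g]
  | one => linarith only [σ.θ_pos g, σ.θ_anti (Nat.le_add_right g 1)]
  | more n ih _ =>
    have h1 := σ.θ_half (g + n)
    have h2 : 0 ≤ (3 / 4 : ℝ) ^ n * σ.θ g := mul_nonneg (by positivity) (σ.θ_pos g).le
    rw [pow_add, ← add_assoc]
    linarith only [ih, h1, h2]

theorem θ_small {r : ℝ} (hr : 0 < r) : ∃ n, σ.θ n < r := by
  obtain ⟨n, hn⟩ := exists_pow_lt_of_lt_one (half_pos hr) (by norm_num : (3 / 4 : ℝ) < 1)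
  have := σ.θ_geom (Nat.zero_le n)
  rw [Nat.sub_zero, σ.θ_zero] at this
  exact ⟨n, by linarith only [hn, this]⟩

theorem q_pow (n k : ℕ) : 2 ^ k * σ.q n ≤ σ.q (n + 2 * k) := by
  induction k with
  | zero => simp
  | succ k ih =>
    rw [pow_succ, mul_comm (2 ^ k), mul_assoc]
    exact (Nat.mul_le_mul_left 2 ih).trans (σ.q_two _)

theorem q_pos (n : ℕ) : 1 ≤ σ.q (n + 1) := by
  exact σ.q_one.ge.trans (σ.q_mono (Nat.le_add_left 1 n))

theorem sep' {n i j : ℕ} (hi : i < σ.q (n + 1)) (hj : j < σ.q (n + 1)) (h : i ≠ j) (x : T) :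
    σ.θ n ≤ dist (x + (((i : ℝ) * α : ℝ) : T)) (x + (((j : ℝ) * α : ℝ) : T)) := by
  wlog k : j < i generalizing i j
  · rw [dist_comm]
    exact this hj hi h.symm (by omega)
  have := σ.sep n (i - j) (by omega) (by omega)
  rwa [Nat.cast_sub k.le, sub_mul, AddCircle.coe_sub, ← dist_eq_norm, ← dist_add_left x] at this

theorem count (n : ℕ) (s : Finset ℕ) (x c : T) {R : ℝ} (hR : 0 ≤ R)
    (hs : ∀ i ∈ s, i < σ.q (n + 1) ∧ x + (((i : ℝ) * α : ℝ) : T) ∈ ball c R) :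
    (s.card : ℝ) ≤ 2 * R / σ.θ n + 1 := by
  exact sep_card s (fun i => x + (((i : ℝ) * α : ℝ) : T)) c hR (σ.θ_pos n)
    (fun i hi j hj h => σ.sep' (hs i hi).1 (hs j hj).1 h x) fun i hi => (hs i hi).2

theorem cls_find {f g : ℕ} {r : ℝ} (h₁ : 2 * σ.θ g ≤ r) (h₂ : r < 2 * σ.θ f) :
    ∃ j, f ≤ j ∧ j < g ∧ 2 * σ.θ (j + 1) ≤ r ∧ r < 2 * σ.θ j := by
  induction g with
  | zero => exact absurd (σ.θ_anti (Nat.zero_le f)) (by linarith only [h₂, h₁])
  | succ g ih =>
    by_cases k : 2 * σ.θ g ≤ r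
    · obtain ⟨j, j1, j2, j3⟩ := ih k
      exact ⟨j, j1, j2.trans (Nat.lt_succ_self g), j3⟩
    · refine ⟨g, Nat.le_of_lt_succ (lt_of_not_ge fun q => ?_), Nat.lt_succ_self g, h₁,
        lt_of_not_ge k⟩
      linarith only [h₂, h₁, q, σ.θ_anti q]

theorem θ_one : σ.θ 1 ≤ 1 / 2 := by
  have := σ.ret 0
  rw [zero_add, ← dist_zero_right] at this
  exact this ▸ dist_le_half _ _

end Lev

namespace Sys

variable {α : ℝ} {N : ℕ} (σ : Sys α N)

include σ in
theorem one_le_N : 1 ≤ N := by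
  exact σ.M_ne.card_pos.trans_le σ.M_card

theorem H_fin {X : Set (T × T)} (h : Off X) : σ.H X ≠ ∞ := off_fin σ.fin h

theorem Hr_mono {X Y : Set (T × T)} (h : X ⊆ Y) (hY : Off Y) : σ.H.real X ≤ σ.H.real Y := by
  exact measureReal_mono h (σ.H_fin hY)

theorem measurableSet_Far (r : ℝ) : MeasurableSet (σ.Far r) := by
  have : σ.Far r = ⋂ m ∈ σ.M, {x | r ≤ dist x m} := by
    ext x
    simp [Far]
  rw [this]
  exact Finset.measurableSet_biInter _ fun m _ =>
    (isClosed_le continuous_const (by fun_prop)).measurableSet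

theorem measurableSet_Near (r : ℝ) : MeasurableSet (σ.Near r) := by
  exact Finset.measurableSet_biUnion _ fun m _ => measurableSet_ball

theorem measurableSet_G : MeasurableSet σ.G := by
  have : σ.G = ⋂ m ∈ σ.M, {p | dist p.1 p.2 < max (dist p.1 m) (dist p.2 m)} := by
    ext x
    simp only [G, mem_iInter, mem_ofPred_eq]
  rw [this]
  exact Finset.measurableSet_biInter _ fun m _ =>
    (isOpen_lt (by fun_prop) (by fun_prop)).measurableSet

theorem near_G {A : Set T} {r : ℝ} (h : A ⊆ σ.Far r) : SS A 0 r ⊆ σ.G := by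
  exact fun p hp m hm => (hp.2.2.trans_le (h hp.1 m hm)).trans_le (le_max_left _ _)

theorem κ_nonneg (c : T) (r s : ℝ) : 0 ≤ σ.κ c r s := by
  exact measureReal_nonneg

theorem κ_mono {c c' : T} {r s r' s' : ℝ} (h : ball c r ⊆ ball c' r') (hs : s' ≤ s) (h0 : 0 < s') :
    σ.κ c r s ≤ σ.κ c' r' s' := by
  exact σ.Hr_mono (SS_mono h hs le_rfl) (off_SS _ h0 _)

theorem a_le_At (c : T) (g₁ g₀ : ℕ) : σ.a c g₁ g₀ ≤ σ.At g₁ g₀ := by
  refine le_ciSup (f := fun c => σ.a c g₁ g₀) ⟨σ.H.real (SS univ (2 * σ.θ g₀) 2), ?_⟩ c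
  rintro _ ⟨c, rfl⟩
  exact σ.Hr_mono (SS_mono (subset_univ _) le_rfl le_rfl) (off_SS _ (by linarith only [σ.θ_pos g₀]) _)

theorem At_le {g₁ g₀ : ℕ} {x : ℝ} (h : ∀ c, σ.a c g₁ g₀ ≤ x) : σ.At g₁ g₀ ≤ x := by
  exact ciSup_le h

theorem At_nonneg (g₁ g₀ : ℕ) : 0 ≤ σ.At g₁ g₀ := by
  exact (σ.κ_nonneg _ _ _).trans (σ.a_le_At 0 g₁ g₀)

theorem K_nonneg (n : ℕ) : 0 ≤ σ.K n := by
  exact σ.At_nonneg n n

theorem a_zero (c : T) (g : ℕ) : σ.a c g 0 = 0 := by
  rw [a, κ, σ.θ_zero, mul_one, SS_two, measureReal_empty]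

theorem At_zero (g : ℕ) : σ.At g 0 = 0 := by
  exact (σ.At_le fun c => (σ.a_zero c g).le).antisymm (σ.At_nonneg g 0)

theorem At_mono {g₁ g₀ g₁' g₀' : ℕ} (h₁ : g₁' ≤ g₁) (h₀ : g₀ ≤ g₀') :
    σ.At g₁ g₀ ≤ σ.At g₁' g₀' := by
  refine σ.At_le fun c => le_trans ?_ (σ.a_le_At c g₁' g₀')
  exact σ.κ_mono (ball_subset_ball (by linarith only [h₁, σ.θ_anti h₁])) (by linarith only [h₀, σ.θ_anti h₀])
    (by linarith only [σ.θ_pos g₀'])

theorem κ_cover (c : T) {R : ℝ} (ν g₁ g₀ : ℕ) (h : 4 * R ≤ ν * σ.θ g₁) :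
    σ.κ c R (2 * σ.θ g₀) ≤ ν * σ.At g₁ g₀ := by
  obtain ⟨x, hx⟩ := cover c (R := R) (half_pos (σ.θ_pos g₁)) ν (by linarith only [h])
  have h1 : SS (ball c R) (2 * σ.θ g₀) 2 ⊆
      ⋃ k ∈ Finset.range ν, SS (ball (x k) (σ.θ g₁ / 2)) (2 * σ.θ g₀) 2 := fun p hp => by
    obtain ⟨k, k1, k2⟩ := mem_iUnion₂.1 (hx hp.1)
    exact mem_iUnion₂.2 ⟨k, k1, k2, hp.2⟩
  refine (σ.Hr_mono h1 ((off_SS univ (by linarith only [σ.θ_pos g₀]) 2).mono
    (iUnion₂_subset fun k _ => SS_mono (subset_univ _) le_rfl le_rfl))).trans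
    ((measureReal_biUnion_finset_le _ _).trans ?_)
  refine (Finset.sum_le_sum fun k _ => σ.a_le_At (x k) g₁ g₀).trans (le_of_eq ?_)
  rw [Finset.sum_const, Finset.card_range, nsmul_eq_mul]

theorem K_bdd : ∃ R : ℝ, ∀ n, σ.K n ≤ R := by
  obtain ⟨R, hR⟩ := σ.fin
  refine ⟨max R 0, fun n => σ.At_le fun c => ?_⟩
  have p := half_pos (σ.θ_pos n)
  refine ENNReal.toReal_le_of_le_ofReal (le_max_right _ _) (((DD_ge σ.H
    (measurableSet_SS measurableSet_ball _ _) fun q hq => ⟨bump_one p (le_of_lt hq.1),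
      bump_zero p ?_⟩).trans (hR c _ p (by linarith only [σ.θ_le_one n]))).trans
    (ENNReal.ofReal_le_ofReal (le_max_left _ _)))
  linarith only [p, hq, dist_triangle_right q.1 q.2 c, mem_ball.1 hq.1, hq.2.1]

theorem J_nonneg (l₁ l₂ : ℕ) : 0 ≤ σ.J l₁ l₂ := by
  exact measureReal_nonneg

theorem J_self (l : ℕ) : σ.J l l = 0 := by
  have : SS univ (2 * σ.θ l) (2 * σ.θ l) = ∅ :=
    eq_empty_of_forall_notMem fun p hp => hp.2.2.not_ge hp.2.1
  rw [J, this, measureReal_empty]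

theorem J_add {l₁ l₂ l₃ : ℕ} (h₁ : l₁ ≤ l₂) (h₂ : l₂ ≤ l₃) :
    σ.J l₁ l₂ + σ.J l₂ l₃ = σ.J l₁ l₃ := by
  have e : SS univ (2 * σ.θ l₃) (2 * σ.θ l₁) =
      SS univ (2 * σ.θ l₂) (2 * σ.θ l₁) ∪ SS univ (2 * σ.θ l₃) (2 * σ.θ l₂) :=
    ((SS_split _ _ _ _).trans (union_comm _ _).subset).antisymm (union_subset
      (SS_mono subset_rfl (by linarith only [h₂, σ.θ_anti h₂]) le_rfl)
      (SS_mono subset_rfl le_rfl (by linarith only [h₁, σ.θ_anti h₁])))
  rw [J, J, J, e, measureReal_union (Set.disjoint_left.2 fun p hp hq => hq.2.2.not_ge hp.2.1)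
    (measurableSet_SS MeasurableSet.univ _ _)]

theorem J_mono {l₁ l₂ l₁' l₂' : ℕ} (h₁ : l₁' ≤ l₁) (h₂ : l₂ ≤ l₂') : σ.J l₁ l₂ ≤ σ.J l₁' l₂' := by
  exact measureReal_mono
    (SS_mono subset_rfl (by linarith only [h₂, σ.θ_anti h₂]) (by linarith only [h₁, σ.θ_anti h₁]))

theorem J_sum {l₁ l₂ : ℕ} (h : l₁ ≤ l₂) : ∑ j ∈ Finset.Ico l₁ l₂, σ.J j (j + 1) = σ.J l₁ l₂ := by
  induction l₂, h using Nat.le_induction with
  | base => rw [Finset.Ico_self, Finset.sum_empty, σ.J_self]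
  | succ n hn ih => rw [Finset.sum_Ico_succ_top hn, ih, σ.J_add hn (Nat.le_succ n)]

theorem J_pigeon (l w : ℕ) {P : ℕ} (hP : 0 < P) :
    ∃ i < P, P * σ.J (l + i * w) (l + i * w + w) ≤ σ.J l (l + P * w) := by
  have s : ∀ P : ℕ, ∑ i ∈ Finset.range P, σ.J (l + i * w) (l + i * w + w) =
      σ.J l (l + P * w) := fun P => by
    induction P with
    | zero => rw [Finset.sum_range_zero, zero_mul, add_zero, σ.J_self]
    | succ n ih =>
      rw [Finset.sum_range_succ, ih, σ.J_add (Nat.le_add_right _ _) (Nat.le_add_right _ _),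
        Nat.succ_mul, add_assoc]
  obtain ⟨i, i1, i2⟩ := Finset.exists_le_of_sum_le (s := Finset.range P)
    (f := fun i => P * σ.J (l + i * w) (l + i * w + w)) (g := fun _ => σ.J l (l + P * w))
    ⟨0, Finset.mem_range.2 hP⟩ (by
      rw [← Finset.mul_sum, s, Finset.sum_const, Finset.card_range, nsmul_eq_mul])
  exact ⟨i, Finset.mem_range.1 i1, i2⟩

end Sys

end Pool.Agent.Work.MP_042f46_an.Ty
end
end

-- merged part: Pool.Agent.Work.MP_042f46_an.T.AE
section
/-!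
# Levels, real valued masses, rectangles

Plans.  All masses of `H` are taken on sets off the diagonal, where `H` is finite (`off_fin`); use `measureReal_mono`, `measureReal_union_le`, `measureReal_biUnion_finset_le`, `measureReal_biUnion_finset`.  `a` is bounded above by the mass of `SS univ (2 θ g₀) 2`, so `le_ciSup`, `ciSup_le` apply.  `cross`: if both masses exceed one, both factors in `dual` exceed `exp 1 - 1 > 1`.  `iter`: induction with `E1r` applied to `sh (n α) X` and `sh_sh`.  `h_rect`: with `B = {y | s + r ≤ dist y c}` one has `SS (ball c r) (s + 2 r) 2 ⊆ ball c r ×ˢ B ⊆ SS (ball c r) s 2`, use `le`.  `b_rect`: for `X = ball (c + α) r ×ˢ B'`, `E1r` and `le` give `b (sh α X) ≤ H X`.  `b_G`: for a mark `m = ↑m'` let `I m` be the set of `↑(m' + t)`, `0 < t`, with no mark `↑(m' + s)`, `0 < s ≤ t`; `I m ×ˢ I m` is an increasing union of squares of mark-free arcs `arc (m' + l / (n + 2)) (m' + l - l / (n + 2))`, `l`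 the least positive `t` with `↑(m' + t)` a mark (so `l ≤ 1`), hence has mass at most `N` (`marks`, `measure_iUnion_eq_iSup`); a pair in `G` has no mark on the short closed arc between its points (`exists_rep`), take the last mark before that arc.
-/

open Set Metric Topology Filter MeasureTheory
open scoped ENNReal NNReal

noncomputable section
namespace Pool.Agent.Work.MP_042f46_an.Ty

theorem AE_min (M : Finset T) {f : ℝ → T} (hf : InjOn f (Ioc 0 1))
    (h : ∃ t ∈ Ioc (0 : ℝ) 1, f t ∈ M) :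
    ∃ l, 0 < l ∧ f l ∈ M ∧ ∀ s, 0 < s → s < l → f s ∉ M := by
  have fin : {t | t ∈ Ioc (0 : ℝ) 1 ∧ f t ∈ M}.Finite :=
    Finite.of_finite_image (f := f) (M.finite_toSet.subset (by
      rintro _ ⟨t, ht, rfl⟩
      exact ht.2)) (hf.mono fun t ht => ht.1)
  obtain ⟨l, ⟨hl, hm⟩, hmin⟩ := exists_min_image _ id fin h
  exact ⟨l, hl.1, hm, fun s h0 h1 k =>
    not_le.2 h1 (hmin s ⟨⟨h0, h1.le.trans hl.2⟩, k⟩)⟩

theorem AE_inj : InjOn ((↑) : ℝ → T) (Ioc 0 1) := fun s hs t ht e =>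
  (AddCircle.coe_eq_coe_iff_of_mem_Ioc (p := 1) (a := 0) (by simpa using hs)
    (by simpa using ht)).1 e

theorem AE_surj (x : T) : ∃ t ∈ Ioc (0 : ℝ) 1, (t : T) = x := by
  obtain ⟨t, ht, e⟩ := exists_coe (-x)
  refine ⟨-t + 1, ⟨by linarith only [ht, ht.2], by linarith [ht.1]⟩, ?_⟩
  rw [coe_add_one, AddCircle.coe_neg, ← e, neg_neg]

/-- the gap after a mark -/
def AE_I (M : Finset T) (m : T) : Set T :=
  {x | ∃ t : ℝ, 0 < t ∧ x = m + (t : T) ∧ ∀ s : ℝ, 0 < s → s ≤ t → m + (s : T) ∉ M}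

theorem AE_cov {M : Finset T} (hM : M.Nonempty) {x : T} {t : ℝ} (ht : 0 ≤ t)
    (h : ∀ s ∈ Icc 0 t, x + ((s : ℝ) : T) ∉ M) :
    ∃ m ∈ M, x ∈ AE_I M m ∧ x + (t : T) ∈ AE_I M m := by
  obtain ⟨m₀, h₀⟩ := hM
  obtain ⟨l, l0, l1, l2⟩ := AE_min M (f := fun s => x - (s : T))
    (fun s hs u hu e => AE_inj hs hu (sub_right_injective e)) (by
      obtain ⟨u, hu, e⟩ := AE_surj (x - m₀)
      exact ⟨u, hu, by rwa [e, sub_sub_cancel]⟩)
  have k : ∀ s : ℝ, 0 < s → s ≤ l + t → x - (l : T) + (s : T) ∉ M := by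
    intro s s0 s1
    rcases lt_or_ge s l with j | j
    · have := l2 (l - s) (by linarith only [j]) (by linarith only [s0])
      rwa [AddCircle.coe_sub, ← sub_add] at this
    · have := h (s - l) ⟨by linarith, by linarith⟩
      rwa [AddCircle.coe_sub, ← add_sub_assoc, add_sub_right_comm] at this
  refine ⟨_, l1, ⟨l, l0, (sub_add_cancel _ _).symm, fun s s0 s1 => k s s0 (by linarith)⟩,
    l + t, by linarith, ?_, k⟩
  rw [AddCircle.coe_add, ← add_assoc, sub_add_cancel]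

theorem AE_sub (c : T) (r s : ℝ) :
    SS (ball c r) (s + 2 * r) 2 ⊆ ball c r ×ˢ {y | s + r ≤ dist y c} := by
  rintro ⟨x, y⟩ ⟨h1, h2, -⟩
  refine ⟨h1, ?_⟩
  have := dist_triangle_right x y c
  have h3 : dist x c < r := h1
  show s + r ≤ dist y c
  linarith only [h2, this, h3]

theorem AE_sup (c : T) (r s : ℝ) :
    ball c r ×ˢ {y | s + r ≤ dist y c} ⊆ SS (ball c r) s 2 := by
  rintro ⟨x, y⟩ ⟨h1, h2⟩
  have := dist_triangle y x c
  have h3 : dist x c < r := h1
  have h4 : s + r ≤ dist y c := h2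
  have := dist_comm y x
  exact ⟨h1, by show s ≤ dist x y; linarith, (dist_le_half _ _).trans_lt (by norm_num)⟩

theorem AE_meas (c : T) (u : ℝ) : MeasurableSet {y : T | u ≤ dist y c} :=
  (isClosed_le continuous_const (by fun_prop)).measurableSet

namespace Sys

variable {α : ℝ} {N : ℕ} (σ : Sys α N)

theorem cross {x₁ x₂ x₃ x₄ : ℝ} (h₁ : x₁ < x₂) (h₂ : x₂ < x₃) (h₃ : x₃ < x₄) (h₄ : x₄ < x₁ + 1) :
    σ.H.real (arc x₁ x₂ ×ˢ arc x₃ x₄) ≤ 1 ∨ σ.H.real (arc x₂ x₃ ×ˢ arc x₄ (x₁ + 1)) ≤ 1 := by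
  by_contra k
  rw [not_or, not_le, not_le] at k
  have e := σ.dual x₁ x₂ x₃ x₄ h₁ h₂ h₃ h₄
  have a1 := Real.add_one_le_exp (σ.H.real (arc x₁ x₂ ×ˢ arc x₃ x₄))
  have a2 := Real.add_one_le_exp (σ.H.real (arc x₂ x₃ ×ˢ arc x₄ (x₁ + 1)))
  linarith only [e, a1, a2, h₁, k, h₂, h₃, h₄, k.1, k.2, mul_pos_of_neg_of_neg (Mathlib.Tactic.Linarith.sub_neg_of_lt h₁) (Mathlib.Tactic.Linarith.sub_neg_of_lt k.left), mul_pos_of_neg_of_neg (Mathlib.Tactic.Linarith.sub_neg_of_lt h₁) (Mathlib.Tactic.Linarith.sub_neg_of_lt k.right), mul_pos_of_neg_of_neg (Mathlib.Tactic.Linarith.sub_neg_of_lt h₂) (Mathlib.Tactic.Linarith.sub_neg_of_lt k.left), mul_pos_of_neg_of_neg (Mathlib.Tactic.Linarith.sub_neg_of_lt h₂) (Mathlib.Tactic.Linarith.sub_neg_of_lt k.right), mul_pos_of_neg_of_neg (Mathlib.Tactic.Linarith.sub_neg_of_lt h₃) (Mathlib.Tactic.Linarith.sub_neg_of_lt k.left), mul_pos_of_neg_of_neg (Mathlib.Tactic.Linarith.sub_neg_of_lt h₃) (Mathlib.Tactic.Linarith.sub_neg_of_lt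 k.right), mul_pos_of_neg_of_neg (Mathlib.Tactic.Linarith.sub_neg_of_lt h₄) (Mathlib.Tactic.Linarith.sub_neg_of_lt k.left), mul_pos_of_neg_of_neg (Mathlib.Tactic.Linarith.sub_neg_of_lt h₄) (Mathlib.Tactic.Linarith.sub_neg_of_lt k.right), mul_pos_of_neg_of_neg (Mathlib.Tactic.Linarith.sub_neg_of_lt k.left) (Mathlib.Tactic.Linarith.sub_neg_of_lt k.right), mul_nonneg_of_nonpos_of_nonpos (le_of_lt (Mathlib.Tactic.Linarith.sub_neg_of_lt k.left)) (Mathlib.Tactic.Linarith.sub_nonpos_of_le a2), mul_nonneg_of_nonpos_of_nonpos (le_of_lt (Mathlib.Tactic.Linarith.sub_neg_of_lt k.right)) (Mathlib.Tactic.Linarith.sub_nonpos_of_le a1), mul_nonneg_of_nonpos_of_nonpos (Mathlib.Tactic.Linarith.sub_nonpos_of_le a1) (Mathlib.Tactic.Linarith.sub_nonpos_of_le a2)]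

theorem E1r {X : Set (T × T)} (hX : MeasurableSet X) (ho : Off X) :
    σ.H.real X + σ.h.real (sh α X) = σ.H.real (sh α X) + σ.b.real (sh α X) := by
  have e := congrArg ENNReal.toReal (σ.E1 X hX ho)
  rwa [ENNReal.toReal_add (σ.H_fin ho) (measure_ne_top _ _),
    ENNReal.toReal_add (σ.H_fin (ho.sh α)) (measure_ne_top _ _)] at e

theorem iter {X : Set (T × T)} (hX : MeasurableSet X) (ho : Off X) (n : ℕ) :
    σ.H.real X ≤ σ.H.real (sh (n * α) X) +
      ∑ i ∈ Finset.range n, σ.b.real (sh (((i : ℝ) + 1) * α) X) := by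
  induction n with
  | zero => simp [sh_zero]
  | succ n ih =>
    have e := σ.E1r (measurableSet_sh (n * α) hX) (ho.sh _)
    rw [sh_sh, show α + n * α = ((n : ℝ) + 1) * α by ring] at e
    rw [Finset.sum_range_succ, Nat.cast_succ]
    have : 0 ≤ σ.h.real (sh (((n : ℝ) + 1) * α) X) := measureReal_nonneg
    linarith only [ih, e, this]

theorem AE_le (c : T) (r : ℝ) {s : ℝ} (hs : 0 < s) :
    σ.h.real (ball c r ×ˢ {y | s + r ≤ dist y c}) ≤
      σ.H.real (ball c r ×ˢ {y | s + r ≤ dist y c}) := by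
  refine ENNReal.toReal_mono (σ.H_fin ((off_SS _ hs 2).mono (AE_sup c r s)))
    (σ.le _ _ measurableSet_ball (AE_meas c _) (disjoint_left.2 fun x h1 h2 => ?_))
  have h3 : dist x c < r := h1
  have h4 : s + r ≤ dist x c := h2
  linarith

theorem h_rect (c : T) (r : ℝ) {s : ℝ} (hs : 0 < s) :
    σ.h.real (SS (ball c r) (s + 2 * r) 2) ≤ σ.κ c r s := by
  exact (measureReal_mono (AE_sub c r s)).trans
    ((σ.AE_le c r hs).trans (σ.Hr_mono (AE_sup c r s) (off_SS _ hs 2)))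

theorem b_rect (c : T) (r : ℝ) {s : ℝ} (hs : 0 < s) :
    σ.b.real (SS (ball c r) (s + 2 * r) 2) ≤ σ.κ (c + (α : T)) r s := by
  have e := σ.E1r (measurableSet_ball.prod (AE_meas (c + (α : T)) (s + r)))
    ((off_SS _ hs 2).mono (AE_sup (c + (α : T)) r s))
  have e2 : sh α (ball (c + (α : T)) r ×ˢ {y | s + r ≤ dist y (c + (α : T))}) =
      ball c r ×ˢ {y | s + r ≤ dist y c} := by
    ext p
    simp [sh, mem_ball, dist_add_right]
  rw [e2] at e
  have h1 := σ.AE_le c r hs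
  have h2 := σ.Hr_mono (AE_sup (c + (α : T)) r s) (off_SS _ hs 2)
  have h3 : σ.b.real _ ≤ σ.b.real _ := measureReal_mono (AE_sub c r s)
  unfold κ
  linarith only [e, h1, h2, h3]

theorem AE_gap {m : T} (hm : m ∈ σ.M) : σ.b (AE_I σ.M m ×ˢ AE_I σ.M m) ≤ N := by
  obtain ⟨m', -, rfl⟩ := exists_coe m
  obtain ⟨l, l0, l1, l2⟩ := AE_min σ.M (f := fun s => (m' : T) + (s : T))
    (fun s hs u hu e => AE_inj hs hu (add_left_cancel e))
    ⟨1, ⟨one_pos, le_rfl⟩, by rwa [← AddCircle.coe_add, coe_add_one]⟩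
  have mono : Monotone fun n : ℕ => arc (m' + 1 / (n + 1)) (m' + l - 1 / (n + 1)) := by
    intro i j h
    have : (1 : ℝ) / (j + 1) ≤ 1 / (i + 1) := Nat.one_div_le_one_div h
    exact arc_mono (by linarith only [this]) (by linarith only [this])
  have mem : ∀ x ∈ AE_I σ.M m', ∃ n : ℕ, x ∈ arc (m' + 1 / (n + 1)) (m' + l - 1 / (n + 1)) := by
    rintro x ⟨t, t0, rfl, t1⟩
    have t2 : t < l := not_le.1 fun k => t1 l l0 k l1
    obtain ⟨n, hn⟩ := exists_nat_one_div_lt (lt_min t0 (sub_pos.2 t2))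
    rw [lt_min_iff] at hn
    exact ⟨n, m' + t, ⟨by linarith only [hn, hn.1], by linarith only [hn, hn.2]⟩, AddCircle.coe_add _ _ _⟩
  have sub : AE_I σ.M m' ×ˢ AE_I σ.M m' ⊆ ⋃ n : ℕ,
      arc (m' + 1 / (n + 1)) (m' + l - 1 / (n + 1)) ×ˢ
        arc (m' + 1 / (n + 1)) (m' + l - 1 / (n + 1)) := by
    rintro ⟨x, y⟩ ⟨hx, hy⟩
    obtain ⟨i, hi⟩ := mem x hx
    obtain ⟨j, hj⟩ := mem y hy
    exact mem_iUnion.2 ⟨max i j, mono (le_max_left _ _) hi, mono (le_max_right _ _) hj⟩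
  refine (measure_mono sub).trans ?_
  rw [Monotone.measure_iUnion fun i j h => prod_mono (mono h) (mono h)]
  refine iSup_le fun n => σ.marks _ _ fun s hs => ?_
  have h0 : (0 : ℝ) < 1 / (n + 1) := Nat.one_div_pos_of_nat
  have := l2 (s - m') (by linarith only [h0, hs, hs.1]) (by linarith only [h0, hs, hs.2])
  rwa [← AddCircle.coe_add, add_sub_cancel] at this

theorem AE_free {x y : T} {t : ℝ} (e : y = x + (t : T)) (ht : t = dist y x)
    (h : ∀ m ∈ σ.M, dist x y < max (dist x m) (dist y m)) :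
    ∀ s ∈ Icc 0 t, x + ((s : ℝ) : T) ∉ σ.M := by
  intro s hs k
  have h1 := dist_add_coe_le x 0 s
  have h2 := dist_add_coe_le x t s
  rw [AddCircle.coe_zero, add_zero, zero_sub, abs_neg, abs_of_nonneg hs.1] at h1
  rw [← e, abs_of_nonneg (sub_nonneg.2 hs.2)] at h2
  have h3 := h _ k
  rw [dist_comm x y, ← ht, lt_max_iff] at h3
  rcases h3 with h3 | h3 <;> linarith only [h1, h3, hs, h2, hs.1, hs.2]

theorem AE_G : σ.G ⊆ ⋃ m ∈ σ.M, AE_I σ.M m ×ˢ AE_I σ.M m := by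
  rintro ⟨x, y⟩ hp
  obtain ⟨t, e, ht⟩ := exists_rep x y
  rcases le_total 0 t with k | k
  · rw [abs_of_nonneg k] at ht
    obtain ⟨m, hm, h1, h2⟩ := AE_cov σ.M_ne k (σ.AE_free e ht hp)
    exact mem_biUnion hm ⟨h1, e ▸ h2⟩
  · rw [abs_of_nonpos k, dist_comm] at ht
    have e' : x = y + ((-t : ℝ) : T) := by rw [e, AddCircle.coe_neg, add_neg_cancel_right]
    obtain ⟨m, hm, h1, h2⟩ := AE_cov σ.M_ne (neg_nonneg.2 k) (σ.AE_free e' ht fun m hm => by
      rw [dist_comm y x, max_comm]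
      exact hp m hm)
    exact mem_biUnion hm ⟨e' ▸ h2, h1⟩

theorem b_G : σ.b.real σ.G ≤ (N : ℝ) ^ 2 := by
  refine (measureReal_mono σ.AE_G (measure_ne_top _ _)).trans ((measureReal_biUnion_finset_le _ _).trans ?_)
  have h : ∀ m ∈ σ.M, σ.b.real (AE_I σ.M m ×ˢ AE_I σ.M m) ≤ N := fun m hm =>
    ENNReal.toReal_le_of_le_ofReal (Nat.cast_nonneg N) (by
      rw [ENNReal.ofReal_natCast]
      exact σ.AE_gap hm)
  refine (Finset.sum_le_card_nsmul _ _ _ h).trans ?_
  rw [nsmul_eq_mul, sq]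
  exact mul_le_mul_of_nonneg_right (Nat.cast_le.2 σ.M_card) (Nat.cast_nonneg N)

end Sys

end Pool.Agent.Work.MP_042f46_an.Ty
end
end

-- merged part: Pool.Agent.Work.MP_042f46_an.T.A4
section
/-!
# Monotonicity away from the marks

Plans.  `mono_step`: `E1r` for `X = SS (ball (c + α) ρ) r 2` (`sh_ball`), and `marg` for `A = ball c ρ`, whose product with the circle is the disjoint union of `SS A 0 r` and `SS A r 2` (`dist_le_half`).  `near_sum`: the sets are pairwise disjoint (`sep'`, `ball_disjoint_ball`) and contained in `G` (`near_G`, `b_G`).  `mono_run`: telescoping.  `D_le`: level zero is empty (`M_ne`, `dist_le_half`).  For `n = k + 1`, `θ = σ.θ n`, every point lies in some `ball (↑(j θ / 2) + ↑(i α)) (θ / 2)`, `j < 4`, `i < q (n + 1)` (`dense`); if the point is `3 θ`-far from the marks then the floor `i` is free: its centre is `5 θ / 2`-far, so the ball is `2 θ`-far.  In one tower at most `6 N` floors are not free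 (`count`); sum `mono_step` over the free floors: the sum over all floors of `κ (i + 1) - κ i` is at most `K n`, each term of a floor that is not free is at least `-K n`.
-/

open Set Metric Topology Filter MeasureTheory
open scoped ENNReal NNReal

noncomputable section
namespace Pool.Agent.Work.MP_042f46_an.Ty

namespace Sys

variable {α : ℝ} {N : ℕ} (σ : Sys α N)

theorem A4_split (μ : Measure (T × T)) [IsFiniteMeasure μ] {A : Set T} (hA : MeasurableSet A)
    {r : ℝ} (_hr : 0 < r) : μ.real (A ×ˢ univ) = μ.real (SS A 0 r) + μ.real (SS A r 2) := by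
  by_cases h2 : r ≤ 2
  · rw [← measureReal_union _ (measurableSet_SS hA r 2)]
    · congr 1
      ext p
      have := dist_le_half p.1 p.2
      simp only [mem_prod, mem_univ, and_true, mem_union, SS, mem_ofPred_eq]
      refine ⟨fun h => ?_, fun h => h.elim (fun h => h.1) fun h => h.1⟩
      rcases lt_or_ge (dist p.1 p.2) r with k | k
      · exact Or.inl ⟨h, dist_nonneg, k⟩
      · exact Or.inr ⟨h, k, by linarith only [_hr, this, k]⟩
    · exact disjoint_left.2 fun p h k => absurd h.2.2 (not_lt.2 k.2.1)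
  · have e : SS A r 2 = ∅ := eq_empty_of_forall_notMem fun p h => h2 (h.2.1.trans h.2.2.le)
    rw [e, measureReal_empty, add_zero]
    congr 1
    ext p
    have := dist_le_half p.1 p.2
    simp only [mem_prod, mem_univ, and_true, SS, mem_ofPred_eq]
    exact ⟨fun h => ⟨h, dist_nonneg, by linarith only [h2, this, not_le.1 h2]⟩, fun h => h.1⟩

theorem mono_step (c : T) (ρ : ℝ) {r : ℝ} (hr : 0 < r) :
    σ.κ (c + (α : T)) ρ r + σ.b.real (SS (ball c ρ) 0 r) =
      σ.κ c ρ r + σ.h.real (SS (ball c ρ) 0 r) := by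
  have hA : MeasurableSet (ball c ρ) := measurableSet_ball
  have e1 := σ.E1r (measurableSet_SS (A := ball (c + (α : T)) ρ) measurableSet_ball r 2)
    (off_SS _ hr 2)
  rw [sh_ball] at e1
  have e2 : σ.h.real (ball c ρ ×ˢ univ) = σ.b.real (ball c ρ ×ˢ univ) := by
    simp only [Measure.real, σ.marg _ hA]
  rw [A4_split σ.h hA hr, A4_split σ.b hA hr] at e2
  simp only [κ]
  linarith only [e1, e2]

theorem near_sum (n : ℕ) (c : T) {ρ r : ℝ} (hρ : 2 * ρ ≤ σ.θ n) (s : Finset ℕ)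
    (hs : ∀ i ∈ s, i < σ.q (n + 1) ∧ ball (c + (((i : ℝ) * α : ℝ) : T)) ρ ⊆ σ.Far r) :
    ∑ i ∈ s, σ.b.real (SS (ball (c + (((i : ℝ) * α : ℝ) : T)) ρ) 0 r) ≤ (N : ℝ) ^ 2 := by
  rw [← measureReal_biUnion_finset]
  · refine le_trans (measureReal_mono ?_) σ.b_G
    exact iUnion₂_subset fun i hi => σ.near_G (hs i hi).2
  · intro i hi j hj hij
    have hd := ball_disjoint_ball (δ := ρ) (ε := ρ)
      (le_trans (by linarith) (σ.sep' (hs i hi).1 (hs j hj).1 hij c))
    exact disjoint_left.2 fun p h k => disjoint_left.1 hd h.1 k.1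
  · exact fun i _ => measurableSet_SS measurableSet_ball _ _

theorem A4_step (c : T) (ρ : ℝ) {r : ℝ} (hr : 0 < r) (i : ℕ) :
    σ.κ (c + (((((i + 1 : ℕ)) : ℝ) * α : ℝ) : T)) ρ r +
        σ.b.real (SS (ball (c + (((i : ℝ) * α : ℝ) : T)) ρ) 0 r) =
      σ.κ (c + (((i : ℝ) * α : ℝ) : T)) ρ r +
        σ.h.real (SS (ball (c + (((i : ℝ) * α : ℝ) : T)) ρ) 0 r) := by
  have e : c + (((((i + 1 : ℕ)) : ℝ) * α : ℝ) : T) = c + (((i : ℝ) * α : ℝ) : T) + (α : T) := by
    rw [add_assoc, ← QuotientAddGroup.mk_add, Nat.cast_succ, add_mul, one_mul]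
  rw [e]
  exact σ.mono_step _ ρ hr

theorem mono_run (n : ℕ) (c : T) {ρ r : ℝ} (hρ : 2 * ρ ≤ σ.θ n) (hr : 0 < r) {t : ℕ}
    (ht : t ≤ σ.q (n + 1)) (hf : ∀ i < t, ball (c + (((i : ℝ) * α : ℝ) : T)) ρ ⊆ σ.Far r) :
    σ.κ c ρ r ≤ σ.κ (c + (((t : ℝ) * α : ℝ) : T)) ρ r + (N : ℝ) ^ 2 := by
  have h1 := σ.near_sum n c hρ (Finset.range t)
    fun i hi => ⟨(Finset.mem_range.1 hi).trans_le ht, hf i (Finset.mem_range.1 hi)⟩
  have h2 := Finset.sum_range_sub (fun i : ℕ => σ.κ (c + (((i : ℝ) * α : ℝ) : T)) ρ r) t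
  have h3 : ∑ i ∈ Finset.range t, (-σ.b.real (SS (ball (c + (((i : ℝ) * α : ℝ) : T)) ρ) 0 r)) ≤
      ∑ i ∈ Finset.range t, (σ.κ (c + (((((i + 1 : ℕ)) : ℝ) * α : ℝ) : T)) ρ r -
        σ.κ (c + (((i : ℝ) * α : ℝ) : T)) ρ r) := by
    refine Finset.sum_le_sum fun i _ => ?_
    have := σ.A4_step c ρ hr i
    have k : 0 ≤ σ.h.real (SS (ball (c + (((i : ℝ) * α : ℝ) : T)) ρ) 0 r) := measureReal_nonneg
    linarith only [this, k]
  rw [h2, Finset.sum_neg_distrib] at h3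
  simp only [Nat.cast_zero, zero_mul, QuotientAddGroup.mk_zero, add_zero] at h3
  linarith only [h1, h3]

open Classical in
theorem A4_card (n : ℕ) (c : T) :
    ((((Finset.range (σ.q (n + 1))).filter fun i : ℕ =>
      ¬ ball (c + (((i : ℝ) * α : ℝ) : T)) (σ.θ n / 2) ⊆ σ.Far (2 * σ.θ n)).card : ℕ) : ℝ) ≤
      6 * N := by
  have hθ := σ.θ_pos n
  have h1 : ((Finset.range (σ.q (n + 1))).filter fun i : ℕ =>
      ¬ ball (c + (((i : ℝ) * α : ℝ) : T)) (σ.θ n / 2) ⊆ σ.Far (2 * σ.θ n)) ⊆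
      σ.M.biUnion fun m => (Finset.range (σ.q (n + 1))).filter fun i : ℕ =>
        c + (((i : ℝ) * α : ℝ) : T) ∈ ball m (5 / 2 * σ.θ n) := by
    intro i hi
    obtain ⟨k1, k2⟩ := Finset.mem_filter.1 hi
    obtain ⟨y, hy, k3⟩ := not_subset.1 k2
    simp only [Far, mem_ofPred_eq, not_forall, not_le] at k3
    obtain ⟨m, hm, k4⟩ := k3
    refine Finset.mem_biUnion.2 ⟨m, hm, Finset.mem_filter.2 ⟨k1, ?_⟩⟩
    have := dist_triangle_left (c + (((i : ℝ) * α : ℝ) : T)) m y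
    rw [mem_ball] at hy ⊢
    linarith only [hy, k4, this]
  have h2 := (Finset.card_le_card h1).trans Finset.card_biUnion_le
  have h3 : ∀ m ∈ σ.M, ((((Finset.range (σ.q (n + 1))).filter fun i : ℕ =>
      c + (((i : ℝ) * α : ℝ) : T) ∈ ball m (5 / 2 * σ.θ n)).card : ℕ) : ℝ) ≤ 6 := by
    intro m _
    refine (σ.count n _ c m (R := 5 / 2 * σ.θ n) (by positivity) fun i hi =>
      ⟨Finset.mem_range.1 (Finset.mem_filter.1 hi).1, (Finset.mem_filter.1 hi).2⟩).trans ?_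
    rw [← mul_assoc, mul_div_assoc, div_self hθ.ne']
    norm_num
  have h4 := Finset.sum_le_card_nsmul _ _ _ h3
  have h5 : (σ.M.card : ℝ) ≤ N := by exact_mod_cast σ.M_card
  rw [nsmul_eq_mul] at h4
  refine ((Nat.cast_le (α := ℝ)).2 h2).trans ?_
  push_cast
  linarith only [h4, h5]

open Classical in
theorem A4_tower (n : ℕ) (c : T) :
    ∑ i ∈ (Finset.range (σ.q (n + 1))).filter fun i : ℕ =>
        ball (c + (((i : ℝ) * α : ℝ) : T)) (σ.θ n / 2) ⊆ σ.Far (2 * σ.θ n),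
      σ.h.real (SS (ball (c + (((i : ℝ) * α : ℝ) : T)) (σ.θ n / 2)) 0 (2 * σ.θ n)) ≤
      7 * N * σ.K n + (N : ℝ) ^ 2 := by
  have hθ := σ.θ_pos n
  have hK := σ.K_nonneg n
  have hN : (1 : ℝ) ≤ N := by exact_mod_cast σ.M_ne.card_pos.trans_le σ.M_card
  have hr : 0 < 2 * σ.θ n := by positivity
  have up : ∀ x : T, σ.κ x (σ.θ n / 2) (2 * σ.θ n) ≤ σ.K n := fun x => σ.a_le_At x n n
  have h1 := σ.near_sum n c (ρ := σ.θ n / 2) (r := 2 * σ.θ n) (by linarith only [])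
    ((Finset.range (σ.q (n + 1))).filter fun i : ℕ =>
      ball (c + (((i : ℝ) * α : ℝ) : T)) (σ.θ n / 2) ⊆ σ.Far (2 * σ.θ n))
    fun i hi => ⟨Finset.mem_range.1 (Finset.mem_filter.1 hi).1, (Finset.mem_filter.1 hi).2⟩
  have h2 := Finset.sum_range_sub
    (fun i : ℕ => σ.κ (c + (((i : ℝ) * α : ℝ) : T)) (σ.θ n / 2) (2 * σ.θ n)) (σ.q (n + 1))
  rw [← Finset.sum_filter_add_sum_filter_not _ (fun i : ℕ =>
    ball (c + (((i : ℝ) * α : ℝ) : T)) (σ.θ n / 2) ⊆ σ.Far (2 * σ.θ n))] at h2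
  have h3 := Finset.card_nsmul_le_sum ((Finset.range (σ.q (n + 1))).filter fun i : ℕ =>
      ¬ ball (c + (((i : ℝ) * α : ℝ) : T)) (σ.θ n / 2) ⊆ σ.Far (2 * σ.θ n))
    (fun i : ℕ => σ.κ (c + (((((i + 1 : ℕ)) : ℝ) * α : ℝ) : T)) (σ.θ n / 2) (2 * σ.θ n) -
      σ.κ (c + (((i : ℝ) * α : ℝ) : T)) (σ.θ n / 2) (2 * σ.θ n)) (-σ.K n) fun i _ => by
        have := up (c + (((i : ℝ) * α : ℝ) : T))
        have := σ.κ_nonneg (c + (((((i + 1 : ℕ)) : ℝ) * α : ℝ) : T)) (σ.θ n / 2) (2 * σ.θ n)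
        linarith
  rw [nsmul_eq_mul] at h3
  have h4 := mul_le_mul_of_nonneg_right (σ.A4_card n c) hK
  have h5 := up (c + ((((σ.q (n + 1) : ℕ) : ℝ) * α : ℝ) : T))
  have h6 := σ.κ_nonneg (c + (((((0 : ℕ)) : ℝ) * α : ℝ) : T)) (σ.θ n / 2) (2 * σ.θ n)
  have h7 : ∀ s : Finset ℕ, ∑ i ∈ s,
      σ.h.real (SS (ball (c + (((i : ℝ) * α : ℝ) : T)) (σ.θ n / 2)) 0 (2 * σ.θ n)) =
      ∑ i ∈ s, (σ.κ (c + (((((i + 1 : ℕ)) : ℝ) * α : ℝ) : T)) (σ.θ n / 2) (2 * σ.θ n) -
        σ.κ (c + (((i : ℝ) * α : ℝ) : T)) (σ.θ n / 2) (2 * σ.θ n)) + ∑ i ∈ s,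
      σ.b.real (SS (ball (c + (((i : ℝ) * α : ℝ) : T)) (σ.θ n / 2)) 0 (2 * σ.θ n)) := by
    intro s
    rw [← Finset.sum_add_distrib]
    refine Finset.sum_congr rfl fun i _ => ?_
    have := σ.A4_step c (σ.θ n / 2) hr i
    linarith only [this]
  rw [h7]
  have h8 := mul_le_mul_of_nonneg_right hN hK
  linarith only [h1, h2, h3, h4, h5, h6, h8]

theorem D_le (n : ℕ) : σ.D n ≤ 28 * N * σ.K n + 4 * (N : ℝ) ^ 2 := by
  classical
  have hK := σ.K_nonneg n
  rcases n with _ | k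
  · have e : σ.Far (3 * σ.θ 0) = ∅ := eq_empty_of_forall_notMem fun x hx => by
      obtain ⟨m, hm⟩ := σ.M_ne
      have := (hx m hm).trans (dist_le_half x m)
      rw [σ.θ_zero] at this
      norm_num at this
    have e' : SS (σ.Far (3 * σ.θ 0)) 0 (2 * σ.θ 0) = ∅ :=
      eq_empty_of_forall_notMem fun p hp => by
        have := hp.1
        rw [e] at this
        exact this
    rw [D, e', measureReal_empty]
    positivity
  have hθ := σ.θ_pos (k + 1)
  have hsub : SS (σ.Far (3 * σ.θ (k + 1))) 0 (2 * σ.θ (k + 1)) ⊆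
      ⋃ j ∈ Finset.range 4, ⋃ i ∈ (Finset.range (σ.q (k + 1 + 1))).filter fun i : ℕ =>
        ball ((((j : ℝ) * (σ.θ (k + 1) / 2) : ℝ) : T) + (((i : ℝ) * α : ℝ) : T))
          (σ.θ (k + 1) / 2) ⊆ σ.Far (2 * σ.θ (k + 1)),
        SS (ball ((((j : ℝ) * (σ.θ (k + 1) / 2) : ℝ) : T) + (((i : ℝ) * α : ℝ) : T))
          (σ.θ (k + 1) / 2)) 0 (2 * σ.θ (k + 1)) := by
    intro p hp
    obtain ⟨i, hi, t, ht, e⟩ := σ.dense k p.1
    have h2 : 0 < σ.θ (k + 1) / 2 := by positivity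
    have f1 := Nat.floor_le (div_nonneg ht.1 h2.le)
    have f2 := Nat.lt_floor_add_one (t / (σ.θ (k + 1) / 2))
    rw [le_div_iff₀ h2] at f1
    rw [div_lt_iff₀ h2] at f2
    have hj : ⌊t / (σ.θ (k + 1) / 2)⌋₊ < 4 := by
      rw [Nat.floor_lt (div_nonneg ht.1 h2.le), div_lt_iff₀ h2]
      have := ht.2
      push_cast
      linarith only [this]
    generalize ⌊t / (σ.θ (k + 1) / 2)⌋₊ = j at f1 f2 hj
    have hb : p.1 ∈ ball ((((j : ℝ) * (σ.θ (k + 1) / 2) : ℝ) : T) + (((i : ℝ) * α : ℝ) : T))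
        (σ.θ (k + 1) / 2) := by
      rw [mem_ball, e, ← QuotientAddGroup.mk_add]
      refine (dist_coe_le _ _).trans_lt (abs_lt.2 ⟨by linarith only [hθ, f1], by linarith only [f2]⟩)
    refine mem_iUnion₂.2 ⟨j, Finset.mem_range.2 hj, mem_iUnion₂.2 ⟨i, Finset.mem_filter.2
      ⟨Finset.mem_range.2 hi, fun y hy m hm => ?_⟩, hb, hp.2⟩⟩
    have k1 := hp.1 m hm
    have k2 := dist_triangle_right p.1 y
      ((((j : ℝ) * (σ.θ (k + 1) / 2) : ℝ) : T) + (((i : ℝ) * α : ℝ) : T))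
    have k3 := dist_triangle p.1 y m
    rw [mem_ball] at hy hb
    linarith only [hb, hy, k1, k2, k3]
  refine (measureReal_mono hsub (measure_ne_top _ _)).trans
    ((measureReal_biUnion_finset_le _ _).trans ?_)
  refine (Finset.sum_le_sum fun j _ => (measureReal_biUnion_finset_le _ _).trans
    (σ.A4_tower (k + 1) _)).trans ?_
  rw [Finset.sum_const, Finset.card_range, nsmul_eq_mul]
  push_cast
  linarith only []

end Sys

end Pool.Agent.Work.MP_042f46_an.Ty
end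
end

-- merged part: Pool.Agent.Work.MP_042f46_an.T.A5
section
/-!
# The hitting mass near the marks

Plans.  `colour`: strong induction on `s.card`.  There is `j ∈ s` all of whose neighbours `l ∈ s`, `l ≠ j` have no element of `s` strictly between `j` and `l` (if some edge `i < k` has an element of `s` strictly between, take such an edge with `k - i` minimal and `j` between: a neighbour outside `[i, k]` gives a crossing, a neighbour inside gives a shorter edge); so `j` has at most one neighbour above and one below; colour `s.erase j` and give `j` a third colour.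
`HZ`: let `n₀ = ⌈1 / θ⌉₊`, `η = 1 / n₀` (so `θ / 2 ≤ η ≤ θ`), `P k` the image of `Ico (k η) ((k + 1) η)`, `k < n₀` (disjoint, cover the circle), `Z k = Z ∩ P k`, `s` the set of `k < n₀` with `Z k` nonempty.  `s.card ≤ 7 N R / θ` (`sep_card` for the points `↑(k η)` in `ball m (R + η)`, `le_dist_coe`).  `E i k` means `1 < h (Z i × Z k)`; it is symmetric and has no crossing (`le`, `cross` with the points `i η < j η < k η < l η`).  With `Y c` the union of the `Z k` of colour `c`: `h (Z × Z) ≤ ∑ c c', h (Y c × Y c') ≤ 3 ∑ c, h (Y c × Y c)` (`psd`), `h (Y c × Y c) ≤ ∑ h (Z k × Z k) + (number of k of colour c) ^ 2`, and the disjoint squares `Z k × Z k` lie in the set defining `D n`.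
-/

open Set Metric Topology Filter MeasureTheory
open scoped ENNReal NNReal

noncomputable section
namespace Pool.Agent.Work.MP_042f46_an.Ty

theorem A5_vertex (s : Finset ℕ) (E : ℕ → ℕ → Prop) (hs : ∀ i j, E i j → E j i)
    (hn : ∀ i ∈ s, ∀ j ∈ s, ∀ k ∈ s, ∀ l ∈ s, i < j → j < k → k < l → E i k → E j l → False)
    (h0 : s.Nonempty) :
    ∃ j ∈ s, ∀ l ∈ s, E j l → ∀ m ∈ s, ¬ (j < m ∧ m < l) ∧ ¬ (l < m ∧ m < j) := by
  classical
  by_cases h : ∃ d, ∃ i ∈ s, ∃ k ∈ s, ∃ j ∈ s, i < j ∧ j < k ∧ E i k ∧ k - i = d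
  · obtain ⟨i, hi, k, hk, j, hj, h1, h2, h3, h4⟩ := Nat.find_spec h
    have hm : ∀ i' ∈ s, ∀ k' ∈ s, ∀ j' ∈ s, i' < j' → j' < k' → E i' k' → k - i ≤ k' - i' :=
      fun i' a1 k' a2 j' a3 b1 b2 b3 =>
        h4 ▸ Nat.find_min' h ⟨i', a1, k', a2, j', a3, b1, b2, b3, rfl⟩
    refine ⟨j, hj, fun l hl e m hm' => ⟨fun b => ?_, fun b => ?_⟩⟩
    · rcases lt_or_ge k l with c | c
      · exact hn i hi j hj k hk l hl h1 h2 c h3 e
      · have := hm j hj l hl m hm' b.1 b.2 e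
        omega
    · rcases lt_or_ge l i with c | c
      · exact hn l hl i hi j hj k hk c h1 h2 (hs _ _ e) h3
      · have := hm l hl j hj m hm' b.1 b.2 (hs _ _ e)
        omega
  · obtain ⟨j, hj⟩ := h0
    exact ⟨j, hj, fun l hl e m hm => ⟨fun b => h ⟨_, j, hj, l, hl, m, hm, b.1, b.2, e, rfl⟩,
      fun b => h ⟨_, l, hl, j, hj, m, hm, b.1, b.2, hs _ _ e, rfl⟩⟩⟩

theorem colour (s : Finset ℕ) (E : ℕ → ℕ → Prop) (hs : ∀ i j, E i j → E j i)
    (hn : ∀ i ∈ s, ∀ j ∈ s, ∀ k ∈ s, ∀ l ∈ s, i < j → j < k → k < l → E i k → E j l → False) :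
    ∃ c : ℕ → Fin 3, ∀ i ∈ s, ∀ j ∈ s, i ≠ j → E i j → c i ≠ c j := by
  induction hc : s.card generalizing s with
  | zero =>
    rw [Finset.card_eq_zero] at hc
    exact ⟨fun _ => 0, by simp [hc]⟩
  | succ n ih =>
    obtain ⟨j, hj, hP⟩ := A5_vertex s E hs hn (Finset.card_pos.1 (by omega))
    obtain ⟨c, hc'⟩ := ih (s.erase j) (fun i hi j' hj' k hk l hl =>
      hn i (Finset.mem_of_mem_erase hi) j' (Finset.mem_of_mem_erase hj') k
        (Finset.mem_of_mem_erase hk) l (Finset.mem_of_mem_erase hl))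
      (by rw [Finset.card_erase_of_mem hj]; omega)
    obtain ⟨a, ha⟩ : ∃ a, ∀ l ∈ s, j < l → E j l → l = a := by
      by_cases h : ∃ l ∈ s, j < l ∧ E j l
      · obtain ⟨a, a1, a2, a3⟩ := h
        refine ⟨a, fun l l1 l2 l3 => ?_⟩
        have b1 := hP l l1 l3 a a1
        have b2 := hP a a1 a3 l l1
        omega
      · exact ⟨0, fun l l1 l2 l3 => (h ⟨l, l1, l2, l3⟩).elim⟩
    obtain ⟨b, hb⟩ : ∃ b, ∀ l ∈ s, l < j → E j l → l = b := by
      by_cases h : ∃ l ∈ s, l < j ∧ E j l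
      · obtain ⟨a, a1, a2, a3⟩ := h
        refine ⟨a, fun l l1 l2 l3 => ?_⟩
        have b1 := hP l l1 l3 a a1
        have b2 := hP a a1 a3 l l1
        omega
      · exact ⟨0, fun l l1 l2 l3 => (h ⟨l, l1, l2, l3⟩).elim⟩
    obtain ⟨x, xa, xb⟩ : ∃ x : Fin 3, c a ≠ x ∧ c b ≠ x :=
      (by decide : ∀ u v : Fin 3, ∃ x : Fin 3, u ≠ x ∧ v ≠ x) _ _
    have hx : ∀ l ∈ s, l ≠ j → E j l → c l ≠ x := fun l l1 l2 l3 => by
      rcases lt_or_gt_of_ne l2 with h | h
      · rwa [hb l l1 h l3]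
      · rwa [ha l l1 h l3]
    refine ⟨Function.update c j x, fun i hi k hk hik e => ?_⟩
    by_cases h1 : i = j
    · subst h1
      rw [Function.update_self, Function.update_of_ne hik.symm]
      exact (hx k hk hik.symm e).symm
    · by_cases h2 : k = j
      · subst h2
        rw [Function.update_self, Function.update_of_ne hik]
        exact hx i hi hik (hs _ _ e)
      · rw [Function.update_of_ne h1, Function.update_of_ne h2]
        exact hc' i (Finset.mem_erase.2 ⟨h1, hi⟩) k (Finset.mem_erase.2 ⟨h2, hk⟩) hik e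

theorem A5_idx {θ : ℝ} (θ0 : 0 < θ) (θ1 : θ ≤ 1) : ∃ (n₀ : ℕ) (η : ℝ) (idx : T → ℕ),
    0 < η ∧ η ≤ θ ∧ θ ≤ 2 * η ∧ n₀ * η = 1 ∧ Measurable idx ∧ (∀ x, idx x < n₀) ∧
    ∀ x, ∃ t : ℝ, idx x * η ≤ t ∧ t < (idx x + 1) * η ∧ (t : T) = x := by
  have h1 : 1 / θ ≤ ⌈1 / θ⌉₊ := Nat.le_ceil _
  have h2 : (⌈1 / θ⌉₊ : ℝ) < 1 / θ + 1 := Nat.ceil_lt_add_one (by positivity)
  have h3 : 1 ≤ 1 / θ := (one_le_div θ0).2 θ1
  set m := ⌈1 / θ⌉₊
  have m0 : (0 : ℝ) < m := by linarith only [h3, h1]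
  let r : T → ℝ := fun x => (AddCircle.equivIco 1 0 x : ℝ)
  have r0 : ∀ x, 0 ≤ r x := fun x => (AddCircle.equivIco 1 0 x).2.1
  have r1 : ∀ x, r x < 1 := fun x => by simpa using (AddCircle.equivIco 1 0 x).2.2
  have mr : Measurable r :=
    measurable_subtype_coe.comp (AddCircle.measurableEquivIco 1 0).measurable
  refine ⟨m, 1 / m, fun x => ⌊m * r x⌋₊, by positivity, ?_, ?_, by field_simp,
    (mr.const_mul _).nat_floor, fun x => ?_, fun x => ⟨r x, ?_, ?_, AddCircle.coe_equivIco⟩⟩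
  · rw [div_le_iff₀ θ0] at h1
    rw [div_le_iff₀ m0]
    linarith only [h1]
  · have h4 : (m : ℝ) ≤ 2 / θ := by
      have : 2 / θ = 1 / θ + 1 / θ := by ring
      linarith only [h3, h2, this]
    rw [le_div_iff₀ θ0] at h4
    rw [mul_one_div, le_div_iff₀ m0]
    linarith only [h4]
  · have := r0 x
    rw [Nat.floor_lt (by positivity)]
    exact mul_lt_of_lt_one_right m0 (r1 x)
  · have := r0 x
    rw [mul_one_div, div_le_iff₀ m0, mul_comm (r x)]
    exact Nat.floor_le (by positivity)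
  · rw [mul_one_div, lt_div_iff₀ m0, mul_comm (r x)]
    exact Nat.lt_floor_add_one _

namespace Sys

variable {α : ℝ} {N : ℕ} (σ : Sys α N)

theorem HZ (n : ℕ) {R : ℝ} (hR : σ.θ n ≤ R) :
    σ.h.real ((σ.Far (3 * σ.θ n) ∩ σ.Near R) ×ˢ (σ.Far (3 * σ.θ n) ∩ σ.Near R)) ≤
      3 * σ.D n + 3 * (7 * N * R / σ.θ n) ^ 2 := by
  classical
  have θ0 := σ.θ_pos n
  have θ1 : σ.θ n ≤ 1 := σ.toLev.θ_le_one n
  set θ := σ.θ n with hθ
  obtain ⟨n₀, η, idx, η0, η1, η2, hη, hi, hlt, hrep⟩ := A5_idx θ0 θ1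
  set Z := σ.Far (3 * θ) ∩ σ.Near R with hZ
  have mZ : MeasurableSet Z := (σ.measurableSet_Far _).inter (σ.measurableSet_Near _)
  let Zk : ℕ → Set T := fun k => Z ∩ idx ⁻¹' {k}
  have mZk : ∀ k, MeasurableSet (Zk k) := fun k => mZ.inter (hi (measurableSet_singleton k))
  let s : Finset ℕ := (Finset.range n₀).filter fun k => (Zk k).Nonempty
  have hs : ∀ x ∈ Z, idx x ∈ s := fun x hx =>
    Finset.mem_filter.2 ⟨Finset.mem_range.2 (hlt x), x, hx, rfl⟩
  have hle : ∀ i j : ℕ, i < j → ((i : ℝ) + 1) * η ≤ j * η := fun i j h =>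
    mul_le_mul_of_nonneg_right (by exact_mod_cast h) η0.le
  have hlt' : ∀ i j : ℕ, i < j → (i : ℝ) * η < j * η := fun i j h => by
    have := hle i j h
    linarith only [η0, this]
  have hone : ∀ k ∈ s, ((k : ℝ) + 1) * η ≤ 1 := fun k hk =>
    hη ▸ hle k n₀ (Finset.mem_range.1 (Finset.mem_filter.1 hk).1)
  have harc : ∀ (k : ℕ) (b : ℝ), ((k : ℝ) + 1) * η ≤ b → Zk k ⊆ arc (k * η) b := by
    rintro k b hb x ⟨-, rfl : idx x = k⟩
    obtain ⟨t, t1, t2, t3⟩ := hrep x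
    exact ⟨t, ⟨t1, t2.le.trans hb⟩, t3⟩
  have hH : ∀ (i k : ℕ) (a b c d : ℝ), i ≠ k → b < c → d < a + 1 → Zk i ⊆ arc a b →
      Zk k ⊆ arc c d → σ.h.real (Zk i ×ˢ Zk k) ≤ σ.H.real (arc a b ×ˢ arc c d) := by
    intro i k a b c d hik h1 h2 s1 s2
    have ho := off_arc (x₁ := a) (x₂ := b) (x₃ := c) (x₄ := d) h1 h2
    refine le_trans (ENNReal.toReal_mono (σ.H_fin (ho.mono (prod_mono s1 s2)))
      (σ.le _ _ (mZk i) (mZk k) ?_)) (σ.Hr_mono (prod_mono s1 s2) ho)
    exact disjoint_left.2 fun x a1 a2 => hik (a1.2.symm.trans a2.2)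
  obtain ⟨c, hc⟩ := colour s (fun i k => 1 < σ.h.real (Zk i ×ˢ Zk k))
    (fun i k h => by
      rwa [measureReal_def, swap_prod σ.h_symm (mZk k) (mZk i)])
    (fun i hi j hj k hk l hl h1 h2 h3 e1 e2 => by
      have i0 : 0 ≤ (i : ℝ) * η := by positivity
      have l1 := hone l hl
      rcases σ.cross (hlt' i j h1) (hlt' j k h2) (hlt' k l h3) (by linarith only [η0, i0, l1]) with h | h
      · exact (e1.trans_le (hH i k _ _ _ _ (by omega) (hlt' j k h2) (by linarith only [η0, i0, l1])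
          (harc i _ (hle i j h1)) (harc k _ (hle k l h3)))).not_ge h
      · exact (e2.trans_le (hH j l _ _ _ _ (by omega) (hlt' k l h3)
          (by linarith only [hlt', h1, hlt' i j h1]) (harc j _ (hle j k h2)) (harc l _ (by linarith only [i0, l1])))).not_ge h)
  have hcard : (s.card : ℝ) ≤ 7 * N * R / θ := by
    have hm : ∀ m : T, ((s.filter fun k : ℕ => (((k : ℝ) * η : ℝ) : T) ∈ ball m (R + η)).card : ℝ)
        ≤ 7 * R / θ := fun m => by
      refine (sep_card _ (fun k : ℕ => (((k : ℝ) * η : ℝ) : T)) m (by linarith) η0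
        (fun i hi j hj hij => ?_) fun i hi => (Finset.mem_filter.1 hi).2).trans ?_
      · have i0 : 0 ≤ (i : ℝ) * η := by positivity
        have j0 : 0 ≤ (j : ℝ) * η := by positivity
        have i1 := hone i (Finset.mem_filter.1 hi).1
        have j1 := hone j (Finset.mem_filter.1 hj).1
        refine le_dist_coe ?_ (abs_le.2 ⟨by linarith only [i0, j1], by linarith only [j0, i1]⟩)
        rcases lt_or_gt_of_ne hij with h | h
        · have := hle i j h
          exact le_abs.2 (Or.inr (by linarith only [this]))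
        · have := hle j i h
          exact le_abs.2 (Or.inl (by linarith only [this]))
      · have e1 : 2 * (R + η) / η + 1 = 2 * R / η + 3 := by
          field_simp
          ring
        have e2 : 2 * R / η ≤ 4 * R / θ := by
          rw [div_le_div_iff₀ η0 θ0]
          linarith only [hR, η2, θ0, mul_nonneg_of_nonpos_of_nonpos (Mathlib.Tactic.Linarith.sub_nonpos_of_le hR) (Mathlib.Tactic.Linarith.sub_nonpos_of_le η2), mul_nonneg_of_nonpos_of_nonpos (le_of_lt (Mathlib.Tactic.Linarith.sub_neg_of_lt θ0)) (Mathlib.Tactic.Linarith.sub_nonpos_of_le η2)]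
        have e3 : 1 ≤ R / θ := (one_le_div θ0).2 hR
        have e4 : 7 * R / θ = 4 * R / θ + 3 * (R / θ) := by ring
        linarith only [e1, e2, e3, e4]
    have hsub : s ⊆ σ.M.biUnion fun m =>
        s.filter fun k : ℕ => (((k : ℝ) * η : ℝ) : T) ∈ ball m (R + η) := fun k hk => by
      obtain ⟨x, ⟨-, hx⟩, rfl : idx x = k⟩ := (Finset.mem_filter.1 hk).2
      obtain ⟨m, hm, hxm⟩ := mem_iUnion₂.1 hx
      refine Finset.mem_biUnion.2 ⟨m, hm, Finset.mem_filter.2 ⟨hk, ?_⟩⟩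
      obtain ⟨t, t1, t2, t3⟩ := hrep x
      have d1 : dist (((idx x : ℝ) * η : ℝ) : T) (t : T) ≤ η :=
        (dist_coe_le _ _).trans (abs_le.2 ⟨by linarith only [t2], by linarith only [η0, t1]⟩)
      rw [t3] at d1
      have := dist_triangle (((idx x : ℝ) * η : ℝ) : T) x m
      rw [mem_ball] at hxm ⊢
      linarith only [hxm, d1, this]
    have h1 : (s.card : ℝ) ≤ ∑ m ∈ σ.M, 7 * R / θ :=
      le_trans (by exact_mod_cast (Finset.card_le_card hsub).trans Finset.card_biUnion_le)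
        (Finset.sum_le_sum fun m _ => hm m)
    rw [Finset.sum_const, nsmul_eq_mul] at h1
    have h2 : (σ.M.card : ℝ) ≤ N := by exact_mod_cast σ.M_card
    have h3 : 0 ≤ 7 * R / θ := by
      have := θ0.trans_le hR
      positivity
    calc (s.card : ℝ) ≤ N * (7 * R / θ) := h1.trans (mul_le_mul_of_nonneg_right h2 h3)
      _ = _ := by ring
  let Y : Fin 3 → Set T := fun a => Z ∩ (fun x => c (idx x)) ⁻¹' {a}
  have mY : ∀ a, MeasurableSet (Y a) := fun a =>
    mZ.inter (((measurable_of_countable c).comp hi) (measurableSet_singleton a))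
  have hpsd : ∀ a b, 2 * σ.h.real (Y a ×ˢ Y b) ≤ σ.h.real (Y a ×ˢ Y a) + σ.h.real (Y b ×ˢ Y b) := by
    intro a b
    have := ENNReal.toReal_mono (by finiteness) (σ.psd _ _ (mY a) (mY b))
    rwa [ENNReal.toReal_mul, ENNReal.toReal_add (by finiteness) (by finiteness),
      ENNReal.toReal_ofNat] at this
  have k1 : σ.h.real (Z ×ˢ Z) ≤ 3 * ∑ a, σ.h.real (Y a ×ˢ Y a) := by
    have h0 : Z ×ˢ Z ⊆ ⋃ a : Fin 3 × Fin 3, Y a.1 ×ˢ Y a.2 := fun p hp =>
      mem_iUnion.2 ⟨(c (idx p.1), c (idx p.2)), ⟨hp.1, rfl⟩, hp.2, rfl⟩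
    have h1 : σ.h.real (Z ×ˢ Z) ≤ ∑ a : Fin 3 × Fin 3, σ.h.real (Y a.1 ×ˢ Y a.2) :=
      (measureReal_mono h0).trans (measureReal_iUnion_fintype_le _)
    rw [Fintype.sum_prod_type] at h1
    simp only [Fin.sum_univ_three] at h1 ⊢
    linarith only [h1, hpsd, hpsd 0 1, hpsd 1 0, hpsd 0 2, hpsd 2 0, hpsd 1 2, hpsd 2 1]
  let Q : Finset (ℕ × ℕ) := (s ×ˢ s).filter fun q => q.1 ≠ q.2 ∧ c q.1 = c q.2
  have k2 : ∑ a, σ.h.real (Y a ×ˢ Y a) ≤ σ.D n + (s.card : ℝ) ^ 2 := by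
    rw [← measureReal_iUnion_fintype (fun a b hab => disjoint_left.2 fun p h1 h2 =>
      hab (h1.1.2.symm.trans h2.1.2)) fun a => (mY a).prod (mY a)]
    have hsub : ⋃ a, Y a ×ˢ Y a ⊆ SS (σ.Far (3 * θ)) 0 (2 * θ) ∪ ⋃ q ∈ Q, Zk q.1 ×ˢ Zk q.2 := by
      intro p hp
      obtain ⟨a, ⟨a1, a2⟩, b1, b2⟩ := mem_iUnion.1 hp
      by_cases e : idx p.1 = idx p.2
      · refine Or.inl ⟨a1.1, dist_nonneg, ?_⟩
        obtain ⟨t, t1, t2, t3⟩ := hrep p.1
        obtain ⟨u, u1, u2, u3⟩ := hrep p.2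
        rw [← t3, ← u3]
        rw [e] at t1 t2
        exact (dist_coe_le _ _).trans_lt (abs_lt.2 ⟨by linarith only [θ0, η1, t1, u2], by linarith only [θ0, η1, t2, u1]⟩)
      · exact Or.inr (mem_iUnion₂.2 ⟨(idx p.1, idx p.2), Finset.mem_filter.2
          ⟨Finset.mem_product.2 ⟨hs _ a1, hs _ b1⟩, e, a2.trans b2.symm⟩, ⟨a1, rfl⟩, b1, rfl⟩)
    refine (measureReal_mono hsub).trans ((measureReal_union_le _ _).trans
      (add_le_add le_rfl ((measureReal_biUnion_finset_le _ _).trans ?_)))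
    refine (Finset.sum_le_card_nsmul _ _ 1 fun q hq => ?_).trans ?_
    · obtain ⟨q1, q2, q3⟩ := Finset.mem_filter.1 hq
      exact not_lt.1 fun h =>
        hc _ (Finset.mem_product.1 q1).1 _ (Finset.mem_product.1 q1).2 q2 h q3
    · have := Finset.card_filter_le (s ×ˢ s) fun q => q.1 ≠ q.2 ∧ c q.1 = c q.2
      rw [Finset.card_product] at this
      rw [nsmul_eq_mul, mul_one, sq]
      exact_mod_cast this
  have k3 : (s.card : ℝ) ^ 2 ≤ (7 * N * R / θ) ^ 2 := by gcongr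
  linarith only [k1, k2, k3]

end Sys

end Pool.Agent.Work.MP_042f46_an.Ty
end
end

-- merged part: Pool.Agent.Work.MP_042f46_an.T.A6
section
/-!
# The bad mass in a range of jumps

Plan for `JB`.  Let `Z₁ = Far (3 θ d₁) ∩ Near (2 θ l₁)`, `Z₂ = Far (3 θ d₂) ∩ Near (2 θ e)`.  A pair counted by `J l₁ l₂` lies in `G`, or its first point is in `Near (2 θ l₁)`, so in `Z₁` or in some `ball m (3 θ d₁)` with jump at least `2 θ l₂ ≥ 3 θ d₁`.  The last part: `cover` by 12 balls of radius `θ d₁ / 2` and `b_rect` (at most `12 N K d₁`).  `b (Z₁ × univ) = h (Z₁ × univ)` (`marg`), and `Z₁ × univ` is covered by `Z₂ × Z₂` (`HZ`, `D_le`), by the swaps of `SS (ball m (3 θ d₂)) (2 θ d₁ + θ d₂) 2` (12 balls, `swap_apply`, `h_rect`, `At d₂ d₁`) and by `Near (2 θ l₁) × (Near (2 θ e))ᶜ`, which is empty for `e = 0` (`M_ne`, `dist_le_half`) and otherwise lies in the sets `SS (ball m (2 θ l₁)) (2 θ (e + 2) + θ l₁) 2` (8 balls, `h_rect`, `At l₁ (e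 + 2)`).  Note `1 ≤ P` and `0 ≤ a`.  `J_crude`: `d₁ = l₂ + 2`, `d₂ = l₂ + 6`, `e = l₁ - 4`, `At_mono`.
-/

open Set Metric Topology Filter MeasureTheory
open scoped ENNReal NNReal

noncomputable section
namespace Pool.Agent.Work.MP_042f46_an.Ty

namespace Sys

variable {α : ℝ} {N : ℕ} (σ : Sys α N)

theorem A6_cov (μ : Measure (T × T)) [IsFiniteMeasure μ] {R r s a : ℝ} (hr : 0 < r) (n : ℕ)
    (hn : 2 * R ≤ n * r) (ha : 0 ≤ a) (h : ∀ c, μ.real (SS (ball c r) s 2) ≤ a) :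
    μ.real (⋃ m ∈ σ.M, SS (ball m R) s 2) ≤ n * N * a := by
  have h1 : ∀ m : T, μ.real (SS (ball m R) s 2) ≤ n * a := by
    intro m
    obtain ⟨x, hx⟩ := cover m hr n hn
    have h2 : SS (ball m R) s 2 ⊆ ⋃ k ∈ Finset.range n, SS (ball (x k) r) s 2 := by
      intro p hp
      obtain ⟨k, hk, h3⟩ := mem_iUnion₂.1 (hx hp.1)
      exact mem_iUnion₂.2 ⟨k, hk, h3, hp.2⟩
    refine (measureReal_mono h2 (measure_ne_top _ _)).trans ((measureReal_biUnion_finset_le _ _).trans ?_)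
    refine (Finset.sum_le_card_nsmul _ _ a fun k _ => h _).trans_eq ?_
    rw [Finset.card_range, nsmul_eq_mul]
  refine (measureReal_biUnion_finset_le _ _).trans ?_
  refine (Finset.sum_le_card_nsmul _ _ (n * a) fun m _ => h1 m).trans ?_
  have h4 : (σ.M.card : ℝ) ≤ N := by exact_mod_cast σ.M_card
  rw [nsmul_eq_mul, mul_comm (n : ℝ) N, mul_assoc]
  exact mul_le_mul_of_nonneg_right h4 (mul_nonneg (Nat.cast_nonneg n) ha)

theorem A6_h {R a : ℝ} (n g₁ g₀ : ℕ) (hn : 4 * R ≤ n * σ.θ g₁) (h : σ.At g₁ g₀ ≤ a) :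
    σ.h.real (⋃ m ∈ σ.M, SS (ball m R) (2 * σ.θ g₀ + 2 * (σ.θ g₁ / 2)) 2) ≤ n * N * a :=
  σ.A6_cov σ.h (half_pos (σ.θ_pos g₁)) n (by linarith only [hn]) ((σ.At_nonneg _ _).trans h) fun c =>
    (σ.h_rect c _ (by linarith [σ.θ_pos g₀])).trans ((σ.a_le_At c g₁ g₀).trans h)

theorem A6_two (x y : T) : dist x y < 2 := (dist_le_half x y).trans_lt (by norm_num)

theorem A6_far {r : ℝ} {x : T} (h : x ∉ σ.Far r) : ∃ m ∈ σ.M, x ∈ ball m r := by
  by_contra k
  exact h fun m hm => not_lt.1 fun l => k ⟨m, hm, l⟩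

theorem JB {l₁ l₂ d₁ d₂ e : ℕ} {a P : ℝ} (h₁₂ : l₁ ≤ l₂) (hd₁ : l₂ + 2 ≤ d₁) (hd₂ : d₁ + 4 ≤ d₂)
    (hK₁ : σ.K d₁ ≤ a) (hK₂ : σ.K d₂ ≤ a) (hA : σ.At d₂ d₁ ≤ a)
    (he : e = 0 ∨ e + 4 ≤ l₁ ∧ σ.At l₁ (e + 2) ≤ a) (hP : σ.θ e ^ 2 ≤ P * σ.θ d₂ ^ 2) :
    σ.J l₁ l₂ ≤ 116 * N * a + 601 * (N : ℝ) ^ 2 * P := by
  have ha : 0 ≤ a := (σ.K_nonneg _).trans hK₁
  have hN : (0 : ℝ) ≤ N := Nat.cast_nonneg N
  have hel : e ≤ l₁ := by omega
  have p1 := σ.θ_pos d₁
  have p2 := σ.θ_pos d₂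
  have p3 := σ.θ_pos e
  have t1 : 2 * σ.θ d₁ ≤ σ.θ l₂ := σ.θ_two hd₁
  have t2 : 4 * σ.θ d₂ ≤ σ.θ d₁ := σ.θ_four hd₂
  have t3 : σ.θ l₁ ≤ σ.θ e := σ.θ_anti hel
  have t4 : σ.θ d₂ ≤ σ.θ e := σ.θ_anti (by omega)
  have hP1 : 1 ≤ P := by
    have := (pow_le_pow_left₀ p2.le t4 2).trans hP
    exact le_of_mul_le_mul_right (by rwa [one_mul]) (pow_pos p2 2)
  have s1 : SS univ (2 * σ.θ l₂) (2 * σ.θ l₁) ⊆
      (σ.G ∪ (σ.Far (3 * σ.θ d₁) ∩ σ.Near (2 * σ.θ l₁)) ×ˢ univ) ∪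
        ⋃ m ∈ σ.M, SS (ball m (3 * σ.θ d₁)) (2 * σ.θ d₁ + 2 * (σ.θ d₁ / 2)) 2 := by
    intro p hp
    by_cases h1 : p ∈ σ.G
    · exact Or.inl (Or.inl h1)
    by_cases h2 : p.1 ∈ σ.Far (3 * σ.θ d₁)
    · refine Or.inl (Or.inr ⟨⟨h2, ?_⟩, mem_univ _⟩)
      by_contra k
      exact h1 fun m hm => not_le.1 fun l =>
        k (mem_iUnion₂.2 ⟨m, hm, ((le_max_left _ _).trans l).trans_lt hp.2.2⟩)
    · obtain ⟨m, hm, h3⟩ := σ.A6_far h2
      exact Or.inr (mem_iUnion₂.2 ⟨m, hm, h3, by linarith only [p2, t1, t2, hp, hp.2.1], A6_two _ _⟩)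
  have s2 : (σ.Far (3 * σ.θ d₁) ∩ σ.Near (2 * σ.θ l₁)) ×ˢ (univ : Set T) ⊆
      ((σ.Far (3 * σ.θ d₂) ∩ σ.Near (2 * σ.θ e)) ×ˢ (σ.Far (3 * σ.θ d₂) ∩ σ.Near (2 * σ.θ e)) ∪
        Prod.swap ⁻¹' ⋃ m ∈ σ.M, SS (ball m (3 * σ.θ d₂)) (2 * σ.θ d₁ + 2 * (σ.θ d₂ / 2)) 2) ∪
        σ.Near (2 * σ.θ l₁) ×ˢ (σ.Near (2 * σ.θ e))ᶜ := by
    rintro p ⟨⟨h1, h2⟩, -⟩
    by_cases h3 : p.2 ∈ σ.Near (2 * σ.θ e)
    · by_cases h4 : p.2 ∈ σ.Far (3 * σ.θ d₂)
      · obtain ⟨m, hm, h5⟩ := mem_iUnion₂.1 h2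
        exact Or.inl (Or.inl ⟨⟨fun m hm => le_trans (by linarith only [p2, t2]) (h1 m hm),
          mem_iUnion₂.2 ⟨m, hm, ball_subset_ball (by linarith only [t3]) h5⟩⟩, h4, h3⟩)
      · obtain ⟨m, hm, h5⟩ := σ.A6_far h4
        refine Or.inl (Or.inr (mem_iUnion₂.2 ⟨m, hm, h5, ?_, A6_two _ _⟩))
        have k1 := h1 m hm
        have k2 := dist_triangle_left p.1 m p.2
        have k3 : dist p.2 m < 3 * σ.θ d₂ := h5
        show _ ≤ dist p.2 p.1
        linarith only [t2, k1, k2, k3]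
    · exact Or.inr ⟨h2, h3⟩
  have b1 := σ.b_G
  have b2 := σ.A6_cov σ.b (R := 3 * σ.θ d₁) (s := 2 * σ.θ d₁ + 2 * (σ.θ d₁ / 2)) (half_pos p1) 12
    (by push_cast; linarith only []) ha fun c =>
    (σ.b_rect c _ (by linarith only [p2, t2])).trans ((σ.a_le_At _ d₁ d₁).trans hK₁)
  have b3 : σ.b.real ((σ.Far (3 * σ.θ d₁) ∩ σ.Near (2 * σ.θ l₁)) ×ˢ univ) =
      σ.h.real ((σ.Far (3 * σ.θ d₁) ∩ σ.Near (2 * σ.θ l₁)) ×ˢ univ) :=
    congrArg ENNReal.toReal
      (σ.marg _ ((σ.measurableSet_Far _).inter (σ.measurableSet_Near _))).symm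
  have b4 := σ.HZ d₂ (R := 2 * σ.θ e) (by linarith only [p3, t4])
  have b5 := σ.D_le d₂
  have b6 : (7 * N * (2 * σ.θ e) / σ.θ d₂) ^ 2 ≤ 196 * (N : ℝ) ^ 2 * P := by
    rw [div_pow, div_le_iff₀ (pow_pos p2 2)]
    have := mul_le_mul_of_nonneg_left hP (by positivity : 0 ≤ 196 * (N : ℝ) ^ 2)
    linarith only [this]
  have b7 : σ.h.real (Prod.swap ⁻¹'
      ⋃ m ∈ σ.M, SS (ball m (3 * σ.θ d₂)) (2 * σ.θ d₁ + 2 * (σ.θ d₂ / 2)) 2) ≤ 12 * N * a := by
    have := σ.A6_h (R := 3 * σ.θ d₂) 12 d₂ d₁ (by push_cast; linarith only []) hA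
    rw [Measure.real, swap_apply σ.h_symm (Finset.measurableSet_biUnion _ fun m _ =>
      measurableSet_SS measurableSet_ball _ _)]
    exact_mod_cast this
  have b8 : σ.h.real (σ.Near (2 * σ.θ l₁) ×ˢ (σ.Near (2 * σ.θ e))ᶜ) ≤ 8 * N * a := by
    rcases he with rfl | ⟨h1, h2⟩
    · obtain ⟨m, hm⟩ := σ.M_ne
      have : σ.Near (2 * σ.θ 0) = univ := eq_univ_of_forall fun x =>
        mem_iUnion₂.2 ⟨m, hm, by rw [σ.θ_zero, mul_one]; exact A6_two _ _⟩
      rw [this, compl_univ, prod_empty, measureReal_empty]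
      positivity
    · have k0 := σ.A6_h (R := 2 * σ.θ l₁) 8 l₁ (e + 2) (by push_cast; linarith only []) h2
      push_cast at k0
      refine le_trans (measureReal_mono (fun p hp => ?_) (measure_ne_top _ _)) k0
      obtain ⟨m, hm, h3⟩ := mem_iUnion₂.1 hp.1
      refine mem_iUnion₂.2 ⟨m, hm, h3, ?_, A6_two _ _⟩
      have k1 : 2 * σ.θ e ≤ dist p.2 m := not_lt.1 fun l => hp.2 (mem_iUnion₂.2 ⟨m, hm, l⟩)
      have k2 := dist_triangle_left p.2 m p.1
      have k3 : dist p.1 m < 2 * σ.θ l₁ := h3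
      have k4 := σ.θ_half e
      have k5 : 4 * σ.θ l₁ ≤ σ.θ e := σ.θ_four h1
      linarith only [p3, k1, k2, k3, k4, k5]
  have c1 := ((measureReal_mono s1 (measure_ne_top σ.b _)).trans
    (measureReal_union_le _ _)).trans (add_le_add (measureReal_union_le _ _) le_rfl)
  have c2 := ((measureReal_mono s2 (measure_ne_top σ.h _)).trans
    (measureReal_union_le _ _)).trans (add_le_add (measureReal_union_le _ _) le_rfl)
  have c3 : (N : ℝ) * σ.K d₂ ≤ N * a := mul_le_mul_of_nonneg_left hK₂ hN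
  have c4 : (N : ℝ) ^ 2 * 1 ≤ N ^ 2 * P := mul_le_mul_of_nonneg_left hP1 (by positivity)
  push_cast at b2
  unfold J
  linarith only [b1, b2, b3, b4, b5, b6, b7, b8, c1, c2, c3, c4]

theorem J_crude {l₁ l₂ : ℕ} {a P : ℝ} (h₁₂ : l₁ ≤ l₂) (h₁ : σ.K l₁ ≤ a) (h₂ : σ.K (l₂ + 2) ≤ a)
    (h₃ : σ.K (l₂ + 6) ≤ a) (hP : σ.θ (l₁ - 4) ^ 2 ≤ P * σ.θ (l₂ + 6) ^ 2) :
    σ.J l₁ l₂ ≤ 116 * N * a + 601 * (N : ℝ) ^ 2 * P := by
  refine σ.JB (d₁ := l₂ + 2) (d₂ := l₂ + 6) (e := l₁ - 4) h₁₂ le_rfl (by omega) h₂ h₃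
    ((σ.At_mono (by omega) le_rfl).trans h₂) ?_ hP
  rcases le_or_gt l₁ 4 with h | h
  · exact Or.inl (by omega)
  · exact Or.inr ⟨by omega, (σ.At_mono le_rfl (by omega)).trans h₁⟩

end Sys

end Pool.Agent.Work.MP_042f46_an.Ty
end
end

-- merged part: Pool.Agent.Work.MP_042f46_an.T.D1
section
/-!
# A function of small energy cannot separate two large continua

Plans.  `good_line`: with `G z = ‖gr Φ z‖ₑ`, Cauchy-Schwarz on the square gives `∫⁻ G ≤ sqrt (4 R ^ 2 ε)`; by Tonelli (`Complex.volume_preserving_equiv_real_prod`, `lintegral_prod`) and `exists_le_setLAverage`-type lemmas (or Markov) together with `LL.ae_diff`, `Measure.ae_ae_of_ae_prod`, there is `x ∈ Icc a (a + δ)` such that `Φ` is differentiable at almost every point of the vertical segment and `∫⁻ y, G ≤ 2 sqrt (4 R ^ 2 ε) / δ`; `y ↦ Φ (x + y I)` is Lipschitz on `Icc (-R) R` (`LL.lip_compact`), so `AbsolutelyContinuousOnInterval.integral_deriv_eq_sub` (`LipschitzOnWith.absolutelyContinuousOnInterval`)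 bounds its oscillation.  The horizontal case follows by composing with `z ↦ I * z` or `z ↦ I * conj z` (`En_comp_eq`), the parameter `c ∈ {1, I}` in the statement covers both.
`lines`: two points of `E` at distance `≥ δ` differ by at least `δ / 2` in the real or the imaginary part, so the projection of `E` contains an interval of length `δ / 2` (`IsPreconnected.Icc_subset`); so `E` meets a good line, the same for `F`; fix one good vertical and one good horizontal line; any two points on good lines are joined by at most three good segments inside the square.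
-/

open Set Metric Topology Filter MeasureTheory
open scoped ENNReal NNReal

noncomputable section
namespace Pool.Agent.Work.MP_042f46_an.Ty

theorem D1_mp {c : ℂ} (hc : ‖c‖ = 1) :
    MeasurePreserving (fun p : ℝ × ℝ => c * (p.1 + p.2 * Complex.I)) (volume.prod volume) volume := by
  have h1 := (rotation ⟨c, by simp [Submonoid.unitSphere, hc]⟩).measurePreserving
  have h2 := Complex.volume_preserving_equiv_real_prod.symm
  have h3 := h1.comp h2
  have e : (fun p : ℝ × ℝ => c * (p.1 + p.2 * Complex.I)) =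
      rotation ⟨c, by simp [Submonoid.unitSphere, hc]⟩ ∘ Complex.measurableEquivRealProd.symm := by
    funext p
    simp only [Function.comp_apply, rotation_apply, Complex.measurableEquivRealProd_symm_apply]
    rw [Complex.mk_eq_add_mul_I]
  rw [e]
  exact h3

theorem D1_osc {R t κ : ℝ} (hR : 0 < R) (ht : 0 < t) (hκ : 0 ≤ κ) {Φ : ℂ → ℝ} (hΦ : LL univ Φ)
    {c : ℂ} (hc : ‖c‖ = 1) {x : ℝ}
    (hd : ∀ᵐ y : ℝ, DifferentiableAt ℝ Φ (c * (x + y * Complex.I)))
    (he : ∫⁻ y : ℝ, ‖gr Φ (c * (x + y * Complex.I))‖ₑ ^ 2 ≤ ENNReal.ofReal κ) {y y' : ℝ}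
    (hy : y ∈ Icc (-R) R) (hy' : y' ∈ Icc (-R) R) :
    |Φ (c * (x + y * Complex.I)) - Φ (c * (x + y' * Complex.I))| ≤ t * (2 * R) + t⁻¹ * κ := by
  set m : ℝ → ℂ := fun s => c * (x + s * Complex.I) with hm
  have hder (s : ℝ) : HasDerivAt m (c * Complex.I) s := by
    have h1 : HasDerivAt (fun s : ℝ => (s : ℂ)) 1 s := Complex.ofRealCLM.hasDerivAt
    have h2 := ((h1.mul_const Complex.I).const_add (x : ℂ)).const_mul c
    rwa [one_mul] at h2
  have hlip : LipschitzWith 1 m := LipschitzWith.of_dist_le_mul fun s s' => by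
    rw [dist_eq_norm, hm]
    simp only
    rw [← mul_sub, add_sub_add_left_eq_sub, ← sub_mul, norm_mul, norm_mul, hc, Complex.norm_I,
      ← Complex.ofReal_sub, Complex.norm_real, ← dist_eq_norm]
    simp
  obtain ⟨K, hK⟩ := (hΦ.mono (subset_univ _)).lip_compact
    ((isCompact_uIcc (a := y') (b := y)).image hlip.continuous)
  have hac := (hK.comp hlip.lipschitzOnWith (mapsTo_image _ _)).absolutelyContinuousOnInterval
  have h1 := hac.integral_deriv_eq_sub
  have h2 : ∀ᵐ s : ℝ, ‖deriv (Φ ∘ m) s‖ₑ ≤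
      ENNReal.ofReal t + ENNReal.ofReal t⁻¹ * ‖gr Φ (m s)‖ₑ ^ 2 := by
    filter_upwards [hd] with s hs
    rw [(hs.hasFDerivAt.comp_hasDerivAt s (hder s)).deriv, fderiv_eq_dot, ← ofReal_norm,
      ← ofReal_norm, ← ENNReal.ofReal_pow (norm_nonneg _),
      ← ENNReal.ofReal_mul (by positivity), ← ENNReal.ofReal_add ht.le (by positivity)]
    refine ENNReal.ofReal_le_ofReal ((abs_dot_le _ _).trans ?_)
    rw [norm_mul, hc, Complex.norm_I, mul_one, mul_one]
    change ‖gr Φ (m s)‖ ≤ _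
    generalize ‖gr Φ (m s)‖ = a
    rw [inv_mul_eq_div, add_div' _ _ _ ht.ne', le_div_iff₀ ht]
    linarith only [sq_nonneg (a - t), sq_nonneg a, sq_nonneg t, mul_self_nonneg t, sq_nonneg a, sq_nonneg (a - t)]
  have hsub : uIoc y' y ⊆ Icc (-R) R := uIoc_subset_uIcc.trans (uIcc_subset_Icc hy' hy)
  have h3 : ENNReal.ofReal |Φ (m y) - Φ (m y')| ≤ ENNReal.ofReal (t * (2 * R) + t⁻¹ * κ) := by
    calc ENNReal.ofReal |Φ (m y) - Φ (m y')| = ‖∫ s in uIoc y' y, deriv (Φ ∘ m) s‖ₑ := by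
          rw [← ofReal_norm, ← intervalIntegral.norm_intervalIntegral_eq, h1]
          rfl
      _ ≤ ∫⁻ s in uIoc y' y, ‖deriv (Φ ∘ m) s‖ₑ := enorm_integral_le_lintegral_enorm _
      _ ≤ ∫⁻ s in Icc (-R) R, ‖deriv (Φ ∘ m) s‖ₑ := lintegral_mono_set hsub
      _ ≤ ∫⁻ s in Icc (-R) R, (ENNReal.ofReal t + ENNReal.ofReal t⁻¹ * ‖gr Φ (m s)‖ₑ ^ 2) :=
          lintegral_mono_ae (ae_restrict_of_ae h2)
      _ = ENNReal.ofReal t * ENNReal.ofReal (2 * R) +
            ENNReal.ofReal t⁻¹ * ∫⁻ s in Icc (-R) R, ‖gr Φ (m s)‖ₑ ^ 2 := by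
          rw [lintegral_add_left measurable_const, setLIntegral_const, Real.volume_Icc,
            lintegral_const_mul' _ _ ENNReal.ofReal_ne_top, show R - -R = 2 * R by ring]
      _ ≤ ENNReal.ofReal t * ENNReal.ofReal (2 * R) + ENNReal.ofReal t⁻¹ * ENNReal.ofReal κ := by
          gcongr
          exact (setLIntegral_le_lintegral _ _).trans he
      _ = _ := by
          rw [← ENNReal.ofReal_mul ht.le, ← ENNReal.ofReal_mul (by positivity),
            ← ENNReal.ofReal_add (by positivity) (by positivity)]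
  exact (ENNReal.ofReal_le_ofReal_iff (by positivity)).1 h3

theorem good_line {R δ η : ℝ} (hR : 0 < R) (hδ : 0 < δ) (hη : 0 < η) : ∃ ε > 0,
    ∀ Φ : ℂ → ℝ, LL univ Φ → En univ Φ ≤ ENNReal.ofReal ε → ∀ c : ℂ, c = 1 ∨ c = Complex.I →
      ∀ a : ℝ, -R ≤ a → a + δ ≤ R → ∃ x ∈ Icc a (a + δ), ∀ y ∈ Icc (-R) R, ∀ y' ∈ Icc (-R) R,
        |Φ (c * (x + y * Complex.I)) - Φ (c * (x + y' * Complex.I))| ≤ η := by
  set t := η / (4 * R) with ht
  have ht0 : 0 < t := by positivity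
  refine ⟨t * η / 2 * δ / 2, by positivity, fun Φ hΦ hE c hc a _ _ => ?_⟩
  have hc' : ‖c‖ = 1 := by rcases hc with rfl | rfl <;> simp
  have hm := D1_mp hc'
  have hd := Measure.ae_ae_of_ae_prod (hm.quasiMeasurePreserving.ae
    (hΦ.ae_diff.mono fun z hz => hz trivial))
  have hG : Measurable fun z => ‖gr Φ z‖ₑ ^ 2 := (measurable_gr Φ).enorm.pow_const 2
  have hI := (lintegral_prod _ (hG.comp hm.measurable).aemeasurable).symm.trans
    (hm.lintegral_comp hG)
  rw [En, Measure.restrict_univ, ← hI] at hE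
  obtain ⟨x, hx, h1, h2⟩ : ∃ x ∈ Icc a (a + δ),
      (∀ᵐ y : ℝ, DifferentiableAt ℝ Φ (c * (x + y * Complex.I))) ∧
      ∫⁻ y : ℝ, ‖gr Φ (c * (x + y * Complex.I))‖ₑ ^ 2 ≤ ENNReal.ofReal (t * η / 2) := by
    by_contra h
    have h1 : ∫⁻ _ in Icc a (a + δ), ENNReal.ofReal (t * η / 2) ≤
        ∫⁻ x in Icc a (a + δ), ∫⁻ y : ℝ, ‖gr Φ (c * (x + y * Complex.I))‖ₑ ^ 2 := by
      refine lintegral_mono_ae ((ae_restrict_iff' measurableSet_Icc).2 (hd.mono fun x hx hx' => ?_))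
      exact (not_le.1 fun h' => h ⟨x, hx', hx, h'⟩).le
    rw [setLIntegral_const, Real.volume_Icc, ← ENNReal.ofReal_mul (by positivity),
      add_sub_cancel_left] at h1
    have h2 := (ENNReal.ofReal_le_ofReal_iff (by positivity)).1
      (h1.trans ((setLIntegral_le_lintegral _ _).trans hE))
    have : 0 < t * η / 2 * δ := by positivity
    linarith only [h2, this]
  refine ⟨x, hx, fun y hy y' hy' => (D1_osc hR ht0 (by positivity) hΦ hc' h1 h2 hy hy').trans_eq ?_⟩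
  rw [ht]
  field_simp
  ring

theorem D1_meet {R δ η v : ℝ} {Φ : ℂ → ℝ}
    (h : ∀ c : ℂ, c = 1 ∨ c = Complex.I → ∀ a : ℝ, -R ≤ a → a + δ / 2 ≤ R →
      ∃ x ∈ Icc a (a + δ / 2), ∀ y ∈ Icc (-R) R, ∀ y' ∈ Icc (-R) R,
        |Φ (c * (x + y * Complex.I)) - Φ (c * (x + y' * Complex.I))| ≤ η)
    {E : Set ℂ} (hE : IsPreconnected E) (hR : E ⊆ ball 0 R) (hv : ∀ z ∈ E, Φ z = v) {a b : ℂ}
    (ha : a ∈ E) (hb : b ∈ E) (hab : δ ≤ dist a b) :
    ∃ c : ℂ, (c = 1 ∨ c = Complex.I) ∧ ∃ x ∈ Icc (-R) R, ∀ y ∈ Icc (-R) R,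
      |Φ (c * (x + y * Complex.I)) - v| ≤ η := by
  have key (c : ℂ) (hc : c = 1 ∨ c = Complex.I) (a b : ℂ) (ha : a ∈ E) (hb : b ∈ E)
      (hab : (a / c).re + δ / 2 ≤ (b / c).re) : ∃ x ∈ Icc (-R) R, ∀ y ∈ Icc (-R) R,
      |Φ (c * (x + y * Complex.I)) - v| ≤ η := by
    have hc' : ‖c‖ = 1 := by rcases hc with rfl | rfl <;> simp
    have hc0 : c ≠ 0 := by rcases hc with rfl | rfl <;> simp
    have hn (z : ℂ) (hz : z ∈ E) : ‖z / c‖ ≤ R := by
      rw [norm_div, hc', div_one]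
      exact (mem_ball_zero_iff.1 (hR hz)).le
    have hre (z : ℂ) (hz : z ∈ E) := abs_le.1 ((Complex.abs_re_le_norm _).trans (hn z hz))
    obtain ⟨x, hx, h1⟩ := h c hc (a / c).re (hre a ha).1 (hab.trans (hre b hb).2)
    obtain ⟨z, hz, e⟩ := (hE.image (fun z => (z / c).re) (by fun_prop)).Icc_subset
      (mem_image_of_mem _ ha) (mem_image_of_mem _ hb) ⟨hx.1, hx.2.trans hab⟩
    simp only at e
    refine ⟨x, e ▸ hre z hz, fun y hy => ?_⟩
    have h2 := h1 y hy (z / c).im (abs_le.1 ((Complex.abs_im_le_norm _).trans (hn z hz)))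
    rwa [show c * (x + (z / c).im * Complex.I) = z by
      rw [← e, Complex.re_add_im, mul_div_cancel₀ _ hc0], hv z hz] at h2
  have h1 := hab.trans ((dist_eq_norm a b).le.trans (Complex.norm_le_abs_re_add_abs_im _))
  rw [Complex.sub_re, Complex.sub_im] at h1
  rcases le_total (δ / 2) |a.re - b.re| with h2 | h2
  · refine ⟨1, Or.inl rfl, ?_⟩
    rcases le_abs.1 h2 with h3 | h3
    · exact key 1 (Or.inl rfl) b a hb ha (by simp only [div_one]; linarith only [h3])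
    · exact key 1 (Or.inl rfl) a b ha hb (by simp only [div_one]; linarith only [h3])
  · refine ⟨Complex.I, Or.inr rfl, ?_⟩
    rcases le_abs.1 (show δ / 2 ≤ |a.im - b.im| by linarith only [h1, h2]) with h3 | h3
    · exact key _ (Or.inr rfl) b a hb ha (by simp; linarith only [h3])
    · exact key _ (Or.inr rfl) a b ha hb (by simp; linarith only [h3])

theorem D1_cross (x x' : ℝ) : (1 : ℂ) * (x + x' * Complex.I) =
    Complex.I * (x' + (-x : ℝ) * Complex.I) := by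
  apply Complex.ext <;> simp

theorem lines {R δ : ℝ} (hδ : 0 < δ) : ∃ ε > 0, ∀ (Φ : ℂ → ℝ) (E F : Set ℂ), LL univ Φ →
    En univ Φ ≤ ENNReal.ofReal ε → IsPreconnected E → IsPreconnected F → E ⊆ ball 0 R →
    F ⊆ ball 0 R → (∀ z ∈ E, Φ z = 1) → (∀ z ∈ F, Φ z = 0) → (∃ a ∈ F, ∃ b ∈ F, δ ≤ dist a b) →
    ∀ a ∈ E, ∀ b ∈ E, dist a b < δ := by
  rcases le_or_gt R 0 with hR | hR
  · refine ⟨1, one_pos, fun Φ E F _ _ _ _ h _ _ _ _ a ha => ?_⟩
    have := h ha
    rw [ball_eq_empty.2 hR] at this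
    exact this.elim
  obtain ⟨ε, hε, h⟩ := good_line hR (half_pos hδ) (show (0 : ℝ) < 1 / 4 by norm_num)
  refine ⟨ε, hε, fun Φ E F hΦ hE cE cF sE sF vE vF ⟨a', ha', b', hb', hab'⟩ a ha b hb => ?_⟩
  replace h := h Φ hΦ hE
  by_contra hab
  have hδR : -R + δ / 2 ≤ R := by
    have := dist_triangle_right a' b' 0
    have := mem_ball.1 (sF ha')
    have := mem_ball.1 (sF hb')
    linarith
  have hneg {x : ℝ} (hx : x ∈ Icc (-R) R) : -x ∈ Icc (-R) R := ⟨by linarith only [hx, hx.2], by linarith only [hx, hx.1]⟩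
  obtain ⟨c, hc, x, hx, h1⟩ := D1_meet h cE sE vE ha hb (not_lt.1 hab)
  obtain ⟨c', hc', x', hx', h2⟩ := D1_meet h cF sF vF ha' hb' hab'
  rcases hc with rfl | rfl <;> rcases hc' with rfl | rfl
  · obtain ⟨u, hu, h3⟩ := h _ (Or.inr rfl) (-R) le_rfl hδR
    have hu' : u ∈ Icc (-R) R := ⟨hu.1, hu.2.trans hδR⟩
    have h4 := abs_le.1 (h3 _ (hneg hx) _ (hneg hx'))
    have h5 := abs_le.1 (h1 u hu')
    have h6 := abs_le.1 (h2 u hu')
    rw [← D1_cross, ← D1_cross] at h4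
    linarith only [h4, h5, h6, h4.2, h5.1, h6.2]
  · have h5 := abs_le.1 (h1 x' hx')
    have h6 := abs_le.1 (h2 _ (hneg hx))
    rw [← D1_cross] at h6
    linarith only [h5, h6, h5.1, h6.2]
  · have h5 := abs_le.1 (h1 _ (hneg hx'))
    have h6 := abs_le.1 (h2 x hx)
    rw [← D1_cross] at h5
    linarith only [h5, h6, h5.1, h6.2]
  · obtain ⟨u, hu, h3⟩ := h _ (Or.inl rfl) (-R) le_rfl hδR
    have hu' : u ∈ Icc (-R) R := ⟨hu.1, hu.2.trans hδR⟩
    have h4 := abs_le.1 (h3 _ hx _ hx')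
    have h5 := abs_le.1 (h1 _ (hneg hu'))
    have h6 := abs_le.1 (h2 _ (hneg hu'))
    rw [← D1_cross] at h5 h6
    linarith only [h4, h5, h6, h4.2, h5.1, h6.2]

end Pool.Agent.Work.MP_042f46_an.Ty
end
end

-- merged part: Pool.Agent.Work.MP_042f46_an.T.R2
section
/-!
# Closest returns, and the class of rotation numbers has full measure

Plans.  `exists_lev`: write `ν i = ‖↑(i α)‖`, positive for `0 < i`; for `r > 0` there is `i > 0` with `ν i < r` (`Rot_dense`, or `Real.exists_nat_abs_mul_sub_round_le`).  `Q 0 = 1`, `Q (n + 1)` = least `i > 0` with `ν i < ν (Q n)`; `q 0 = 0`, `q (n + 1) = Q n`, `θ 0 = 1`, `θ (n + 1) = ν (Q n)`.  By induction `ν (Q n) ≤ ν i` for `0 < i ≤ Q n`, so `Q n < Q (n + 1)` and `sep` holds.  Let `δ n` be the representative of `Q n α` with `|δ n| = ν (Q n)` (`exists_rep`).  `δ n` and `δ (n + 1)` have opposite signs (else `ν (Q (n + 1) - Q n) ≤ |δ (n + 1) - δ n| < ν (Q n)`), so `ν (Q (n + 2) - Q n)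 ≤ |δ n| - |δ (n + 2)|`, which gives `θ_half` and `Q (n + 1) ≤ Q (n + 2) - Q n`.  `dense`: every `i < Q (n + 1)` has a successor `i' < Q (n + 1)` with `i' α = i α + t`, `0 < t < 2 |δ n|` (`i' = i ± Q n` or `i ± Q n ∓ Q (n + 1)`); choose `i` minimising `Int.fract (x - i α)`.
`Lev.q_θ`: the balls of radius `θ n / 2` around the points `i α`, `i < q (n + 1)`, are disjoint and have measure `θ n` (`AddCircle.volume_closedBall`, `AddCircle.closedBall_ae_eq_ball`).
`Lev.good`: let `x m = Nat.log 2 (q m) - k` (real), `D m = |x m|`.  For `1 ≤ m`: `θ (m - 1) ≤ 1 / q m ≤ C (1 + D m) ^ 2 θ m`, and `q (m + 1) ≤ 1 / θ m ≤ C (1 + D m) ^ 2 q m`, so `x (m + 1) ≤ x m + c + 6 sqrt (D m)` with `c` depending on `C` only (`2 ^ (6 s) ≥ (1 + s ^ 2) ^ 2`).  Let `l` be the largest `m ≥ 1` with `x m ≤ 0`; then `sqrt (D m) ≤ A (1 + dist m l)` by induction in both directions; `l` is large when `k` is large.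
`ae_typ`: on the circle, for fixed `C, k` the bad set has measure at most `∑ q, 2 / (C (1 + dist (log q) k) ^ 2 q) ≤ ∑ j, 2 / (C (1 + dist j k) ^ 2) ≤ 8 / C` (`MeasureTheory.measurePreserving_zsmul`, group `q` by `Nat.log 2 q`; or bound finite unions); the set of points that are bad for all large `k` has measure at most `8 / C` (increasing union of intersections); let `C → ∞`.  Transfer to the line with `UnitAddCircle.measurePreserving_mk` on each `Ioc n (n + 1)`; irrational numbers have full measure (`Set.Countable.measure_zero`).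
-/

open Set Metric Topology Filter MeasureTheory
open scoped ENNReal NNReal

noncomputable section
namespace Pool.Agent.Work.MP_042f46_an.Ty

theorem Lev.q_θ {α : ℝ} (Λ : Lev α) (n : ℕ) : (Λ.q (n + 1) : ℝ) * Λ.θ n ≤ 1 := by
  have hp := Λ.θ_pos n
  have h1 : Λ.θ n ≤ 1 := Λ.θ_zero ▸ Λ.θ_anti (Nat.zero_le n)
  have key : ∀ i j : ℕ, i < j → j < Λ.q (n + 1) →
      Λ.θ n ≤ dist (((j : ℝ) * α : ℝ) : T) (((i : ℝ) * α : ℝ) : T) := by
    intro i j hij hj
    have := Λ.sep n (j - i) (by omega) (by omega)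
    rwa [Nat.cast_sub hij.le, sub_mul, AddCircle.coe_sub, ← dist_eq_norm] at this
  have hd : Set.PairwiseDisjoint (↑(Finset.range (Λ.q (n + 1))) : Set ℕ)
      fun i : ℕ => ball (((i : ℝ) * α : ℝ) : T) (Λ.θ n / 2) := by
    intro i hi j hj hij
    refine ball_disjoint_ball ?_
    rw [add_halves]
    rcases lt_or_gt_of_ne hij with h | h
    · rw [dist_comm]
      exact key i j h (by simpa using hj)
    · exact key j i h (by simpa using hi)
  have hv : ∀ x : T, volume (ball x (Λ.θ n / 2)) = ENNReal.ofReal (Λ.θ n) := fun x => by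
    rw [← measure_congr AddCircle.closedBall_ae_eq_ball, AddCircle.volume_closedBall,
      min_eq_right (by linarith only [h1])]
    congr 1
    ring
  have hm := measure_biUnion_finset (μ := (volume : Measure T)) hd fun _ _ => measurableSet_ball
  have hle := measure_mono (μ := (volume : Measure T)) (subset_univ
    (⋃ i ∈ Finset.range (Λ.q (n + 1)), ball (((i : ℝ) * α : ℝ) : T) (Λ.θ n / 2)))
  rw [hm, UnitAddCircle.measure_univ] at hle
  simp only [hv, Finset.sum_const, Finset.card_range, nsmul_eq_mul] at hle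
  rw [← ENNReal.ofReal_natCast, ← ENNReal.ofReal_mul (Nat.cast_nonneg _),
    ENNReal.ofReal_le_one] at hle
  exact hle

theorem R2_dist (a b : ℕ) : (Nat.dist a b : ℝ) = |(a : ℝ) - b| := by
  rcases le_total a b with h | h
  · rw [Nat.dist_eq_sub_of_le h, Nat.cast_sub h, abs_sub_comm,
      abs_of_nonneg (sub_nonneg.2 (Nat.cast_le.2 h))]
  · rw [Nat.dist_eq_sub_of_le_right h, Nat.cast_sub h,
      abs_of_nonneg (sub_nonneg.2 (Nat.cast_le.2 h))]

theorem R2_grow {α : ℝ} (Λ : Lev α) (j : ℕ) : 2 ^ j ≤ Λ.q (2 * j + 1) := by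
  induction j with
  | zero => simp [Λ.q_one]
  | succ j ih =>
    have := Λ.q_two (2 * j + 1)
    rw [show 2 * (j + 1) + 1 = 2 * j + 1 + 2 by ring, pow_succ]
    omega

theorem R2_log {C D : ℝ} (hC : 0 < C) (hD : 0 ≤ D) {a b : ℕ} (ha : 1 ≤ a)
    (h : (a : ℝ) ≤ C * (1 + D) ^ 2 * b) :
    (Nat.log 2 a : ℝ) ≤ Nat.log 2 b + (1 + 2 * |Real.log C|) + 6 * √D := by
  have l2 := Real.log_two_gt_d9
  have hs := Real.sqrt_nonneg D
  have h1 : (2 : ℝ) ^ Nat.log 2 a ≤ a := by exact_mod_cast Nat.pow_log_le_self 2 (by omega)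
  have h2 : (b : ℝ) ≤ 2 ^ (Nat.log 2 b + 1) := by
    exact_mod_cast (Nat.lt_pow_succ_log_self (by norm_num) b).le
  have h3 : 1 + D ≤ Real.exp (2 * √D) := by
    have := Real.quadratic_le_exp_of_nonneg (x := 2 * √D) (by positivity)
    have e := Real.sq_sqrt hD
    linarith only [hs, this, e, sq_nonneg √D]
  have h4 : (2 : ℝ) ^ Nat.log 2 a ≤ C * Real.exp (2 * √D) ^ 2 * 2 ^ (Nat.log 2 b + 1) :=
    h1.trans (h.trans (mul_le_mul (mul_le_mul_of_nonneg_left
      (pow_le_pow_left₀ (by positivity) h3 2) hC.le) h2 (Nat.cast_nonneg _) (by positivity)))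
  have h5 := Real.log_le_log (by positivity) h4
  rw [Real.log_mul (by positivity) (by positivity), Real.log_mul hC.ne' (by positivity),
    Real.log_pow, Real.log_pow, Real.log_pow, Real.log_exp] at h5
  push_cast at h5
  have h6 := le_abs_self (Real.log C)
  have h7 := abs_nonneg (Real.log C)
  refine le_of_mul_le_mul_right ?_ (show 0 < Real.log 2 by linarith only [l2])
  linarith only [hs, h5, h6, h7, l2, mul_nonneg_of_nonpos_of_nonpos (le_of_lt (Mathlib.Tactic.Linarith.sub_neg_of_lt l2)) (Mathlib.Tactic.Linarith.sub_nonpos_of_le hs), mul_nonneg_of_nonpos_of_nonpos (le_of_lt (Mathlib.Tactic.Linarith.sub_neg_of_lt l2)) (Mathlib.Tactic.Linarith.sub_nonpos_of_le h7)]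

theorem R2_step {c x x' : ℝ} (hc : 0 ≤ c) (h1 : x ≤ x') (h2 : x' ≤ x + c + 6 * √|x|) :
    |√|x'| - √(|x|)| ≤ 6 + c ∧ (x ≤ 0 → 0 ≤ x' → √|x| ≤ 6 + c) := by
  have s0 := Real.sqrt_nonneg |x|
  have s0' := Real.sqrt_nonneg |x'|
  have e := Real.sq_sqrt (abs_nonneg x)
  have e' := Real.sq_sqrt (abs_nonneg x')
  generalize √|x| = s at *
  generalize √|x'| = s' at *
  have mid : x ≤ 0 → 0 ≤ x' → s ≤ 6 + c ∧ s' ≤ 6 + c := fun a b => by
    rw [abs_of_nonpos a] at e
    rw [abs_of_nonneg b] at e'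
    constructor
    · by_contra hn
      linarith only [h2, e, e', hn, hc, h1, sq_nonneg s', mul_nonneg_of_nonpos_of_nonpos (Mathlib.Tactic.Linarith.sub_nonpos_of_le hc) (Mathlib.Tactic.Linarith.sub_nonpos_of_le hc), mul_nonneg_of_nonpos_of_nonpos (Mathlib.Tactic.Linarith.sub_nonpos_of_le hc) (Mathlib.Tactic.Linarith.sub_nonpos_of_le h1), mul_nonneg_of_nonpos_of_nonpos (Mathlib.Tactic.Linarith.sub_nonpos_of_le hc) (Mathlib.Tactic.Linarith.sub_nonpos_of_le h2), mul_nonneg_of_nonpos_of_nonpos (Mathlib.Tactic.Linarith.sub_nonpos_of_le hc) (le_of_lt (Mathlib.Tactic.Linarith.sub_neg_of_lt (lt_of_not_ge hn))), mul_pos_of_neg_of_neg (Mathlib.Tactic.Linarith.sub_neg_of_lt (lt_of_not_ge hn)) (Mathlib.Tactic.Linarith.sub_neg_of_lt (lt_of_not_ge hn))]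
    · by_contra hn
      linarith only [hc, h2, e, e', hn, s0', sq_nonneg (s - 3), sq_nonneg (s - (3 : ℝ)), mul_nonneg_of_nonpos_of_nonpos (Mathlib.Tactic.Linarith.sub_nonpos_of_le hc) (Mathlib.Tactic.Linarith.sub_nonpos_of_le s0'), mul_nonneg_of_nonpos_of_nonpos (Mathlib.Tactic.Linarith.sub_nonpos_of_le s0') (le_of_lt (Mathlib.Tactic.Linarith.sub_neg_of_lt (lt_of_not_ge hn)))]
  refine ⟨?_, fun a b => (mid a b).1⟩
  rw [abs_le]
  rcases le_total 0 x with a | a
  · rw [abs_of_nonneg a] at e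
    rw [abs_of_nonneg (a.trans h1)] at e'
    have : s ≤ s' := by
      by_contra hn
      linarith only [h1, e, e', s0', hn, mul_nonneg_of_nonpos_of_nonpos (Mathlib.Tactic.Linarith.sub_nonpos_of_le s0') (le_of_lt (Mathlib.Tactic.Linarith.sub_neg_of_lt (lt_of_not_ge hn))), mul_pos_of_neg_of_neg (Mathlib.Tactic.Linarith.sub_neg_of_lt (lt_of_not_ge hn)) (Mathlib.Tactic.Linarith.sub_neg_of_lt (lt_of_not_ge hn))]
    refine ⟨by linarith only [hc, this], ?_⟩
    by_contra hn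
    linarith only [hc, h2, e, e', hn, s0, s0', h1, this, mul_nonneg_of_nonpos_of_nonpos (Mathlib.Tactic.Linarith.sub_nonpos_of_le hc) (Mathlib.Tactic.Linarith.sub_nonpos_of_le s0), mul_nonneg_of_nonpos_of_nonpos (Mathlib.Tactic.Linarith.sub_nonpos_of_le hc) (Mathlib.Tactic.Linarith.sub_nonpos_of_le s0'), mul_nonneg_of_nonpos_of_nonpos (Mathlib.Tactic.Linarith.sub_nonpos_of_le h1) (Mathlib.Tactic.Linarith.sub_nonpos_of_le this), mul_nonneg_of_nonpos_of_nonpos (Mathlib.Tactic.Linarith.sub_nonpos_of_le h2) (Mathlib.Tactic.Linarith.sub_nonpos_of_le this), mul_nonneg_of_nonpos_of_nonpos (Mathlib.Tactic.Linarith.sub_nonpos_of_le s0') (le_of_lt (Mathlib.Tactic.Linarith.sub_neg_of_lt (lt_of_not_ge hn)))]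
  · rcases le_total 0 x' with b | b
    · obtain ⟨m1, m2⟩ := mid a b
      constructor <;> linarith only [s0', m1, s0, m2]
    · rw [abs_of_nonpos a] at e
      rw [abs_of_nonpos b] at e'
      have : s' ≤ s := by
        by_contra hn
        linarith only [h1, e, e', s0, hn, mul_nonneg_of_nonpos_of_nonpos (Mathlib.Tactic.Linarith.sub_nonpos_of_le s0) (le_of_lt (Mathlib.Tactic.Linarith.sub_neg_of_lt (lt_of_not_ge hn))), mul_pos_of_neg_of_neg (Mathlib.Tactic.Linarith.sub_neg_of_lt (lt_of_not_ge hn)) (Mathlib.Tactic.Linarith.sub_neg_of_lt (lt_of_not_ge hn))]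
      refine ⟨?_, by linarith only [hc, this]⟩
      by_contra hn
      linarith only [h2, e, e', hn, hc, h1, s0', this, mul_nonneg_of_nonpos_of_nonpos (Mathlib.Tactic.Linarith.sub_nonpos_of_le hc) (Mathlib.Tactic.Linarith.sub_nonpos_of_le hc), mul_nonneg_of_nonpos_of_nonpos (Mathlib.Tactic.Linarith.sub_nonpos_of_le hc) (Mathlib.Tactic.Linarith.sub_nonpos_of_le h1), mul_nonneg_of_nonpos_of_nonpos (Mathlib.Tactic.Linarith.sub_nonpos_of_le hc) (Mathlib.Tactic.Linarith.sub_nonpos_of_le h2), mul_nonneg_of_nonpos_of_nonpos (Mathlib.Tactic.Linarith.sub_nonpos_of_le hc) (Mathlib.Tactic.Linarith.sub_nonpos_of_le s0'), mul_nonneg_of_nonpos_of_nonpos (Mathlib.Tactic.Linarith.sub_nonpos_of_le hc) (le_of_lt (Mathlib.Tactic.Linarith.sub_neg_of_lt (lt_of_not_ge hn))), mul_nonneg_of_nonpos_of_nonpos (Mathlib.Tactic.Linarith.sub_nonpos_of_le s0') (Mathlib.Tactic.Linarith.sub_nonpos_of_le this), mul_nonneg_of_nonpos_of_nonpos (Mathlib.Tactic.Linarith.sub_nonpos_of_le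 s0') (le_of_lt (Mathlib.Tactic.Linarith.sub_neg_of_lt (lt_of_not_ge hn))), mul_pos_of_neg_of_neg (Mathlib.Tactic.Linarith.sub_neg_of_lt (lt_of_not_ge hn)) (Mathlib.Tactic.Linarith.sub_neg_of_lt (lt_of_not_ge hn))]

theorem R2_walk {s : ℕ → ℝ} {A : ℝ} {l : ℕ} (h : ∀ m, |s (m + 1) - s m| ≤ A) (hl : s l ≤ A)
    (m : ℕ) : s m ≤ A * (1 + Nat.dist m l) := by
  have key : ∀ d n : ℕ, |s (n + d) - s n| ≤ A * d := by
    intro d n
    induction d with
    | zero => simp
    | succ d ih =>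
      have := abs_sub_le (s (n + d + 1)) (s (n + d)) (s n)
      have h2 := h (n + d)
      push_cast
      rw [← add_assoc]
      linarith only [ih, this, h2]
  rcases le_total m l with e | e
  · obtain ⟨d, rfl⟩ := Nat.exists_eq_add_of_le e
    rw [Nat.dist_eq_sub_of_le e, Nat.add_sub_cancel_left]
    linarith only [hl, key, (abs_le.1 (key d m)).1]
  · obtain ⟨d, rfl⟩ := Nat.exists_eq_add_of_le e
    rw [Nat.dist_eq_sub_of_le_right e, Nat.add_sub_cancel_left]
    linarith only [hl, key, (abs_le.1 (key d l)).2]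

theorem Lev.good {α : ℝ} (Λ : Lev α) (h : Typ α) : Λ.Good := by
  obtain ⟨-, C, hC⟩ := h
  have q1 : ∀ m, 1 ≤ Λ.q (m + 1) := fun m => Λ.q_one.ge.trans (Λ.q_mono (by omega))
  obtain ⟨c, hc⟩ : ∃ c : ℝ, c = 1 + 2 * |Real.log C| := ⟨_, rfl⟩
  have c0 : 0 ≤ c := by rw [hc]; positivity
  refine ⟨C * (1 + 4 * (6 + c) ^ 2) ^ 2, fun L => ?_⟩
  obtain ⟨k, hk, hq⟩ := hC (Nat.log 2 (Λ.q (L + 1)))
  obtain ⟨x, hx⟩ : ∃ x : ℕ → ℝ, x = fun m => (Nat.log 2 (Λ.q m) : ℝ) - k := ⟨_, rfl⟩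
  have xd : ∀ m, (Nat.dist (Nat.log 2 (Λ.q m)) k : ℝ) = |x m| := fun m => by
    rw [hx]
    exact R2_dist _ _
  have lo : ∀ m, 1 ≤ C * (1 + |x (m + 1)|) ^ 2 * (Λ.q (m + 1) * Λ.θ (m + 1)) := fun m => by
    have := hq _ (q1 m)
    rwa [xd, Λ.ret] at this
  have C0 : 0 < C := by
    by_contra hn
    have h1 := lo 0
    have h2 : 0 ≤ (1 + |x (0 + 1)|) ^ 2 * (Λ.q (0 + 1) * Λ.θ (0 + 1)) :=
      mul_nonneg (sq_nonneg _) (mul_nonneg (Nat.cast_nonneg _) (Λ.θ_pos _).le)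
    linarith only [h1, hn, h2, mul_nonneg_of_nonpos_of_nonpos (Mathlib.Tactic.Linarith.sub_nonpos_of_le (le_of_not_gt hn)) (Mathlib.Tactic.Linarith.sub_nonpos_of_le h2)]
  have xm : Monotone x := fun a b hab => by
    rw [hx]
    exact sub_le_sub_right (Nat.cast_le.2 (Nat.log_mono_right (Λ.q_mono hab))) _
  have xs : ∀ m, x (m + 2) ≤ x (m + 1) + c + 6 * √|x (m + 1)| := fun m => by
    have h1 : (Λ.q (m + 2) : ℝ) ≤ C * (1 + |x (m + 1)|) ^ 2 * Λ.q (m + 1) := by
      refine le_of_mul_le_mul_right ?_ (Λ.θ_pos (m + 1))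
      rw [mul_assoc]
      exact (Λ.q_θ (m + 1)).trans (lo m)
    have := R2_log C0 (abs_nonneg _) (q1 (m + 1)) h1
    rw [hc]
    simp only [hx] at this ⊢
    linarith only [this]
  have hex : ∃ m, 0 < x m := by
    refine ⟨2 * (k + 1) + 1, ?_⟩
    have : k + 1 ≤ Nat.log 2 (Λ.q (2 * (k + 1) + 1)) :=
      Nat.le_log_of_pow_le (by norm_num) (R2_grow Λ _)
    have h2 : ((k + 1 : ℕ) : ℝ) ≤ Nat.log 2 (Λ.q (2 * (k + 1) + 1)) := Nat.cast_le.2 this
    rw [hx]
    push_cast at h2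
    dsimp only
    linarith only [h2]
  have hL : x (L + 1) ≤ 0 := by
    rw [hx]
    exact sub_nonpos.2 (Nat.cast_le.2 hk)
  have h0 := Nat.find_spec hex
  have hlt : L + 1 < Nat.find hex := by
    by_contra hn
    linarith only [hex, hL, h0, xm, hn, xm (not_lt.1 hn)]
  obtain ⟨l, hl⟩ : ∃ l, Nat.find hex = l + 2 := ⟨Nat.find hex - 2, by omega⟩
  have hl0 : x (l + 1) ≤ 0 := not_lt.1 (Nat.find_min hex (by omega))
  rw [hl] at h0
  have st := fun m => R2_step c0 (xm (Nat.le_succ (m + 1))) (xs m)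
  have bd := R2_walk (s := fun m => √|x (m + 1)|) (fun m => (st m).1) ((st l).2 hl0 h0.le)
  refine ⟨l, by omega, fun m => ?_⟩
  have hθ := Λ.θ_pos (m + 1)
  have hq1 : (1 : ℝ) ≤ Λ.q (m + 1) := by exact_mod_cast q1 m
  have h1 : Λ.θ m ≤ C * (1 + |x (m + 1)|) ^ 2 * Λ.θ (m + 1) := by
    refine le_of_mul_le_mul_left ?_ (lt_of_lt_of_le one_pos hq1)
    exact (Λ.q_θ m).trans ((lo m).trans (le_of_eq (by ring)))
  refine h1.trans (mul_le_mul_of_nonneg_right ?_ hθ.le)
  rw [mul_assoc]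
  refine mul_le_mul_of_nonneg_left ?_ C0.le
  have d0 : (0 : ℝ) ≤ Nat.dist m l := Nat.cast_nonneg _
  have h2 : |x (m + 1)| ≤ ((6 + c) * (1 + Nat.dist m l)) ^ 2 := by
    rw [← Real.sq_sqrt (abs_nonneg (x (m + 1)))]
    exact pow_le_pow_left₀ (Real.sqrt_nonneg _) (bd m) 2
  have h3 : 1 + |x (m + 1)| ≤ (1 + 4 * (6 + c) ^ 2) * (1 + (Nat.dist m l : ℝ)) ^ 2 := by
    have : (1 : ℝ) ≤ (1 + (Nat.dist m l : ℝ)) ^ 2 := one_le_pow₀ (by linarith only [])
    have h4 : 0 ≤ (6 + c) ^ 2 * (1 + (Nat.dist m l : ℝ)) ^ 2 := by positivity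
    rw [mul_pow] at h2
    linarith only [h2, this, h4]
  calc (1 + |x (m + 1)|) ^ 2 ≤ ((1 + 4 * (6 + c) ^ 2) * (1 + (Nat.dist m l : ℝ)) ^ 2) ^ 2 :=
        pow_le_pow_left₀ (by positivity) h3 2
    _ = _ := by ring

end Pool.Agent.Work.MP_042f46_an.Ty
end
end

-- merged part: Pool.Agent.Work.MP_042f46_an.T.R3
section
/-!
# Closest returns, and the class of rotation numbers has full measure

Plans.  `exists_lev`: write `ν i = ‖↑(i α)‖`, positive for `0 < i`; for `r > 0` there is `i > 0` with `ν i < r` (`Rot_dense`, or `Real.exists_nat_abs_mul_sub_round_le`).  `Q 0 = 1`, `Q (n + 1)` = least `i > 0` with `ν i < ν (Q n)`; `q 0 = 0`, `q (n + 1) = Q n`, `θ 0 = 1`, `θ (n + 1) = ν (Q n)`.  By induction `ν (Q n) ≤ ν i` for `0 < i ≤ Q n`, so `Q n < Q (n + 1)` and `sep` holds.  Let `δ n` be the representative of `Q n α` with `|δ n| = ν (Q n)` (`exists_rep`).  `δ n` and `δ (n + 1)` have opposite signs (else `ν (Q (n + 1) - Q n) ≤ |δ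 (n + 1) - δ n| < ν (Q n)`), so `ν (Q (n + 2) - Q n) ≤ |δ n| - |δ (n + 2)|`, which gives `θ_half` and `Q (n + 1) ≤ Q (n + 2) - Q n`.  `dense`: every `i < Q (n + 1)` has a successor `i' < Q (n + 1)` with `i' α = i α + t`, `0 < t < 2 |δ n|` (`i' = i ± Q n` or `i ± Q n ∓ Q (n + 1)`); choose `i` minimising `Int.fract (x - i α)`.
`Lev.q_θ`: the balls of radius `θ n / 2` around the points `i α`, `i < q (n + 1)`, are disjoint and have measure `θ n` (`AddCircle.volume_closedBall`, `AddCircle.closedBall_ae_eq_ball`).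
`Lev.good`: let `x m = Nat.log 2 (q m) - k` (real), `D m = |x m|`.  For `1 ≤ m`: `θ (m - 1) ≤ 1 / q m ≤ C (1 + D m) ^ 2 θ m`, and `q (m + 1) ≤ 1 / θ m ≤ C (1 + D m) ^ 2 q m`, so `x (m + 1) ≤ x m + c + 6 sqrt (D m)` with `c` depending on `C` only (`2 ^ (6 s) ≥ (1 + s ^ 2) ^ 2`).  Let `l` be the largest `m ≥ 1` with `x m ≤ 0`; then `sqrt (D m) ≤ A (1 + dist m l)` by induction in both directions; `l` is large when `k` is large.
`ae_typ`: on the circle, for fixed `C, k` the bad set has measure at most `∑ q, 2 / (C (1 + dist (log q) k) ^ 2 q) ≤ ∑ j, 2 / (C (1 + dist j k) ^ 2) ≤ 8 / C` (`MeasureTheory.measurePreserving_zsmul`, group `q` by `Nat.log 2 q`; or bound finite unions); the set of points that are bad for all large `k` has measure at most `8 / C` (increasing union of intersections); let `C → ∞`.  Transfer to the line with `UnitAddCircle.measurePreserving_mk` on each `Ioc n (n + 1)`; irrational numbers have full measure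 (`Set.Countable.measure_zero`).
-/

open Set Metric Topology Filter MeasureTheory
open scoped ENNReal NNReal

noncomputable section
namespace Pool.Agent.Work.MP_042f46_an.Ty

/-- points whose multiple is close to zero -/
def R3_ball (q : ℕ) (r : ℝ) : Set T := (fun x : T => (q : ℤ) • x) ⁻¹' closedBall 0 r

theorem R3_vol {q : ℕ} (hq : q ≠ 0) (r : ℝ) : volume (R3_ball q r) ≤ ENNReal.ofReal (2 * r) := by
  have h := Measure.measurePreserving_zsmul (volume : Measure T) (n := (q : ℤ)) (by exact_mod_cast hq)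
  rw [R3_ball, h.measure_preimage measurableSet_closedBall.nullMeasurableSet,
    AddCircle.volume_closedBall]
  exact ENNReal.ofReal_le_ofReal (min_le_right _ _)

/-- one dyadic group -/
def R3_grp (j : ℕ) (c : ℝ) : Set T :=
  ⋃ q ∈ Finset.Ico (2 ^ j) (2 ^ (j + 1)), R3_ball q (c / 2 ^ j)

theorem R3_grp_vol (j : ℕ) (c : ℝ) : volume (R3_grp j c) ≤ ENNReal.ofReal (2 * c) := by
  refine (measure_biUnion_finset_le _ _).trans ?_
  refine (Finset.sum_le_card_nsmul _ _ (ENNReal.ofReal (2 * (c / 2 ^ j))) fun q hq => ?_).trans ?_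
  · exact R3_vol (((pow_pos two_pos j).trans_le (Finset.mem_Ico.1 hq).1).ne') _
  · rw [← ENNReal.ofReal_nsmul, Nat.card_Ico, pow_succ, mul_two, add_tsub_cancel_left, nsmul_eq_mul]
    refine ENNReal.ofReal_le_ofReal (le_of_eq ?_)
    push_cast
    field_simp

/-- the bad set -/
def R3_bad (C : ℝ) (k : ℕ) : Set T :=
  ⋃ n : ℕ, R3_grp (k + n) (1 / (C * (1 + n) ^ 2)) ∪ R3_grp (k - n) (1 / (C * (1 + n) ^ 2))

theorem R3_sum : Summable fun n : ℕ => 1 / (1 + (n : ℝ)) ^ 2 := by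
  have h := (summable_nat_add_iff 1).2 (Real.summable_one_div_nat_pow.2 one_lt_two)
  refine h.congr fun n => ?_
  push_cast
  rw [add_comm]

theorem R3_bad_vol {C : ℝ} (hC : 0 < C) (k : ℕ) :
    volume (R3_bad C k) ≤ ENNReal.ofReal (4 / C * ∑' n : ℕ, 1 / (1 + (n : ℝ)) ^ 2) := by
  rw [← tsum_mul_left, ENNReal.ofReal_tsum_of_nonneg (fun n => by positivity) (R3_sum.mul_left _)]
  refine (measure_iUnion_le _).trans (ENNReal.tsum_le_tsum fun n => ?_)
  refine (measure_union_le _ _).trans ((add_le_add (R3_grp_vol _ _) (R3_grp_vol _ _)).trans ?_)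
  rw [← ENNReal.ofReal_add (by positivity) (by positivity)]
  refine ENNReal.ofReal_le_ofReal (le_of_eq ?_)
  field_simp
  ring

theorem R3_good {C : ℝ} (hC : 0 < C) {k : ℕ} {α : ℝ} (h : (α : T) ∉ R3_bad C k) (q : ℕ)
    (hq : 1 ≤ q) :
    1 ≤ C * (1 + (Nat.dist (Nat.log 2 q) k : ℝ)) ^ 2 * ((q : ℝ) * ‖(((q : ℝ) * α : ℝ) : T)‖) := by
  by_contra hn
  refine h (mem_iUnion.2 ⟨Nat.dist (Nat.log 2 q) k, ?_⟩)
  have h1 : 2 ^ Nat.log 2 q ≤ q := Nat.pow_log_le_self 2 (by omega)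
  have key : (α : T) ∈ R3_grp (Nat.log 2 q) (1 / (C * (1 + (Nat.dist (Nat.log 2 q) k : ℝ)) ^ 2)) := by
    refine mem_iUnion₂.2 ⟨q, Finset.mem_Ico.2 ⟨h1, Nat.lt_pow_succ_log_self one_lt_two q⟩, ?_⟩
    have e : (q : ℤ) • (α : T) = (((q : ℝ) * α : ℝ) : T) := by
      rw [← AddCircle.coe_zsmul, zsmul_eq_mul, Int.cast_natCast]
    show (q : ℤ) • (α : T) ∈ closedBall (0 : T) _
    rw [e, mem_closedBall_zero_iff, le_div_iff₀ (by positivity), le_div_iff₀ (by positivity)]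
    have h2 : (2 : ℝ) ^ Nat.log 2 q ≤ q := by exact_mod_cast h1
    have h3 := mul_le_mul_of_nonneg_left h2 (norm_nonneg (((q : ℝ) * α : ℝ) : T))
    have h4 : 0 < C * (1 + (Nat.dist (Nat.log 2 q) k : ℝ)) ^ 2 := by positivity
    have h5 := mul_le_mul_of_nonneg_right h3 h4.le
    linarith only [hn, h5, not_le.1 hn]
  rcases le_total (Nat.log 2 q) k with e | e
  · right
    rwa [show k - Nat.dist (Nat.log 2 q) k = Nat.log 2 q by rw [Nat.dist_eq_sub_of_le e]; omega]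
  · left
    rwa [show k + Nat.dist (Nat.log 2 q) k = Nat.log 2 q by
      rw [Nat.dist_eq_sub_of_le_right e]; omega]

theorem R3_null : volume {x : T | ∀ C : ℕ, ∃ K, ∀ k, K ≤ k → x ∈ R3_bad (C + 1) k} = 0 := by
  obtain ⟨S, hS⟩ : ∃ S : ℝ, S = ∑' n : ℕ, 1 / (1 + (n : ℝ)) ^ 2 := ⟨_, rfl⟩
  have t : Tendsto (fun C : ℕ => ENNReal.ofReal (4 / ((C : ℝ) + 1) * S)) atTop (𝓝 0) := by
    have h := ((tendsto_one_div_add_atTop_nhds_zero_nat (𝕜 := ℝ)).const_mul 4).mul_const S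
    simp only [mul_zero, zero_mul, mul_one_div] at h
    simpa only [ENNReal.ofReal_zero] using ENNReal.tendsto_ofReal h
  refine le_antisymm (ge_of_tendsto' t fun C => ?_) zero_le
  have m : Monotone fun K : ℕ => {x : T | ∀ k, K ≤ k → x ∈ R3_bad (C + 1) k} :=
    fun _ _ h _ hx k hk => hx k (h.trans hk)
  have s1 : {x : T | ∀ C : ℕ, ∃ K, ∀ k, K ≤ k → x ∈ R3_bad (C + 1) k} ⊆
      ⋃ K : ℕ, {x : T | ∀ k, K ≤ k → x ∈ R3_bad (C + 1) k} := fun x hx => mem_iUnion.2 (hx C)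
  refine (measure_mono s1).trans ?_
  rw [m.measure_iUnion]
  refine iSup_le fun K => ?_
  have s2 : {x : T | ∀ k, K ≤ k → x ∈ R3_bad (C + 1) k} ⊆ R3_bad (C + 1) K :=
    fun x hx => hx K le_rfl
  refine (measure_mono s2).trans ?_
  rw [hS]
  exact R3_bad_vol (by positivity) K

theorem ae_typ : ∀ᵐ α : ℝ, Typ α := by
  have h1 : ∀ᵐ α : ℝ, Irrational α :=
    measure_eq_zero_iff_ae_notMem.1 ((countable_range ((↑) : ℚ → ℝ)).measure_zero volume)
  have h2 : ∀ᵐ x : T, ¬ ∀ C : ℕ, ∃ K, ∀ k, K ≤ k → x ∈ R3_bad (C + 1) k :=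
    measure_eq_zero_iff_ae_notMem.1 R3_null
  have h3 : ∀ᵐ α : ℝ, ¬ ∀ C : ℕ, ∃ K, ∀ k, K ≤ k → (α : T) ∈ R3_bad (C + 1) k := by
    rw [← Measure.restrict_univ (μ := (volume : Measure ℝ)), ← iUnion_Ioc_intCast,
      ae_restrict_iUnion_iff]
    exact fun n => (UnitAddCircle.measurePreserving_mk n).quasiMeasurePreserving.ae h2
  filter_upwards [h1, h3] with α a1 a3
  simp only [not_forall, not_exists] at a3
  obtain ⟨C, hC⟩ := a3
  refine ⟨a1, C + 1, fun K => ?_⟩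
  obtain ⟨k, hk, hk'⟩ := hC K
  exact ⟨k, hk, R3_good (by positivity) hk'⟩

end Pool.Agent.Work.MP_042f46_an.Ty
end
end
end
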