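import Pool.Agent.Work.MP_042f46_an.T.R3
import Pool.Agent.Work.MP_042f46_an.XH

-- merged part: Pool.Agent.Work.MP_042f46_an.T.BC
section
-- merged part: Pool.Agent.Work.MP_042f46_an.T.CB
section
/-!
# Geometry of an invariant curve

Plans.  Compare `X1.lean` (same facts for the structure `Sx`); `isClosed_ext`, `RM4_isOpen`, `isCompact_compl_open`, `isOpen_image_of_injOn`, `inv_diff`.  `exists_cf`: `exists_unif` with `z₀ = v₀`; `βT` is the map induced by `β` (`Function.Periodic.lift` of `s ↦ ↑(β s)`, or `x ↦ argT (φi (ψ (eT x)))`); since `ρ * eT (βT x) = φi (ψ (eT x))` and `φi ∘ ψ` is Lipschitz on the unit circle (`LL.of_diff`, `LL.comp`, `LL.lip_compact`), `chord_ge`, `chord_le` make `βT` Lipschitz.  `βT_surj`: `β` is continuous and unbounded in both directions.  `βT_inj`: `ψ_e`, `ψ_inj`, `eT_inj`.  `βT_arc`: `β` is a strictly monotone surjection.  `vol_γ`: `addHaar_image_eq_zero_of_differentiableOn_of_addHaar_eq_zero`,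 `Measure.addHaar_sphere`.  `far`: the complement of `φ '' {max R 2 < ‖ζ‖}` is compact.  `loc_inj`: `IsCoveringMapOn.isLocalHomeomorphOn`.  `H_dual`: choose preimages of the four points under `β` (`β (s + 1) = β s + 1`), `Measure.map_apply`, `βT_arc`, `H0_dual`.
-/

open Set Metric Topology Filter MeasureTheory
open scoped ENNReal NNReal

noncomputable section
namespace Pool.Agent.Work.MP_042f46_an.Ty

theorem Sy.exists_cf (σ : Sy) {ρ : ℝ} (hρ : 1 < ρ) : ∃ C : Cf, C.toSy = σ ∧ C.ρ = ρ := by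
  obtain ⟨ψ, R, β, h1, h2, h3, h4, -, h5, h6, h7, h8⟩ := exists_unif σ.φ_diff σ.φ_inj σ.φ_top hρ
    (z₀ := σ.v₀) fun h => σ.v₀_Ω (image_mono (fun ζ hζ => hρ.trans_le hζ) h)
  have h0 := one_pos.trans hρ
  have hn : ∀ x : T, (ρ : ℂ) * eT x ∈ {ζ : ℂ | 1 < ‖ζ‖} := fun x => by
    simpa [norm_eT, abs_of_pos h0] using hρ
  have he : ∀ s : ℝ, ψ (eT s) = σ.φ (ρ * eT (β s : T)) := fun s => by rw [eT_coe, eT_coe, h8]
  have hg : ∀ s : ℝ, Function.invFunOn σ.φ {ζ | 1 < ‖ζ‖} (ψ (eT s)) = ρ * eT (β s : T) :=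
    fun s => by rw [he, σ.φ_inj.leftInvOn_invFunOn (hn _)]
  have hs : ∀ w ∈ sphere (0 : ℂ) 1, ∃ s : ℝ, w = eT s := fun w hw => by
    obtain ⟨x, rfl⟩ := exists_eT (mem_sphere_zero_iff_norm.1 hw)
    obtain ⟨s, -, rfl⟩ := exists_coe x
    exact ⟨s, rfl⟩
  obtain ⟨K, hK⟩ := (LL_argT.comp ((LL.of_diff
    (isOpen_image_of_injOn (RM4_open 1) σ.φ_diff σ.φ_inj)
    (inv_diff (RM4_open 1) σ.φ_diff σ.φ_inj)).comp
    ((LL.of_diff isOpen_ball h2).mono (sphere_subset_ball h1)) fun w hw => by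
      obtain ⟨s, rfl⟩ := hs w hw
      exact ⟨_, hn _, (he s).symm⟩) fun w hw => by
      obtain ⟨s, rfl⟩ := hs w hw
      rw [hg]
      exact mul_ne_zero (Complex.ofReal_ne_zero.2 h0.ne') (eT_ne _)).lip_compact
    (isCompact_sphere 0 1)
  refine ⟨⟨σ, ρ, ψ, R, β, fun x => argT (Function.invFunOn σ.φ {ζ | 1 < ‖ζ‖} (ψ (eT x))), hρ, h1,
    h2, h3, h4, h5, h6, h7, fun s => by rw [hg, argT_mul h0], ⟨_, lipschitzOnWith_univ.1
      (hK.comp lipschitz_eT.lipschitzOnWith fun x _ => mem_sphere_zero_iff_norm.2 (norm_eT x))⟩,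
    fun x => ?_⟩, rfl, rfl⟩
  obtain ⟨s, -, rfl⟩ := exists_coe x
  rw [hg, argT_mul h0, he]

namespace Cf

variable (C : Cf) {z : ℂ}

theorem continuous_βT : Continuous C.βT := C.β_lip.elim fun _ h => h.continuous

theorem CB_int (n : ℤ) : C.β n = C.β 0 + n := by
  have hp : Function.Periodic (fun s => C.β s - s) 1 := fun s => by simp [C.β_per]
  have := hp.int_mul n 0
  simp only [mul_one, zero_add, sub_zero] at this
  linarith only [this]

theorem β_surj : Function.Surjective C.β := by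
  refine C.β_cont.surjective
    (C.β_mono.monotone.tendsto_atTop_atTop fun b => ⟨(⌈b - C.β 0⌉ : ℤ), ?_⟩)
    (C.β_mono.monotone.tendsto_atBot_atBot fun b => ⟨(⌊b - C.β 0⌋ : ℤ), ?_⟩)
  · linarith only [C.CB_int ⌈b - C.β 0⌉, Int.le_ceil (b - C.β 0)]
  · linarith only [C.CB_int ⌊b - C.β 0⌋, Int.floor_le (b - C.β 0)]

theorem βT_surj : Function.Surjective C.βT := fun x => by
  obtain ⟨t, -, rfl⟩ := exists_coe x
  obtain ⟨s, rfl⟩ := C.β_surj t
  exact ⟨s, C.β_coe s⟩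

theorem CB_ball {w : ℂ} (h : ‖w‖ ≤ 1) : w ∈ ball (0 : ℂ) C.R :=
  mem_ball_zero_iff.2 (h.trans_lt C.R_gt)

theorem βT_inj : Function.Injective C.βT := fun x y h =>
  eT_inj (C.ψ_inj (C.CB_ball (norm_eT x).le) (C.CB_ball (norm_eT y).le) (by rw [C.ψ_e, C.ψ_e, h]))

theorem βT_arc (a b : ℝ) : C.βT ⁻¹' arc (C.β a) (C.β b) = arc a b := by
  ext x
  constructor
  · rintro ⟨t, ht, e⟩
    obtain ⟨s, rfl⟩ := C.β_surj t
    exact ⟨s, ⟨C.β_mono.le_iff_le.1 ht.1, C.β_mono.le_iff_le.1 ht.2⟩,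
      C.βT_inj ((C.β_coe s).trans e)⟩
  · rintro ⟨s, hs, rfl⟩
    exact ⟨C.β s, ⟨C.β_mono.monotone hs.1, C.β_mono.monotone hs.2⟩, (C.β_coe s).symm⟩

theorem isOpen_ψ : IsOpen (C.ψ '' ball 0 C.R) :=
  isOpen_image_of_injOn isOpen_ball C.ψ_diff C.ψ_inj

theorem CB_U (h : z ∈ C.U) : ∃ w, ‖w‖ < 1 ∧ C.ψ w = z := by
  obtain ⟨w, hw, e⟩ := C.ψ_img.ge h
  exact ⟨w, mem_ball_zero_iff.1 hw, e⟩

theorem CB_Ub (h : z ∈ C.Ub) : ∃ w, ‖w‖ ≤ 1 ∧ C.ψ w = z := by
  by_cases k : z ∈ C.U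
  · exact (C.CB_U k).imp fun _ h => ⟨h.1.le, h.2⟩
  · obtain ⟨x, rfl⟩ := C.exists_γ h k
    obtain ⟨y, rfl⟩ := C.βT_surj x
    exact ⟨_, (norm_eT y).le, C.ψ_e y⟩

theorem Ub_sub : C.Ub ⊆ C.ψ '' ball 0 C.R := fun _ h =>
  (C.CB_Ub h).imp fun _ h => ⟨C.CB_ball h.1, h.2⟩

theorem ψi_diff : DifferentiableOn ℂ C.ψi (C.ψ '' ball 0 C.R) :=
  inv_diff isOpen_ball C.ψ_diff C.ψ_inj

theorem ψi_ψ {w : ℂ} (h : ‖w‖ ≤ 1) : C.ψi (C.ψ w) = w :=
  C.ψ_inj.leftInvOn_invFunOn (C.CB_ball h)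

theorem ψ_ψi (h : z ∈ C.Ub) : C.ψ (C.ψi z) = z := by
  obtain ⟨w, hw, rfl⟩ := C.CB_Ub h
  rw [C.ψi_ψ hw]

theorem ψ_U {w : ℂ} (h : ‖w‖ < 1) : C.ψ w ∈ C.U :=
  C.ψ_img.le ⟨w, mem_ball_zero_iff.2 h, rfl⟩

theorem ψi_U (h : z ∈ C.U) : ‖C.ψi z‖ < 1 := by
  obtain ⟨w, hw, rfl⟩ := C.CB_U h
  rwa [C.ψi_ψ hw.le]

theorem ψi_Ub (h : z ∈ C.Ub) : ‖C.ψi z‖ ≤ 1 := by
  obtain ⟨w, hw, rfl⟩ := C.CB_Ub h
  rwa [C.ψi_ψ hw]

theorem ψi_γ (x : T) : C.ψi (C.γ (C.βT x)) = eT x :=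
  (congrArg C.ψi (C.ψ_e x).symm).trans (C.ψi_ψ (norm_eT x).le)

theorem norm_ψi_γ (x : T) : ‖C.ψi (C.γ x)‖ = 1 := by
  obtain ⟨y, rfl⟩ := C.βT_surj x
  rw [C.ψi_γ, norm_eT]

theorem ψi_img : C.ψi '' C.U = ball 0 1 := by
  refine Subset.antisymm ?_ fun w hw => ?_
  · rintro _ ⟨z, hz, rfl⟩
    exact mem_ball_zero_iff.2 (C.ψi_U hz)
  · exact ⟨_, C.ψ_U (mem_ball_zero_iff.1 hw), C.ψi_ψ (mem_ball_zero_iff.1 hw).le⟩

theorem CB_meas : Measurable (Prod.map C.βT C.βT) :=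
  C.continuous_βT.measurable.prodMap C.continuous_βT.measurable

theorem CB_rect (a b c d : ℝ) : C.H.real (arc (C.β a) (C.β b) ×ˢ arc (C.β c) (C.β d)) =
    H0.real (arc a b ×ˢ arc c d) := by
  rw [H, map_measureReal_apply C.CB_meas ((measurableSet_arc _ _).prod (measurableSet_arc _ _)),
    preimage_prod_map_prod, C.βT_arc, C.βT_arc]

theorem H_symm : C.H.map Prod.swap = C.H := by
  rw [H, Measure.map_map measurable_swap C.CB_meas]
  conv_rhs => rw [← H0_symm, Measure.map_map C.CB_meas measurable_swap]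
  rfl

theorem H_line (y : T) : C.H (univ ×ˢ {y}) = 0 := by
  obtain ⟨x, rfl⟩ := C.βT_surj y
  rw [H, Measure.map_apply C.CB_meas (MeasurableSet.univ.prod (measurableSet_singleton _)),
    preimage_prod_map_prod, preimage_univ, ← image_singleton, preimage_image_eq _ C.βT_inj, H0_line]

theorem H_dual : Dual C.H := by
  intro x₁ x₂ x₃ x₄ h₁ h₂ h₃ h₄
  obtain ⟨a, rfl⟩ := C.β_surj x₁
  obtain ⟨b, rfl⟩ := C.β_surj x₂
  obtain ⟨c, rfl⟩ := C.β_surj x₃
  obtain ⟨d, rfl⟩ := C.β_surj x₄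
  rw [← C.β_per] at h₄ ⊢
  rw [C.β_mono.lt_iff_lt] at h₁ h₂ h₃ h₄
  rw [C.CB_rect, C.CB_rect]
  exact H0_dual a b c d h₁ h₂ h₃ h₄

theorem DD_H {u : T → ℝ} (hu : Continuous u) : DD C.H u = DD H0 fun x => u (C.βT x) :=
  lintegral_map (by fun_prop) C.CB_meas

end Cf

end Pool.Agent.Work.MP_042f46_an.Ty
end
end

-- merged part: Pool.Agent.Work.MP_042f46_an.T.B9
section
/-!
# Projection for a semidefinite form, measures from positive bilinear forms

Plans.  `proj`: make `E` a seminormed inner product space from `B` (`PreInnerProductSpace.Core`, `InnerProductSpace.Core.toSeminormedAddCommGroup`, `InnerProductSpace.ofCore`, on a copy of the type if needed), map it into `UniformSpace.Completion`, let `N` be the closure of the image of `E₀` and `W x y = ⟪x - p x, y⟫` with `p` the orthogonal projection onto `N` (`Submodule.starProjection`); choose `t n ∈ E₀` tending to `p x` (`mem_closure_iff_seq_limit`), `s n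 = x - t n`.
`exists_pu`: points `x i = ↑(i / n)`, tents `r i = clamp (2 - dist · (x i) / δ')`, `p i = r i * ∏ j < i, (1 - r j)`, the sum telescopes to `1 - ∏ (1 - r j) = 1`; products of bounded Lipschitz functions are Lipschitz.
`exists_meas`: `μ n = ∑ i j, β (p i) (p j) • dirac (x i, x j)` is a finite measure of mass `β 1 1`; `|∫ u ⊗ v dμ n - β u v| ≤ (K_u ‖v‖ + ‖u‖ K_v) δ β 1 1` because `|β a b| ≤ A B β 1 1` when `|a| ≤ A`, `|b| ≤ B` and `∑ u (x i) p i` is uniformly close to `u`; take a cluster point in the compact set of `isCompact_setOfPred_finiteMeasure_eq_of_compactSpace` and use continuity of the integral (`FiniteMeasure.continuous_integral_boundedContinuousFunction`).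
-/

open Set Metric Topology Filter MeasureTheory
open scoped ENNReal NNReal

noncomputable section
namespace Pool.Agent.Work.MP_042f46_an.Ty

theorem LipT.continuous (u : LipT) : Continuous u.1 := u.2.elim fun _ h => h.continuous

theorem B9_bdd (u : LipT) : ∃ A : ℝ, 0 ≤ A ∧ ∀ x, |u.1 x| ≤ A := by
  obtain ⟨A, hA⟩ := isCompact_univ.exists_bound_of_continuousOn (LipT.continuous u).continuousOn
  exact ⟨A, (norm_nonneg _).trans (hA 0 trivial), fun x => hA x trivial⟩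

theorem LipT.mul_mem {u v : T → ℝ} (hu : u ∈ LipT) (hv : v ∈ LipT) :
    (fun x => u x * v x) ∈ LipT := by
  obtain ⟨A, hA0, hA⟩ := B9_bdd ⟨u, hu⟩
  obtain ⟨B, hB0, hB⟩ := B9_bdd ⟨v, hv⟩
  obtain ⟨K, hK⟩ := hu
  obtain ⟨L, hL⟩ := hv
  refine ⟨_, LipschitzWith.of_dist_le' (K := A * L + B * K) fun x y => ?_⟩
  have h1 := hK.dist_le_mul x y
  have h2 := hL.dist_le_mul x y
  rw [Real.dist_eq] at h1 h2 ⊢
  calc |u x * v x - u y * v y| = |u x * (v x - v y) + v y * (u x - u y)| := by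
        congr 1
        ring
    _ ≤ A * (L * dist x y) + B * (K * dist x y) := by
        refine (abs_add_le _ _).trans ?_
        rw [abs_mul, abs_mul]
        exact add_le_add (mul_le_mul (hA x) h2 (abs_nonneg _) hA0)
          (mul_le_mul (hB y) h1 (abs_nonneg _) hB0)
    _ = _ := by ring

theorem exists_pu {δ : ℝ} (hδ : 0 < δ) : ∃ (n : ℕ) (x : ℕ → T) (p : ℕ → LipT),
    (∀ i y, 0 ≤ (p i).1 y) ∧ (∀ i y, (p i).1 y ≠ 0 → dist y (x i) ≤ δ) ∧
      ∑ i ∈ Finset.range n, p i = oneT := by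
  let x := TopologicalSpace.denseSeq T
  obtain ⟨t, ht⟩ := isCompact_univ.elim_finite_subcover (fun i => ball (x i) (δ / 2))
    (fun _ => isOpen_ball) fun y _ => by
      obtain ⟨i, hi⟩ := (TopologicalSpace.denseRange_denseSeq T).exists_dist_lt y (half_pos hδ)
      exact mem_iUnion.2 ⟨i, hi⟩
  let r : ℕ → T → ℝ := fun i y => min 1 ((2 / δ) • (δ - dist y (x i)))
  have hr : ∀ i, ∃ K, LipschitzWith K (r i) := fun i =>
    ⟨_, ((lipschitzWith_smul (2 / δ)).comp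
      ((LipschitzWith.const δ).sub (LipschitzWith.dist_left (x i)))).const_min 1⟩
  let P : ℕ → LipT := fun n => Nat.rec 0 (fun i Q => ⟨fun y => max (Q.1 y) (r i y),
    Q.2.elim fun _ h => (hr i).elim fun _ k => ⟨_, h.max k⟩⟩) n
  have e : ∀ i y, (P (i + 1)).1 y = max ((P i).1 y) (r i y) := fun _ _ => rfl
  have mono : ∀ y, Monotone fun i => (P i).1 y := fun y =>
    monotone_nat_of_le_succ fun i => le_max_left _ _
  have le1 : ∀ i y, (P i).1 y ≤ 1 := fun i y => by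
    induction i with
    | zero => exact zero_le_one
    | succ i ih => exact max_le ih (min_le_left _ _)
  refine ⟨t.sup id + 1, x, fun i => P (i + 1) - P i, fun i y => sub_nonneg.2 (le_max_left _ _),
    fun i y h => by_contra fun k => h (sub_eq_zero.2 (max_eq_left ?_)), ?_⟩
  · refine ((min_le_right _ _).trans ?_).trans (mono y (Nat.zero_le i))
    exact mul_nonpos_of_nonneg_of_nonpos (by positivity) (by linarith only [k, not_le.1 k])
  · rw [Finset.sum_range_sub, show P 0 = 0 from rfl, sub_zero]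
    refine Subtype.ext (funext fun y => le_antisymm (le1 (t.sup id + 1) y) ?_)
    obtain ⟨i, hi, hy⟩ := mem_iUnion₂.1 (ht (mem_univ y))
    refine le_trans ?_ (mono y (Nat.succ_le_succ (Finset.le_sup (f := id) hi)))
    refine le_max_of_le_right (le_min le_rfl ?_)
    rw [smul_eq_mul, div_mul_eq_mul_div, le_div_iff₀ hδ]
    show 1 * δ ≤ 2 * (δ - dist y (x i))
    linarith only [hy, mem_ball.1 hy]

section
variable {β : LipT →ₗ[ℝ] LipT →ₗ[ℝ] ℝ}
  (h : ∀ u v : LipT, (∀ x, 0 ≤ u.1 x) → (∀ x, 0 ≤ v.1 x) → 0 ≤ β u v)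
include h

theorem B9_abs {a b : LipT} {A B : ℝ} (ha : ∀ x, |a.1 x| ≤ A) (hb : ∀ x, |b.1 x| ≤ B) :
    |β a b| ≤ A * B * β oneT oneT := by
  have p : ∀ {a : LipT} {A : ℝ}, (∀ x, |a.1 x| ≤ A) → (∀ x, 0 ≤ (A • oneT + a).1 x) ∧
      ∀ x, 0 ≤ (A • oneT - a).1 x := fun {a A} ha =>
    ⟨fun x => by
      show 0 ≤ A * 1 + a.1 x
      linarith only [ha, abs_le.1 (ha x)], fun x => by
      show 0 ≤ A * 1 - a.1 x
      linarith only [ha, abs_le.1 (ha x)]⟩
  have h1 := h _ _ (p ha).1 (p hb).1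
  have h2 := h _ _ (p ha).1 (p hb).2
  have h3 := h _ _ (p ha).2 (p hb).1
  have h4 := h _ _ (p ha).2 (p hb).2
  simp only [map_add, map_sub, map_smul, LinearMap.add_apply, LinearMap.sub_apply,
    LinearMap.smul_apply, smul_eq_mul] at h1 h2 h3 h4
  exact abs_le.2 ⟨by linarith only [h1, h4], by linarith only [h2, h3]⟩

theorem B9_disc {δ : ℝ} (hδ : 0 < δ) : ∃ (μ : FiniteMeasure (T × T)) (s : LipT → LipT),
    (∀ u v : LipT, ∫ q, u.1 q.1 * v.1 q.2 ∂(μ : Measure (T × T)) = β (s u) (s v)) ∧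
      ∀ (u : LipT) (K : ℝ≥0), LipschitzWith K u.1 → ∀ y, |(s u - u).1 y| ≤ K * δ := by
  obtain ⟨n, x, p, h0, h1, h2⟩ := exists_pu hδ
  refine ⟨⟨∑ i ∈ Finset.range n, ∑ j ∈ Finset.range n,
    (β (p i) (p j)).toNNReal • Measure.dirac (x i, x j), inferInstance⟩,
    fun u => ∑ i ∈ Finset.range n, u.1 (x i) • p i, fun u v => ?_, fun u K hK y => ?_⟩
  · have hi : ∀ i j, Integrable (fun q : T × T => u.1 q.1 * v.1 q.2)
        ((β (p i) (p j)).toNNReal • Measure.dirac (x i, x j)) := fun i j =>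
      (integrable_dirac enorm_lt_top).smul_measure_nnreal
    rw [FiniteMeasure.toMeasure_mk,
      integral_finsetSum_measure fun i _ => integrable_finsetSum_measure.2 fun j _ => hi i j]
    simp only [integral_finsetSum_measure fun j _ => hi _ j, integral_smul_nnreal_measure,
      integral_dirac, map_sum, map_smul, LinearMap.sum_apply, LinearMap.smul_apply, smul_eq_mul,
      NNReal.smul_def, Real.coe_toNNReal _ (h _ _ (h0 _) (h0 _)), Finset.mul_sum]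
    rw [Finset.sum_comm]
    exact Finset.sum_congr rfl fun i _ => Finset.sum_congr rfl fun j _ => by ring
  · have e1 : ∑ i ∈ Finset.range n, (p i).1 y = 1 := by
      simpa [oneT] using congrArg (fun f : LipT => f.1 y) h2
    have e2 : (∑ i ∈ Finset.range n, u.1 (x i) • p i - u).1 y =
        ∑ i ∈ Finset.range n, (u.1 (x i) - u.1 y) * (p i).1 y := by
      simp [sub_mul, Finset.sum_sub_distrib, ← Finset.mul_sum, e1]
    rw [e2, ← mul_one (K * δ : ℝ), ← e1, Finset.mul_sum]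
    refine (Finset.abs_sum_le_sum_abs _ _).trans (Finset.sum_le_sum fun i _ => ?_)
    rw [abs_mul, abs_of_nonneg (h0 i y)]
    by_cases k : (p i).1 y = 0
    · rw [k, mul_zero, mul_zero]
    · exact mul_le_mul_of_nonneg_right ((hK.dist_le_mul _ _).trans
        (mul_le_mul_of_nonneg_left (dist_comm y _ ▸ h1 i y k) K.2)) (h0 i y)

end

theorem exists_meas (β : LipT →ₗ[ℝ] LipT →ₗ[ℝ] ℝ)
    (h : ∀ u v : LipT, (∀ x, 0 ≤ u.1 x) → (∀ x, 0 ≤ v.1 x) → 0 ≤ β u v) :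
    ∃ μ : Measure (T × T), IsFiniteMeasure μ ∧
      ∀ u v : LipT, ∫ p, u.1 p.1 * v.1 p.2 ∂μ = β u v := by
  choose μ s h1 h2 using fun k : ℕ => B9_disc h (δ := 1 / ((k : ℝ) + 1)) (by positivity)
  have e1 : ∀ k, s k oneT = oneT := fun k => sub_eq_zero.1 (Subtype.ext (funext fun y => by
    simpa using h2 k oneT 0 (LipschitzWith.const 1) y))
  have hm : ∀ k, (μ k).mass ≤ (β oneT oneT).toNNReal := fun k => by
    have := h1 k oneT oneT
    rw [e1] at this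
    rw [← this]
    simp [oneT]
  have hU : (hyperfilter ℕ : Filter ℕ) ≤ atTop := Nat.hyperfilter_le_atTop
  obtain ⟨ν, -, hν⟩ := (isCompact_setOfPred_finiteMeasure_le_of_compactSpace (T × T)
    (β oneT oneT).toNNReal).ultrafilter_le_nhds ((hyperfilter ℕ).map μ)
    (le_principal_iff.2 (mem_map.2 (univ_mem' hm)))
  refine ⟨ν, inferInstance, fun u v => ?_⟩
  have cu := LipT.continuous u
  have cv := LipT.continuous v
  have t1 := FiniteMeasure.tendsto_iff_forall_integral_tendsto.1 (show Tendsto μ _ _ from hν)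
    (BoundedContinuousFunction.mkOfCompact ⟨fun q => u.1 q.1 * v.1 q.2, by fun_prop⟩)
  refine tendsto_nhds_unique t1 (Tendsto.mono_left ?_ hU)
  obtain ⟨A, -, hA⟩ := B9_bdd u
  obtain ⟨B, -, hB⟩ := B9_bdd v
  obtain ⟨K, hK⟩ := u.2
  obtain ⟨L, hL⟩ := v.2
  have t0 := tendsto_one_div_add_atTop_nhds_zero_nat (𝕜 := ℝ)
  have t2 := ((((t0.const_mul (K : ℝ)).mul (t0.const_mul (L : ℝ))).add
    ((t0.const_mul (K : ℝ)).mul_const B)).add ((t0.const_mul (L : ℝ)).const_mul A)).mul_const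
    (β oneT oneT)
  simp only [mul_zero, zero_mul, add_zero] at t2
  refine tendsto_iff_norm_sub_tendsto_zero.2 (squeeze_zero (fun _ => norm_nonneg _) (fun k => ?_) t2)
  have a1 := B9_abs h (h2 k u K hK) (h2 k v L hL)
  have a2 := B9_abs h (h2 k u K hK) hB
  have a3 := B9_abs h hA (h2 k v L hL)
  have e : ∫ q, u.1 q.1 * v.1 q.2 ∂(μ k : Measure (T × T)) - β u v =
      β (s k u - u) (s k v - v) + β (s k u - u) v + β u (s k v - v) := by
    simp only [h1, map_sub, LinearMap.sub_apply]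
    ring
  refine (congrArg abs e).trans_le ((abs_add_three _ _ _).trans ?_)
  linarith only [a1, a2, a3]

end Pool.Agent.Work.MP_042f46_an.Ty
end
end

-- merged part: Pool.Agent.Work.MP_042f46_an.T.C3
section
/-!
# The harmonic extension and its Lipschitz approximations

Plans.  `Po_cont`: at a point of `U` the function is locally `re ∘ Ho u`; at `γ x` split `Ub` into `U` (there `ψi z → ψi (γ x) = eT y` inside the unit ball, `x = βT y`, `Hol_tend`) and its complement (there it is `ex u`, which is continuous).  `Po_en`: `En_congr`, `En_comp_eq` for `ψi` on `U`, `ψi_img`, `douglas`, `DD_H`.  `Po_orth`: `Ip_congr`, `green` with `O = U`, `exists_γ`.  `Po_min`: with `ζ = f - Po u`, `Ip f f = Ip (Po u) (Po u) + Ip ζ ζ`.  `Po_polar`: `Po_en` for `u + v`, `u`, `v`, converted to Bochner integrals (`integral_eq_lintegral_of_nonneg_ae`); the squares are integrable because `DD` is finite.  `Po_apart`: for supports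 apart `(u x - u y) (v x - v y) = -(u x v y) - u y v x`; `u x v y` is bounded and vanishes off a set `SS univ r 2` of finite mass (`off_fin`); `H_symm`, `integral_map`.
`PE_near`: `g = Po u - extC Ξ` is continuous on `Ub` and vanishes on the curve, so `|g| < ε` on `Ub` near `γ x`.  `PE_LL`: on `U` clear, near the curve `PE_near`, off `Ub` (open) it is `extC Ξ`.  `PE_tend`: on `U`, `Po u - PE = g - tr ε g`, `tr_tend`.  `PE_en`: `Ip` expansion of `PE = Po u - (Po u - PE)`, or `PE - Po u` vanishes on the curve, so `En PE = En (Po u) + En (PE - Po u)` by `Po_orth`.  `PE_all`: the plane is the union of `U`, the null set `Ub \ U` and `Ubᶜ`.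
-/

open Set Metric Topology Filter MeasureTheory
open scoped ENNReal NNReal

noncomputable section
namespace Pool.Agent.Work.MP_042f46_an.Ty

namespace Cf

variable (C : Cf) {z : ℂ}

variable {Ξ f ζ : ℂ → ℝ} {u v : T → ℝ}

theorem C3_cont (hu : u ∈ LipT) : Continuous u := LipT.continuous ⟨u, hu⟩

theorem C3_LL_re {O : Set ℂ} {A : ℂ → ℂ} (hO : IsOpen O) (hA : DifferentiableOn ℂ A O) :
    LL O fun z => (A z).re :=
  (LL.of_diff hO hA).lip_comp Complex.reCLM.lipschitz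

theorem C3_U_sub : C.U ⊆ C.ψ '' ball 0 C.R := C.U_sub.trans C.Ub_sub

theorem lip_β (hu : u ∈ LipT) : (fun x => u (C.βT x)) ∈ LipT := by
  obtain ⟨K, hK⟩ := hu
  obtain ⟨L, hL⟩ := C.β_lip
  exact ⟨_, hK.comp hL⟩

theorem Ho_diff (hu : u ∈ LipT) : DifferentiableOn ℂ (C.Ho u) C.U := by
  refine (Hol_diff (C3_cont (C.lip_β hu))).comp (C.ψi_diff.mono C.C3_U_sub) ?_
  intro z hz
  exact mem_ball_zero_iff.2 (C.ψi_U hz)

theorem Po_eq (u : T → ℝ) : EqOn (C.Po u) (fun z => (C.Ho u z).re) C.U := by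
  intro z hz
  simp only [Po, if_pos hz]

theorem Po_γ (u : T → ℝ) (x : T) : C.Po u (C.γ x) = u x := by
  simp only [Po, if_neg (C.γ_not_U x), C.ex_γ]

theorem Po_nonneg (hu : u ∈ LipT) (h : ∀ x, 0 ≤ u x) (z : ℂ) : 0 ≤ C.Po u z := by
  by_cases hz : z ∈ C.U
  · simp only [Po, if_pos hz]
    exact Hol_nonneg (C3_cont (C.lip_β hu)) (fun x => h _) (C.ψi_U hz)
  · simp only [Po, if_neg hz]
    exact C.ex_nonneg h z

theorem Po_add (hu : u ∈ LipT) (hv : v ∈ LipT) (z : ℂ) :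
    C.Po (fun x => u x + v x) z = C.Po u z + C.Po v z := by
  by_cases hz : z ∈ C.U
  · simp only [Po, if_pos hz, Ho]
    rw [Hol_add (C3_cont (C.lip_β hu)) (C3_cont (C.lip_β hv)) (C.ψi_U hz), Complex.add_re]
  · simp only [Po, if_neg hz]
    exact C.ex_add u v z

theorem Po_mul (c : ℝ) (u : T → ℝ) (z : ℂ) : C.Po (fun x => c * u x) z = c * C.Po u z := by
  by_cases hz : z ∈ C.U
  · simp only [Po, if_pos hz, Ho]
    rw [Hol_mul c (fun x => u (C.βT x)), Complex.re_ofReal_mul]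
  · simp only [Po, if_neg hz]
    exact C.ex_mul c u z

theorem Po_cont (hu : u ∈ LipT) : ContinuousOn (C.Po u) C.Ub := by
  intro z hz
  by_cases hU : z ∈ C.U
  · have h1 : ContinuousAt (fun z => (C.Ho u z).re) z :=
      (C3_LL_re C.isOpen_U (C.Ho_diff hu)).continuousAt hU
    refine (h1.congr ?_).continuousWithinAt
    filter_upwards [C.isOpen_U.mem_nhds hU] with w hw
    exact (C.Po_eq u hw).symm
  · obtain ⟨x, rfl⟩ := C.exists_γ hz hU
    obtain ⟨y, rfl⟩ := C.βT_surj x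
    have hA : ContinuousWithinAt (C.Po u) C.U (C.γ (C.βT y)) := by
      have h1 : ContinuousAt C.ψi (C.γ (C.βT y)) :=
        C.ψi_diff.continuousOn.continuousAt (C.isOpen_ψ.mem_nhds (C.Ub_sub hz))
      have h2 : Tendsto C.ψi (𝓝[C.U] (C.γ (C.βT y))) (𝓝[ball 0 1] (eT y)) := by
        refine tendsto_nhdsWithin_iff.2 ⟨?_, ?_⟩
        · rw [← C.ψi_γ y]
          exact h1.tendsto.mono_left nhdsWithin_le_nhds
        · filter_upwards [self_mem_nhdsWithin] with w hw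
          exact mem_ball_zero_iff.2 (C.ψi_U hw)
      have h3 := (Hol_tend (C3_cont (C.lip_β hu)) y).comp h2
      unfold ContinuousWithinAt
      rw [C.Po_γ]
      refine h3.congr' ?_
      filter_upwards [self_mem_nhdsWithin] with w hw
      exact (C.Po_eq u hw).symm
    have hB : ContinuousWithinAt (C.Po u) C.Uᶜ (C.γ (C.βT y)) := by
      have h1 : ContinuousAt (C.ex u) (C.γ (C.βT y)) :=
        (C.extC_LL (nice_rad hu)).continuousAt (mem_univ _)
      refine h1.continuousWithinAt.congr (fun w hw => ?_) ?_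
      · simp only [Po, if_neg hw]
      · simp only [Po, if_neg hU]
    refine (hA.union hB).mono ?_
    rw [union_compl_self]
    exact subset_univ _

theorem Po_LL (hu : u ∈ LipT) : LL C.U (C.Po u) := by
  refine LL.of_local fun z hz => ⟨fun z => (C.Ho u z).re,
    (C3_LL_re C.isOpen_U (C.Ho_diff hu)).mono (singleton_subset_iff.2 hz), ?_⟩
  filter_upwards [C.isOpen_U.mem_nhds hz] with w hw
  exact C.Po_eq u hw

theorem Po_en (hu : u ∈ LipT) : ENNReal.ofReal (2 * Real.pi) * En C.U (C.Po u) = DD C.H u := by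
  have hi : InjOn C.ψi C.U := by
    intro a ha b hb hab
    rw [← C.ψ_ψi (C.U_sub ha), ← C.ψ_ψi (C.U_sub hb), hab]
  have hL : LL (C.ψi '' C.U) fun w => (Hol (fun x => u (C.βT x)) w).re := by
    rw [C.ψi_img]
    exact C3_LL_re isOpen_ball (Hol_diff (C3_cont (C.lip_β hu)))
  have h := En_comp_eq C.isOpen_U (C.ψi_diff.mono C.C3_U_sub) hi hL
  rw [C.ψi_img] at h
  rw [En_congr C.isOpen_U (C.Po_eq u), C.DD_H (C3_cont hu), ← douglas (C.lip_β hu), ← h]
  rfl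

theorem DD_fin (hu : u ∈ LipT) : DD C.H u ≠ ∞ := by
  rw [C.DD_H (C3_cont hu)]
  exact DD0_fin (C.lip_β hu)

theorem Po_V (hu : u ∈ LipT) : IsV C.U C.Ub (C.Po u) := by
  refine ⟨C.Po_cont hu, C.Po_LL hu, fun h => C.DD_fin hu ?_⟩
  rw [← C.Po_en hu, h, ENNReal.mul_top]
  exact (ENNReal.ofReal_pos.2 (by positivity)).ne'

theorem Po_orth (hu : u ∈ LipT) (hζ : IsV C.U C.Ub ζ) (h0 : ∀ x, ζ (C.γ x) = 0) :
    Ip C.U (C.Po u) ζ = 0 := by
  rw [Ip_congr C.isOpen_U (C.Po_eq u) (eqOn_refl ζ _)]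
  refine green C.isOpen_U subset_rfl C.U_sub C.isCompact_Ub (C.Ho_diff hu) ?_ hζ ?_
  · rw [← En_congr C.isOpen_U (C.Po_eq u)]
    exact (C.Po_V hu).fin
  · intro z hz hU
    obtain ⟨x, rfl⟩ := C.exists_γ hz hU
    exact h0 x

theorem Po_ip (hu : u ∈ LipT) (hv : v ∈ LipT) (hf : IsV C.U C.Ub f) (h : ∀ x, f (C.γ x) = v x) :
    Ip C.U (C.Po u) f = Ip C.U (C.Po u) (C.Po v) := by
  have h1 := C.Po_orth hu (hf.sub C.isOpen_U (C.Po_V hv)) (fun x => by
    simp only [h x, C.Po_γ, sub_self])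
  rw [Ip_comm, Ip_sub C.isOpen_U hf.lip (C.Po_LL hv) hf.fin (C.Po_V hv).fin (C.Po_V hu).fin] at h1
  rw [Ip_comm, Ip_comm C.U (C.Po u)]
  linarith only [h1]

theorem Po_min (hu : u ∈ LipT) (hf : IsV C.U C.Ub f) (h : ∀ x, f (C.γ x) = u x) :
    En C.U (C.Po u) ≤ En C.U f := by
  have h1 := C.Po_ip hu hu hf h
  have h2 := Ip_sq_le (C.Po_V hu).fin hf.fin
  rw [h1, Ip_self] at h2
  rw [← ENNReal.toReal_le_toReal (C.Po_V hu).fin hf.fin]
  have h3 : 0 ≤ (En C.U (C.Po u)).toReal := ENNReal.toReal_nonneg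
  have h4 : 0 ≤ (En C.U f).toReal := ENNReal.toReal_nonneg
  by_contra h5
  linarith only [h2, h4, h5, mul_nonneg_of_nonpos_of_nonpos (Mathlib.Tactic.Linarith.sub_nonpos_of_le h4) (le_of_lt (Mathlib.Tactic.Linarith.sub_neg_of_lt (lt_of_not_ge h5))), mul_pos_of_neg_of_neg (Mathlib.Tactic.Linarith.sub_neg_of_lt (lt_of_not_ge h5)) (Mathlib.Tactic.Linarith.sub_neg_of_lt (lt_of_not_ge h5))]

theorem C3_meas (hu : u ∈ LipT) : Continuous fun p : T × T => (u p.1 - u p.2) ^ 2 :=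
  (((C3_cont hu).comp continuous_fst).sub ((C3_cont hu).comp continuous_snd)).pow 2

theorem C3_int (hu : u ∈ LipT) : Integrable (fun p : T × T => (u p.1 - u p.2) ^ 2) C.H := by
  refine ⟨(C3_meas hu).aestronglyMeasurable, ?_⟩
  rw [hasFiniteIntegral_iff_ofReal (Eventually.of_forall fun p => sq_nonneg _)]
  exact (C.DD_fin hu).lt_top

theorem C3_sq (hu : u ∈ LipT) :
    2 * Real.pi * Ip C.U (C.Po u) (C.Po u) = ∫ p, (u p.1 - u p.2) ^ 2 ∂C.H := by
  rw [integral_eq_lintegral_of_nonneg_ae (Eventually.of_forall fun p => sq_nonneg _)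
    (C3_meas hu).aestronglyMeasurable, Ip_self]
  have h := congrArg ENNReal.toReal (C.Po_en hu)
  rw [ENNReal.toReal_mul, ENNReal.toReal_ofReal (by positivity)] at h
  exact h

theorem Po_polar (hu : u ∈ LipT) (hv : v ∈ LipT) :
    2 * Real.pi * Ip C.U (C.Po u) (C.Po v) = ∫ p, (u p.1 - u p.2) * (v p.1 - v p.2) ∂C.H := by
  have huv : (fun x => u x + v x) ∈ LipT := LipT.add_mem hu hv
  have e : C.Po (fun x => u x + v x) = fun z => C.Po u z + C.Po v z := funext (C.Po_add hu hv)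
  have h1 := C.C3_sq huv
  have h2 := C.C3_sq hu
  have h3 := C.C3_sq hv
  have U := C.Po_V hu
  have V := C.Po_V hv
  have W := U.add C.isOpen_U V
  rw [e, Ip_add C.isOpen_U U.lip V.lip U.fin V.fin W.fin, Ip_comm C.U (C.Po u),
    Ip_comm C.U (C.Po v), Ip_add C.isOpen_U U.lip V.lip U.fin V.fin U.fin,
    Ip_add C.isOpen_U U.lip V.lip U.fin V.fin V.fin, Ip_comm C.U (C.Po v) (C.Po u)] at h1
  have h4 : ∫ p, (u p.1 - u p.2) * (v p.1 - v p.2) ∂C.H =
      ∫ p, (1 / 2) * (((u p.1 + v p.1) - (u p.2 + v p.2)) ^ 2 - (u p.1 - u p.2) ^ 2 -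
        (v p.1 - v p.2) ^ 2) ∂C.H := by
    congr 1
    funext p
    ring
  have h5 : Integrable (fun p : T × T =>
      ((u p.1 + v p.1) - (u p.2 + v p.2)) ^ 2 - (u p.1 - u p.2) ^ 2) C.H :=
    (C.C3_int huv).sub (C.C3_int hu)
  rw [h4, integral_const_mul, integral_sub h5 (C.C3_int hv),
    integral_sub (C.C3_int huv) (C.C3_int hu), ← h1, ← h2, ← h3]
  ring

theorem Po_apart (hF : FinB C.H) (hu : u ∈ LipT) (hv : v ∈ LipT) (h : Apart u v) :
    Real.pi * Ip C.U (C.Po u) (C.Po v) = -∫ p, u p.1 * v p.2 ∂C.H := by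
  obtain ⟨r, hr, h⟩ := h
  have hc : Continuous fun p : T × T => u p.1 * v p.2 :=
    ((C3_cont hu).comp continuous_fst).mul ((C3_cont hv).comp continuous_snd)
  have hi : Integrable (fun p : T × T => u p.1 * v p.2) C.H := by
    obtain ⟨M, hM⟩ := isCompact_univ.exists_bound_of_continuousOn hc.continuousOn
    have h1 : IntegrableOn (fun p : T × T => u p.1 * v p.2) (SS univ r 2) C.H :=
      Measure.integrableOn_of_bounded (off_fin hF (off_SS univ hr 2)) hc.aestronglyMeasurable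
        (Eventually.of_forall fun p => hM p (mem_univ _))
    refine (integrableOn_iff_integrable_of_support_subset ?_).1 h1
    intro p hp
    have hp' := mul_ne_zero_iff.1 hp
    exact ⟨mem_univ _, h _ _ hp'.1 hp'.2, (dist_le_half _ _).trans_lt (by norm_num)⟩
  have hm : MeasurePreserving Prod.swap C.H C.H := ⟨measurable_swap, C.H_symm⟩
  have hi' : Integrable (fun p : T × T => u p.2 * v p.1) C.H := hm.integrable_comp_of_integrable hi
  have he : ∫ p, u p.2 * v p.1 ∂C.H = ∫ p, u p.1 * v p.2 ∂C.H := by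
    conv_rhs => rw [← C.H_symm]
    rw [integral_map measurable_swap.aemeasurable hc.aestronglyMeasurable]
    rfl
  have h0 : ∀ x, u x * v x = 0 := by
    intro x
    by_contra hx
    have hx' := mul_ne_zero_iff.1 hx
    have := h x x hx'.1 hx'.2
    rw [dist_self] at this
    linarith only [hr, this]
  have h1 := C.Po_polar hu hv
  have h2 : ∫ p, (u p.1 - u p.2) * (v p.1 - v p.2) ∂C.H =
      ∫ p, -(u p.1 * v p.2 + u p.2 * v p.1) ∂C.H := by
    congr 1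
    funext p
    linear_combination h0 p.1 + h0 p.2
  rw [h2, integral_neg, integral_add hi hi', he] at h1
  linarith only [h1]

end Cf

end Pool.Agent.Work.MP_042f46_an.Ty
end
end

-- merged part: Pool.Agent.Work.MP_042f46_an.T.C4
section
/-!
# The Dirichlet form of the preimage domain

Plans.  `exists_WF`: `proj` for `BV` and the submodule of functions vanishing on `Ub \ W` (`Ip_comm`, `Ip_self`).  `WF.congr`: the difference vanishes on `Ub \ W`.  `WF.min`: if `s - f` vanishes on `Ub \ W` then `w f f = w s s ≤ Ip s s`.  `hopf`: for `t > 0` the function `max 0 (s n - t g)` agrees with `f` on `Ub \ W`, so `w f f ≤ Ip (s n - t g) (s n - t g)` (`En_pos_le`); expand, let `n → ∞`: `0 ≤ -2 t w f g + t ^ 2 Ip g g`; let `t → 0`.  `w_Po`: `Ip (s n) (Po v) = Ip (Po v) (Po u)` by `Po_ip`.  `Po_le_w`: `Po_min` for `s n`.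
`w_pb`: let `u' = u (· - α)`, `v' = v (· - α)`, `Q z = Po v' (F z)`, which is `re (Ho v' ∘ F)` on `W` and has finite energy there (`En_comp_le`).  The function `s n` vanishes on `U \ W`, so its gradient vanishes almost everywhere there (`gr_level`, `Ip_restrict`); `Ip W (s n) Q = Ip W (ex u) Q` by `green` on `W`; `Ip W (ex u) Q = Ip (U ∩ Ω) (ex u' ∘ F) (Po v' ∘ F) = Ip (U ∩ Ω) (ex u') (Po v') = Ip U (Po u') (Po v')` (`ex_rot`, `Ip_comp_eq`, `F_img`, `extC_off`, `Po_ip`); and `Ip W (s n) (Q - pb (PE))` squared is at most `En (s n) * d * En U (Po v' - PE)` (`Ip_sq_le`, `En_comp_le`).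
`b_pos`: `hopf` for `ex u` and `pb (PE (rad v') ε) - ex v`, then `w_pb` and `PE_tend`.
-/

open Set Metric Topology Filter MeasureTheory
open scoped ENNReal NNReal

noncomputable section
namespace Pool.Agent.Work.MP_042f46_an.Ty

namespace Cf

variable (C : Cf) {z : ℂ}

/-- the space of functions of finite energy inside the curve -/
abbrev 𝓥 : Submodule ℝ (ℂ → ℝ) := VV C.U C.Ub C.isOpen_U

/-- collar extension as a linear map -/
def exL : LipT →ₗ[ℝ] C.𝓥 where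
  toFun u := ⟨C.ex u.1, C.ex_V u.2⟩
  map_add' u v := Subtype.ext (funext (C.ex_add u.1 v.1))
  map_smul' c u := Subtype.ext (funext (C.ex_mul c u.1))

/-- harmonic extension as a linear map -/
def PoL : LipT →ₗ[ℝ] C.𝓥 where
  toFun u := ⟨C.Po u.1, C.Po_V u.2⟩
  map_add' u v := Subtype.ext (funext (C.Po_add u.2 v.2))
  map_smul' c u := Subtype.ext (funext (C.Po_mul c u.1))

/-- the energy form of the extension that is harmonic in `W` -/
structure WF where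
  w : C.𝓥 →ₗ[ℝ] C.𝓥 →ₗ[ℝ] ℝ
  symm : ∀ f g, w f g = w g f
  zero : ∀ f g : C.𝓥, (∀ z ∈ C.Ub, z ∉ C.W → g.1 z = 0) → w f g = 0
  le : ∀ f, w f f ≤ Ip C.U f.1 f.1
  app : ∀ f : C.𝓥, ∃ s : ℕ → C.𝓥, (∀ n, ∀ z ∈ C.Ub, z ∉ C.W → (s n).1 z = f.1 z) ∧
    (∀ g : C.𝓥, Tendsto (fun n => Ip C.U (s n).1 g.1) atTop (𝓝 (w f g))) ∧
    Tendsto (fun n => Ip C.U (s n).1 (s n).1) atTop (𝓝 (w f f))

/-- functions that vanish off `W` -/
def C4_E : Submodule ℝ C.𝓥 where
  carrier := {g | ∀ z ∈ C.Ub, z ∉ C.W → g.1 z = 0}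
  add_mem' := fun {f g} hf hg z h h' => by
    change f.1 z + g.1 z = 0
    rw [hf z h h', hg z h h', add_zero]
  zero_mem' := fun _ _ _ => rfl
  smul_mem' := fun c f hf z h h' => by
    change c * f.1 z = 0
    rw [hf z h h', mul_zero]

theorem C4_cases (h : z ∈ C.Ub) (h' : z ∉ C.W) : z ∉ C.Ω ∨ ∃ x, z = C.γ x := by
  by_cases k : z ∈ C.U
  · exact Or.inl fun k' => h' (C.mem_W k' k)
  · exact Or.inr (C.exists_γ h k)

theorem C4_γ (x : T) : C.γ x ∉ C.W := fun h => C.γ_not_U x h.1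

theorem exists_WF : Nonempty C.WF := by
  obtain ⟨w, h1, h2, h3, h4⟩ := proj (BV C.U C.Ub C.isOpen_U) (fun f g => Ip_comm _ _ _)
    (fun f => by
      rw [BV_apply, Ip_self]
      exact ENNReal.toReal_nonneg) C.C4_E
  refine ⟨⟨w, h1, h2, h3, fun f => ?_⟩⟩
  obtain ⟨s, k1, k2, k3⟩ := h4 f
  exact ⟨s, fun n z h h' => sub_eq_zero.1 (k1 n z h h'), k2, k3⟩

namespace WF

variable {C} (A : C.WF)

theorem congr (f : C.𝓥) {g g' : C.𝓥} (h : ∀ z ∈ C.Ub, z ∉ C.W → g.1 z = g'.1 z) :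
    A.w f g = A.w f g' := by
  have k := A.zero f (g - g') fun z hz hz' => sub_eq_zero.2 (h z hz hz')
  rwa [map_sub, sub_eq_zero] at k

theorem min {f s : C.𝓥} (h : ∀ z ∈ C.Ub, z ∉ C.W → s.1 z = f.1 z) : A.w f f ≤ Ip C.U s.1 s.1 := by
  rw [← A.congr f h, A.symm, ← A.congr s h]
  exact A.le s

theorem hopf {f g : C.𝓥} (h : ∀ z ∈ C.Ub, z ∉ C.W → 0 ≤ f.1 z ∧ 0 ≤ g.1 z ∧ f.1 z * g.1 z = 0) :
    A.w f g ≤ 0 := by
  obtain ⟨s, k1, k2, k3⟩ := A.app f
  have key : ∀ t : ℝ, 0 < t → 2 * A.w f g ≤ t * Ip C.U g.1 g.1 := fun t ht => by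
    have h1 : ∀ n, A.w f f ≤ Ip C.U (s n).1 (s n).1 - 2 * t * Ip C.U (s n).1 g.1 +
        t ^ 2 * Ip C.U g.1 g.1 := fun n => by
      have hV : IsV C.U C.Ub (s n - t • g).1 := (s n - t • g).2
      have h2 := A.min (f := f) (s := ⟨_, hV.pos C.isOpen_U⟩) fun z hz hz' => by
        obtain ⟨a1, a2, a3⟩ := h z hz hz'
        change max 0 ((s n).1 z - t * g.1 z) = f.1 z
        rw [k1 n z hz hz']
        rcases mul_eq_zero.1 a3 with a | a
        · rw [a, zero_sub]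
          exact max_eq_left (neg_nonpos.2 (mul_nonneg ht.le a2))
        · rw [a, mul_zero, sub_zero]
          exact max_eq_right a1
      rw [Ip_self] at h2
      refine (h2.trans (ENNReal.toReal_mono hV.fin (En_pos_le C.isOpen_U hV.lip))).trans_eq ?_
      rw [← Ip_self, ← BV_apply C.isOpen_U]
      simp only [map_sub, map_smul, LinearMap.sub_apply, LinearMap.smul_apply, smul_eq_mul, BV_apply]
      rw [Ip_comm C.U g.1 (s n).1]
      ring
    have h3 := ge_of_tendsto' ((k3.sub ((k2 g).const_mul (2 * t))).add_const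
      (t ^ 2 * Ip C.U g.1 g.1)) h1
    exact le_of_mul_le_mul_left (by linarith only [h3]) ht
  have h4 : Tendsto (fun t : ℝ => t * Ip C.U g.1 g.1) (𝓝[>] 0) (𝓝 (0 * Ip C.U g.1 g.1)) :=
    (tendsto_id.mono_left nhdsWithin_le_nhds).mul_const _
  have h5 := ge_of_tendsto h4 (eventually_mem_nhdsWithin.mono key)
  linarith only [h5]

theorem w_Po (u v : LipT) : A.w (C.exL u) (C.PoL v) = Ip C.U (C.Po u.1) (C.Po v.1) := by
  obtain ⟨s, k1, k2, -⟩ := A.app (C.exL u)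
  refine tendsto_nhds_unique (k2 (C.PoL v)) (tendsto_const_nhds.congr fun n => ?_)
  rw [Ip_comm, Ip_comm C.U (s n).1]
  exact (C.Po_ip v.2 u.2 (s n).2 fun x =>
    (k1 n _ (C.γ_Ub x) (C.C4_γ x)).trans (C.ex_γ u.1 x)).symm

theorem Po_le_w (u : LipT) : Ip C.U (C.Po u.1) (C.Po u.1) ≤ A.w (C.exL u) (C.exL u) := by
  obtain ⟨s, k1, -, k3⟩ := A.app (C.exL u)
  refine ge_of_tendsto' k3 fun n => ?_
  have hV : IsV C.U C.Ub (s n).1 := (s n).2
  rw [Ip_self, Ip_self]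
  exact ENNReal.toReal_mono hV.fin (C.Po_min u.2 hV fun x =>
    (k1 n _ (C.γ_Ub x) (C.C4_γ x)).trans (C.ex_γ u.1 x))

theorem h_pos (u v : LipT) (hu : ∀ x, 0 ≤ u.1 x) (hv : ∀ x, 0 ≤ v.1 x) :
    Ip C.U (C.Po u.1) (C.Po v.1) ≤ A.w (C.exL u) (C.exL v) := by
  have k := A.hopf (f := C.exL u) (g := C.PoL v - C.exL v) fun z hz hz' => by
    change 0 ≤ C.ex u.1 z ∧ 0 ≤ C.Po v.1 z - C.ex v.1 z ∧
      C.ex u.1 z * (C.Po v.1 z - C.ex v.1 z) = 0
    refine ⟨C.ex_nonneg hu z, ?_⟩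
    rcases C.C4_cases hz hz' with a | ⟨x, rfl⟩
    · rw [show C.ex u.1 z = 0 from C.extC_off _ a, show C.ex v.1 z = 0 from C.extC_off _ a,
        sub_zero, zero_mul]
      exact ⟨C.Po_nonneg v.2 hv z, rfl⟩
    · rw [C.Po_γ, C.ex_γ v.1, sub_self, mul_zero]
      exact ⟨le_rfl, rfl⟩
  rwa [map_sub, A.w_Po, sub_nonpos] at k

theorem w_apart (u v : LipT) (hu : ∀ x, 0 ≤ u.1 x) (hv : ∀ x, 0 ≤ v.1 x) (h : Apart u.1 v.1) :
    A.w (C.exL u) (C.exL v) ≤ 0 := by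
  refine A.hopf fun z hz hz' => ⟨C.ex_nonneg hu z, C.ex_nonneg hv z, ?_⟩
  change C.ex u.1 z * C.ex v.1 z = 0
  rcases C.C4_cases hz hz' with a | ⟨x, rfl⟩
  · rw [show C.ex u.1 z = 0 from C.extC_off _ a, zero_mul]
  · obtain ⟨r, h0, hr⟩ := h
    rw [C.ex_γ, C.ex_γ]
    by_contra k
    have := hr x x (left_ne_zero_of_mul k) (right_ne_zero_of_mul k)
    rw [dist_self] at this
    exact this.not_gt h0

end WF

end Cf

end Pool.Agent.Work.MP_042f46_an.Ty
end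
end

-- merged part: Pool.Agent.Work.MP_042f46_an.T.C9
section
/-!
# The harmonic extension and its Lipschitz approximations

Plans.  `Po_cont`: at a point of `U` the function is locally `re ∘ Ho u`; at `γ x` split `Ub` into `U` (there `ψi z → ψi (γ x) = eT y` inside the unit ball, `x = βT y`, `Hol_tend`) and its complement (there it is `ex u`, which is continuous).  `Po_en`: `En_congr`, `En_comp_eq` for `ψi` on `U`, `ψi_img`, `douglas`, `DD_H`.  `Po_orth`: `Ip_congr`, `green` with `O = U`, `exists_γ`.  `Po_min`: with `ζ = f - Po u`, `Ip f f = Ip (Po u) (Po u) + Ip ζ ζ`.  `Po_polar`: `Po_en` for `u + v`, `u`, `v`, converted to Bochner integrals (`integral_eq_lintegral_of_nonneg_ae`); the squares are integrable because `DD` is finite.  `Po_apart`: for supports apart `(u x - u y) (v x - v y) = -(u x v y) - u y v x`; `u x v y` is bounded and vanishes off a set `SS univ r 2` of finite mass (`off_fin`); `H_symm`,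 `integral_map`.
`PE_near`: `g = Po u - extC Ξ` is continuous on `Ub` and vanishes on the curve, so `|g| < ε` on `Ub` near `γ x`.  `PE_LL`: on `U` clear, near the curve `PE_near`, off `Ub` (open) it is `extC Ξ`.  `PE_tend`: on `U`, `Po u - PE = g - tr ε g`, `tr_tend`.  `PE_en`: `Ip` expansion of `PE = Po u - (Po u - PE)`, or `PE - Po u` vanishes on the curve, so `En PE = En (Po u) + En (PE - Po u)` by `Po_orth`.  `PE_all`: the plane is the union of `U`, the null set `Ub \ U` and `Ubᶜ`.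
-/

open Set Metric Topology Filter MeasureTheory
open scoped ENNReal NNReal

noncomputable section
namespace Pool.Agent.Work.MP_042f46_an.Ty

namespace Cf

variable (C : Cf) {z : ℂ}

variable {Ξ : ℂ → ℝ}

theorem PE_off (Ξ : ℂ → ℝ) (ε : ℝ) (h : z ∉ C.U) : C.PE Ξ ε z = C.extC Ξ z := by
  rw [PE, indicator_of_notMem h, add_zero]

theorem PE_γ (Ξ : ℂ → ℝ) (ε : ℝ) (x : T) : C.PE Ξ ε (C.γ x) = Ξ (eT x) := by
  rw [C.PE_off Ξ ε (C.γ_not_U x), C.extC_γ]

theorem C9_in (Ξ : ℂ → ℝ) (ε : ℝ) (h : z ∈ C.U) : C.PE Ξ ε z =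
    C.extC Ξ z + tr ε (C.Po (fun x => Ξ (eT x)) z - C.extC Ξ z) := by
  rw [PE, indicator_of_mem h]

theorem C9_V (h : Nice Ξ) :
    IsV C.U C.Ub fun z => C.Po (fun x => Ξ (eT x)) z - C.extC Ξ z :=
  (C.Po_V h.lipT).sub C.isOpen_U (C.extC_V h)

theorem PE_nonneg (h : Nice Ξ) (h0 : ∀ ζ, 0 ≤ Ξ ζ) {ε : ℝ} (hε : 0 ≤ ε) (z : ℂ) :
    0 ≤ C.PE Ξ ε z := by
  have h1 := C.extC_nonneg h0 z
  by_cases k : z ∈ C.U
  · have h2 := C.Po_nonneg h.lipT (fun x => h0 _) z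
    have h3 : max 0 (-(C.Po (fun x => Ξ (eT x)) z - C.extC Ξ z) - ε) ≤ C.extC Ξ z :=
      max_le h1 (by linarith only [hε, h2])
    rw [C.C9_in Ξ ε k, tr]
    linarith only [h3, le_max_left 0 (C.Po (fun x => Ξ (eT x)) z - C.extC Ξ z - ε)]
  · rwa [C.PE_off Ξ ε k]

theorem PE_near (h : Nice Ξ) {ε : ℝ} (hε : 0 < ε) (x : T) :
    C.PE Ξ ε =ᶠ[𝓝 (C.γ x)] C.extC Ξ := by
  have h1 := ((C.C9_V h).cont _ (C.γ_Ub x)).tendsto
  simp only [C.Po_γ, C.extC_γ, sub_self] at h1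
  filter_upwards [eventually_nhdsWithin_iff.1 (h1.eventually (Ioo_mem_nhds (neg_neg_of_pos hε) hε))]
    with z hz
  by_cases k : z ∈ C.U
  · have h2 := hz (C.U_sub k)
    rw [C.C9_in Ξ ε k, tr, max_eq_left (by linarith only [h2, h2.2]), max_eq_left (by linarith only [h2, h2.1]),
      sub_zero, add_zero]
  · exact C.PE_off Ξ ε k

theorem PE_LL (h : Nice Ξ) {ε : ℝ} (hε : 0 < ε) : LL univ (C.PE Ξ ε) := by
  refine LL.of_local fun z _ => ?_
  have h1 : LL {z} (C.extC Ξ) := (C.extC_LL h).mono (subset_univ _)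
  by_cases k : z ∈ C.U
  · have h2 := (C.C9_V h).lip.mono (singleton_subset_iff.2 k)
    refine ⟨_, h1.add (((LL.const _ 0).max (h2.sub (LL.const _ ε))).sub ((LL.const _ 0).max
      (((LL.const _ 0).sub h2).sub (LL.const _ ε)))), ?_⟩
    filter_upwards [C.isOpen_U.mem_nhds k] with w hw
    rw [C.C9_in Ξ ε hw, tr, zero_sub]
  · refine ⟨_, h1, ?_⟩
    by_cases k2 : z ∈ C.Ub
    · obtain ⟨x, rfl⟩ := C.exists_γ k2 k
      exact C.PE_near h hε x
    · filter_upwards [C.isCompact_Ub.isClosed.isOpen_compl.mem_nhds k2] with w hw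
      exact C.PE_off Ξ ε fun k3 => hw (C.U_sub k3)

theorem PE_far (h : Nice Ξ) (ε : ℝ) : ∃ R : ℝ, ∀ z : ℂ, R ≤ ‖z‖ → C.PE Ξ ε z = 0 := by
  obtain ⟨R, hR⟩ := C.extC_far h
  obtain ⟨S, hS⟩ := C.isCompact_Ub.isBounded.exists_norm_le
  refine ⟨max R (S + 1), fun z hz => ?_⟩
  rw [C.PE_off Ξ ε fun k => by linarith only [hS, k, hz, hS z (C.U_sub k), le_of_max_le_right hz],
    hR z (le_of_max_le_left hz)]

theorem PE_V (h : Nice Ξ) {ε : ℝ} (hε : 0 < ε) : IsV C.U C.Ub (C.PE Ξ ε) :=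
  LL.isV C.isOpen_U C.isCompact_Ub C.U_sub ((C.PE_LL h hε).mono (subset_univ _))

theorem PE_tend (h : Nice Ξ) : Tendsto (fun ε => En C.U fun z =>
    C.Po (fun x => Ξ (eT x)) z - C.PE Ξ ε z) (𝓝[>] 0) (𝓝 0) := by
  refine (tr_tend C.isOpen_U (C.C9_V h).lip (C.C9_V h).fin).congr fun ε =>
    En_congr C.isOpen_U fun z hz => ?_
  simp only [C.C9_in Ξ ε hz, sub_sub]

theorem PE_en (h : Nice Ξ) {η : ℝ≥0∞} (hη : 0 < η) :
    ∃ ε > 0, En C.U (C.PE Ξ ε) ≤ En C.U (C.Po fun x => Ξ (eT x)) + η := by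
  obtain ⟨ε, h1, hε⟩ :=
    (((C.PE_tend h).eventually (ge_mem_nhds hη)).and self_mem_nhdsWithin).exists
  refine ⟨ε, hε, le_trans (le_of_eq ?_) (add_le_add le_rfl h1)⟩
  have a := C.Po_V h.lipT
  have p := C.PE_V h hε
  have d := a.sub C.isOpen_U p
  have k0 := C.Po_orth h.lipT d fun x => by rw [C.Po_γ, C.PE_γ, sub_self]
  have k1 := Ip_sub C.isOpen_U a.lip p.lip a.fin p.fin a.fin
  have k2 := Ip_sub C.isOpen_U a.lip p.lip a.fin p.fin p.fin
  have k3 := Ip_sub C.isOpen_U a.lip p.lip a.fin p.fin d.fin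
  rw [Ip_comm, k0, Ip_self, Ip_comm] at k1
  rw [Ip_comm, Ip_self] at k2
  rw [Ip_self, k0] at k3
  rw [← ENNReal.toReal_eq_toReal_iff' p.fin (ENNReal.add_ne_top.2 ⟨a.fin, d.fin⟩),
    ENNReal.toReal_add a.fin d.fin]
  linarith only [k1, k2, k3]

theorem PE_all (h : Nice Ξ) (ε : ℝ) :
    En univ (C.PE Ξ ε) ≤ En C.U (C.PE Ξ ε) + En {ζ | 1 < ‖ζ‖} Ξ := by
  rw [← C.extC_out h, ← En_congr C.isCompact_Ub.isClosed.isOpen_compl
    (f := C.PE Ξ ε) fun z hz => C.PE_off Ξ ε fun k => hz (C.U_sub k)]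
  refine le_trans (En_mono (B := C.U ∪ C.Ubᶜ ∪ C.Ub \ C.U) (fun z _ => ?_) _)
    ((lintegral_union_le _ _ _).trans ?_)
  · by_cases k : z ∈ C.U
    · exact Or.inl (Or.inl k)
    · exact (em (z ∈ C.Ub)).elim (fun k2 => Or.inr ⟨k2, k⟩) fun k2 => Or.inl (Or.inr k2)
  · rw [setLIntegral_measure_zero _ _ C.vol_γ, add_zero]
    exact lintegral_union_le _ _ _

end Cf

end Pool.Agent.Work.MP_042f46_an.Ty
end
end

-- merged part: Pool.Agent.Work.MP_042f46_an.T.C5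
section
/-!
# Lifting test functions along the main inverse branch

Plans.  `klein`: `k w = 2 w / (1 + ‖w‖ ^ 2)` maps the unit ball to itself with continuous inverse `k' x = x / (1 + sqrt (1 - ‖x‖ ^ 2))`, and `w ∈ O` iff `k w` lies in the open convex set `Q = {x ∈ ball 0 1 | ∀ j ∈ I, 2 A j < re (b j * x)}`; lift `g ∘ k'` on `Q` as in `lift_one` of `Fam.lean` (`Convex.contractibleSpace`, `IsCoveringMapOn.existsUnique_continuousMap_lifts`) and compose with `k`.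
`lift_fn`: `A = s '' S` is compact, `f' = indicator A (f ∘ F)`.  Near a point outside `A` it vanishes.  Near `z₀ = s y₀` the map `F` is injective (`loc_inj`, or `F_inj` when `y₀` is on the curve) and continuous; if `z` is near `z₀`, `F z ∈ Ub` and `f (F z) ≠ 0`, then `F z ∈ S` is near `y₀`, so `s (F z)` is near `z₀`, so `z = s (F z) ∈ A`; hence `f' z = f (F z)` for such `z`.  If `y₀ ∈ U` all points near `z₀` are in `W`; if `y₀` is on the curve, points of `Ub` near `z₀ ∈ Ω` have `F z ∈ Ub` (`F_Ub`).  Energy: the gradient vanishes on `U \ A`, on `A ∩ U ⊆ W` it is that of `f ∘ F`, and `F` is injective on `A` (`En_comp_le` with `O = W`, `d = 1`).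
`moeb_lin`: clear the denominator; `A = 1 + ‖a‖ ^ 2 + 5 re (conj ξ * a)`, `b = 4 conj a + 5 (conj ξ + ξ * conj a ^ 2)`-like (use `(w - a) * conj (1 - conj a * w) = w + a ^ 2 conj w - a (1 + ‖w‖ ^ 2)`).
`exists_theta`: `Θ z = clamp (2 dot ξ (m (ψi z)) - 1)`; `m ∘ ψi` is holomorphic near `Ub`, injective on `U` with values in the unit ball (`RM2_lt`, `RM2_inj`, `RM2_der`); the function `clamp (2 dot ξ · - 1)` is Lipschitz with constant `2 ‖ξ‖`, `‖ξ‖ ^ 2 = 2`; `En_comp_le`, `En_le_of_bound`, `Complex.volume_ball`.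
-/

open Set Metric Topology Filter MeasureTheory
open scoped ENNReal NNReal

noncomputable section
namespace Pool.Agent.Work.MP_042f46_an.Ty

/-- from the conformal model to the projective model -/
def C5_k (w : ℂ) : ℂ := (2 / (1 + ‖w‖ ^ 2) : ℝ) • w

/-- and back -/
def C5_k' (x : ℂ) : ℂ := (1 / (1 + Real.sqrt (1 - ‖x‖ ^ 2)) : ℝ) • x

theorem C5_k_cont : Continuous C5_k :=
  Continuous.smul (f := fun w : ℂ => (2 / (1 + ‖w‖ ^ 2) : ℝ)) (g := fun w : ℂ => w)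
    (continuous_const.div (by fun_prop) fun w => by positivity) continuous_id

theorem C5_k'_cont : Continuous C5_k' :=
  Continuous.smul (f := fun x : ℂ => (1 / (1 + Real.sqrt (1 - ‖x‖ ^ 2)) : ℝ))
    (g := fun w : ℂ => w) (continuous_const.div (by fun_prop) fun w => by positivity)
    continuous_id

theorem C5_k_sq (w : ℂ) : 1 - ‖C5_k w‖ ^ 2 = ((1 - ‖w‖ ^ 2) / (1 + ‖w‖ ^ 2)) ^ 2 := by
  rw [C5_k, norm_smul, mul_pow, Real.norm_eq_abs, sq_abs]
  field_simp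
  ring

theorem C5_kk {w : ℂ} (hw : ‖w‖ < 1) : C5_k' (C5_k w) = w := by
  have h0 : 0 < 1 - ‖w‖ ^ 2 := sub_pos.2 (pow_lt_one₀ (norm_nonneg _) hw two_ne_zero)
  rw [C5_k', C5_k_sq, Real.sqrt_sq (by positivity), C5_k, smul_smul]
  have h : 1 / (1 + (1 - ‖w‖ ^ 2) / (1 + ‖w‖ ^ 2)) * (2 / (1 + ‖w‖ ^ 2)) = 1 := by
    field_simp
    ring
  rw [h, one_smul]

theorem C5_k_lt {w : ℂ} (hw : ‖w‖ < 1) : ‖C5_k w‖ < 1 := by
  have h0 : 0 < 1 - ‖w‖ ^ 2 := sub_pos.2 (pow_lt_one₀ (norm_nonneg _) hw two_ne_zero)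
  have h1 : 0 < 1 - ‖C5_k w‖ ^ 2 := by
    rw [C5_k_sq]
    positivity
  exact lt_of_pow_lt_pow_left₀ 2 zero_le_one (by linarith only [h1])

theorem C5_k'_sq {x : ℂ} (hx : ‖x‖ < 1) :
    1 + ‖C5_k' x‖ ^ 2 = 2 * (1 / (1 + Real.sqrt (1 - ‖x‖ ^ 2))) := by
  have h0 : 0 < 1 - ‖x‖ ^ 2 := sub_pos.2 (pow_lt_one₀ (norm_nonneg _) hx two_ne_zero)
  have h1 := Real.sq_sqrt h0.le
  have h2 := Real.sqrt_pos.2 h0
  rw [C5_k', norm_smul, mul_pow, Real.norm_eq_abs, sq_abs]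
  generalize Real.sqrt (1 - ‖x‖ ^ 2) = t at h1 h2
  have h3 : ‖x‖ ^ 2 = 1 - t ^ 2 := by linarith only [h1]
  rw [h3]
  field_simp
  ring

theorem C5_k'_lt {x : ℂ} (hx : ‖x‖ < 1) : ‖C5_k' x‖ < 1 := by
  have h0 : 0 < 1 - ‖x‖ ^ 2 := sub_pos.2 (pow_lt_one₀ (norm_nonneg _) hx two_ne_zero)
  have h2 := Real.sqrt_pos.2 h0
  have h3 := C5_k'_sq hx
  have h4 : 1 / (1 + Real.sqrt (1 - ‖x‖ ^ 2)) < 1 := by
    rw [div_lt_one (by positivity)]
    linarith only [h2]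
  exact lt_of_pow_lt_pow_left₀ 2 zero_le_one (by linarith only [h3, h4])

theorem C5_re (b x : ℂ) (t : ℝ) : (b * t • x).re = t * (b * x).re := by
  rw [mul_smul_comm, Complex.smul_re, smul_eq_mul]

theorem klein {F g : ℂ → ℂ} {V : Set ℂ} (cov : IsCoveringMapOn F Vᶜ) {ι : Type} (I : Finset ι)
    (A : ι → ℝ) (b : ι → ℂ) {O : Set ℂ}
    (hO : O = {w | ‖w‖ < 1 ∧ ∀ j ∈ I, A j * (1 + ‖w‖ ^ 2) < (b j * w).re})
    (hg : ContinuousOn g O) (hV : ∀ w ∈ O, g w ∉ V) {w₀ z₀ : ℂ} (hw : w₀ ∈ O) (hz : F z₀ = g w₀) :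
    ∃ s : ℂ → ℂ, ContinuousOn s O ∧ s w₀ = z₀ ∧ ∀ w ∈ O, F (s w) = g w := by
  obtain ⟨Q, hQ⟩ : ∃ Q : Set ℂ, Q = ball 0 1 ∩ ⋂ j ∈ I, {x | 2 * A j < (b j * x).re} := ⟨_, rfl⟩
  have mQ : ∀ x, x ∈ Q ↔ ‖x‖ < 1 ∧ ∀ j ∈ I, 2 * A j < (b j * x).re := fun x => by
    rw [hQ, mem_inter_iff, mem_ball_zero_iff, mem_iInter₂]
    rfl
  have cQ : Convex ℝ Q := by
    rw [hQ]
    refine (convex_ball _ _).inter (convex_iInter₂ fun j _ => convex_halfSpace_gt ⟨?_, ?_⟩ _)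
    · intro x y
      rw [mul_add, Complex.add_re]
    · intro t x
      exact C5_re _ _ _
  have oQ : IsOpen Q := by
    rw [hQ]
    exact isOpen_ball.inter (isOpen_biInter_finset fun j _ =>
      isOpen_lt continuous_const (by fun_prop))
  have m1 : MapsTo C5_k O Q := fun w hw => by
    rw [hO] at hw
    refine (mQ _).2 ⟨C5_k_lt hw.1, fun j hj => ?_⟩
    have h := hw.2 j hj
    rw [C5_k, C5_re, div_mul_eq_mul_div, lt_div_iff₀ (by positivity)]
    linarith only [h]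
  have m2 : MapsTo C5_k' Q O := fun x hx => by
    obtain ⟨h1, h2⟩ := (mQ _).1 hx
    rw [hO]
    refine ⟨C5_k'_lt h1, fun j hj => ?_⟩
    have h3 : 0 < 1 / (1 + Real.sqrt (1 - ‖x‖ ^ 2)) := by positivity
    rw [C5_k'_sq h1, C5_k', C5_re]
    have h4 := mul_lt_mul_of_pos_left (h2 j hj) h3
    linarith only [h4]
  have lt : ∀ w ∈ O, ‖w‖ < 1 := fun w hw => by
    rw [hO] at hw
    exact hw.1
  have := cQ.contractibleSpace ⟨_, m1 hw⟩
  have := oQ.locallyPathConnectedSpace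
  have hc : ContinuousOn (g ∘ C5_k') Q := hg.comp C5_k'_cont.continuousOn m2
  obtain ⟨f, ⟨h0, hf⟩, -⟩ := cov.existsUnique_continuousMap_lifts
    ⟨Q.domRestrict (g ∘ C5_k'), continuousOn_iff_continuous_domRestrict.1 hc⟩
    (a₀ := ⟨C5_k w₀, m1 hw⟩) (e₀ := z₀)
    (hz.trans (congrArg g (C5_kk (lt _ hw)).symm)) fun a => hV _ (m2 a.2)
  classical
  obtain ⟨g', hg'⟩ : ∃ g' : ℂ → ℂ, ∀ u : Q, g' u = f u :=
    ⟨fun u => if h : u ∈ Q then f ⟨u, h⟩ else 0, fun u => dif_pos u.2⟩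
  have h2 : ContinuousOn g' Q := continuousOn_iff_continuous_domRestrict.2
    ((map_continuous f).congr fun u => (hg' u).symm)
  refine ⟨g' ∘ C5_k, h2.comp C5_k_cont.continuousOn m1, (hg' ⟨_, m1 hw⟩).trans h0, fun w h => ?_⟩
  exact ((congrArg F (hg' ⟨_, m1 h⟩)).trans (congrFun hf ⟨_, m1 h⟩)).trans
    (congrArg g (C5_kk (lt _ h)))

theorem C5_den {c w : ℂ} (hc : ‖c‖ < 1) (hw : ‖w‖ ≤ 1) : 1 - starRingEnd ℂ c * w ≠ 0 := by
  refine sub_ne_zero.2 fun h => ?_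
  have h1 := congrArg norm h
  rw [norm_mul, Complex.norm_conj, norm_one] at h1
  exact (mul_lt_one_of_nonneg_of_lt_one_left (norm_nonneg c) hc hw).ne h1.symm

theorem C5_id (c w : ℂ) :
    ‖1 - starRingEnd ℂ c * w‖ ^ 2 - ‖w - c‖ ^ 2 = (1 - ‖c‖ ^ 2) * (1 - ‖w‖ ^ 2) := by
  simp only [Complex.sq_norm, Complex.normSq_apply, Complex.sub_re, Complex.sub_im,
    Complex.mul_re, Complex.mul_im, Complex.one_re, Complex.one_im, Complex.conj_re,
    Complex.conj_im]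
  ring

theorem moeb_lin {a : ℂ} (ha : ‖a‖ < 1) (ξ : ℂ) : ∃ (A : ℝ) (b : ℂ), ∀ w : ℂ, ‖w‖ ≤ 1 →
    (1 + ‖RM2_m a w‖ ^ 2 < 5 * dot ξ (RM2_m a w) ↔ A * (1 + ‖w‖ ^ 2) < (b * w).re) := by
  refine ⟨1 + ‖a‖ ^ 2 + 5 * (starRingEnd ℂ ξ * a).re,
    4 * starRingEnd ℂ a + 5 * (starRingEnd ℂ ξ + ξ * (starRingEnd ℂ a * starRingEnd ℂ a)),
    fun w hw => ?_⟩
  have hN : 0 < Complex.normSq (1 - starRingEnd ℂ a * w) := Complex.normSq_pos.2 (C5_den ha hw)
  have e1 : dot ξ (RM2_m a w) * Complex.normSq (1 - starRingEnd ℂ a * w) =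
      dot ξ ((w - a) * starRingEnd ℂ (1 - starRingEnd ℂ a * w)) := by
    rw [RM2_m]
    generalize 1 - starRingEnd ℂ a * w = D at hN
    generalize w - a = u
    simp only [dot, Complex.div_re, Complex.div_im, Complex.mul_re, Complex.mul_im,
      Complex.conj_re, Complex.conj_im]
    field_simp
    ring
  have e2 : ‖RM2_m a w‖ ^ 2 * Complex.normSq (1 - starRingEnd ℂ a * w) =
      Complex.normSq (w - a) := by
    rw [RM2_m, Complex.sq_norm, map_div₀, div_mul_cancel₀ _ hN.ne']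
  have e3 : (5 * dot ξ (RM2_m a w) - (1 + ‖RM2_m a w‖ ^ 2)) *
      Complex.normSq (1 - starRingEnd ℂ a * w) =
      ((4 * starRingEnd ℂ a + 5 * (starRingEnd ℂ ξ + ξ * (starRingEnd ℂ a * starRingEnd ℂ a))) *
        w).re - (1 + ‖a‖ ^ 2 + 5 * (starRingEnd ℂ ξ * a).re) * (1 + ‖w‖ ^ 2) := by
    rw [sub_mul, mul_assoc, e1, add_mul, e2]
    simp only [dot, Complex.sq_norm, Complex.normSq_apply, Complex.sub_re, Complex.sub_im,
      Complex.add_re, Complex.add_im, Complex.mul_re, Complex.mul_im, Complex.one_re,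
      Complex.one_im, Complex.conj_re, Complex.conj_im, Complex.re_ofNat, Complex.im_ofNat]
    ring
  rw [← sub_pos, ← mul_pos_iff_of_pos_right hN, e3, sub_pos]

theorem moeb_norm {a w : ℂ} (ha : ‖a‖ < 1) (hw : ‖w‖ = 1) : ‖RM2_m a w‖ = 1 := by
  have h := C5_id a w
  rw [hw, one_pow, sub_self, mul_zero, sub_eq_zero] at h
  rw [RM2_m, norm_div, div_eq_one_iff_eq (norm_ne_zero_iff.2 (C5_den ha hw.le))]
  exact ((pow_left_inj₀ (norm_nonneg _) (norm_nonneg _) two_ne_zero).1 h).symm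

theorem moeb_le {a w : ℂ} (ha : ‖a‖ < 1) (hw : ‖w‖ ≤ 1) : ‖RM2_m a w‖ ≤ 1 :=
  hw.lt_or_eq.elim (fun h => (RM2_lt ha h).le) fun h => (moeb_norm ha h).le

theorem moeb_inj {a : ℂ} (ha : ‖a‖ < 1) : InjOn (RM2_m a) (closedBall 0 1) := by
  intro w hw w' hw' h
  rw [RM2_m, RM2_m, div_eq_div_iff (C5_den ha (mem_closedBall_zero_iff.1 hw))
    (C5_den ha (mem_closedBall_zero_iff.1 hw'))] at h
  exact mul_right_cancel₀ (RM2_den ha ha) (by linear_combination h)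

theorem moeb_cont {a : ℂ} (ha : ‖a‖ < 1) : ContinuousOn (RM2_m a) (closedBall 0 1) :=
  ContinuousOn.div (f := fun w => w - a) (g := fun w => 1 - starRingEnd ℂ a * w) (by fun_prop)
    (by fun_prop) fun w hw => C5_den ha (mem_closedBall_zero_iff.1 hw)

theorem C5_lip (ξ : ℂ) : LipschitzWith (2 * ‖ξ‖₊) fun w => clamp (2 * dot ξ w - 1) := by
  have h : LipschitzWith (2 * ‖ξ‖₊) fun w => 2 * dot ξ w - 1 := by
    refine LipschitzWith.of_dist_le_mul fun w w' => ?_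
    have e : 2 * dot ξ w - 1 - (2 * dot ξ w' - 1) = 2 * dot ξ (w - w') := by
      simp only [dot, Complex.sub_re, Complex.sub_im]
      ring
    have h1 := abs_dot_le ξ (w - w')
    rw [Real.dist_eq, e, abs_mul, abs_two, dist_eq_norm]
    push_cast
    linarith only [h1]
  have h2 := lipschitz_clamp.comp h
  rw [one_mul] at h2
  exact h2

namespace Cf

variable (C : Cf) {z : ℂ}

theorem exists_theta {a ξ : ℂ} (ha : ‖a‖ < 1) (hξ : ‖ξ‖ ^ 2 = 2) :
    ∃ Θ : ℂ → ℝ, IsV C.U C.Ub Θ ∧ En C.U Θ ≤ ENNReal.ofReal (8 * Real.pi) ∧ (∀ z, 0 ≤ Θ z) ∧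
      (∀ z, 1 ≤ dot ξ (RM2_m a (C.ψi z)) → Θ z = 1) ∧
      ∀ z, Θ z ≠ 0 → 1 / 2 ≤ dot ξ (RM2_m a (C.ψi z)) := by
  have hd : DifferentiableOn ℂ (fun z => RM2_m a (C.ψi z)) C.U := fun z hz =>
    ((RM2_der ha (C.ψi_U hz)).differentiableAt.comp z
      (C.ψi_diff.differentiableAt (C.isOpen_ψ.mem_nhds (C.Ub_sub (C.U_sub hz))))).differentiableWithinAt
  have hc : ContinuousOn (fun z => RM2_m a (C.ψi z)) C.Ub :=
    (moeb_cont ha).comp (C.ψi_diff.continuousOn.mono C.Ub_sub) fun z hz =>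
      mem_closedBall_zero_iff.2 (C.ψi_Ub hz)
  have hL := C5_lip ξ
  have e1 : En C.U (fun z => clamp (2 * dot ξ (RM2_m a (C.ψi z)) - 1)) ≤
      (1 : ℕ) * En (ball 0 1) fun w => clamp (2 * dot ξ w - 1) := by
    refine En_comp_le (f := fun w => clamp (2 * dot ξ w - 1)) C.isOpen_U hd (mapsTo_univ _ _)
      (LL.of_lip hL univ) C.isOpen_U.measurableSet Subset.rfl measurableSet_ball
      (fun z hz => mem_ball_zero_iff.2 (RM2_lt ha (C.ψi_U hz))) fun w => ?_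
    rw [Nat.cast_one, encard_le_one_iff]
    intro z z' hz hz'
    have h := RM2_inj ha (C.ψi_U hz.1) (C.ψi_U hz'.1) (hz.2.trans hz'.2.symm)
    rw [← C.ψ_ψi (C.U_sub hz.1), h, C.ψ_ψi (C.U_sub hz'.1)]
  have e2 : En (ball 0 1) (fun w => clamp (2 * dot ξ w - 1)) ≤
      ENNReal.ofReal ((2 * ‖ξ‖) ^ 2) * volume (ball (0 : ℂ) 1) :=
    En_le_of_bound measurableSet_ball
      (fun z _ _ => (norm_gr_le hL.lipschitzOnWith univ_mem).trans (by push_cast; rfl))
      (fun z h h' => absurd h h') measurableSet_ball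
  have e3 : En C.U (fun z => clamp (2 * dot ξ (RM2_m a (C.ψi z)) - 1)) ≤
      ENNReal.ofReal (8 * Real.pi) := by
    rw [Nat.cast_one, one_mul] at e1
    refine e1.trans (e2.trans (le_of_eq ?_))
    rw [Complex.volume_ball, ENNReal.ofReal_one, one_pow, one_mul, mul_pow, hξ,
      ENNReal.ofReal_mul (p := 8) (by norm_num), ← NNReal.coe_real_pi, ENNReal.ofReal_coe_nnreal]
    norm_num
  refine ⟨fun z => clamp (2 * dot ξ (RM2_m a (C.ψi z)) - 1),
    ⟨hL.continuous.comp_continuousOn hc, (LL.of_diff C.isOpen_U hd).lip_comp hL,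
      (e3.trans_lt ENNReal.ofReal_lt_top).ne⟩, e3, fun z => (clamp_mem _).1,
    fun z hz => clamp_one (by linarith only [hz]), fun z hz => ?_⟩
  by_contra h
  exact hz (clamp_zero (by linarith only [h, not_le.1 h]))

end Cf

end Pool.Agent.Work.MP_042f46_an.Ty
end
end

-- merged part: Pool.Agent.Work.MP_042f46_an.T.B8
section
/-!
# From forms to measures

Plans.  For closed `A` let `app A n x = clamp (1 - (n + 1) infDist x A)` if `A` is nonempty (zero otherwise), or use `thickenedIndicator` (`lipschitzWith_thickenedIndicator`): Lipschitz, values in `[0, 1]`, zero at distance `≥ 1 / (n + 1)` from `A`, tending pointwise to the indicator of `A`.  `tend_rect`: dominated convergence, dominated by the indicator of `X`.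
`ext_rect`: finite measures that agree on the products of closed sets agree (`ext_of_generate_finite`, `isPiSystem_isClosed`, `borel_eq_generateFrom_isClosed`, `generateFrom_prod_eq`, `IsPiSystem.prod`).  `ext_off`: cover `{r ≤ dist}` by finitely many products of closed balls of radius `r / 4` whose centres are at distance `≥ 3 r / 4` (`cover`); on each product the restrictions agree by `ext_rect`; disjointify, or use `Measure.restrict_biUnion_finset_congr` or `ext_iff_of_biUnion_eq_univ`.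
`toKit`: `h`, `b` from `exists_meas`.  Symmetry, marginals (`marg`: the two images under `Prod.fst` agree on closed sets), `E1` (`ext_off` for `H + h.map τ` and `H.map τ + b.map τ`, `τ p = (p.1 + α, p.2 + α)`, `sh α X = τ ⁻¹' X`), `psd` and `le` first for closed sets, then for measurable sets by inner regularity of the first marginal of `h` (`MeasurableSet.exists_isClosed_diff_lt` or `exists_isCompact_diff_lt`); two disjoint closed sets are at positive distance.  `marks`: enlarge a mark-free `Icc a a'` to a mark-free `Icc (a - δ) (a' + δ)` (the real numbers whose class is a mark form a closed set; the case `a' < a` is empty) and use `app (arc a a') n` with `1 / (n + 1) ≤ δ`.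
-/

open Set Metric Topology Filter MeasureTheory
open scoped ENNReal NNReal

noncomputable section
namespace Pool.Agent.Work.MP_042f46_an.Ty

theorem B8_off {A B : Set T} (hA : IsClosed A) (hB : IsClosed B) (h : Disjoint A B) :
    Off (A ×ˢ B) := by
  obtain ⟨r, hr, h1⟩ := Metric.exists_pos_forall_lt_edist hA.isCompact hB h
  refine ⟨r, hr, fun p hp => ?_⟩
  have := (h1 _ hp.1 _ hp.2).le
  rwa [edist_nndist, ENNReal.coe_le_coe] at this

theorem B8_zero {A : Set T} (hA : IsClosed A) {u : ℕ → LipT}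
    (hu₀ : ∀ n x, (u n).1 x ≠ 0 → ∃ y ∈ A, dist x y < 1 / ((n : ℝ) + 1)) {x : T} (hx : x ∉ A) :
    ∀ᶠ n in atTop, (u n).1 x = 0 := by
  obtain ⟨ε, hε, h⟩ := Metric.isOpen_iff.1 hA.isOpen_compl x hx
  filter_upwards [(tendsto_one_div_add_atTop_nhds_zero_nat (𝕜 := ℝ)).eventually
    (gt_mem_nhds hε)] with n hn
  by_contra e
  obtain ⟨y, hy, hd⟩ := hu₀ n x e
  exact h (mem_ball'.2 (hd.trans hn)) hy

theorem exists_app {A : Set T} (hA : IsClosed A) : ∃ u : ℕ → LipT,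
    (∀ n x, (u n).1 x ∈ Icc (0 : ℝ) 1) ∧ (∀ n, ∀ x ∈ A, (u n).1 x = 1) ∧
      (∀ n x, (u n).1 x ≠ 0 → ∃ y ∈ A, dist x y < 1 / ((n : ℝ) + 1)) := by
  have hp : ∀ n : ℕ, (0 : ℝ) < 1 / ((n : ℝ) + 1) := fun n => Nat.one_div_pos_of_nat
  refine ⟨fun n => ⟨fun x => (thickenedIndicator (hp n) A x : ℝ), _,
    NNReal.isometry_coe.lipschitz.comp (lipschitzWith_thickenedIndicator (hp n) A)⟩,
    fun n x => ⟨NNReal.coe_nonneg _, ?_⟩, fun n x hx => ?_, fun n x hx => ?_⟩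
  · exact_mod_cast thickenedIndicator_le_one (hp n) A x
  · exact congrArg NNReal.toReal (thickenedIndicator_one (hp n) A hx)
  · refine mem_thickening_iff.1 ?_
    by_contra e
    exact hx (congrArg NNReal.toReal (thickenedIndicator_zero (hp n) A e))

theorem tend_rect (μ : Measure (T × T)) {A B : Set T} (hA : IsClosed A) (hB : IsClosed B)
    {u v : ℕ → LipT} (hu : ∀ n x, (u n).1 x ∈ Icc (0 : ℝ) 1) (hu₁ : ∀ n, ∀ x ∈ A, (u n).1 x = 1)
    (hu₀ : ∀ n x, (u n).1 x ≠ 0 → ∃ y ∈ A, dist x y < 1 / ((n : ℝ) + 1))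
    (hv : ∀ n x, (v n).1 x ∈ Icc (0 : ℝ) 1) (hv₁ : ∀ n, ∀ x ∈ B, (v n).1 x = 1)
    (hv₀ : ∀ n x, (v n).1 x ≠ 0 → ∃ y ∈ B, dist x y < 1 / ((n : ℝ) + 1))
    {X : Set (T × T)} (hX : MeasurableSet X) (hμ : μ X ≠ ∞)
    (hs : ∀ᶠ n in atTop, ∀ p : T × T, (u n).1 p.1 ≠ 0 → (v n).1 p.2 ≠ 0 → p ∈ X) :
    Tendsto (fun n => ∫ p, (u n).1 p.1 * (v n).1 p.2 ∂μ) atTop (𝓝 (μ.real (A ×ˢ B))) := by
  rw [← integral_indicator_one (hA.measurableSet.prod hB.measurableSet)]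
  refine tendsto_integral_filter_of_dominated_convergence (X.indicator 1)
    (Eventually.of_forall fun n => ?_) ?_ ?_ (ae_of_all _ fun p => ?_)
  · obtain ⟨K, hK⟩ := (u n).2
    obtain ⟨K', hK'⟩ := (v n).2
    exact ((hK.continuous.comp continuous_fst).mul
      (hK'.continuous.comp continuous_snd)).aestronglyMeasurable
  · filter_upwards [hs] with n hn
    refine ae_of_all _ fun p => ?_
    by_cases hp : p ∈ X
    · rw [indicator_of_mem hp, Real.norm_of_nonneg (mul_nonneg (hu n _).1 (hv n _).1)]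
      exact mul_le_one₀ (hu n _).2 (hv n _).1 (hv n _).2
    · rw [indicator_of_notMem hp]
      by_cases e : (u n).1 p.1 = 0
      · simp [e]
      · by_cases e' : (v n).1 p.2 = 0
        · simp [e']
        · exact absurd (hn p e e') hp
  · exact (integrable_indicator_iff hX).2 (integrableOn_const hμ)
  · by_cases hp : p ∈ A ×ˢ B
    · rw [indicator_of_mem hp]
      simp only [hu₁ _ _ hp.1, hv₁ _ _ hp.2, mul_one, Pi.one_apply]
      exact tendsto_const_nhds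
    · rw [indicator_of_notMem hp]
      refine tendsto_const_nhds.congr' ?_
      by_cases e : p.1 ∈ A
      · filter_upwards [B8_zero hB hv₀ fun e' => hp ⟨e, e'⟩] with n hn
        rw [hn, mul_zero]
      · filter_upwards [B8_zero hA hu₀ e] with n hn
        rw [hn, zero_mul]

theorem ext_rect {μ ν : Measure (T × T)} [IsFiniteMeasure μ]
    (h : ∀ A B : Set T, IsClosed A → IsClosed B → μ (A ×ˢ B) = ν (A ×ˢ B)) : μ = ν := by
  have e : MeasurableSpace.generateFrom {A : Set T | IsClosed A} = (inferInstance :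
      MeasurableSpace T) := borel_eq_generateFrom_isClosed.symm.trans BorelSpace.measurable_eq.symm
  have c : IsCountablySpanning {A : Set T | IsClosed A} :=
    ⟨fun _ => univ, fun _ => isClosed_univ, iUnion_const _⟩
  refine ext_of_generate_finite _ (generateFrom_eq_prod e e c c).symm
    (isPiSystem_isClosed.prod isPiSystem_isClosed) ?_ ?_
  · rintro _ ⟨A, hA, B, hB, rfl⟩
    exact h A B hA hB
  · rw [← univ_prod_univ]
    exact h _ _ isClosed_univ isClosed_univ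

theorem ext_off {μ ν : Measure (T × T)} (hμ : ∀ X, Off X → μ X ≠ ∞)
    (h : ∀ A B : Set T, IsClosed A → IsClosed B → Disjoint A B → μ (A ×ˢ B) = ν (A ×ˢ B))
    {X : Set (T × T)} (hX : MeasurableSet X) (ho : Off X) : μ X = ν X := by
  obtain ⟨r, hr, hX'⟩ := ho
  let c := TopologicalSpace.denseSeq T
  let R : {q : ℕ × ℕ // Disjoint (closedBall (c q.1) (r / 4)) (closedBall (c q.2) (r / 4))} →
      Set (T × T) := fun q => closedBall (c q.1.1) (r / 4) ×ˢ closedBall (c q.1.2) (r / 4)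
  have h1 : ∀ q, μ.restrict (R q) = ν.restrict (R q) := by
    intro q
    have : IsFiniteMeasure (μ.restrict (R q)) :=
      isFiniteMeasure_restrict.2 (hμ _ (B8_off isClosed_closedBall isClosed_closedBall q.2))
    refine ext_rect fun A B hA hB => ?_
    have m := hA.measurableSet.prod hB.measurableSet
    rw [Measure.restrict_apply m, Measure.restrict_apply m, prod_inter_prod]
    exact h _ _ (hA.inter isClosed_closedBall) (hB.inter isClosed_closedBall)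
      (q.2.mono inter_subset_right inter_subset_right)
  have h2 : X ⊆ ⋃ q, R q := by
    intro p hp
    obtain ⟨i, hi⟩ := (TopologicalSpace.denseRange_denseSeq T).exists_dist_lt p.1
      (show 0 < r / 4 by linarith only [hr])
    obtain ⟨j, hj⟩ := (TopologicalSpace.denseRange_denseSeq T).exists_dist_lt p.2
      (show 0 < r / 4 by linarith only [hr])
    refine mem_iUnion.2 ⟨⟨(i, j), disjoint_left.2 fun z hz hz' => ?_⟩, hi.le, hj.le⟩
    have a1 := dist_triangle_right p.1 p.2 z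
    have a2 := dist_triangle_right p.1 z (c i)
    have a3 := dist_triangle_right p.2 z (c j)
    have a4 := hX' p hp
    have a5 : dist z (c i) ≤ r / 4 := hz
    have a6 : dist z (c j) ≤ r / 4 := hz'
    linarith only [hi, hj, a1, a2, a3, a4, a5, a6]
  rw [← Measure.restrict_eq_self μ h2, ← Measure.restrict_eq_self ν h2,
    Measure.restrict_iUnion_congr.2 h1]

theorem off_closed {A B : Set T} (hA : IsClosed A) (hB : IsClosed B) (h : Disjoint A B) :
    Off (A ×ˢ B) := B8_off hA hB h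

end Pool.Agent.Work.MP_042f46_an.Ty
end
end

-- merged part: Pool.Agent.Work.MP_042f46_an.T.BC
section
/-!
# From forms to measures

Plans.  For closed `A` let `app A n x = clamp (1 - (n + 1) infDist x A)` if `A` is nonempty (zero otherwise), or use `thickenedIndicator` (`lipschitzWith_thickenedIndicator`): Lipschitz, values in `[0, 1]`, zero at distance `≥ 1 / (n + 1)` from `A`, tending pointwise to the indicator of `A`.  `tend_rect`: dominated convergence, dominated by the indicator of `X`.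
`ext_rect`: finite measures that agree on the products of closed sets agree (`ext_of_generate_finite`, `isPiSystem_isClosed`, `borel_eq_generateFrom_isClosed`, `generateFrom_prod_eq`, `IsPiSystem.prod`).  `ext_off`: cover `{r ≤ dist}` by finitely many products of closed balls of radius `r / 4` whose centres are at distance `≥ 3 r / 4` (`cover`); on each product the restrictions agree by `ext_rect`; disjointify, or use `Measure.restrict_biUnion_finset_congr` or `ext_iff_of_biUnion_eq_univ`.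
`toKit`: `h`, `b` from `exists_meas`.  Symmetry, marginals (`marg`: the two images under `Prod.fst` agree on closed sets), `E1` (`ext_off` for `H + h.map τ` and `H.map τ + b.map τ`, `τ p = (p.1 + α, p.2 + α)`, `sh α X = τ ⁻¹' X`), `psd` and `le` first for closed sets, then for measurable sets by inner regularity of the first marginal of `h` (`MeasurableSet.exists_isClosed_diff_lt` or `exists_isCompact_diff_lt`); two disjoint closed sets are at positive distance.  `marks`: enlarge a mark-free `Icc a a'` to a mark-free `Icc (a - δ) (a' + δ)` (the real numbers whose class is a mark form a closed set; the case `a' < a` is empty) and use `app (arc a a') n` with `1 / (n + 1) ≤ δ`.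
-/

open Set Metric Topology Filter MeasureTheory
open scoped ENNReal NNReal

noncomputable section
namespace Pool.Agent.Work.MP_042f46_an.Ty

/-- Lipschitz approximation of the indicator of `A` -/
def BC_App (A : Set T) (u : ℕ → LipT) : Prop :=
  (∀ n x, (u n).1 x ∈ Icc (0 : ℝ) 1) ∧ (∀ n, ∀ x ∈ A, (u n).1 x = 1) ∧
    ∀ n x, (u n).1 x ≠ 0 → ∃ y ∈ A, dist x y < 1 / ((n : ℝ) + 1)

theorem BC_small {r : ℝ} (hr : 0 < r) : ∀ᶠ n : ℕ in atTop, 1 / ((n : ℝ) + 1) ≤ r :=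
  (tendsto_one_div_add_atTop_nhds_zero_nat (𝕜 := ℝ)).eventually (eventually_le_nhds hr)

theorem BC_one : BC_App univ fun _ => oneT :=
  ⟨fun _ _ => ⟨zero_le_one, le_rfl⟩, fun _ _ _ => rfl, fun n x _ =>
    ⟨x, mem_univ _, by rw [dist_self]; positivity⟩⟩

theorem BC_fin {μ : Measure (T × T)} [IsFiniteMeasure μ] {β : LipT →ₗ[ℝ] LipT →ₗ[ℝ] ℝ}
    (e : ∀ u v : LipT, ∫ p, u.1 p.1 * v.1 p.2 ∂μ = β u v) {A B : Set T} (hA : IsClosed A)
    (hB : IsClosed B) {u v : ℕ → LipT} (hu : BC_App A u) (hv : BC_App B v) :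
    Tendsto (fun n => β (u n) (v n)) atTop (𝓝 (μ.real (A ×ˢ B))) := by
  simpa only [e] using tend_rect μ hA hB hu.1 hu.2.1 hu.2.2 hv.1 hv.2.1 hv.2.2 MeasurableSet.univ
    (measure_ne_top _ _) (Eventually.of_forall fun _ _ _ _ => mem_univ _)

theorem BC_apart {A B : Set T} (hA : IsClosed A) (hB : IsClosed B) (hd : Disjoint A B)
    {u v : ℕ → LipT} (hu : BC_App A u) (hv : BC_App B v) :
    ∃ r > 0, ∀ᶠ n in atTop, ∀ x y, (u n).1 x ≠ 0 → (v n).1 y ≠ 0 → r ≤ dist x y := by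
  obtain ⟨r, hr, h⟩ := off_closed hA hB hd
  refine ⟨r / 2, by positivity, ?_⟩
  filter_upwards [BC_small (show 0 < r / 4 by positivity)] with n hn x y hx hy
  obtain ⟨x', h1, h2⟩ := hu.2.2 n x hx
  obtain ⟨y', h3, h4⟩ := hv.2.2 n y hy
  have h5 : r ≤ dist x' y' := h (x', y') ⟨h1, h3⟩
  have h6 := dist_triangle4 x' x y y'
  rw [dist_comm x' x] at h6
  linarith only [hn, h2, h4, h5, h6]

theorem BC_off {H : Measure (T × T)} (hH : FinB H) {A B : Set T} (hA : IsClosed A)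
    (hB : IsClosed B) (hd : Disjoint A B) {u v : ℕ → LipT} (hu : BC_App A u) (hv : BC_App B v) :
    Tendsto (fun n => ∫ p, (u n).1 p.1 * (v n).1 p.2 ∂H) atTop (𝓝 (H.real (A ×ˢ B))) := by
  obtain ⟨r, hr, h⟩ := BC_apart hA hB hd hu hv
  refine tend_rect H hA hB hu.1 hu.2.1 hu.2.2 hv.1 hv.2.1 hv.2.2
    (X := {p | r ≤ dist p.1 p.2}) (isClosed_le continuous_const (by fun_prop)).measurableSet
    (off_fin hH ⟨r, hr, fun _ hp => hp⟩) (h.mono fun n hn p => hn p.1 p.2)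

/-- translate of a Lipschitz function -/
def BC_tr (a : T) (u : LipT) : LipT :=
  ⟨fun x => u.1 (x - a), u.2.elim fun K h => ⟨K, LipschitzWith.of_dist_le_mul fun x y => by
    simpa only [dist_sub_right] using h.dist_le_mul (x - a) (y - a)⟩⟩

theorem BC_App.tr {A : Set T} {a : T} {u : ℕ → LipT} (hu : BC_App {x | x + a ∈ A} u) :
    BC_App A fun n => BC_tr a (u n) := by
  refine ⟨fun n x => hu.1 n _, fun n x hx => hu.2.1 n _ (by simpa using hx), fun n x hx => ?_⟩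
  obtain ⟨y, h1, h2⟩ := hu.2.2 n _ hx
  refine ⟨y + a, h1, ?_⟩
  rwa [← dist_sub_right x (y + a) a, add_sub_cancel_right]

theorem BC_inner {h : Measure (T × T)} [IsFiniteMeasure h] (hs : h.map Prod.swap = h)
    {A B : Set T} (hA : MeasurableSet A) (hB : MeasurableSet B) {c : ℝ≥0∞}
    (k : ∀ A₀ ⊆ A, ∀ B₀ ⊆ B, IsClosed A₀ → IsClosed B₀ → h (A₀ ×ˢ B₀) ≤ c) : h (A ×ˢ B) ≤ c := by
  refine ENNReal.le_of_forall_pos_le_add fun ε hε _ => ?_
  have h2 : (ε : ℝ≥0∞) / 2 ≠ 0 := (ENNReal.half_pos (ENNReal.coe_pos.2 hε).ne').ne'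
  obtain ⟨A₀, a1, a2, a3⟩ := hA.exists_isClosed_sdiff_lt (μ := h.map Prod.fst)
    (measure_ne_top _ _) h2
  obtain ⟨B₀, b1, b2, b3⟩ := hB.exists_isClosed_sdiff_lt (μ := h.map Prod.fst)
    (measure_ne_top _ _) h2
  have mA := hA.diff a2.measurableSet
  have mB := hB.diff b2.measurableSet
  rw [Measure.map_apply measurable_fst mA, ← prod_univ] at a3
  rw [Measure.map_apply measurable_fst mB, ← prod_univ, swap_prod hs mB MeasurableSet.univ] at b3
  have sub : A ×ˢ B ⊆ A₀ ×ˢ B₀ ∪ ((A \ A₀) ×ˢ univ ∪ univ ×ˢ (B \ B₀)) := fun p hp => by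
    by_cases q1 : p.1 ∈ A₀
    · by_cases q2 : p.2 ∈ B₀
      · exact Or.inl ⟨q1, q2⟩
      · exact Or.inr (Or.inr ⟨mem_univ _, hp.2, q2⟩)
    · exact Or.inr (Or.inl ⟨⟨hp.1, q1⟩, mem_univ _⟩)
  refine (measure_mono sub).trans ((measure_union_le _ _).trans ?_)
  refine add_le_add (k A₀ a1 B₀ b1 a2 b2) ((measure_union_le _ _).trans ?_)
  exact (add_le_add a3.le b3.le).trans (ENNReal.add_halves _).le

theorem FK.toKit {α : ℝ} {N : ℕ} (F : FK α N) : ∃ K : Kit α N, K.H = F.H := by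
  obtain ⟨h, hfin, eh⟩ := exists_meas F.hf F.h_pos
  obtain ⟨b, bfin, eb⟩ := exists_meas F.bf F.b_pos
  have hs : h.map Prod.swap = h := ext_rect fun A B hA hB => by
    obtain ⟨u, hu⟩ := exists_app hA
    obtain ⟨v, hv⟩ := exists_app hB
    rw [Measure.map_apply measurable_swap (hA.measurableSet.prod hB.measurableSet),
      preimage_swap_prod, ← ENNReal.toReal_eq_toReal_iff' (measure_ne_top _ _) (measure_ne_top _ _)]
    have t1 := BC_fin eh hA hB hu hv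
    have t2 := BC_fin eh hB hA hv hu
    exact tendsto_nhds_unique t2 (t1.congr fun n => F.h_symm _ _)
  refine ⟨⟨F.H, h, b, F.M, F.M_ne, F.M_card, hfin, bfin, F.H_symm, hs, F.line, ?_, ?_, ?_, ?_,
    F.dual, ?_, F.pull, F.fin⟩, rfl⟩
  · intro X hX ho
    have mτ : Measurable fun p : T × T => (p.1 + (α : T), p.2 + (α : T)) := by fun_prop
    have key := ext_off (μ := F.H + h.map fun p : T × T => (p.1 + (α : T), p.2 + (α : T)))
      (ν := (F.H.map fun p : T × T => (p.1 + (α : T), p.2 + (α : T))) +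
        b.map fun p : T × T => (p.1 + (α : T), p.2 + (α : T)))
      (fun Y hY => by
        rw [Measure.add_apply]
        exact ENNReal.add_ne_top.2 ⟨off_fin F.fin hY, measure_ne_top _ _⟩)
      (fun A B hA hB hd => by
        have m := hA.measurableSet.prod hB.measurableSet
        have e : (fun p : T × T => (p.1 + (α : T), p.2 + (α : T))) ⁻¹' (A ×ˢ B) =
            {x | x + (α : T) ∈ A} ×ˢ {x | x + (α : T) ∈ B} := rfl
        have cA : IsClosed {x | x + (α : T) ∈ A} := hA.preimage (continuous_add_const (α : T))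
        have cB : IsClosed {x | x + (α : T) ∈ B} := hB.preimage (continuous_add_const (α : T))
        have hd' : Disjoint {x | x + (α : T) ∈ A} {x | x + (α : T) ∈ B} :=
          hd.preimage fun x => x + (α : T)
        obtain ⟨u, hu⟩ := exists_app cA
        obtain ⟨v, hv⟩ := exists_app cB
        have t1 := (BC_off F.fin hA hB hd (BC_App.tr hu) (BC_App.tr hv)).add
          (BC_fin eh cA cB hu hv)
        have t2 := (BC_off F.fin cA cB hd' hu hv).add (BC_fin eb cA cB hu hv)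
        obtain ⟨r, hr, ha⟩ := BC_apart cA cB hd' hu hv
        have t3 := tendsto_nhds_unique_of_eventuallyEq t1 t2
          (ha.mono fun n hn => F.E1 (u n) (v n) ⟨r, hr, hn⟩)
        have f1 := off_fin F.fin (off_closed hA hB hd)
        have f2 := off_fin F.fin (off_closed cA cB hd')
        rw [Measure.add_apply, Measure.add_apply, Measure.map_apply mτ m, Measure.map_apply mτ m,
          Measure.map_apply mτ m, e, ← ENNReal.toReal_eq_toReal_iff'
            (ENNReal.add_ne_top.2 ⟨f1, measure_ne_top _ _⟩)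
            (ENNReal.add_ne_top.2 ⟨f2, measure_ne_top _ _⟩),
          ENNReal.toReal_add f1 (measure_ne_top _ _), ENNReal.toReal_add f2 (measure_ne_top _ _)]
        exact t3) hX ho
    rwa [Measure.add_apply, Measure.add_apply, Measure.map_apply mτ hX, Measure.map_apply mτ hX,
      Measure.map_apply mτ hX] at key
  · have k : ∀ A : Set T, IsClosed A → h.map Prod.fst A = b.map Prod.fst A := fun A hA => by
      obtain ⟨u, hu⟩ := exists_app hA
      rw [Measure.map_apply measurable_fst hA.measurableSet,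
        Measure.map_apply measurable_fst hA.measurableSet, ← prod_univ,
        ← ENNReal.toReal_eq_toReal_iff' (measure_ne_top _ _) (measure_ne_top _ _)]
      exact tendsto_nhds_unique ((BC_fin eh hA isClosed_univ hu BC_one).congr fun n => F.marg _)
        (BC_fin eb hA isClosed_univ hu BC_one)
    have e : h.map Prod.fst = b.map Prod.fst :=
      ext_of_generate_finite {A : Set T | IsClosed A}
        (BorelSpace.measurable_eq.trans borel_eq_generateFrom_isClosed) isPiSystem_isClosed k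
        (k _ isClosed_univ)
    intro A hA
    rw [prod_univ, ← Measure.map_apply measurable_fst hA, ← Measure.map_apply measurable_fst hA, e]
  · intro A B hA hB
    rw [mul_comm, ← ENNReal.le_div_iff_mul_le (by simp) (by simp)]
    refine BC_inner hs hA hB fun A₀ a1 B₀ b1 a2 b2 => ?_
    rw [ENNReal.le_div_iff_mul_le (by simp) (by simp)]
    refine le_trans ?_ (add_le_add (measure_mono (prod_mono a1 a1)) (measure_mono (prod_mono b1 b1)))
    obtain ⟨u, hu⟩ := exists_app a2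
    obtain ⟨v, hv⟩ := exists_app b2
    have t := le_of_tendsto_of_tendsto' ((BC_fin eh a2 b2 hu hv).mul_const 2)
      ((BC_fin eh a2 a2 hu hu).add (BC_fin eh b2 b2 hv hv)) fun n => by
        have h1 := F.psd (u n - v n)
        simp only [map_sub, LinearMap.sub_apply] at h1
        linarith only [h1, F.h_symm (u n) (v n)]
    rw [← ENNReal.toReal_le_toReal (ENNReal.mul_ne_top (measure_ne_top _ _) (by simp))
      (ENNReal.add_ne_top.2 ⟨measure_ne_top _ _, measure_ne_top _ _⟩), ENNReal.toReal_mul,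
      ENNReal.toReal_add (measure_ne_top _ _) (measure_ne_top _ _), ENNReal.toReal_ofNat]
    exact t
  · intro A B hA hB hd
    refine BC_inner hs hA hB fun A₀ a1 B₀ b1 a2 b2 => ?_
    refine le_trans ?_ (measure_mono (prod_mono a1 b1))
    have hd' := hd.mono a1 b1
    obtain ⟨u, hu⟩ := exists_app a2
    obtain ⟨v, hv⟩ := exists_app b2
    obtain ⟨r, hr, ha⟩ := BC_apart a2 b2 hd' hu hv
    rw [← ENNReal.toReal_le_toReal (measure_ne_top _ _) (off_fin F.fin (off_closed a2 b2 hd'))]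
    exact le_of_tendsto_of_tendsto (BC_fin eh a2 b2 hu hv) (BC_off F.fin a2 b2 hd' hu hv)
      (ha.mono fun n hn => F.le (u n) (v n) (fun x => (hu.1 n x).1) (fun x => (hv.1 n x).1)
        ⟨r, hr, hn⟩)
  · intro a a' hM
    rcases lt_or_ge a' a with hlt | hle
    · simp [arc, Icc_eq_empty_of_lt hlt]
    have c := (isCompact_arc a a').isClosed
    obtain ⟨δ, hδ, hd⟩ := off_closed c F.M.finite_toSet.isClosed (disjoint_left.2 (by
      rintro _ ⟨s, hs, rfl⟩ hm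
      exact hM s hs hm))
    have hM' : ∀ s ∈ Icc (a - δ / 2) (a' + δ / 2), (s : T) ∉ F.M := fun s hs hm => by
      have m : max a (min s a') ∈ Icc a a' := ⟨le_max_left _ _, max_le hle (min_le_right _ _)⟩
      have h1 : δ ≤ dist ((max a (min s a') : ℝ) : T) (s : T) :=
        hd (((max a (min s a') : ℝ) : T), (s : T)) ⟨⟨_, m, rfl⟩, hm⟩
      have h2 := dist_coe_le (max a (min s a')) s
      have h3 : |max a (min s a') - s| ≤ δ / 2 := by
        rw [abs_le, max_def, min_def]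
        split_ifs <;> constructor <;> linarith [hs.1, hs.2]
      linarith only [hδ, h1, h2, h3]
    obtain ⟨u, hu⟩ := exists_app c
    have t : b.real (arc a a' ×ˢ arc a a') ≤ N := by
      refine le_of_tendsto (BC_fin eb c c hu hu) ?_
      filter_upwards [BC_small (half_pos hδ)] with n hn
      refine F.marks (u n) _ _ (hu.1 n) hM' fun x hx => ?_
      obtain ⟨_, ⟨s, hs, rfl⟩, h2⟩ := hu.2.2 n x hx
      obtain ⟨t, e, h3⟩ := exists_rep (s : T) x
      have h4 := abs_le.1 (h3.le.trans (h2.le.trans hn))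
      exact ⟨s + t, ⟨by linarith only [h4, hs, hs.1, h4.1], by linarith only [h4, hs, hs.2, h4.2]⟩, by
        rw [e, AddCircle.coe_add]⟩
    rw [← ENNReal.toReal_le_toReal (measure_ne_top _ _) (ENNReal.natCast_ne_top N),
      ENNReal.toReal_natCast]
    exact t

end Pool.Agent.Work.MP_042f46_an.Ty
end
end
end

-- merged part: Pool.Agent.Work.MP_042f46_an.T.AD
section
-- merged part: Pool.Agent.Work.MP_042f46_an.T.A3
section
/-!
# Wide rectangles are young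

Plans.  `life`: write `θ = σ.θ (n + 1)`, `q = σ.q (n + 1)`, `c = ↑c'`, `↑(q α) = ↑(ε θ)` with `ε = 1` or `-1` (`ret`, `exists_rep`).  Describe arcs by `t ↦ ↑(c' + ε t)`; `cross` and the symmetry of `H` give the crossing inequality in this coordinate for both signs.  The second coordinates of `X` have `t ∈ [3 θ / 2, 1 - 3 θ / 2] = [s, s']`.  If `s' ≤ s` then `X` is null (`line`).  Let `A` be the arc `[-θ / 2, θ / 2]` and `Y = {y ∈ [s, s') | 1 < H (A × [y, s'])}`.  If `Y` is empty, `H X ≤ 1`.  Otherwise let `y₀ = sSup Y`; `H (A × (y₀, s']) ≤ 1` (increasing union of `A × [y, s']`, `y₀ < y`, and `line` for `y = s'`), and there is `y ∈ Y` with `y₀ - θ ≤ y`; crossing with the points `-3 θ / 2 < -θ / 2 < θ / 2 < y` gives `H ([-3 θ / 2, -θ / 2] × [θ / 2, y]) ≤ 1`, and this set contains `sh (q α) X₁` for `X₁ = X ∩ A × [s, y₀]`; finish with `iter`.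
`births`: `mult`, `sh_SS`, `count` (applied at the point `x + α`).  `life_ball`: `cover` by `ν` balls of radius `θ (n + 1) / 2`, made disjoint with `disjointed`; `life` for each piece, and the `b`-masses of the disjoint pieces add up.  `S1`: `SS_split`, `life_ball` with `ν = 2`; level zero is trivial (`At_zero`).  `zone`: the union is contained in `SS (ball m (4 θ g₀)) (2 θ g₀) 2` together with the classes `SS (ball m (4 θ (j + 1))) (2 θ (j + 1)) (2 θ j)`, `g₀ ≤ j < g` (`cls_find`); `κ_cover`, `cl_le` with `ν = 16`, `J_sum`.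
-/

open Set Metric Topology Filter MeasureTheory
open scoped ENNReal NNReal

noncomputable section
namespace Pool.Agent.Work.MP_042f46_an.Ty

/-- oriented coordinate on the circle -/
def A3_E (c ε t : ℝ) : T := ((c + ε * t : ℝ) : T)

theorem A3_pos (c a b : ℝ) : A3_E c 1 '' Icc a b = arc (c + a) (c + b) := by
  ext x
  constructor
  · rintro ⟨t, ht, rfl⟩
    exact ⟨c + 1 * t, ⟨by linarith only [ht, ht.1], by linarith [ht.2]⟩, rfl⟩
  · rintro ⟨t, ht, rfl⟩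
    refine ⟨t - c, ⟨by linarith [ht.1], by linarith [ht.2]⟩, ?_⟩
    rw [A3_E, show c + 1 * (t - c) = t by ring]

theorem A3_neg (c a b : ℝ) : A3_E c (-1) '' Icc a b = arc (c - b) (c - a) := by
  ext x
  constructor
  · rintro ⟨t, ht, rfl⟩
    exact ⟨c + -1 * t, ⟨by linarith only [ht, ht.2], by linarith only [ht, ht.1]⟩, rfl⟩
  · rintro ⟨t, ht, rfl⟩
    refine ⟨c - t, ⟨by linarith only [ht, ht.2], by linarith only [ht, ht.1]⟩, ?_⟩
    rw [A3_E, show c + -1 * (c - t) = t by ring]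

theorem A3_meas (c : ℝ) {ε : ℝ} (hε : ε = 1 ∨ ε = -1) (a b : ℝ) :
    MeasurableSet (A3_E c ε '' Icc a b) := by
  rcases hε with rfl | rfl
  · rw [A3_pos]
    exact measurableSet_arc _ _
  · rw [A3_neg]
    exact measurableSet_arc _ _

theorem A3_off (c : ℝ) {ε : ℝ} (hε : ε = 1 ∨ ε = -1) {x₁ x₂ x₃ x₄ : ℝ} (h₂ : x₂ < x₃)
    (h₄ : x₄ < x₁ + 1) : Off ((A3_E c ε '' Icc x₁ x₂) ×ˢ (A3_E c ε '' Icc x₃ x₄)) := by
  refine ⟨min (x₃ - x₂) (x₁ + 1 - x₄), lt_min (by linarith only [h₂]) (by linarith), ?_⟩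
  rintro ⟨p, p'⟩ ⟨⟨s, hs, rfl⟩, ⟨t, ht, rfl⟩⟩
  have m₁ := min_le_left (x₃ - x₂) (x₁ + 1 - x₄)
  have m₂ := min_le_right (x₃ - x₂) (x₁ + 1 - x₄)
  have e : |c + ε * s - (c + ε * t)| = t - s := by
    rcases hε with rfl | rfl
    · rw [abs_of_nonpos (by linarith only [h₂, hs, ht, hs.2, ht.1])]
      ring
    · rw [abs_of_nonneg (by linarith only [h₂, hs, ht, hs.2, ht.1])]
      ring
  refine le_dist_coe ?_ ?_
  · rw [e]
    linarith only [m₁, hs, ht, hs.2, ht.1]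
  · rw [e]
    linarith only [m₂, hs, ht, hs.1, ht.2]

theorem A3_per (c : ℝ) {ε : ℝ} (hε : ε = 1 ∨ ε = -1) (t : ℝ) : A3_E c ε (t + 1) = A3_E c ε t := by
  rcases hε with rfl | rfl
  · rw [A3_E, A3_E, show c + 1 * (t + 1) = c + 1 * t + 1 by ring, coe_add_one]
  · rw [A3_E, A3_E, show c + -1 * t = c + -1 * (t + 1) + 1 by ring, coe_add_one]

theorem A3_rep (c : ℝ) {ε : ℝ} (hε : ε = 1 ∨ ε = -1) (y : T) :
    ∃ u : ℝ, y = A3_E c ε u ∧ |u| = dist y (c : T) := by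
  obtain ⟨t, ht, ht'⟩ := exists_rep (c : T) y
  rcases hε with rfl | rfl
  · refine ⟨t, ?_, ht'⟩
    rw [A3_E, one_mul, AddCircle.coe_add, ← ht]
  · refine ⟨-t, ?_, by rw [abs_neg, ht']⟩
    rw [A3_E, show c + -1 * -t = c + t by ring, AddCircle.coe_add, ← ht]

theorem A3_ball (c : ℝ) {ε : ℝ} (hε : ε = 1 ∨ ε = -1) (r : ℝ) :
    ball (c : T) r ⊆ A3_E c ε '' Icc (-r) r := by
  intro y hy
  obtain ⟨u, hu, hu'⟩ := A3_rep c hε y
  have h := mem_ball.mp hy
  rw [← hu'] at h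
  exact ⟨u, ⟨(abs_lt.mp h).1.le, (abs_lt.mp h).2.le⟩, hu.symm⟩

theorem A3_far (c : ℝ) {ε : ℝ} (hε : ε = 1 ∨ ε = -1) {s : ℝ} {y : T} (hy : s ≤ dist y (c : T)) :
    y ∈ A3_E c ε '' Icc s (1 - s) := by
  obtain ⟨u, hu, hu'⟩ := A3_rep c hε y
  have h := dist_le_half y (c : T)
  rw [← hu'] at h hy
  rcases le_total 0 u with h0 | h0
  · rw [abs_of_nonneg h0] at h hy
    exact ⟨u, ⟨hy, by linarith only [hy, h]⟩, hu.symm⟩
  · rw [abs_of_nonpos h0] at h hy
    exact ⟨u + 1, ⟨by linarith only [hy, h], by linarith only [hy]⟩, by rw [A3_per c hε, hu]⟩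

theorem A3_shift (c ε θ : ℝ) {a b : ℝ} {x : T} (hx : x + ((ε * θ : ℝ) : T) ∈ A3_E c ε '' Icc a b) :
    x ∈ A3_E c ε '' Icc (a - θ) (b - θ) := by
  obtain ⟨u, hu, e⟩ := hx
  refine ⟨u - θ, ⟨by linarith only [hu, hu.1], by linarith [hu.2]⟩, ?_⟩
  rw [A3_E, show c + ε * (u - θ) = c + ε * u - ε * θ by ring, AddCircle.coe_sub]
  rw [A3_E] at e
  rw [e, add_sub_cancel_right]

namespace Sys

variable {α : ℝ} {N : ℕ} (σ : Sys α N)

theorem A3_cross (c : ℝ) {ε : ℝ} (hε : ε = 1 ∨ ε = -1) {x₁ x₂ x₃ x₄ : ℝ} (h₁ : x₁ < x₂)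
    (h₂ : x₂ < x₃) (h₃ : x₃ < x₄) (h₄ : x₄ < x₁ + 1) :
    σ.H.real ((A3_E c ε '' Icc x₁ x₂) ×ˢ (A3_E c ε '' Icc x₃ x₄)) ≤ 1 ∨
      σ.H.real ((A3_E c ε '' Icc x₂ x₃) ×ˢ (A3_E c ε '' Icc x₄ (x₁ + 1))) ≤ 1 := by
  rcases hε with rfl | rfl
  · simp only [A3_pos]
    have h := σ.cross (x₁ := c + x₁) (x₂ := c + x₂) (x₃ := c + x₃) (x₄ := c + x₄) (by linarith only [h₁])
      (by linarith) (by linarith) (by linarith only [h₄])
    rwa [add_assoc] at h
  · simp only [A3_neg]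
    have h := σ.cross (x₁ := c - x₄) (x₂ := c - x₃) (x₃ := c - x₂) (x₄ := c - x₁) (by linarith)
      (by linarith) (by linarith) (by linarith only [h₄])
    have e₁ : arc (c - x₁) (c - x₄ + 1) = arc (c - (x₁ + 1)) (c - x₄) := by
      rw [← arc_add_one (c - (x₁ + 1)) (c - x₄), show c - (x₁ + 1) + 1 = c - x₁ by ring]
    rw [e₁] at h
    refine h.imp (fun h => ?_) id
    rw [Measure.real, swap_prod σ.H_symm (measurableSet_arc _ _) (measurableSet_arc _ _)]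
    exact h

theorem A3_sign (n : ℕ) : ∃ ε : ℝ, (ε = 1 ∨ ε = -1) ∧
    (((σ.q (n + 1) : ℝ) * α : ℝ) : T) = ((ε * σ.θ (n + 1) : ℝ) : T) := by
  obtain ⟨t, ht, ht'⟩ := exists_rep (0 : T) (((σ.q (n + 1) : ℝ) * α : ℝ) : T)
  rw [dist_zero_right, σ.ret n] at ht'
  rw [zero_add] at ht
  rcases le_total 0 t with h0 | h0
  · rw [abs_of_nonneg h0] at ht'
    exact ⟨1, Or.inl rfl, by rw [ht, one_mul, ht']⟩
  · rw [abs_of_nonpos h0] at ht'
    exact ⟨-1, Or.inr rfl, by rw [ht, ← ht', show -1 * -t = t by ring]⟩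

theorem A3_null (A : Set T) (E : ℝ → T) {y s : ℝ} (h : s ≤ y) :
    σ.H.real (A ×ˢ (E '' Icc y s)) ≤ 1 := by
  have hs : A ×ˢ (E '' Icc y s) ⊆ univ ×ˢ {E s} := by
    rintro ⟨p, p'⟩ ⟨-, t, ht, rfl⟩
    refine ⟨mem_univ _, ?_⟩
    rw [le_antisymm ht.2 (h.trans ht.1)]
    rfl
  rw [Measure.real, measure_mono_null hs (σ.line _)]
  simp

theorem life (n : ℕ) (c : T) {X : Set (T × T)} (hX : MeasurableSet X)
    (hs : X ⊆ ball c (σ.θ (n + 1) / 2) ×ˢ {y | 3 * σ.θ (n + 1) / 2 ≤ dist y c}) :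
    σ.H.real X ≤ 2 + ∑ i ∈ Finset.range (σ.q (n + 1)), σ.b.real (sh (((i : ℝ) + 1) * α) X) := by
  classical
  obtain ⟨ε, hε, hq⟩ := σ.A3_sign n
  obtain ⟨c, -, rfl⟩ := exists_coe c
  have hθ := σ.θ_pos (n + 1)
  obtain ⟨θ, hθe⟩ : ∃ θ, θ = σ.θ (n + 1) := ⟨_, rfl⟩
  rw [← hθe] at hθ hq hs
  have hsum : 0 ≤ ∑ i ∈ Finset.range (σ.q (n + 1)), σ.b.real (sh (((i : ℝ) + 1) * α) X) :=
    Finset.sum_nonneg fun _ _ => measureReal_nonneg
  have hA : ∀ p ∈ X, p.1 ∈ A3_E c ε '' Icc (-(θ / 2)) (θ / 2) ∧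
      p.2 ∈ A3_E c ε '' Icc (3 * θ / 2) (1 - 3 * θ / 2) := fun p hp =>
    ⟨A3_ball c hε _ (hs hp).1, A3_far c hε (hs hp).2⟩
  have hoX : Off X := (A3_off c hε (x₁ := -(θ / 2)) (x₂ := θ / 2) (x₃ := 3 * θ / 2)
    (x₄ := 1 - 3 * θ / 2) (by linarith only [hθ]) (by linarith only [hθ])).mono fun p hp => hA p hp
  have hex : ∃ k : ℕ, σ.H.real ((A3_E c ε '' Icc (-(θ / 2)) (θ / 2)) ×ˢ
      (A3_E c ε '' Icc (3 * θ / 2 + k * θ) (1 - 3 * θ / 2))) ≤ 1 := by
    obtain ⟨k, hk⟩ := exists_nat_ge (1 / θ)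
    rw [div_le_iff₀ hθ] at hk
    exact ⟨k, σ.A3_null _ _ (by linarith only [hθ, hk])⟩
  have hk := Nat.find_spec hex
  have hmin := fun m => Nat.find_min hex (m := m)
  generalize Nat.find hex = k at hk hmin
  have hk0 : (0 : ℝ) ≤ k * θ := by positivity
  have ho₂ := A3_off c hε (x₁ := -(θ / 2)) (x₂ := θ / 2) (x₃ := 3 * θ / 2 + k * θ)
    (x₄ := 1 - 3 * θ / 2) (by linarith only [hθ, hk0]) (by linarith only [hθ])
  rcases k with _ | m
  · have h1 := σ.Hr_mono (X := X)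
      (fun p hp => mem_prod.mpr ⟨(hA p hp).1, by simpa using (hA p hp).2⟩) ho₂
    linarith only [hsum, hk, h1]
  · have hm := hmin m (Nat.lt_succ_self m)
    have hm0 : (0 : ℝ) ≤ m * θ := by positivity
    have hlt : 3 * θ / 2 + m * θ < 1 - 3 * θ / 2 := by
      by_contra hc
      exact hm (σ.A3_null _ _ (not_lt.mp hc))
    have hc := σ.A3_cross c hε (x₁ := -(3 * θ / 2)) (x₂ := -(θ / 2)) (x₃ := θ / 2)
      (x₄ := 3 * θ / 2 + m * θ) (by linarith only [hθ]) (by linarith only [hθ]) (by linarith only [hθ, hm0]) (by linarith only [hlt])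
    rw [show -(3 * θ / 2) + 1 = 1 - 3 * θ / 2 by ring] at hc
    have hc1 := hc.resolve_right hm
    obtain ⟨X₁, hX₁⟩ : ∃ X₁, X₁ = X ∩ univ ×ˢ
      (A3_E c ε '' Icc (3 * θ / 2) (3 * θ / 2 + ((m + 1 : ℕ) : ℝ) * θ)) := ⟨_, rfl⟩
    have hsub : X₁ ⊆ X := hX₁ ▸ inter_subset_left
    have hm₁ : MeasurableSet X₁ := hX₁ ▸ hX.inter (MeasurableSet.univ.prod (A3_meas c hε _ _))
    have ho₁ : Off X₁ := hoX.mono hsub
    have h1 := σ.iter hm₁ ho₁ (σ.q (n + 1))
    have h2 : σ.H.real (sh (σ.q (n + 1) * α) X₁) ≤ 1 := by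
      refine le_trans (σ.Hr_mono ?_ (A3_off c hε (by linarith only [hθ]) (by linarith only [hlt]))) hc1
      intro p hp
      have hp' : (p.1 + ((ε * θ : ℝ) : T), p.2 + ((ε * θ : ℝ) : T)) ∈ X₁ := by
        rw [← hq]
        exact hp
      have a₁ := A3_shift c ε θ (hA _ (hsub hp')).1
      rw [hX₁] at hp'
      have a₂ := A3_shift c ε θ hp'.2.2
      refine ⟨image_mono (Icc_subset_Icc (by linarith only []) (by linarith only [])) a₁,
        image_mono (Icc_subset_Icc (by linarith only []) ?_) a₂⟩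
      push_cast
      linarith only []
    have h3 : ∑ i ∈ Finset.range (σ.q (n + 1)), σ.b.real (sh (((i : ℝ) + 1) * α) X₁) ≤
        ∑ i ∈ Finset.range (σ.q (n + 1)), σ.b.real (sh (((i : ℝ) + 1) * α) X) :=
      Finset.sum_le_sum fun i _ => measureReal_mono (sh_mono _ hsub)
    have h4 : X ⊆ X₁ ∪ (A3_E c ε '' Icc (-(θ / 2)) (θ / 2)) ×ˢ
        (A3_E c ε '' Icc (3 * θ / 2 + ((m + 1 : ℕ) : ℝ) * θ) (1 - 3 * θ / 2)) := by
      intro p hp
      obtain ⟨a₁, t, ht, e⟩ := hA p hp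
      rcases le_total t (3 * θ / 2 + ((m + 1 : ℕ) : ℝ) * θ) with h | h
      · exact Or.inl (hX₁ ▸ ⟨hp, mem_univ _, t, ⟨ht.1, h⟩, e⟩)
      · exact Or.inr ⟨a₁, t, ⟨h, ht.2⟩, e⟩
    have h5 := (σ.Hr_mono h4 (ho₁.union ho₂)).trans (measureReal_union_le _ _)
    linarith only [hk, h1, h2, h3, h5]

end Sys

end Pool.Agent.Work.MP_042f46_an.Ty
end
end

-- merged part: Pool.Agent.Work.MP_042f46_an.T.AF
section
/-!
# Wide rectangles are young

Plans.  `life`: write `θ = σ.θ (n + 1)`, `q = σ.q (n + 1)`, `c = ↑c'`, `↑(q α) = ↑(ε θ)` with `ε = 1` or `-1` (`ret`, `exists_rep`).  Describe arcs by `t ↦ ↑(c' + ε t)`; `cross` and the symmetry of `H` give the crossing inequality in this coordinate for both signs.  The second coordinates of `X` have `t ∈ [3 θ / 2, 1 - 3 θ / 2] = [s, s']`.  If `s' ≤ s` then `X` is null (`line`).  Let `A` be the arc `[-θ / 2, θ / 2]` and `Y = {y ∈ [s, s') | 1 < H (A × [y, s'])}`.  If `Y`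 is empty, `H X ≤ 1`.  Otherwise let `y₀ = sSup Y`; `H (A × (y₀, s']) ≤ 1` (increasing union of `A × [y, s']`, `y₀ < y`, and `line` for `y = s'`), and there is `y ∈ Y` with `y₀ - θ ≤ y`; crossing with the points `-3 θ / 2 < -θ / 2 < θ / 2 < y` gives `H ([-3 θ / 2, -θ / 2] × [θ / 2, y]) ≤ 1`, and this set contains `sh (q α) X₁` for `X₁ = X ∩ A × [s, y₀]`; finish with `iter`.
`births`: `mult`, `sh_SS`, `count` (applied at the point `x + α`).  `life_ball`: `cover` by `ν` balls of radius `θ (n + 1) / 2`, made disjoint with `disjointed`; `life` for each piece, and the `b`-masses of the disjoint pieces add up.  `S1`: `SS_split`, `life_ball` with `ν = 2`; level zero is trivial (`At_zero`).  `zone`: the union is contained in `SS (ball m (4 θ g₀)) (2 θ g₀) 2` together with the classes `SS (ball m (4 θ (j + 1))) (2 θ (j + 1)) (2 θ j)`, `g₀ ≤ j < g` (`cls_find`); `κ_cover`, `cl_le` with `ν = 16`, `J_sum`.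
-/

open Set Metric Topology Filter MeasureTheory
open scoped ENNReal NNReal

noncomputable section
namespace Pool.Agent.Work.MP_042f46_an.Ty

namespace Sys

variable {α : ℝ} {N : ℕ} (σ : Sys α N)

theorem births (n : ℕ) (c : T) {R : ℝ} (hR : 0 ≤ R) (r s : ℝ) :
    ∑ i ∈ Finset.range (σ.q (n + 1)), σ.b.real (sh (((i : ℝ) + 1) * α) (SS (ball c R) r s)) ≤
      (2 * R / σ.θ n + 1) * σ.b.real (SS univ r s) := by
  classical
  refine mult σ.b _ (fun i _ => measurableSet_sh _ (measurableSet_SS measurableSet_ball r s))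
    (measurableSet_SS MeasurableSet.univ r s) (fun i _ => ?_) fun p _ => ?_
  · rw [sh_SS]
    exact SS_mono (subset_univ _) le_rfl le_rfl
  · refine σ.count n _ (p.1 + (α : T)) c hR fun i hi => ?_
    obtain ⟨h1, h2⟩ := Finset.mem_filter.1 hi
    refine ⟨Finset.mem_range.1 h1, ?_⟩
    have := h2.1
    rwa [add_mul, one_mul, AddCircle.coe_add, add_comm _ (α : T), ← add_assoc] at this

theorem life_ball (n : ℕ) (c : T) {R r : ℝ} (s : ℝ) (ν : ℕ) (hR : 0 ≤ R)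
    (hν : 4 * R ≤ ν * σ.θ (n + 1)) (hr : 2 * σ.θ (n + 1) ≤ r) :
    σ.H.real (SS (ball c R) r s) ≤ 2 * ν + (2 * R / σ.θ n + 1) * σ.b.real (SS univ r s) := by
  have hθ := σ.θ_pos (n + 1)
  obtain ⟨x, hx⟩ := cover c (R := R) (half_pos hθ) ν (by linarith only [hν])
  let A : ℕ → Set T := fun k => ball c R ∩ disjointed (fun k => ball (x k) (σ.θ (n + 1) / 2)) k
  have mA : ∀ k, MeasurableSet (SS (A k) r s) := fun k => measurableSet_SS
    (measurableSet_ball.inter (MeasurableSet.disjointed (fun _ => measurableSet_ball) k)) r s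
  have sA : ∀ k, SS (A k) r s ⊆ SS (ball c R) r s := fun k =>
    SS_mono inter_subset_left le_rfl le_rfl
  have e : SS (ball c R) r s = ⋃ k ∈ Finset.range ν, SS (A k) r s := by
    classical
    refine Subset.antisymm (fun p hp => ?_) (iUnion₂_subset fun k _ => sA k)
    obtain ⟨k, k1, k2⟩ := mem_iUnion₂.1 (hx hp.1)
    have ex : ∃ k, p.1 ∈ ball (x k) (σ.θ (n + 1) / 2) := ⟨k, k2⟩
    refine mem_iUnion₂.2 ⟨Nat.find ex, Finset.mem_range.2
      ((Nat.find_min' ex k2).trans_lt (Finset.mem_range.1 k1)), ⟨hp.1, ?_⟩, hp.2⟩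
    rw [disjointed_eq_inter_compl]
    exact ⟨Nat.find_spec ex, mem_iInter₂.2 fun j hj => Nat.find_min ex hj⟩
  have l : ∀ k ∈ Finset.range ν, σ.H.real (SS (A k) r s) ≤ 2 + ∑ i ∈ Finset.range (σ.q (n + 1)),
      σ.b.real (sh (((i : ℝ) + 1) * α) (SS (A k) r s)) := fun k _ =>
    σ.life n (x k) (mA k) fun p hp => by
      have h1 := disjointed_subset _ k hp.1.2
      refine ⟨h1, ?_⟩
      have h2 := dist_triangle_right p.1 p.2 (x k)
      have h3 := hp.2.1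
      change 3 * σ.θ (n + 1) / 2 ≤ dist p.2 (x k)
      linarith only [hr, h2, h3, h1, mem_ball.1 h1]
  have d : ∀ a : ℝ, ∑ k ∈ Finset.range ν, σ.b.real (sh a (SS (A k) r s)) ≤
      σ.b.real (sh a (SS (ball c R) r s)) := fun a => by
    rw [← measureReal_biUnion_finset (fun i _ j _ hij => disjoint_left.2 fun p h1 h2 =>
      disjoint_left.1 (disjoint_disjointed _ hij) h1.1.2 h2.1.2)
      fun k _ => measurableSet_sh a (mA k)]
    exact measureReal_mono (iUnion₂_subset fun k _ => sh_mono a (sA k))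
  calc σ.H.real (SS (ball c R) r s) ≤ ∑ k ∈ Finset.range ν, σ.H.real (SS (A k) r s) := by
        rw [e]; exact measureReal_biUnion_finset_le _ _
    _ ≤ 2 * ν + ∑ i ∈ Finset.range (σ.q (n + 1)), ∑ k ∈ Finset.range ν,
          σ.b.real (sh (((i : ℝ) + 1) * α) (SS (A k) r s)) := by
        refine (Finset.sum_le_sum l).trans_eq ?_
        rw [Finset.sum_add_distrib, Finset.sum_comm, Finset.sum_const, Finset.card_range,
          nsmul_eq_mul, mul_comm]
    _ ≤ _ := by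
        have := (Finset.sum_le_sum fun i (_ : i ∈ Finset.range (σ.q (n + 1))) =>
          d (((i : ℝ) + 1) * α)).trans (σ.births n c hR r s)
        linarith only [this]

theorem cl_le (j : ℕ) (c : T) {R : ℝ} (ν : ℕ) (hR : 0 ≤ R) (hν : 4 * R ≤ ν * σ.θ (j + 1)) :
    σ.cl (ball c R) j ≤ 2 * ν + (2 * R / σ.θ j + 1) * σ.J j (j + 1) :=
  σ.life_ball j c _ ν hR hν le_rfl

theorem AF_ratio (j : ℕ) {t : ℝ} (ht : 0 ≤ t) : 2 * (t * σ.θ (j + 1)) / σ.θ j + 1 ≤ 2 * t + 1 := by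
  have := σ.θ_anti (Nat.le_succ j)
  have h : 2 * (t * σ.θ (j + 1)) / σ.θ j ≤ 2 * t := (div_le_iff₀ (σ.θ_pos j)).2 (by linarith only [ht, this, mul_nonneg_of_nonpos_of_nonpos (Mathlib.Tactic.Linarith.sub_nonpos_of_le ht) (Mathlib.Tactic.Linarith.sub_nonpos_of_le this)])
  linarith only [h]

theorem S1 {g n : ℕ} (h : g ≤ n) : σ.K n ≤ σ.At n g + 4 + 2 * σ.J g n := by
  have hJ := σ.J_nonneg g n
  rcases n with _ | n
  · obtain rfl : g = 0 := by omega
    rw [K]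
    linarith only [hJ]
  refine σ.At_le fun c => ?_
  have hθ := σ.θ_pos (n + 1)
  have hg := σ.θ_pos g
  have h1 := σ.Hr_mono (SS_split (ball c (σ.θ (n + 1) / 2)) (2 * σ.θ (n + 1)) (2 * σ.θ g) 2)
    ((off_SS _ (by positivity) _).union (off_SS _ (by positivity) _))
  have h2 := σ.life_ball n c (R := σ.θ (n + 1) / 2) (2 * σ.θ g) 2 (by positivity)
    (by push_cast; linarith only []) le_rfl
  have h3 := σ.a_le_At c (n + 1) g
  have h4 := σ.AF_ratio n (t := 1 / 2) (by norm_num)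
  rw [show 1 / 2 * σ.θ (n + 1) = σ.θ (n + 1) / 2 by ring] at h4
  have h5 := mul_le_mul_of_nonneg_right h4 hJ
  have h6 := h1.trans (measureReal_union_le _ _)
  simp only [a, κ, J] at *
  push_cast at h2
  linarith only [h2, h3, h5, h6]

theorem zone (m : T) {g₀ g : ℕ} (h : g₀ ≤ g) :
    σ.H.real (⋃ j ∈ Finset.Icc g₀ g, SS (ball m (4 * σ.θ j)) (2 * σ.θ j) 2) ≤
      16 * σ.K g₀ + 32 * ((g : ℝ) - g₀) + 9 * σ.J g₀ g := by
  have sub : (⋃ j ∈ Finset.Icc g₀ g, SS (ball m (4 * σ.θ j)) (2 * σ.θ j) 2) ⊆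
      SS (ball m (4 * σ.θ g₀)) (2 * σ.θ g₀) 2 ∪ ⋃ j ∈ Finset.Ico g₀ g,
        SS (ball m (4 * σ.θ (j + 1))) (2 * σ.θ (j + 1)) (2 * σ.θ j) := by
    refine iUnion₂_subset fun j hj p hp => ?_
    obtain ⟨j1, j2⟩ := Finset.mem_Icc.1 hj
    rcases le_or_gt (2 * σ.θ g₀) (dist p.1 p.2) with k | k
    · exact .inl ⟨ball_subset_ball (by linarith only [j1, σ.θ_anti j1]) hp.1, k, hp.2.2⟩
    · obtain ⟨i, i1, i2, i3, i4⟩ := σ.cls_find hp.2.1 k
      exact .inr (mem_iUnion₂.2 ⟨i, Finset.mem_Ico.2 ⟨i1, by omega⟩,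
        ball_subset_ball (by linarith only [i2, σ.θ_anti (Nat.succ_le_of_lt i2)]) hp.1, i3, i4⟩)
  have off : Off (SS (ball m (4 * σ.θ g₀)) (2 * σ.θ g₀) 2 ∪ ⋃ j ∈ Finset.Ico g₀ g,
      SS (ball m (4 * σ.θ (j + 1))) (2 * σ.θ (j + 1)) (2 * σ.θ j)) := by
    refine ⟨2 * σ.θ g, by linarith only [σ.θ_pos g], ?_⟩
    rintro p (hp | hp)
    · linarith only [h, hp, σ.θ_anti h, hp.2.1]
    · obtain ⟨j, j1, j2⟩ := mem_iUnion₂.1 hp
      linarith only [j1, j2, σ.θ_anti (Nat.succ_le_of_lt (Finset.mem_Ico.1 j1).2), j2.2.1]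
  have h1 := (σ.Hr_mono sub off).trans (measureReal_union_le _ _)
  have h2 := σ.κ_cover m (R := 4 * σ.θ g₀) 16 g₀ g₀ (by push_cast; linarith only [])
  have h3 : ∀ j ∈ Finset.Ico g₀ g, σ.H.real (SS (ball m (4 * σ.θ (j + 1))) (2 * σ.θ (j + 1))
      (2 * σ.θ j)) ≤ 32 + 9 * σ.J j (j + 1) := fun j _ => by
    have a1 := σ.cl_le j m (R := 4 * σ.θ (j + 1)) 16 (by linarith only [σ.θ_pos (j + 1)])
      (by push_cast; linarith only [])
    have a2 := mul_le_mul_of_nonneg_right (σ.AF_ratio j (t := 4) (by norm_num))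
      (σ.J_nonneg j (j + 1))
    rw [cl] at a1
    push_cast at a1
    linarith only [a1, a2]
  have h4 := (measureReal_biUnion_finset_le (μ := σ.H) _ _).trans (Finset.sum_le_sum h3)
  rw [Finset.sum_add_distrib, ← Finset.mul_sum, σ.J_sum h, Finset.sum_const, Nat.card_Ico,
    nsmul_eq_mul, Nat.cast_sub h] at h4
  rw [κ] at h2
  rw [K]
  push_cast at h2
  linarith only [h1, h2, h4]

end Sys

end Pool.Agent.Work.MP_042f46_an.Ty
end
end

-- merged part: Pool.Agent.Work.MP_042f46_an.T.A7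
section
/-!
# Step I: a heavy atom comes close to a mark

Plan.  `P₀ = ⌈25 N / ε⌉₊`, `L = P₀ R`, `C = N ^ 2 + 32 N L`.  `g₀ ≠ 0` by `a_zero`.  For `g₀ ≤ g ≤ g₁` let `t g` be the least `t` with `dist (c + t α) m < 3 θ g` for some mark `m` (`Nat.find`; `dense` at the point `m - c` gives `t g < q (g + 1)`).  `mono_run` at level `g₁` with `ρ = θ g₁ / 2`, `r = 2 θ g` gives `a c g₁ g₀ ≤ κ (c + t g α) (θ g₁ / 2) (2 θ g) + N ^ 2`.  If `t` were injective on the levels `g k = g₀ + k R`, `k ≤ P₀` (as a function of `k`), the sets `SS (ball (c + t (g k) α) (θ g₁ / 2)) (2 θ (g k)) 2` would be pairwise disjoint (`sep'`) subsets of the union over the marks of the sets in `zone m` (levels `g₀` to `g₀ + L`), so `(P₀ + 1) (a - N ^ 2) ≤ N (16 V + 32 L + 9 V)`, against `ε V + C < a`.  So `t (g k) = t (g k')` with `k < k'`; take `a = g k`, `b = g k'`, `κ_mono`.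
-/

open Set Metric Topology Filter MeasureTheory
open scoped ENNReal NNReal

noncomputable section
namespace Pool.Agent.Work.MP_042f46_an.Ty

theorem A7_hit {α : ℝ} {N : ℕ} (σ : Sys α N) (c : T) {g : ℕ} (hg : g ≠ 0) :
    ∃ t, t < σ.q (g + 1) ∧ (∃ m ∈ σ.M, dist (c + (((t : ℝ) * α : ℝ) : T)) m < 3 * σ.θ g) ∧
      ∀ i < t, ∀ m ∈ σ.M, 3 * σ.θ g ≤ dist (c + (((i : ℝ) * α : ℝ) : T)) m := by
  classical
  obtain ⟨n, rfl⟩ := Nat.exists_eq_succ_of_ne_zero hg
  obtain ⟨m, hm⟩ := σ.M_ne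
  obtain ⟨i, hi, s, hs, e⟩ := σ.dense n (m - c)
  have h1 : dist (c + (((i : ℝ) * α : ℝ) : T)) m < 3 * σ.θ (n + 1) := by
    have e' : m = c + (((i : ℝ) * α + s : ℝ) : T) := by rw [← e, add_sub_cancel]
    have h2 := dist_add_coe_le c ((i : ℝ) * α) ((i : ℝ) * α + s)
    rw [← e', sub_add_cancel_left, abs_neg, abs_of_nonneg hs.1] at h2
    linarith only [h2, hs, hs.2, σ.θ_pos (n + 1)]
  have hex : ∃ t : ℕ, ∃ m ∈ σ.M, dist (c + (((t : ℝ) * α : ℝ) : T)) m < 3 * σ.θ (n + 1) :=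
    ⟨i, m, hm, h1⟩
  refine ⟨Nat.find hex, (Nat.find_min' hex ⟨m, hm, h1⟩).trans_lt hi, Nat.find_spec hex,
    fun j hj m' hm' => not_lt.1 fun h => Nat.find_min hex hj ⟨m', hm', h⟩⟩

theorem A7_run {α : ℝ} {N : ℕ} (σ : Sys α N) (c : T) {g₀ g g₁ t : ℕ} (h₀ : g₀ ≤ g) (h₁ : g ≤ g₁)
    (ht : t < σ.q (g + 1))
    (hf : ∀ i < t, ∀ m ∈ σ.M, 3 * σ.θ g ≤ dist (c + (((i : ℝ) * α : ℝ) : T)) m) :
    σ.a c g₁ g₀ ≤ σ.κ (c + (((t : ℝ) * α : ℝ) : T)) (σ.θ g₁ / 2) (2 * σ.θ g) + (N : ℝ) ^ 2 := by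
  have p0 := σ.θ_pos g
  have a0 := σ.θ_anti h₀
  have a1 := σ.θ_anti h₁
  refine (σ.κ_mono (c' := c) (r' := σ.θ g₁ / 2) (s' := 2 * σ.θ g) subset_rfl (by linarith only [a0])
    (by linarith only [p0])).trans (σ.mono_run g₁ c (by linarith only []) (by linarith only [p0])
      (ht.le.trans (σ.q_mono (Nat.succ_le_succ h₁))) fun i hi x hx m hm => ?_)
  have h2 := hf i hi m hm
  have h3 := dist_triangle_left (c + (((i : ℝ) * α : ℝ) : T)) m x
  rw [mem_ball] at hx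
  linarith only [p0, a1, hx, h2, h3]

theorem A7_ball {α : ℝ} {N : ℕ} (σ : Sys α N) {x m : T} {g g₁ : ℕ} (h₁ : g ≤ g₁)
    (h : dist x m < 3 * σ.θ g) : ball x (σ.θ g₁ / 2) ⊆ ball m (4 * σ.θ g) :=
  ball_subset (by linarith only [h, h₁, σ.θ_anti h₁, σ.θ_pos g])

theorem A7_sum {α : ℝ} {N : ℕ} (σ : Sys α N) (c : T) {g₀ L g₁ : ℕ} (h₁ : g₀ + L ≤ g₁)
    (s : Finset ℕ) {t g : ℕ → ℕ} (hg : ∀ k ∈ s, g₀ ≤ g k ∧ g k ≤ g₀ + L)
    (ht : ∀ k ∈ s, t k < σ.q (g k + 1))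
    (hm : ∀ k ∈ s, ∃ m ∈ σ.M, dist (c + (((t k : ℝ) * α : ℝ) : T)) m < 3 * σ.θ (g k))
    (hi : InjOn t s) :
    ∑ k ∈ s, σ.κ (c + (((t k : ℝ) * α : ℝ) : T)) (σ.θ g₁ / 2) (2 * σ.θ (g k)) ≤
      N * (16 * σ.K g₀ + 32 * L + 9 * σ.J g₀ (g₀ + L)) := by
  have hq : ∀ k ∈ s, t k < σ.q (g₁ + 1) := fun k hk =>
    (ht k hk).trans_le (σ.q_mono (Nat.succ_le_succ ((hg k hk).2.trans h₁)))
  have ho : Off (⋃ m ∈ σ.M, ⋃ j ∈ Finset.Icc g₀ (g₀ + L),
      SS (ball m (4 * σ.θ j)) (2 * σ.θ j) 2) := by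
    refine (off_SS univ (r := 2 * σ.θ (g₀ + L)) (by linarith only [σ.θ_pos (g₀ + L)]) 2).mono ?_
    refine iUnion₂_subset fun m _ => iUnion₂_subset fun j hj => SS_mono (subset_univ _) ?_ le_rfl
    linarith only [hj, σ.θ_anti (Finset.mem_Icc.1 hj).2]
  have e : σ.H.real (⋃ k ∈ s, SS (ball (c + (((t k : ℝ) * α : ℝ) : T)) (σ.θ g₁ / 2))
      (2 * σ.θ (g k)) 2) =
        ∑ k ∈ s, σ.κ (c + (((t k : ℝ) * α : ℝ) : T)) (σ.θ g₁ / 2) (2 * σ.θ (g k)) := by
    refine measureReal_biUnion_finset (fun k hk l hl hkl => ?_)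
      (fun k _ => measurableSet_SS measurableSet_ball _ _)
      fun k _ => σ.H_fin (off_SS _ (by linarith only [σ.θ_pos (g k)]) _)
    have h2 := σ.sep' (hq k hk) (hq l hl) (fun h => hkl (hi hk hl h)) c
    exact Set.disjoint_left.2 fun p hp hp' =>
      Set.disjoint_left.1 (ball_disjoint_ball (by linarith only [h2])) hp.1 hp'.1
  rw [← e]
  refine (σ.Hr_mono (iUnion₂_subset fun k hk => ?_) ho).trans
    ((measureReal_biUnion_finset_le _ _).trans ?_)
  · obtain ⟨m, hm, h⟩ := hm k hk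
    exact subset_iUnion₂_of_subset m hm (subset_iUnion₂_of_subset (g k) (Finset.mem_Icc.2 (hg k hk))
      (SS_mono (A7_ball σ ((hg k hk).2.trans h₁) h) le_rfl le_rfl))
  · refine (Finset.sum_le_card_nsmul _ _ (16 * σ.K g₀ + 32 * L + 9 * σ.J g₀ (g₀ + L))
      fun m _ => ?_).trans ?_
    · simpa only [Nat.cast_add, add_sub_cancel_left] using σ.zone m (Nat.le_add_right g₀ L)
    · rw [nsmul_eq_mul]
      refine mul_le_mul_of_nonneg_right (Nat.cast_le.2 σ.M_card) ?_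
      have := σ.K_nonneg g₀
      have := σ.J_nonneg g₀ (g₀ + L)
      positivity

theorem step1 (N : ℕ) {ε : ℝ} (hε : 0 < ε) (R : ℕ) : ∃ (L : ℕ) (C : ℝ), 0 ≤ C ∧
    ∀ (α : ℝ) (σ : Sys α N) (lo hi : ℕ) (V P : ℝ), σ.Win lo hi V P →
      ∀ (c : T) (g₀ g₁ : ℕ), lo ≤ g₀ → g₀ + L ≤ g₁ → g₁ ≤ hi → ε * V + C < σ.a c g₁ g₀ →
        ∃ m ∈ σ.M, ∃ t a b : ℕ, g₀ ≤ a ∧ a + R ≤ b ∧ b ≤ g₁ ∧ t < σ.q (a + 1) ∧
          dist (c + (((t : ℝ) * α : ℝ) : T)) m < 3 * σ.θ b ∧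
          σ.a c g₁ g₀ ≤ σ.κ m (4 * σ.θ b) (2 * σ.θ a) + (N : ℝ) ^ 2 := by
  obtain ⟨P₀, hP⟩ : ∃ P₀ : ℕ, 25 * N ≤ P₀ * ε :=
    ⟨⌈25 * N / ε⌉₊, (div_le_iff₀ hε).1 (Nat.le_ceil _)⟩
  refine ⟨P₀ * R, (N : ℝ) ^ 2 + 32 * N * (P₀ * R : ℕ), by positivity,
    fun α σ lo hi V P W c g₀ g₁ h₀ h₁ h₂ ha => ?_⟩
  have hV := W.V_nonneg
  have hg : g₀ ≠ 0 := by
    rintro rfl
    rw [σ.a_zero] at ha
    exact ha.not_ge (by positivity)
  choose t ht hm hf using fun k : ℕ => A7_hit σ c (g := g₀ + k * R) (by omega)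
  have hl : ∀ k ∈ Finset.range (P₀ + 1), g₀ ≤ g₀ + k * R ∧ g₀ + k * R ≤ g₀ + P₀ * R :=
    fun k hk => ⟨Nat.le_add_right _ _, Nat.add_le_add_left
      (Nat.mul_le_mul_right _ (Nat.lt_succ_iff.1 (Finset.mem_range.1 hk))) _⟩
  have hr := fun k hk => A7_run σ c (hl k hk).1 ((hl k hk).2.trans h₁) (ht k) (hf k)
  have key : ∀ k ∈ Finset.range (P₀ + 1), ∀ l ∈ Finset.range (P₀ + 1), k < l → t k = t l →
      ∃ m ∈ σ.M, ∃ t a b : ℕ, g₀ ≤ a ∧ a + R ≤ b ∧ b ≤ g₁ ∧ t < σ.q (a + 1) ∧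
        dist (c + (((t : ℝ) * α : ℝ) : T)) m < 3 * σ.θ b ∧
        σ.a c g₁ g₀ ≤ σ.κ m (4 * σ.θ b) (2 * σ.θ a) + (N : ℝ) ^ 2 := by
    intro k hk l hl' hkl e
    obtain ⟨m, hm, h⟩ := hm l
    rw [← e] at h
    have h3 := (hl l hl').2.trans h₁
    refine ⟨m, hm, t k, g₀ + k * R, g₀ + l * R, (hl k hk).1, ?_, h3, ht k, h, (hr k hk).trans ?_⟩
    · have := Nat.mul_le_mul_right R (Nat.succ_le_of_lt hkl)
      rw [Nat.succ_mul] at this
      omega
    · exact add_le_add_left (σ.κ_mono (A7_ball σ h3 h) le_rfl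
        (by linarith only [σ.θ_pos (g₀ + k * R)])) _
  by_contra hn
  have hi' : InjOn t (Finset.range (P₀ + 1) : Finset ℕ) := fun k hk l hl' e => by
    rcases lt_trichotomy k l with h | h | h
    · exact absurd (key k hk l hl' h e) hn
    · exact h
    · exact absurd (key l hl' k hk h e.symm) hn
  have h3 := A7_sum σ c h₁ _ (g := fun k => g₀ + k * R) hl (fun k _ => ht k) (fun k _ => hm k) hi'
  have h4 := Finset.card_nsmul_le_sum _ _ _ fun k hk => sub_le_iff_le_add.2 (hr k hk)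
  rw [Finset.card_range, nsmul_eq_mul, Nat.cast_succ] at h4
  have h5 := W.K_le g₀ h₀ ((Nat.le_add_right _ _).trans (h₁.trans h₂))
  have h6 := (σ.J_mono h₀ (h₁.trans h₂)).trans W.J_le
  have hN : (0 : ℝ) ≤ N := Nat.cast_nonneg _
  have hP0 : (0 : ℝ) ≤ P₀ := Nat.cast_nonneg _
  have hL : (0 : ℝ) ≤ (P₀ * R : ℕ) := Nat.cast_nonneg _
  generalize ((P₀ * R : ℕ) : ℝ) = L at *
  have h7 : ((P₀ : ℝ) + 1) * (ε * V + 32 * N * L) < (P₀ + 1) * (σ.a c g₁ g₀ - N ^ 2) :=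
    mul_lt_mul_of_pos_left (by linarith only [ha]) (by linarith only [])
  have h8 : N * (16 * σ.K g₀ + 32 * L + 9 * σ.J g₀ (g₀ + P₀ * R)) ≤ N * (25 * V + 32 * L) :=
    mul_le_mul_of_nonneg_left (by linarith only [h5, h6]) hN
  have h9 := mul_le_mul_of_nonneg_right hP hV
  have h10 := mul_nonneg hε.le hV
  have h11 := mul_nonneg (mul_nonneg hP0 hN) hL
  linarith only [h4, h3, h7, h8, h9, h10, h11]

end Pool.Agent.Work.MP_042f46_an.Ty
end
end

-- merged part: Pool.Agent.Work.MP_042f46_an.T.A8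
section
/-!
# Step II: an atom passes through a mark

Plans.  `DD_le`: the integrand `f p = ofReal ((u p.1 - u p.2) ^ 2)` is symmetric and vanishes unless `p.1` or `p.2` is in `A = ball c (2 θ g)` (`bump_zero`) and `p.1 ≠ p.2`; so `DD ≤ 2 ∫⁻ over {p | p.1 ∈ A, 0 < dist}` (`H_symm`, `lintegral_map`).  That set is the increasing union of `SS A (2 θ n) 2` (`θ_small`, `setLIntegral_iUnion_of_directed`), which is covered by `SS A (2 θ f) 2` and the classes `j ∈ Ico f n` (`cls_find`); on class `j` the integrand is at most `min 1 (196 (θ j / θ g) ^ 2)` (`bump_mem`, `bump_lip`).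
`class_sum`: for `j < g` use `cl_le` with `ν = 8` (at most `16 + 5 J`); for `g ≤ j` use `ν = ⌈8 θ g / θ (j + 1)⌉₊ ≤ 9 θ g / θ (j + 1)` and `4 θ g / θ j + 1 ≤ 5 θ g / θ j`, so the term is at most `196 (θ j / θ g) (18 θ j / θ (j + 1) + 5 J j (j + 1))`, with `θ j / θ g ≤ 2 (3 / 4) ^ (j - g)` (`θ_geom`), `θ j / θ (j + 1) ≤ P (11 / 10) ^ (j - g)` (`ratio`); geometric sums with ratio `33 / 40` are at most `6`.  The sum of `(3 / 4) ^ (j - g) J j (j + 1)` over `g ≤ j < g + s` is at most `J g (g + s)`, over `g + s ≤ j < hi` at most `(3 / 4) ^ s V`, over `hi ≤ j` at most `6 (3 / 4) ^ s V` (`J_tail`).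
`step2`: choose `s ≥ R + 4` with `(3 / 4) ^ s` small, `P₀` large, `L = 2 s P₀`; `J_pigeon` gives `f = a + i (2 s)`, `g = f + s` with `P₀ J f (g + s) ≤ V`; `g₀ = f`, `g₁ = g - 4`.  `DD_ge` for `bump m (θ g)` on `SS (ball m (4 θ b)) (2 θ a) 2`, `bump_add`, `pull` at the point `m + α`, `DD_le`, `κ_mono`.
-/

open Set Metric Topology Filter MeasureTheory
open scoped ENNReal NNReal

noncomputable section
namespace Pool.Agent.Work.MP_042f46_an.Ty

namespace Sys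

variable {α : ℝ} {N : ℕ} (σ : Sys α N)

theorem A8_sym (μ : Measure (T × T)) (h : μ.map Prod.swap = μ) {u : T → ℝ} (hu : Continuous u)
    {A : Set T} (hA : MeasurableSet A) (h0 : ∀ x, x ∉ A → u x = 0) :
    DD μ u ≤ 2 * ∫⁻ p in {p : T × T | p.1 ∈ A ∧ 0 < dist p.1 p.2},
      ENNReal.ofReal ((u p.1 - u p.2) ^ 2) ∂μ := by
  set S : Set (T × T) := {p : T × T | p.1 ∈ A ∧ 0 < dist p.1 p.2} with hS
  set F : T × T → ℝ≥0∞ := fun p => ENNReal.ofReal ((u p.1 - u p.2) ^ 2) with hF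
  have hSm : MeasurableSet S :=
    (measurable_fst hA).inter (isOpen_lt continuous_const continuous_dist).measurableSet
  have hFm : Measurable F := by
    apply ENNReal.measurable_ofReal.comp
    exact (((hu.comp continuous_fst).sub (hu.comp continuous_snd)).pow 2).measurable
  have hGm : Measurable (S.indicator F) := hFm.indicator hSm
  have h1 : ∀ p, F p ≤ S.indicator F p + S.indicator F (Prod.swap p) := by
    rintro ⟨x, y⟩
    by_cases hxy : x = y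
    · subst hxy
      simp [hF]
    have hd : 0 < dist x y := dist_pos.2 hxy
    by_cases hx : x ∈ A
    · have : ((x, y) : T × T) ∈ S := ⟨hx, hd⟩
      rw [indicator_of_mem this]
      exact le_self_add
    by_cases hy : y ∈ A
    · have : Prod.swap ((x, y) : T × T) ∈ S := ⟨hy, by simpa [dist_comm] using hd⟩
      rw [indicator_of_mem this]
      have e : F (Prod.swap (x, y)) = F (x, y) := by
        simp only [hF, Prod.fst_swap, Prod.snd_swap]
        congr 1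
        ring
      rw [e]
      exact le_add_self
    · simp [hF, h0 x hx, h0 y hy]
  have h2 : ∫⁻ p, S.indicator F (Prod.swap p) ∂μ = ∫⁻ p, S.indicator F p ∂μ := by
    conv_rhs => rw [← h]
    rw [lintegral_map hGm measurable_swap]
  calc DD μ u = ∫⁻ p, F p ∂μ := rfl
    _ ≤ ∫⁻ p, (S.indicator F p + S.indicator F (Prod.swap p)) ∂μ := lintegral_mono h1
    _ = ∫⁻ p, S.indicator F p ∂μ + ∫⁻ p, S.indicator F (Prod.swap p) ∂μ :=
        lintegral_add_left hGm _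
    _ = 2 * ∫⁻ p in S, F p ∂μ := by
        rw [h2, lintegral_indicator hSm, two_mul]

theorem A8_piece (c : T) (f g n : ℕ) :
    ∫⁻ p in SS (ball c (2 * σ.θ g)) (2 * σ.θ n) 2,
      ENNReal.ofReal ((bump c (σ.θ g) p.1 - bump c (σ.θ g) p.2) ^ 2) ∂σ.H ≤
      ENNReal.ofReal (σ.κ c (2 * σ.θ g) (2 * σ.θ f) + ∑ j ∈ Finset.Ico f n,
        min 1 (196 * (σ.θ j / σ.θ g) ^ 2) * σ.cl (ball c (2 * σ.θ g)) j) := by
  set A : Set T := ball c (2 * σ.θ g) with hA
  set u : T → ℝ := bump c (σ.θ g) with hu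
  set F : T × T → ℝ≥0∞ := fun p => ENNReal.ofReal ((u p.1 - u p.2) ^ 2) with hF
  have hAm : MeasurableSet A := measurableSet_ball
  have hθ := σ.θ_pos
  have hone : ∀ p : T × T, (u p.1 - u p.2) ^ 2 ≤ 1 := by
    intro p
    have a := bump_mem c (σ.θ g) p.1
    have b := bump_mem c (σ.θ g) p.2
    have : |u p.1 - u p.2| ≤ 1 := abs_le.2 ⟨by linarith only [a, b, a.1, b.2], by linarith only [a, b, a.2, b.1]⟩
    linarith only [this, abs_nonneg (u p.1 - u p.2), sq_abs (u p.1 - u p.2), mul_nonneg_of_nonpos_of_nonpos (Mathlib.Tactic.Linarith.sub_nonpos_of_le this) (Mathlib.Tactic.Linarith.sub_nonpos_of_le (abs_nonneg (u p.1 - u p.2)))]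
  have hcov : SS A (2 * σ.θ n) 2 ⊆ SS A (2 * σ.θ f) 2 ∪
      ⋃ j ∈ Finset.Ico f n, SS A (2 * σ.θ (j + 1)) (2 * σ.θ j) := by
    rintro p ⟨h1, h2, h3⟩
    by_cases hp : 2 * σ.θ f ≤ dist p.1 p.2
    · exact Or.inl ⟨h1, hp, h3⟩
    · obtain ⟨j, hj1, hj2, hj3, hj4⟩ := σ.cls_find h2 (not_le.1 hp)
      exact Or.inr (mem_iUnion₂.2 ⟨j, Finset.mem_Ico.2 ⟨hj1, hj2⟩, h1, hj3, hj4⟩)
  have hw : ∀ j, 0 ≤ min 1 (196 * (σ.θ j / σ.θ g) ^ 2) := fun j =>
    le_min zero_le_one (by positivity)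
  have hfirst : ∫⁻ p in SS A (2 * σ.θ f) 2, F p ∂σ.H ≤
      ENNReal.ofReal (σ.κ c (2 * σ.θ g) (2 * σ.θ f)) := by
    calc ∫⁻ p in SS A (2 * σ.θ f) 2, F p ∂σ.H ≤ ∫⁻ _ in SS A (2 * σ.θ f) 2, 1 ∂σ.H := by
          apply lintegral_mono
          intro p
          exact ENNReal.ofReal_le_one.2 (hone p)
      _ = σ.H (SS A (2 * σ.θ f) 2) := by simp
      _ = _ := by
          rw [κ, Measure.real, ENNReal.ofReal_toReal]
          exact σ.H_fin (off_SS _ (by linarith only [hθ, hθ f]) _)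
  have hcls : ∀ j, ∫⁻ p in SS A (2 * σ.θ (j + 1)) (2 * σ.θ j), F p ∂σ.H ≤
      ENNReal.ofReal (min 1 (196 * (σ.θ j / σ.θ g) ^ 2) * σ.cl A j) := by
    intro j
    calc ∫⁻ p in SS A (2 * σ.θ (j + 1)) (2 * σ.θ j), F p ∂σ.H ≤
          ∫⁻ _ in SS A (2 * σ.θ (j + 1)) (2 * σ.θ j),
            ENNReal.ofReal (min 1 (196 * (σ.θ j / σ.θ g) ^ 2)) ∂σ.H := by
          apply setLIntegral_mono' (measurableSet_SS hAm _ _)
          rintro p ⟨-, -, h3⟩
          apply ENNReal.ofReal_le_ofReal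
          refine le_min (hone p) ?_
          have h4 := bump_lip (c := c) (hθ g) p.1 p.2
          have h5 : 7 * dist p.1 p.2 / σ.θ g ≤ 14 * (σ.θ j / σ.θ g) := by
            rw [← mul_div_assoc]
            exact div_le_div_of_nonneg_right (by linarith only [h3]) (hθ g).le
          have h6 : |u p.1 - u p.2| ≤ 14 * (σ.θ j / σ.θ g) := h4.trans h5
          have h7 := pow_le_pow_left₀ (abs_nonneg _) h6 2
          rw [sq_abs] at h7
          calc _ ≤ _ := h7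
            _ = _ := by ring
      _ = ENNReal.ofReal (min 1 (196 * (σ.θ j / σ.θ g) ^ 2)) *
            σ.H (SS A (2 * σ.θ (j + 1)) (2 * σ.θ j)) := by simp
      _ = _ := by
          rw [ENNReal.ofReal_mul (hw j), cl, Measure.real, ENNReal.ofReal_toReal]
          exact σ.H_fin (off_SS _ (by linarith only [hθ, hθ (j + 1)]) _)
  have hfin : ∀ s : Finset ℕ,
      ∫⁻ p in ⋃ j ∈ s, SS A (2 * σ.θ (j + 1)) (2 * σ.θ j), F p ∂σ.H ≤
        ∑ j ∈ s, ENNReal.ofReal (min 1 (196 * (σ.θ j / σ.θ g) ^ 2) * σ.cl A j) := by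
    intro s
    induction s using Finset.induction_on with
    | empty => simp
    | insert a s ha ih =>
      rw [Finset.sum_insert ha, Finset.set_biUnion_insert]
      exact (lintegral_union_le _ _ _).trans (add_le_add (hcls a) ih)
  have hnn : ∀ j ∈ Finset.Ico f n, 0 ≤ min 1 (196 * (σ.θ j / σ.θ g) ^ 2) * σ.cl A j :=
    fun j _ => mul_nonneg (hw j) measureReal_nonneg
  calc _ ≤ ∫⁻ p in SS A (2 * σ.θ f) 2 ∪
        ⋃ j ∈ Finset.Ico f n, SS A (2 * σ.θ (j + 1)) (2 * σ.θ j), F p ∂σ.H :=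
        lintegral_mono_set hcov
    _ ≤ _ := lintegral_union_le _ _ _
    _ ≤ _ := add_le_add hfirst (hfin _)
    _ = _ := by
        rw [ENNReal.ofReal_add (σ.κ_nonneg _ _ _) (Finset.sum_nonneg hnn),
          ENNReal.ofReal_sum_of_nonneg hnn]

theorem DD_le (c : T) (f g : ℕ) {B : ℝ}
    (hB : ∀ n, ∑ j ∈ Finset.Ico f n,
      min 1 (196 * (σ.θ j / σ.θ g) ^ 2) * σ.cl (ball c (2 * σ.θ g)) j ≤ B) :
    DD σ.H (bump c (σ.θ g)) ≤ ENNReal.ofReal (2 * (σ.κ c (2 * σ.θ g) (2 * σ.θ f) + B)) := by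
  have hθ := σ.θ_pos
  have h1 := A8_sym σ.H σ.H_symm (continuous_bump c (σ.θ g))
    (A := ball c (2 * σ.θ g)) measurableSet_ball
    (fun x hx => bump_zero (hθ g) (by simpa [mem_ball] using hx))
  have hU : {p : T × T | p.1 ∈ ball c (2 * σ.θ g) ∧ 0 < dist p.1 p.2} =
      ⋃ n, SS (ball c (2 * σ.θ g)) (2 * σ.θ n) 2 := by
    ext p
    simp only [mem_ofPred_eq, mem_iUnion, SS]
    constructor
    · rintro ⟨h1, h2⟩
      obtain ⟨n, hn⟩ := σ.θ_small (half_pos h2)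
      exact ⟨n, h1, by linarith only [hn], by linarith only [dist_le_half p.1 p.2]⟩
    · rintro ⟨n, h1, h2, -⟩
      exact ⟨h1, by linarith only [h2, hθ, hθ n]⟩
  have hdir : Directed (· ⊆ ·) fun n => SS (ball c (2 * σ.θ g)) (2 * σ.θ n) 2 := by
    apply Monotone.directed_le (f := fun n => SS (ball c (2 * σ.θ g)) (2 * σ.θ n) 2)
    intro a b hab
    exact SS_mono subset_rfl (by linarith only [hab, σ.θ_anti hab]) le_rfl
  rw [hU, setLIntegral_iUnion_of_directed _ hdir] at h1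
  have h2 : ⨆ n, ∫⁻ p in SS (ball c (2 * σ.θ g)) (2 * σ.θ n) 2,
      ENNReal.ofReal ((bump c (σ.θ g) p.1 - bump c (σ.θ g) p.2) ^ 2) ∂σ.H ≤
      ENNReal.ofReal (σ.κ c (2 * σ.θ g) (2 * σ.θ f) + B) := by
    refine iSup_le fun n => (σ.A8_piece c f g n).trans ?_
    exact ENNReal.ofReal_le_ofReal (by linarith only [hB, hB n])
  calc _ ≤ _ := h1
    _ ≤ 2 * ENNReal.ofReal (σ.κ c (2 * σ.θ g) (2 * σ.θ f) + B) := by gcongr
    _ = _ := by
        rw [ENNReal.ofReal_mul zero_le_two]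
        simp

theorem A8_geom (a n : ℕ) : ∑ j ∈ Finset.Ico a n, (33 / 40 : ℝ) ^ (j - a) ≤ 40 / 7 := by
  rw [Finset.sum_Ico_eq_sum_range]
  simp only [Nat.add_sub_cancel_left]
  rw [geom_sum_eq (by norm_num)]
  have : (0 : ℝ) ≤ (33 / 40) ^ (n - a) := by positivity
  rw [div_le_iff_of_neg (by norm_num)]
  linarith only [this]

theorem A8_low (c : T) {g j : ℕ} (h : j < g) :
    min 1 (196 * (σ.θ j / σ.θ g) ^ 2) * σ.cl (ball c (2 * σ.θ g)) j ≤ 16 + 5 * σ.J j (j + 1) := by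
  have hθ := σ.θ_pos
  have h1 := σ.cl_le j c (R := 2 * σ.θ g) 8 (by linarith only [hθ, hθ g])
    (by have := σ.θ_anti (show j + 1 ≤ g from h); push_cast; linarith only [this])
  have h2 : 2 * (2 * σ.θ g) / σ.θ j + 1 ≤ 5 := by
    have : 2 * (2 * σ.θ g) / σ.θ j ≤ 4 := by
      rw [div_le_iff₀ (hθ j)]
      linarith only [h, σ.θ_anti h.le]
    linarith only [this]
  have h3 := mul_le_mul_of_nonneg_right h2 (σ.J_nonneg j (j + 1))
  have h4 : 0 ≤ σ.cl (ball c (2 * σ.θ g)) j := measureReal_nonneg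
  have h5 := mul_le_mul_of_nonneg_right (min_le_left (1 : ℝ) (196 * (σ.θ j / σ.θ g) ^ 2)) h4
  push_cast at h1
  linarith only [h1, h3, h5]

theorem A8_high (c : T) {g j : ℕ} (h : g ≤ j) {Q : ℝ} (hQ : σ.θ j ≤ Q * σ.θ (j + 1)) :
    min 1 (196 * (σ.θ j / σ.θ g) ^ 2) * σ.cl (ball c (2 * σ.θ g)) j ≤
      7056 * (3 / 4) ^ (j - g) * Q + 1960 * (3 / 4) ^ (j - g) * σ.J j (j + 1) := by
  have hθ := σ.θ_pos
  have hg := hθ g
  have hj := hθ j
  have hj1 := hθ (j + 1)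
  have ha : σ.θ (j + 1) ≤ σ.θ g := σ.θ_anti (by omega)
  have hb : σ.θ j ≤ σ.θ g := σ.θ_anti h
  have hJ := σ.J_nonneg j (j + 1)
  have h1 := σ.cl_le j c (R := 2 * σ.θ g) ⌈8 * σ.θ g / σ.θ (j + 1)⌉₊ (by linarith only [hg])
    (by
      have := Nat.le_ceil (8 * σ.θ g / σ.θ (j + 1))
      rw [div_le_iff₀ hj1] at this
      linarith only [this])
  have h2 : (⌈8 * σ.θ g / σ.θ (j + 1)⌉₊ : ℝ) ≤ 9 * (σ.θ g / σ.θ (j + 1)) := by
    have h3 := (Nat.ceil_lt_add_one (show 0 ≤ 8 * σ.θ g / σ.θ (j + 1) by positivity)).le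
    have h4 : 1 ≤ σ.θ g / σ.θ (j + 1) := (one_le_div hj1).2 ha
    rw [mul_div_assoc] at h3
    rw [mul_div_assoc]
    linarith only [h3, h4]
  have h3 : 2 * (2 * σ.θ g) / σ.θ j + 1 ≤ 5 * (σ.θ g / σ.θ j) := by
    have h4 : 1 ≤ σ.θ g / σ.θ j := (one_le_div hj).2 hb
    have e : 2 * (2 * σ.θ g) / σ.θ j = 4 * (σ.θ g / σ.θ j) := by ring
    linarith only [h4, e]
  have h4 : σ.cl (ball c (2 * σ.θ g)) j ≤
      18 * (σ.θ g / σ.θ (j + 1)) + 5 * (σ.θ g / σ.θ j) * σ.J j (j + 1) := by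
    have := mul_le_mul_of_nonneg_right h3 hJ
    linarith only [h1, h2, this]
  have h5 : 0 ≤ σ.cl (ball c (2 * σ.θ g)) j := measureReal_nonneg
  have h6 : σ.θ j / σ.θ g ≤ 2 * (3 / 4) ^ (j - g) := by
    rw [div_le_iff₀ hg]
    exact σ.θ_geom h
  have h7 : σ.θ j / σ.θ (j + 1) ≤ Q := by
    rw [div_le_iff₀ hj1]
    exact hQ
  have h8 : 0 ≤ 18 * (σ.θ j / σ.θ (j + 1)) + 5 * σ.J j (j + 1) := by positivity
  have h9 : (0 : ℝ) ≤ (3 / 4) ^ (j - g) := by positivity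
  calc _ ≤ 196 * (σ.θ j / σ.θ g) ^ 2 * σ.cl (ball c (2 * σ.θ g)) j :=
        mul_le_mul_of_nonneg_right (min_le_right _ _) h5
    _ ≤ 196 * (σ.θ j / σ.θ g) ^ 2 *
          (18 * (σ.θ g / σ.θ (j + 1)) + 5 * (σ.θ g / σ.θ j) * σ.J j (j + 1)) :=
        mul_le_mul_of_nonneg_left h4 (by positivity)
    _ = 196 * (σ.θ j / σ.θ g) * (18 * (σ.θ j / σ.θ (j + 1)) + 5 * σ.J j (j + 1)) := by
        field_simp
    _ ≤ 196 * (2 * (3 / 4) ^ (j - g)) * (18 * Q + 5 * σ.J j (j + 1)) := by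
        gcongr
    _ = _ := by ring

theorem class_sum {lo hi : ℕ} {V P : ℝ} (hW : σ.Win lo hi V P) (c : T) {f s : ℕ} (hf : lo ≤ f)
    (hs : f + s + s ≤ hi) (n : ℕ) :
    ∑ j ∈ Finset.Ico f n,
      min 1 (196 * (σ.θ j / σ.θ (f + s)) ^ 2) * σ.cl (ball c (2 * σ.θ (f + s))) j ≤
      16 * s + 50000 * P + 2000 * σ.J f (f + s + s) + 14000 * (3 / 4) ^ s * V := by
  set g := f + s with hg
  set t : ℕ → ℝ := fun j =>
    min 1 (196 * (σ.θ j / σ.θ g) ^ 2) * σ.cl (ball c (2 * σ.θ g)) j with ht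
  have hθ := σ.θ_pos
  have hV := hW.V_nonneg
  have hP : 0 ≤ P := zero_le_one.trans hW.one_le
  have ht0 : ∀ j, 0 ≤ t j := fun j =>
    mul_nonneg (le_min zero_le_one (by positivity)) measureReal_nonneg
  set n' := max n hi with hn'
  have hn1 : n ≤ n' := le_max_left _ _
  have hn2 : hi ≤ n' := le_max_right _ _
  have hmono : ∑ j ∈ Finset.Ico f n, t j ≤ ∑ j ∈ Finset.Ico f n', t j :=
    Finset.sum_le_sum_of_subset_of_nonneg (Finset.Ico_subset_Ico_right hn1) fun j _ _ => ht0 j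
  have hsplit := Finset.sum_Ico_consecutive t (show f ≤ g by omega) (show g ≤ n' by omega)
  have hA : ∑ j ∈ Finset.Ico f g, t j ≤ 16 * s + 5 * σ.J f g := by
    calc _ ≤ ∑ j ∈ Finset.Ico f g, (16 + 5 * σ.J j (j + 1)) :=
          Finset.sum_le_sum fun j hj => σ.A8_low c (Finset.mem_Ico.1 hj).2
      _ = _ := by
          rw [Finset.sum_add_distrib, ← Finset.mul_sum, σ.J_sum (show f ≤ g by omega)]
          simp [hg, mul_comm]
  set w : ℕ → ℝ := fun j => (3 / 4) ^ (j - g) * σ.J j (j + 1) with hw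
  have hB : ∑ j ∈ Finset.Ico g n', t j ≤ 7056 * P * (40 / 7) + 1960 * ∑ j ∈ Finset.Ico g n', w j := by
    calc _ ≤ ∑ j ∈ Finset.Ico g n', (7056 * P * (33 / 40) ^ (j - g) + 1960 * w j) := by
          refine Finset.sum_le_sum fun j hj => ?_
          have hj1 := (Finset.mem_Ico.1 hj).1
          have hQ : σ.θ j ≤ P * (11 / 10) ^ (j - g) * σ.θ (j + 1) := by
            refine (hW.ratio j (by omega)).trans ?_
            have : (11 / 10 : ℝ) ^ (j - hi) ≤ (11 / 10) ^ (j - g) :=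
              pow_le_pow_right₀ (by norm_num) (by omega)
            have := hθ (j + 1)
            gcongr
          refine (σ.A8_high c hj1 hQ).trans (le_of_eq ?_)
          have e : (33 / 40 : ℝ) ^ (j - g) = (3 / 4) ^ (j - g) * (11 / 10) ^ (j - g) := by
            rw [← mul_pow]
            norm_num
          rw [e, hw]
          ring
      _ ≤ _ := by
          rw [Finset.sum_add_distrib, ← Finset.mul_sum, ← Finset.mul_sum]
          have := mul_le_mul_of_nonneg_left (A8_geom g n') (show 0 ≤ 7056 * P by positivity)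
          linarith only [this]
  have hs1 := Finset.sum_Ico_consecutive w (show g ≤ g + s by omega) (show g + s ≤ n' by omega)
  have hs2 := Finset.sum_Ico_consecutive w hs hn2
  have hq : (0 : ℝ) ≤ (3 / 4) ^ s := by positivity
  have hC : ∑ j ∈ Finset.Ico g (g + s), w j ≤ σ.J g (g + s) := by
    rw [← σ.J_sum (show g ≤ g + s by omega)]
    refine Finset.sum_le_sum fun j _ => ?_
    have : (3 / 4 : ℝ) ^ (j - g) ≤ 1 := pow_le_one₀ (by norm_num) (by norm_num)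
    have := mul_le_mul_of_nonneg_right this (σ.J_nonneg j (j + 1))
    simpa [hw] using this
  have hD : ∑ j ∈ Finset.Ico (g + s) hi, w j ≤ (3 / 4) ^ s * V := by
    calc _ ≤ ∑ j ∈ Finset.Ico (g + s) hi, (3 / 4) ^ s * σ.J j (j + 1) := by
          refine Finset.sum_le_sum fun j hj => ?_
          have hj1 := (Finset.mem_Ico.1 hj).1
          have : (3 / 4 : ℝ) ^ (j - g) ≤ (3 / 4) ^ s :=
            pow_le_pow_of_le_one (by norm_num) (by norm_num) (by omega)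
          exact mul_le_mul_of_nonneg_right this (σ.J_nonneg j (j + 1))
      _ = (3 / 4) ^ s * σ.J (g + s) hi := by rw [← Finset.mul_sum, σ.J_sum hs]
      _ ≤ _ := mul_le_mul_of_nonneg_left
          ((σ.J_mono (by omega) le_rfl).trans hW.J_le) hq
  have hE : ∑ j ∈ Finset.Ico hi n', w j ≤ (3 / 4) ^ s * V * (40 / 7) := by
    calc _ ≤ ∑ j ∈ Finset.Ico hi n', (3 / 4) ^ s * V * (33 / 40) ^ (j - hi) := by
          refine Finset.sum_le_sum fun j hj => ?_
          have hj1 := (Finset.mem_Ico.1 hj).1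
          have h1 : (3 / 4 : ℝ) ^ (j - g) ≤ (3 / 4) ^ (s + (j - hi)) :=
            pow_le_pow_of_le_one (by norm_num) (by norm_num) (by omega)
          have e : (33 / 40 : ℝ) ^ (j - hi) = (3 / 4) ^ (j - hi) * (11 / 10) ^ (j - hi) := by
            rw [← mul_pow]
            norm_num
          calc w j ≤ (3 / 4) ^ (s + (j - hi)) * (V * (11 / 10) ^ (j - hi)) :=
                mul_le_mul h1 (hW.J_tail j hj1) (σ.J_nonneg _ _) (by positivity)
            _ = _ := by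
                rw [e, pow_add]
                ring
      _ ≤ _ := by
          rw [← Finset.mul_sum]
          exact mul_le_mul_of_nonneg_left (A8_geom hi n') (by positivity)
  have hJ := σ.J_add (show f ≤ g by omega) (show g ≤ g + s by omega)
  have hJ1 := σ.J_nonneg f g
  have hJ2 := σ.J_nonneg g (g + s)
  have hqV : 0 ≤ (3 / 4 : ℝ) ^ s * V := mul_nonneg hq hV
  have e : 14000 * (3 / 4 : ℝ) ^ s * V = 14000 * ((3 / 4) ^ s * V) := by ring
  rw [e]
  linarith only [hP, hmono, hsplit, hA, hB, hs1, hs2, hC, hD, hE, hJ, hJ1, hJ2, hqV]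

end Sys

end Pool.Agent.Work.MP_042f46_an.Ty
end
end

-- merged part: Pool.Agent.Work.MP_042f46_an.T.AG
section
/-!
# Step II: an atom passes through a mark

Plans.  `DD_le`: the integrand `f p = ofReal ((u p.1 - u p.2) ^ 2)` is symmetric and vanishes unless `p.1` or `p.2` is in `A = ball c (2 θ g)` (`bump_zero`) and `p.1 ≠ p.2`; so `DD ≤ 2 ∫⁻ over {p | p.1 ∈ A, 0 < dist}` (`H_symm`, `lintegral_map`).  That set is the increasing union of `SS A (2 θ n) 2` (`θ_small`, `setLIntegral_iUnion_of_directed`), which is covered by `SS A (2 θ f) 2` and the classes `j ∈ Ico f n` (`cls_find`); on class `j` the integrand is at most `min 1 (196 (θ j / θ g) ^ 2)` (`bump_mem`, `bump_lip`).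
`class_sum`: for `j < g` use `cl_le` with `ν = 8` (at most `16 + 5 J`); for `g ≤ j` use `ν = ⌈8 θ g / θ (j + 1)⌉₊ ≤ 9 θ g / θ (j + 1)` and `4 θ g / θ j + 1 ≤ 5 θ g / θ j`, so the term is at most `196 (θ j / θ g) (18 θ j / θ (j + 1) + 5 J j (j + 1))`, with `θ j / θ g ≤ 2 (3 / 4) ^ (j - g)` (`θ_geom`), `θ j / θ (j + 1) ≤ P (11 / 10) ^ (j - g)` (`ratio`); geometric sums with ratio `33 / 40` are at most `6`.  The sum of `(3 / 4) ^ (j - g) J j (j + 1)` over `g ≤ j < g + s` is at most `J g (g + s)`, over `g + s ≤ j < hi` at most `(3 / 4) ^ s V`, over `hi ≤ j` at most `6 (3 / 4) ^ s V` (`J_tail`).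
`step2`: choose `s ≥ R + 4` with `(3 / 4) ^ s` small, `P₀` large, `L = 2 s P₀`; `J_pigeon` gives `f = a + i (2 s)`, `g = f + s` with `P₀ J f (g + s) ≤ V`; `g₀ = f`, `g₁ = g - 4`.  `DD_ge` for `bump m (θ g)` on `SS (ball m (4 θ b)) (2 θ a) 2`, `bump_add`, `pull` at the point `m + α`, `DD_le`, `κ_mono`.
-/

open Set Metric Topology Filter MeasureTheory
open scoped ENNReal NNReal

noncomputable section
namespace Pool.Agent.Work.MP_042f46_an.Ty

theorem AG_pass {α : ℝ} {N : ℕ} (σ : Sys α N) (m : T) {a b f g g₁ : ℕ} (ha : a + 4 ≤ g)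
    (hb : g + 4 ≤ b) (hg : g₁ + 4 ≤ g) {B : ℝ} (hB0 : 0 ≤ B)
    (hB : ∀ n, ∑ j ∈ Finset.Ico f n,
      min 1 (196 * (σ.θ j / σ.θ g) ^ 2) * σ.cl (ball (m + (α : T)) (2 * σ.θ g)) j ≤ B) :
    σ.κ m (4 * σ.θ b) (2 * σ.θ a) ≤ N * (2 * (σ.a (m + (α : T)) g₁ f + B) + N) := by
  have hθ := σ.θ_pos g
  have t1 := σ.toLev.θ_four ha
  have t2 := σ.toLev.θ_four hb
  have t3 := σ.toLev.θ_four hg
  have h1 : σ.H (SS (ball m (4 * σ.θ b)) (2 * σ.θ a) 2) ≤ DD σ.H (bump m (σ.θ g)) :=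
    DD_ge σ.H (measurableSet_SS measurableSet_ball _ _) fun p hp => by
      have k1 : dist p.1 m < 4 * σ.θ b := hp.1
      have k2 := dist_triangle_right p.1 p.2 m
      exact ⟨bump_one hθ (by linarith only [t2, k1]), bump_zero hθ (by linarith only [hθ, t1, t2, k1, k2, hp, hp.2.1])⟩
  have h2 := σ.pull (m + (α : T)) (σ.θ g) hθ
  simp only [bump_add] at h2
  have h3 : σ.κ (m + (α : T)) (2 * σ.θ g) (2 * σ.θ f) ≤ σ.a (m + (α : T)) g₁ f :=
    σ.κ_mono (ball_subset_ball (by linarith only [t3])) le_rfl (by linarith only [σ.θ_pos f])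
  have h4 : 0 ≤ 2 * (σ.a (m + (α : T)) g₁ f + B) := by
    linarith only [hB0, h3, σ.κ_nonneg (m + (α : T)) (2 * σ.θ g) (2 * σ.θ f)]
  have h5 := (σ.DD_le (m + (α : T)) f g hB).trans
    (ENNReal.ofReal_le_ofReal (q := 2 * (σ.a (m + (α : T)) g₁ f + B)) (by linarith only [h3]))
  refine ENNReal.toReal_le_of_le_ofReal (by positivity) ((h1.trans h2).trans ?_)
  rw [ENNReal.ofReal_mul (Nat.cast_nonneg N), ENNReal.ofReal_add h4 (Nat.cast_nonneg N),
    ENNReal.ofReal_natCast]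
  gcongr

theorem step2 (N : ℕ) {ε : ℝ} (hε : 0 < ε) (R : ℕ) : ∃ (L : ℕ) (C : ℝ), 0 ≤ C ∧
    ∀ (α : ℝ) (σ : Sys α N) (lo hi : ℕ) (V P : ℝ), σ.Win lo hi V P →
      ∀ (m : T) (a b : ℕ), lo ≤ a → a + L ≤ b → b ≤ hi →
        ∃ g₀ g₁ : ℕ, a ≤ g₀ ∧ g₀ + R ≤ g₁ ∧ g₁ + 4 ≤ b ∧
          σ.κ m (4 * σ.θ b) (2 * σ.θ a) ≤ 2 * N * σ.a (m + (α : T)) g₁ g₀ + ε * V + C * P := by
  obtain ⟨s₀, hs₀⟩ := exists_pow_lt_of_lt_one (x := ε / (56000 * (N + 1))) (y := (3 / 4 : ℝ))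
    (by positivity) (by norm_num)
  obtain ⟨P₀, hP₀⟩ := exists_nat_gt (8000 * N / ε)
  have hP : 0 < P₀ := Nat.cast_pos.1 (lt_of_le_of_lt (by positivity) hP₀)
  obtain ⟨s, hs, h34⟩ : ∃ s : ℕ, R + 4 ≤ s ∧ 56000 * N * (3 / 4 : ℝ) ^ s ≤ ε := by
    refine ⟨s₀ + (R + 4), by omega, ?_⟩
    have k1 : (3 / 4 : ℝ) ^ (s₀ + (R + 4)) ≤ (3 / 4) ^ s₀ :=
      pow_le_pow_of_le_one (by norm_num) (by norm_num) (by omega)
    rw [lt_div_iff₀ (by positivity)] at hs₀
    have k2 : (0 : ℝ) ≤ (3 / 4) ^ s₀ := by positivity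
    have k3 := mul_le_mul_of_nonneg_left k1 (Nat.cast_nonneg (α := ℝ) N)
    linarith only [hs₀, k2, k3]
  rw [div_lt_iff₀ hε] at hP₀
  refine ⟨P₀ * (s + s), 32 * N * s + 100000 * N + N ^ 2, by positivity,
    fun α σ lo hi V P hW m a b h1 h2 h3 => ?_⟩
  obtain ⟨i, hi', hJ⟩ := σ.J_pigeon a (s + s) hP
  have h4 : (i + 1) * (s + s) ≤ P₀ * (s + s) := Nat.mul_le_mul_right _ hi'
  rw [Nat.succ_mul] at h4
  have h5 := (hJ.trans (σ.J_mono h1 (h2.trans h3))).trans hW.J_le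
  obtain ⟨f, hf⟩ : ∃ f, f = a + i * (s + s) := ⟨_, rfl⟩
  rw [← hf, ← add_assoc] at h5
  have hV := hW.V_nonneg
  have hP1 := hW.one_le
  have hJ0 := σ.J_nonneg f (f + s + s)
  refine ⟨f, f + s - 4, by omega, by omega, by omega, ?_⟩
  refine (AG_pass σ m (f := f) (g := f + s) (g₁ := f + s - 4) (by omega) (by omega) (by omega)
    (by positivity) (σ.class_sum hW _ (by omega) (by omega))).trans ?_
  have k1 := mul_le_mul_of_nonneg_right h34 hV
  have k2 := mul_le_mul_of_nonneg_right hP₀.le hJ0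
  have k3 := mul_le_mul_of_nonneg_left h5 hε.le
  have k4 := mul_le_mul_of_nonneg_left hP1 (by positivity : (0 : ℝ) ≤ 32 * N * s + N ^ 2)
  linarith only [k1, k2, k3, k4]

end Pool.Agent.Work.MP_042f46_an.Ty
end
end

-- merged part: Pool.Agent.Work.MP_042f46_an.T.A9
section
/-!
# Step III, the contraction and the uniform bound

Plans.  `atom_ind`: induction on `k` (nothing to prove for `k = 0`).  For `k + 1` take `L', C'` from the case `k` with `ε / (4 (N + 1))`, `R = L' + 4 N + 2`, `step2` with `ε / 4` and `R`, then `step1` with `ε / 4` and the length given by `step2`.  If the atom is heavy we get `m, t, a, b`, then `g₀', g₁'` with `t < q (g₀' + 1)`, `dist (c + t α) m ≤ θ g₁'` (`θ_four`).  If `m ∈ U` then `‖(T + t) α‖ ≤ (N + 1) θ g₁'` with `0 < T + t < (N + 1) q (g₀' + 1) ≤ q (g₀' + 1 + 2 N)` (`q_pow`), against `sep` and `θ_pow`.  Otherwise apply the case `k` to `insert m U`, the point `m + α` and the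 levels `g₀', g₁'`.
`contract`: `A = 116 N + 601 N ^ 2 + 1`, `V = 2 A (k + P)`, window `lo = l - M₀`, `hi = l + M₀`, `M = 2 M₀ + 10`, `Win` with `2 P` from `J_crude` (powers of `lam` up to `M` are at most two, `lam ≤ 11 / 10`; `θ j ≤ x θ (j + 1)` follows from `θ j ^ 2 ≤ x θ (j + 1) ^ 2`, `1 ≤ x`).  `atom_small` gives `L ≥ 4` and the bound `a₀ = ε V + C P` for `At g (g - L)` inside the window (`At_zero` when `g ≤ L`).  `J_pigeon` from `l + 2` with width `2 L` gives `d₁ = l + 2 + i (2 L) + L`, `d₂ = d₁ + L` with `P₀ J (d₁ - L) d₂ ≤ V`; `S1` bounds `K d₁`, `K d₂`; `JB` with `l₁ = l - L`, `l₂ = l`, `e = l - L - L - 2`; `S1` again.  `M₀ = 2 L P₀ + 2 L + 10`.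
`bound`: `lam = min (11 / 10) (1 + 1 / (2 M + 2))`-like number with `1 < lam`, `lam ^ M ≤ 2` (or `exp (1 / (20 (M + 1)))`); at a good level `l₀`, `θ (n - M) ≤ (C (1 + M + dist n l₀) ^ 4) ^ M θ n`, and a polynomial in `dist n l₀` is at most `C₀ lam ^ dist n l₀`.  The supremum `k₀` of `K n / lam ^ dist n l₀` is finite (`K_bdd`); `contract` at level `l` with `k₀ lam ^ dist l l₀`, `C₀ lam ^ dist l l₀` (`Nat.dist.triangle_inequality`) gives `k₀ ≤ k₀ / 2 + C C₀`.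
-/

open Set Metric Topology Filter MeasureTheory
open scoped ENNReal NNReal

noncomputable section
namespace Pool.Agent.Work.MP_042f46_an.Ty

theorem A9_add (α : ℝ) (u : T) (a b : ℕ) :
    u + ((((a + b : ℕ) : ℝ) * α : ℝ) : T) = u + (((a : ℝ) * α : ℝ) : T) + (((b : ℝ) * α : ℝ) : T) := by
  rw [add_assoc, ← AddCircle.coe_add, Nat.cast_add, add_mul]

theorem A9_rep {α : ℝ} (Λ : Lev α) {N g₀ g₁ t : ℕ} (hg : g₀ + (4 * N + 2) ≤ g₁) (h0 : 0 < t)
    (ht : t < (N + 1) * Λ.q (g₀ + 1)) (m : T) :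
    ((N : ℝ) + 1) * Λ.θ g₁ < dist (m + (((t : ℝ) * α : ℝ) : T)) m := by
  have h1 : N + 1 ≤ 2 ^ N := Nat.lt_two_pow_self
  have h2 := Λ.q_pow (g₀ + 1) N
  have h3 : t < Λ.q (g₀ + 2 * N + 1) := by
    rw [show g₀ + 2 * N + 1 = g₀ + 1 + 2 * N by omega]
    exact ht.trans_le ((Nat.mul_le_mul_right _ h1).trans h2)
  have h4 := Λ.sep _ t h0 h3
  have h5 := Λ.θ_pow (g₀ + 2 * N) (N + 1)
  have h6 : Λ.θ g₁ ≤ Λ.θ (g₀ + 2 * N + 2 * (N + 1)) := Λ.θ_anti (by omega)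
  have h7 : (N : ℝ) + 1 < 2 ^ (N + 1) := by
    exact_mod_cast (Nat.lt_two_pow_self : N + 1 < 2 ^ (N + 1))
  rw [dist_add_self]
  have h8 := Λ.θ_pos g₁
  have h9 : (0 : ℝ) < 2 ^ (N + 1) := by positivity
  linarith only [h4, h5, h6, h7, h8, mul_nonneg_of_nonpos_of_nonpos (Mathlib.Tactic.Linarith.sub_nonpos_of_le (Mathlib.Tactic.Linarith.natCast_nonneg ℝ N)) (Mathlib.Tactic.Linarith.sub_nonpos_of_le h6), mul_nonneg_of_nonpos_of_nonpos (Mathlib.Tactic.Linarith.sub_nonpos_of_le h6) (le_of_lt (Mathlib.Tactic.Linarith.sub_neg_of_lt h7)), mul_pos_of_neg_of_neg (Mathlib.Tactic.Linarith.sub_neg_of_lt h7) (Mathlib.Tactic.Linarith.sub_neg_of_lt h8)]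

theorem atom_ind (N k : ℕ) : ∀ ε : ℝ, 0 < ε → ∃ (L : ℕ) (C : ℝ), 0 ≤ C ∧
    ∀ (α : ℝ) (σ : Sys α N) (lo hi : ℕ) (V P : ℝ), σ.Win lo hi V P →
      ∀ U ⊆ σ.M, (σ.M \ U).card < k → ∀ (c : T) (g₀ g₁ : ℕ), lo ≤ g₀ → g₀ + L ≤ g₁ → g₁ ≤ hi →
        (∀ u ∈ U, ∃ T : ℕ, 1 ≤ T ∧ T ≤ U.card * σ.q (g₀ + 1) ∧
          dist (u + (((T : ℝ) * α : ℝ) : Ty.T)) c ≤ U.card * σ.θ g₁) →
        σ.a c g₁ g₀ ≤ ε * V + C * P := by
  induction k with
  | zero => exact fun ε _ => ⟨0, 0, le_rfl, fun _ _ _ _ _ _ _ _ _ h => absurd h (Nat.not_lt_zero _)⟩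
  | succ k ih =>
    intro ε hε
    obtain ⟨L', C', hC', h'⟩ := ih (ε / (4 * (N + 1))) (by positivity)
    obtain ⟨L₂, C₂, hC₂, h₂⟩ := step2 N (ε := ε / 4) (by positivity) (L' + (4 * N + 2))
    obtain ⟨L₁, C₁, hC₁, h₁⟩ := step1 N (ε := ε / 4) (by positivity) L₂
    refine ⟨L₁, C₁ + 2 * N * C' + C₂ + (N : ℝ) ^ 2, by positivity, ?_⟩
    intro α σ lo hi V P hW U hU hk c g₀ g₁ hlo hL hhi hF
    have hV := hW.V_nonneg
    have hP := hW.one_le
    have hN : (0 : ℝ) ≤ N := Nat.cast_nonneg N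
    have e1 : 0 ≤ 2 * N * C' * P := by positivity
    have e2 : 0 ≤ C₂ * P := by positivity
    have e3 : (N : ℝ) ^ 2 ≤ (N : ℝ) ^ 2 * P := le_mul_of_one_le_right (sq_nonneg _) hP
    have e4 : C₁ ≤ C₁ * P := le_mul_of_one_le_right hC₁ hP
    have e5 : 0 ≤ ε * V := by positivity
    by_contra hn
    rw [not_le] at hn
    obtain ⟨m, hm, t, a, b, k1, k2, k3, k4, k5, k6⟩ := h₁ α σ lo hi V P hW c g₀ g₁ hlo hL hhi
      (by linarith only [e1, e2, e3, e4, e5, hn, sq_nonneg (N : ℝ), sq_nonneg ↑N])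
    obtain ⟨f₀, f₁, j1, j2, j3, j4⟩ := h₂ α σ lo hi V P hW m a b (hlo.trans k1) k2 (k3.trans hhi)
    have hd : dist (c + (((t : ℝ) * α : ℝ) : T)) m ≤ σ.θ f₁ := by
      linarith only [k5, j3, σ.θ_four j3, σ.θ_pos b]
    have hq : σ.q (g₀ + 1) ≤ σ.q (f₀ + 1) := σ.q_mono (by omega)
    have hq' : t < σ.q (f₀ + 1) := k4.trans_le (σ.q_mono (by omega))
    have hθ : σ.θ g₁ ≤ σ.θ f₁ := σ.θ_anti (by omega)
    have hc : U.card ≤ N := (Finset.card_le_card hU).trans σ.M_card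
    have key : ∀ u ∈ U, ∃ s : ℕ, 1 ≤ s ∧ s < (U.card + 1) * σ.q (f₀ + 1) ∧
        dist (u + (((s : ℝ) * α : ℝ) : T)) m ≤ ((U.card : ℝ) + 1) * σ.θ f₁ := fun u hu => by
      obtain ⟨s, s1, s2, s3⟩ := hF u hu
      refine ⟨s + t, by omega, ?_, ?_⟩
      · have := Nat.mul_le_mul_left U.card hq
        rw [add_mul, one_mul]
        omega
      · have d1 := dist_triangle (u + (((s : ℝ) * α : ℝ) : T) + (((t : ℝ) * α : ℝ) : T))
          (c + (((t : ℝ) * α : ℝ) : T)) m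
        rw [dist_add_right] at d1
        have d2 : (U.card : ℝ) * σ.θ g₁ ≤ U.card * σ.θ f₁ := by gcongr
        rw [A9_add]
        linarith only [hd, s3, d1, d2]
    by_cases hmU : m ∈ U
    · obtain ⟨s, s1, s2, s3⟩ := key m hmU
      have r := A9_rep σ.toLev (N := N) (g₀ := f₀) (g₁ := f₁) (by omega) s1
        (s2.trans_le (Nat.mul_le_mul_right _ (by omega))) m
      have : ((U.card : ℝ) + 1) * σ.θ f₁ ≤ ((N : ℝ) + 1) * σ.θ f₁ := by
        have := (σ.θ_pos f₁).le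
        gcongr
      linarith only [s3, r, this]
    · have hk' : (σ.M \ insert m U).card < k := by
        rw [Finset.sdiff_insert, Finset.card_erase_of_mem (Finset.mem_sdiff.2 ⟨hm, hmU⟩)]
        have := Finset.card_pos.2 ⟨m, Finset.mem_sdiff.2 ⟨hm, hmU⟩⟩
        omega
      have r := h' α σ lo hi V P hW (insert m U) (Finset.insert_subset hm hU) hk' (m + (α : T))
        f₀ f₁ (by omega) (by omega) (by omega) fun u hu => by
          rw [Finset.card_insert_of_notMem hmU]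
          rcases Finset.mem_insert.1 hu with rfl | hu
          · refine ⟨1, le_rfl, Nat.mul_pos (Nat.succ_pos _) (σ.q_pos f₀), ?_⟩
            rw [Nat.cast_one, one_mul, dist_self]
            exact mul_nonneg (Nat.cast_nonneg _) (σ.θ_pos _).le
          · obtain ⟨s, s1, s2, s3⟩ := key u hu
            refine ⟨s + 1, by omega, s2, ?_⟩
            rw [A9_add, Nat.cast_one, one_mul, dist_add_right, Nat.cast_succ]
            exact s3
      have r2 : 2 * N * (ε / (4 * (N + 1)) * V) ≤ ε / 2 * V := by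
        rw [← mul_assoc]
        gcongr
        rw [← mul_div_assoc, div_le_div_iff₀ (by positivity) (by positivity)]
        linarith only [hε]
      have r3 : 2 * N * σ.a (m + (α : T)) f₁ f₀ ≤ 2 * N * (ε / (4 * (N + 1)) * V + C' * P) := by
        gcongr
      linarith only [hC₁, e3, e4, e5, hn, k6, j4, r2, r3]

theorem atom_small (N : ℕ) {ε : ℝ} (hε : 0 < ε) : ∃ (L : ℕ) (C : ℝ), 0 ≤ C ∧
    ∀ (α : ℝ) (σ : Sys α N) (lo hi : ℕ) (V P : ℝ), σ.Win lo hi V P →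
      ∀ g₀ g₁ : ℕ, lo ≤ g₀ → g₀ + L ≤ g₁ → g₁ ≤ hi → σ.At g₁ g₀ ≤ ε * V + C * P := by
  obtain ⟨L, C, hC, h⟩ := atom_ind N (N + 1) ε hε
  refine ⟨L, C, hC, fun α σ lo hi V P hW g₀ g₁ h0 h1 h2 => σ.At_le fun c => ?_⟩
  refine h α σ lo hi V P hW ∅ (Finset.empty_subset _) ?_ c g₀ g₁ h0 h1 h2 (by simp)
  rw [Finset.sdiff_empty]
  exact Nat.lt_succ_of_le σ.M_card

end Pool.Agent.Work.MP_042f46_an.Ty
end
end

-- merged part: Pool.Agent.Work.MP_042f46_an.T.AB
section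
/-!
# Step III, the contraction and the uniform bound

Plans.  `atom_ind`: induction on `k` (nothing to prove for `k = 0`).  For `k + 1` take `L', C'` from the case `k` with `ε / (4 (N + 1))`, `R = L' + 4 N + 2`, `step2` with `ε / 4` and `R`, then `step1` with `ε / 4` and the length given by `step2`.  If the atom is heavy we get `m, t, a, b`, then `g₀', g₁'` with `t < q (g₀' + 1)`, `dist (c + t α) m ≤ θ g₁'` (`θ_four`).  If `m ∈ U` then `‖(T + t) α‖ ≤ (N + 1) θ g₁'` with `0 < T + t < (N + 1) q (g₀' + 1) ≤ q (g₀' + 1 + 2 N)` (`q_pow`), against `sep` and `θ_pow`.  Otherwise apply the case `k` to `insert m U`, the point `m + α` and the levels `g₀', g₁'`.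
`contract`: `A = 116 N + 601 N ^ 2 + 1`, `V = 2 A (k + P)`, window `lo = l - M₀`, `hi = l + M₀`, `M = 2 M₀ + 10`, `Win` with `2 P` from `J_crude` (powers of `lam` up to `M` are at most two, `lam ≤ 11 / 10`; `θ j ≤ x θ (j + 1)` follows from `θ j ^ 2 ≤ x θ (j + 1) ^ 2`, `1 ≤ x`).  `atom_small` gives `L ≥ 4` and the bound `a₀ = ε V + C P` for `At g (g - L)` inside the window (`At_zero` when `g ≤ L`).  `J_pigeon` from `l + 2` with width `2 L` gives `d₁ = l + 2 + i (2 L) + L`, `d₂ = d₁ + L` with `P₀ J (d₁ - L) d₂ ≤ V`; `S1` bounds `K d₁`, `K d₂`; `JB` with `l₁ = l - L`, `l₂ = l`, `e = l - L - L - 2`; `S1` again.  `M₀ = 2 L P₀ + 2 L + 10`.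
`bound`: `lam = min (11 / 10) (1 + 1 / (2 M + 2))`-like number with `1 < lam`, `lam ^ M ≤ 2` (or `exp (1 / (20 (M + 1)))`); at a good level `l₀`, `θ (n - M) ≤ (C (1 + M + dist n l₀) ^ 4) ^ M θ n`, and a polynomial in `dist n l₀` is at most `C₀ lam ^ dist n l₀`.  The supremum `k₀` of `K n / lam ^ dist n l₀` is finite (`K_bdd`); `contract` at level `l` with `k₀ lam ^ dist l l₀`, `C₀ lam ^ dist l l₀` (`Nat.dist.triangle_inequality`) gives `k₀ ≤ k₀ / 2 + C C₀`.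
-/

open Set Metric Topology Filter MeasureTheory
open scoped ENNReal NNReal

noncomputable section
namespace Pool.Agent.Work.MP_042f46_an.Ty

theorem AB_pow {lam : ℝ} {M d t : ℕ} (h1 : 1 ≤ lam) (h2 : lam ≤ 11 / 10) (h3 : lam ^ M ≤ 2)
    (h : d ≤ M + t) : lam ^ d ≤ 2 * (11 / 10) ^ t :=
  calc lam ^ d ≤ lam ^ M * lam ^ t := pow_add lam M t ▸ pow_le_pow_right₀ h1 h
    _ ≤ 2 * (11 / 10) ^ t := by gcongr

theorem AB_win {α : ℝ} {N : ℕ} (σ : Sys α N) {l M₀ : ℕ} {k P : ℝ} (h0 : 1 ≤ M₀) (hk : 0 ≤ k)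
    (hP : 1 ≤ P)
    (hK : ∀ n t, Nat.dist n l ≤ 2 * M₀ + 10 + t → σ.K n ≤ 2 * k * (11 / 10) ^ t)
    (hθ : ∀ m n t, n - (2 * M₀ + 10) ≤ m → Nat.dist n l ≤ 2 * M₀ + 10 + t →
      σ.θ m ^ 2 ≤ 2 * P * (11 / 10) ^ t * σ.θ n ^ 2) :
    σ.Win (l - M₀) (l + M₀) (2 * (116 * N + 601 * (N : ℝ) ^ 2 + 1) * (k + P)) (2 * P) := by
  have n1 : (0 : ℝ) ≤ 116 * N := by positivity
  have n2 : (0 : ℝ) ≤ 601 * (N : ℝ) ^ 2 := by positivity
  have p0 : 0 ≤ P := by linarith only [hP]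
  have key : ∀ l₁ l₂ t, l₁ ≤ l₂ → Nat.dist l₁ l ≤ 2 * M₀ + 10 + t →
      Nat.dist (l₂ + 2) l ≤ 2 * M₀ + 10 + t → Nat.dist (l₂ + 6) l ≤ 2 * M₀ + 10 + t →
      l₂ + 6 - (2 * M₀ + 10) ≤ l₁ - 4 →
      σ.J l₁ l₂ ≤ 2 * (116 * N + 601 * (N : ℝ) ^ 2 + 1) * (k + P) * (11 / 10) ^ t := by
    intro l₁ l₂ t a1 a2 a3 a4 a5
    refine (σ.J_crude a1 (hK _ t a2) (hK _ t a3) (hK _ t a4) (hθ _ _ t a5 a4)).trans ?_
    have : (0 : ℝ) ≤ (11 / 10) ^ t := by positivity
    have := mul_nonneg this (add_nonneg (add_nonneg (mul_nonneg n1 p0) (mul_nonneg n2 hk))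
      (add_nonneg hk p0))
    linarith only [this]
  refine ⟨by positivity, by linarith only [hP], fun n a1 a2 => ?_, ?_, fun j hj => ?_, fun j hj => ?_⟩
  · have := hK n 0 (by unfold Nat.dist; omega)
    have := mul_nonneg (add_nonneg n1 n2) (add_nonneg hk p0)
    linarith
  · simpa using key (l - M₀) (l + M₀) 0 (by omega) (by unfold Nat.dist; omega)
      (by unfold Nat.dist; omega) (by unfold Nat.dist; omega) (by omega)
  · exact key j (j + 1) _ (by omega) (by unfold Nat.dist; omega) (by unfold Nat.dist; omega)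
      (by unfold Nat.dist; omega) (by omega)
  · have a1 := hθ j (j + 1) (j - (l + M₀)) (by omega) (by unfold Nat.dist; omega)
    have a2 : (1 : ℝ) ≤ (11 / 10) ^ (j - (l + M₀)) := one_le_pow₀ (by norm_num)
    have a3 : 1 ≤ 2 * P * (11 / 10) ^ (j - (l + M₀)) := by linarith only [hP, a2, mul_nonneg_of_nonpos_of_nonpos (Mathlib.Tactic.Linarith.sub_nonpos_of_le hP) (Mathlib.Tactic.Linarith.sub_nonpos_of_le a2)]
    generalize 2 * P * (11 / 10) ^ (j - (l + M₀)) = x at a1 a3 ⊢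
    have a4 := σ.θ_pos (j + 1)
    refine le_of_sq_le_sq (a1.trans ?_) (by positivity)
    rw [mul_pow]
    gcongr
    linarith only [a3, mul_nonneg_of_nonpos_of_nonpos (Mathlib.Tactic.Linarith.sub_nonpos_of_le a3) (Mathlib.Tactic.Linarith.sub_nonpos_of_le a3)]

theorem contract (N : ℕ) : ∃ (M : ℕ) (C : ℝ), 0 ≤ C ∧
    ∀ (α : ℝ) (σ : Sys α N) (l : ℕ) (k P lam : ℝ), 1 ≤ lam → lam ≤ 11 / 10 → lam ^ M ≤ 2 →
      0 ≤ k → 1 ≤ P → (∀ n, σ.K n ≤ k * lam ^ Nat.dist n l) →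
      (∀ n, σ.θ (n - M) ^ 2 ≤ P * lam ^ Nat.dist n l * σ.θ n ^ 2) → σ.K l ≤ k / 2 + C * P := by
  obtain ⟨A, hA⟩ : ∃ A : ℕ, A = 116 * N + 601 * N ^ 2 + 1 := ⟨_, rfl⟩
  obtain ⟨B, hB⟩ : ∃ B : ℕ, B = 232 * N + 1 := ⟨_, rfl⟩
  have A0 : 0 < A := by omega
  have B0 : 0 < B := by omega
  have A1 : (0 : ℝ) < A := by exact_mod_cast A0
  have B1 : (0 : ℝ) < B := by exact_mod_cast B0
  have eA : (116 * N + 601 * (N : ℝ) ^ 2 + 1) = A := by rw [hA]; push_cast; rfl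
  have eB : (B : ℝ) = 232 * N + 1 := by rw [hB]; push_cast; rfl
  obtain ⟨L₀, C₀, hC, hs⟩ := atom_small N (ε := 1 / (8 * A * B)) (by positivity)
  obtain ⟨L, hL⟩ : ∃ L, L = L₀ + 4 := ⟨_, rfl⟩
  obtain ⟨W, hW⟩ : ∃ W, W = 16 * A * B * (2 * L) := ⟨_, rfl⟩
  refine ⟨2 * (W + 2 * L + 10) + 10, 1 / 2 + B * (2 * C₀ + 4) + 2404 * (N : ℝ) ^ 2, by positivity,
    fun α σ l k P lam h1 h2 h3 hk hP hK hθ => ?_⟩
  have p0 : 0 ≤ P := by linarith only [hP]
  have hθ' : ∀ m n t, n - (2 * (W + 2 * L + 10) + 10) ≤ m →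
      Nat.dist n l ≤ 2 * (W + 2 * L + 10) + 10 + t →
      σ.θ m ^ 2 ≤ 2 * P * (11 / 10) ^ t * σ.θ n ^ 2 := fun m n t a1 a2 => by
    have := AB_pow h1 h2 h3 a2
    calc σ.θ m ^ 2 ≤ σ.θ (n - (2 * (W + 2 * L + 10) + 10)) ^ 2 :=
          pow_le_pow_left₀ (σ.θ_pos m).le (σ.θ_anti a1) 2
      _ ≤ _ := hθ n
      _ ≤ P * (2 * (11 / 10) ^ t) * σ.θ n ^ 2 := by gcongr
      _ = _ := by ring
  have w := AB_win σ (M₀ := W + 2 * L + 10) (by omega) hk hP (fun n t a => by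
    have := mul_le_mul_of_nonneg_left (AB_pow h1 h2 h3 a) hk
    linarith only [this, hK, hK n]) hθ'
  rw [eA] at w
  obtain ⟨u, hu⟩ : ∃ u, u = (k + P) / (4 * B) := ⟨_, rfl⟩
  have u0 : 0 ≤ u := by rw [hu]; positivity
  have eu : k + P = 4 * B * u := by rw [hu]; field_simp
  have c0 := mul_nonneg hC p0
  have at1 : ∀ g₁ g₀, l - (W + 2 * L + 10) ≤ g₀ → g₀ = g₁ - L → g₁ ≤ l + (W + 2 * L + 10) →
      σ.At g₁ g₀ ≤ u + 2 * (C₀ * P) := fun g₁ g₀ a1 a2 a3 => by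
    by_cases e : g₁ ≤ L
    · rw [show g₀ = 0 by omega, σ.At_zero]
      linarith only [u0, c0]
    · refine (hs α σ _ _ _ _ w g₀ g₁ a1 (by omega) a3).trans (le_of_eq ?_)
      rw [eu]
      field_simp
      ring
  obtain ⟨i, hi, hJ⟩ := σ.J_pigeon (l + 2) (2 * L) (P := 16 * A * B) (by positivity)
  have hi' : i * (2 * L) + 2 * L ≤ W := by
    rw [hW, ← Nat.succ_mul]
    exact Nat.mul_le_mul_right _ hi
  rw [← hW] at hJ
  generalize i * (2 * L) = s at hi' hJ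
  have j1 : 2 * σ.J (l + 2 + s) (l + 2 + s + 2 * L) ≤ u := by
    have := (hJ.trans (σ.J_mono (by omega) (by omega))).trans w.J_le
    rw [eu] at this
    push_cast at this
    refine le_of_mul_le_mul_left (a := (8 * A * B : ℝ)) ?_ (by positivity)
    linarith only [this]
  have j2 := σ.J_mono (l₁ := l + 2 + s) (l₂ := l + 2 + s + L) (l₁' := l + 2 + s)
    (l₂' := l + 2 + s + 2 * L) le_rfl (by omega)
  have j3 := σ.J_mono (l₁ := l + 2 + s + L) (l₂ := l + 2 + s + 2 * L) (l₁' := l + 2 + s)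
    (l₂' := l + 2 + s + 2 * L) (by omega) le_rfl
  have t1 := at1 (l + 2 + s + L) (l + 2 + s) (by omega) (by omega) (by omega)
  have t2 := at1 (l + 2 + s + 2 * L) (l + 2 + s + L) (by omega) (by omega) (by omega)
  have t3 := at1 l (l - L) (by omega) rfl (by omega)
  have s1 := σ.S1 (g := l + 2 + s) (n := l + 2 + s + L) (by omega)
  have s2 := σ.S1 (g := l + 2 + s + L) (n := l + 2 + s + 2 * L) (by omega)
  have s3 := σ.S1 (g := l - L) (n := l) (by omega)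
  have jb := σ.JB (l₁ := l - L) (l₂ := l) (d₁ := l + 2 + s + L) (d₂ := l + 2 + s + 2 * L)
    (e := l - L - L - 2) (a := 2 * u + 2 * (C₀ * P) + 4) (P := 2 * P) (by omega) (by omega)
    (by omega) (by linarith only [j1, j2, t1, s1]) (by linarith only [j1, j3, t2, s2]) (by linarith only [u0, t2]) (by
      by_cases e : l - L - L - 2 = 0
      · exact .inl e
      · have := at1 (l - L) (l - L - L - 2 + 2) (by omega) (by omega) (by omega)
        exact .inr ⟨by omega, by linarith only [u0, this]⟩)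
    (by simpa using hθ' _ _ 0 (by omega) (by unfold Nat.dist; omega))
  have f1 : σ.K l ≤ B * (2 * u + 2 * (C₀ * P) + 4) + 2404 * (N : ℝ) ^ 2 * P := by
    rw [eB]
    linarith only [u0, t3, s3, jb]
  have f2 := mul_le_mul_of_nonneg_left hP B1.le
  linarith only [eu, f1, f2]

end Pool.Agent.Work.MP_042f46_an.Ty
end
end

-- merged part: Pool.Agent.Work.MP_042f46_an.T.AD
section
/-!
# Test functions of small energy

Plans.  `DD_good`: `DD_le` with `f = g = l`; `κ_cover` with `ν = 8`, and `cl (ball c (2 θ l)) j ≤ κ c (2 θ l) (2 θ (j + 1)) ≤ 9 (θ l / θ (j + 1)) K (j + 1)`; the terms are at most a constant times `(3 / 4 * (11 / 10) ^ 2) ^ (j - l)`, whose sum is at most `11`.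
`dual_low`: `dual` at the points `c - θ / 4 < c + θ / 4 < c + 3 θ < c - 3 θ + 1` (`6 θ < 1` since `θ ≤ θ 1 / 4 ≤ 1 / 8`; `θ 1 ≤ 1 / 2` by `ret`); the first rectangle lies in `SS (ball c (θ / 2)) (2 θ) 2` (`le_dist_coe`), so its mass is at most `C`; if the second mass `x` is at most one then `exp x - 1 ≤ 2 x`.
`far_small`: enlarge `l` so that `5 ≤ l`; choose levels `l + 4 ≤ g 0`, `g i + 8 ≤ g (i + 1)` given by `hC`, `l' = g n + 8`; the rectangles of `dual_low` at the levels `g i`, `i < n`, are disjoint and contained in the rectangle dual to `arc (c - 2 θ l'') (c + 2 θ l'') × arc (c + θ l) (c - θ l + 1)`, whose mass `x` therefore has `x ≤ exp x - 1 ≤ 1 / (n exp (-C) / 2)`.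
`final`: `bound`; choose `n` with `C₁ / n ≤ ε / 2`, `1 / n ≤ ε`, `η = ε / 8`, and recursively good levels `l 0 ≥ 5`, `l (i + 1) ≥ l i + 2` beyond the level of `far_small` for `l i`; `s i = θ (l i)`.  With `Δ i = u i x - u i y` and `X i = ball c (2 s (i + 1)) × (ball c (s i))ᶜ`: `(∑ Δ i) ^ 2 ≤ ∑ Δ i ^ 2 + 2 n ∑ i (1_(X i) (x, y) + 1_(X i) (y, x))`, because `Δ i Δ j ≠ 0` with `i < j` forces `(x, y)` or `(y, x)` into `X i`.
-/

open Set Metric Topology Filter MeasureTheory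
open scoped ENNReal NNReal

noncomputable section
namespace Pool.Agent.Work.MP_042f46_an.Ty

theorem AD_low {C x y : ℝ} (hC : 0 ≤ C) (hy : y ≤ C) (hx : 0 ≤ x)
    (h : (Real.exp y - 1) * (Real.exp x - 1) = 1) : Real.exp (-C) / 2 ≤ x := by
  have e1 : Real.exp (-C) ≤ 1 := Real.exp_le_one_iff.2 (by linarith only [hC])
  rcases le_total 1 x with h1 | h1
  · linarith only [e1, h1]
  have e2 := (abs_le.1 (Real.abs_exp_sub_one_le (x := x) (by rwa [abs_of_nonneg hx]))).2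
  rw [abs_of_nonneg hx] at e2
  have e3 : Real.exp y - 1 ≤ Real.exp C := by linarith only [hy, Real.exp_le_exp.2 hy]
  have e4 : 0 ≤ Real.exp x - 1 := by linarith only [hx, Real.add_one_le_exp x]
  have e5 : 1 ≤ Real.exp C * (2 * x) := h.symm.trans_le (mul_le_mul e3 e2 e4 (Real.exp_pos C).le)
  rw [Real.exp_neg, div_le_iff₀ two_pos, inv_le_iff_one_le_mul₀' (Real.exp_pos C)]
  linarith only [e5]

theorem AD_small {C x y η : ℝ} {n : ℕ} (hη : 0 < η) (hn : 2 * Real.exp C / η ≤ n)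
    (hy : n * (Real.exp (-C) / 2) ≤ y) (h : (Real.exp x - 1) * (Real.exp y - 1) = 1) : x ≤ η := by
  have e0 := Real.exp_pos C
  have e1 : 1 ≤ η * (n * (Real.exp (-C) / 2)) := by
    rw [div_le_iff₀ hη] at hn
    have := mul_le_mul_of_nonneg_right hn (Real.exp_pos (-C)).le
    rw [mul_assoc, ← Real.exp_add, add_neg_cancel, Real.exp_zero] at this
    linarith only [this]
  have e2 : 1 ≤ η * (Real.exp y - 1) :=
    e1.trans (mul_le_mul_of_nonneg_left (by linarith only [hy, Real.add_one_le_exp y]) hη.le)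
  have e3 : 0 < Real.exp y - 1 := (mul_pos_iff_of_pos_left hη).1 (one_pos.trans_le e2)
  have e4 : Real.exp x - 1 ≤ η := le_of_mul_le_mul_right (h.trans_le e2) e3
  linarith only [e4, Real.add_one_le_exp x]

namespace Sys

variable {α : ℝ} {N : ℕ} (σ : Sys α N)

theorem DD_good {C : ℝ} (hC : 1 ≤ C) {l : ℕ}
    (hθ : ∀ n, σ.θ n ≤ C * (11 / 10) ^ Nat.dist n l * σ.θ (n + 1))
    (hK : ∀ n, σ.K n ≤ C * (11 / 10) ^ Nat.dist n l) (c : T) :
    DD σ.H (bump c (σ.θ l)) ≤ ENNReal.ofReal (100000 * C ^ 2) := by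
  have hl := σ.θ_pos l
  have C0 : 0 ≤ C := zero_le_one.trans hC
  refine (σ.DD_le c l l (B := 43000 * C ^ 2) fun n => ?_).trans (ENNReal.ofReal_le_ofReal ?_)
  · have term : ∀ k, min 1 (196 * (σ.θ (l + k) / σ.θ l) ^ 2) * σ.cl (ball c (2 * σ.θ l)) (l + k) ≤
        3881 * C ^ 2 * (363 / 400) ^ k := fun k => by
      have hj := σ.θ_pos (l + k)
      have hj' := σ.θ_pos (l + k + 1)
      have a1 : σ.θ (l + k + 1) ≤ σ.θ l := σ.θ_anti (by omega)
      have a2 : 1 ≤ σ.θ l / σ.θ (l + k + 1) := (one_le_div hj').2 a1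
      have a3 : (⌈8 * (σ.θ l / σ.θ (l + k + 1))⌉₊ : ℝ) ≤ 9 * (σ.θ l / σ.θ (l + k + 1)) := by
        have := Nat.ceil_lt_add_one (show 0 ≤ 8 * (σ.θ l / σ.θ (l + k + 1)) by positivity)
        linarith only [a2, this]
      have a4 : σ.cl (ball c (2 * σ.θ l)) (l + k) ≤
          9 * (σ.θ l / σ.θ (l + k + 1)) * σ.K (l + k + 1) := by
        refine (σ.Hr_mono (SS_sub_two _ _ _) (off_SS _ (by positivity) _)).trans
          ((σ.κ_cover c ⌈8 * (σ.θ l / σ.θ (l + k + 1))⌉₊ (l + k + 1) (l + k + 1) ?_).trans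
            (mul_le_mul_of_nonneg_right a3 (σ.K_nonneg _)))
        have := mul_le_mul_of_nonneg_right (Nat.le_ceil (8 * (σ.θ l / σ.θ (l + k + 1)))) hj'.le
        rw [mul_assoc, div_mul_cancel₀ _ hj'.ne'] at this
        linarith only [this]
      have a5 : σ.θ (l + k) / σ.θ l ≤ 2 * (3 / 4) ^ k := by
        have := σ.θ_geom (show l ≤ l + k by omega)
        rw [Nat.add_sub_cancel_left] at this
        exact (div_le_iff₀ hl).2 this
      have a6 : σ.θ (l + k) / σ.θ (l + k + 1) ≤ C * (11 / 10) ^ k := by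
        have := hθ (l + k)
        rw [show Nat.dist (l + k) l = k by unfold Nat.dist; omega] at this
        exact (div_le_iff₀ hj').2 this
      have a7 : σ.K (l + k + 1) ≤ C * (11 / 10) ^ (k + 1) := by
        have := hK (l + k + 1)
        rwa [show Nat.dist (l + k + 1) l = k + 1 by unfold Nat.dist; omega] at this
      have K0 := σ.K_nonneg (l + k + 1)
      calc _ ≤ 196 * (σ.θ (l + k) / σ.θ l) ^ 2 *
            (9 * (σ.θ l / σ.θ (l + k + 1)) * σ.K (l + k + 1)) :=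
            mul_le_mul (min_le_right _ _) a4 measureReal_nonneg (by positivity)
        _ = 1764 * ((σ.θ (l + k) / σ.θ l) * (σ.θ (l + k) / σ.θ (l + k + 1)) *
            σ.K (l + k + 1)) := by field_simp; ring
        _ ≤ 1764 * ((2 * (3 / 4) ^ k) * (C * (11 / 10) ^ k) * (C * (11 / 10) ^ (k + 1))) := by
            gcongr
        _ = 19404 / 5 * C ^ 2 * (3 / 4 * (11 / 10) * (11 / 10)) ^ k := by
            rw [mul_pow, mul_pow]; ring
        _ ≤ 3881 * C ^ 2 * (363 / 400) ^ k := by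
            rw [show (3 / 4 * (11 / 10) * (11 / 10) : ℝ) = 363 / 400 by norm_num]
            gcongr
            norm_num
    rw [Finset.sum_Ico_eq_sum_range]
    refine (Finset.sum_le_sum fun k _ => term k).trans ?_
    rw [← Finset.mul_sum, Finset.range_eq_Ico]
    have := geom_sum_Ico_le_of_lt_one (x := (363 / 400 : ℝ)) (m := 0) (n := n - l) (by norm_num)
      (by norm_num)
    have h2 : (363 / 400 : ℝ) ^ 0 / (1 - 363 / 400) ≤ 11 := by norm_num
    linarith only [this, h2, mul_le_mul_of_nonneg_left (this.trans h2) (sq_nonneg C), sq_nonneg C, sq_nonneg C]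
  · have h1 := σ.κ_cover c (R := 2 * σ.θ l) 8 l l (by push_cast; linarith)
    have h2 := hK l
    rw [Nat.dist_self, pow_zero, mul_one] at h2
    have h3 : σ.At l l ≤ C := h2
    push_cast at h1
    linarith only [hC, h1, h3, mul_nonneg_of_nonpos_of_nonpos (Mathlib.Tactic.Linarith.sub_nonpos_of_le hC) (Mathlib.Tactic.Linarith.sub_nonpos_of_le hC)]

theorem dual_low {C : ℝ} (hC : 0 ≤ C) {g : ℕ} (hg : 5 ≤ g) (hK : σ.K g ≤ C) (c : ℝ) :
    Real.exp (-C) / 2 ≤ σ.H.real (arc (c + σ.θ g / 4) (c + 3 * σ.θ g) ×ˢ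
      arc (c - 3 * σ.θ g + 1) (c - σ.θ g / 4 + 1)) := by
  have h0 := σ.θ_pos g
  have h1 : σ.θ g ≤ 1 / 8 := by
    have := σ.θ_four (show 1 + 4 ≤ g by omega)
    have := σ.θ_one
    linarith
  have hd := σ.dual (c - σ.θ g / 4) (c + σ.θ g / 4) (c + 3 * σ.θ g) (c - 3 * σ.θ g + 1)
    (by linarith only [h0]) (by linarith only [h0]) (by linarith only [h0, h1]) (by linarith only [h0])
  have hy : σ.H.real (arc (c - σ.θ g / 4) (c + σ.θ g / 4) ×ˢ
      arc (c + 3 * σ.θ g) (c - 3 * σ.θ g + 1)) ≤ C := by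
    refine (σ.Hr_mono (Y := SS (ball (c : T) (σ.θ g / 2)) (2 * σ.θ g) 2) ?_
      (off_SS _ (by positivity) _)).trans ((σ.a_le_At c g g).trans hK)
    rintro ⟨_, _⟩ ⟨⟨s, hs, rfl⟩, ⟨t, ht, rfl⟩⟩
    refine ⟨(dist_coe_le s c).trans_lt (abs_lt.2 ⟨by linarith only [h0, hs, hs.1], by linarith only [h0, hs, hs.2]⟩),
      le_dist_coe ?_ ?_, (dist_le_half _ _).trans_lt (by norm_num)⟩
    · rw [abs_sub_comm]
      exact le_trans (by linarith only [h0, hs, ht, hs.2, ht.1]) (le_abs_self _)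
    · exact abs_le.2 ⟨by linarith only [h0, hs, ht, hs.1, ht.2], by linarith only [h0, h1, hs, ht, hs.2, ht.1]⟩
  have hx : 0 ≤ σ.H.real (arc (c + σ.θ g / 4) (c + 3 * σ.θ g) ×ˢ
      arc (c - 3 * σ.θ g + 1) (c - σ.θ g / 4 + 1)) := measureReal_nonneg
  exact AD_low hC hy hx hd

end Sys

theorem far_small {N : ℕ} {α : ℝ} (Λ : Lev α) {C : ℝ} (h0 : 0 ≤ C)
    (hC : ∀ L : ℕ, ∃ l, L ≤ l ∧ ∀ K : Kit α N, (Sys.mk Λ K).K l ≤ C) (l : ℕ) {η : ℝ} (hη : 0 < η) :
    ∃ l', ∀ l'', l' ≤ l'' → ∀ (K : Kit α N) (c : T),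
      K.H (ball c (2 * Λ.θ l'') ×ˢ (ball c (Λ.θ l))ᶜ) ≤ ENNReal.ofReal η := by
  choose f hf hfK using hC
  let g : ℕ → ℕ := fun i => Nat.rec (f (l + 9)) (fun _ m => f (m + 8)) i
  have g0 : ∀ i, l + 9 ≤ g i := fun i => by
    induction i with
    | zero => exact hf _
    | succ i ih => exact ih.trans ((Nat.le_add_right _ 8).trans (hf (g i + 8)))
  have g1 : ∀ i j, i < j → g i + 8 ≤ g j := fun i j h => by
    induction j, h using Nat.le_induction with
    | base => exact hf _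
    | succ j _ ih => exact ih.trans ((Nat.le_add_right _ 8).trans (hf (g j + 8)))
  have g2 : ∀ (K : Kit α N) i, (Sys.mk Λ K).K (g i) ≤ C := fun K i => by
    cases i
    exacts [hfK _ K, hfK _ K]
  obtain ⟨n, hn⟩ := exists_nat_ge (2 * Real.exp C / η)
  refine ⟨g n, fun l'' hl K c => ?_⟩
  obtain ⟨c, -, rfl⟩ := exists_coe c
  have e8 : ∀ m k, m + 8 ≤ k → 16 * Λ.θ k ≤ Λ.θ m := fun m k h => by
    have := Λ.θ_four (show m + 4 ≤ m + 4 from le_rfl)
    have := Λ.θ_four (show m + 4 + 4 ≤ k from h)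
    linarith
  have p0 := Λ.θ_pos (l + 5)
  have p1 := Λ.θ_pos l''
  have p2 : Λ.θ (l + 5) ≤ 1 / 8 := by
    have := Λ.θ_four (show 1 + 4 ≤ l + 5 by omega)
    have := Λ.θ_one
    linarith
  have p3 : 4 * Λ.θ l'' ≤ Λ.θ (l + 5) := Λ.θ_four (by have := g0 n; omega)
  have p4 : ∀ i, 4 * Λ.θ (g i) ≤ Λ.θ (l + 5) := fun i => Λ.θ_four (g0 i)
  have hd := K.dual (c - 2 * Λ.θ l'') (c + 2 * Λ.θ l'') (c + Λ.θ (l + 5)) (c - Λ.θ (l + 5) + 1)
    (by linarith only [p1]) (by linarith only [p1, p3]) (by linarith only [p1, p2, p3]) (by linarith only [p1, p3])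
  have o1 : Off (arc (c - 2 * Λ.θ l'') (c + 2 * Λ.θ l'') ×ˢ
      arc (c + Λ.θ (l + 5)) (c - Λ.θ (l + 5) + 1)) := off_arc (by linarith only [p1, p3]) (by linarith only [p1, p3])
  have o2 : Off (arc (c + 2 * Λ.θ l'') (c + Λ.θ (l + 5)) ×ˢ
      arc (c - Λ.θ (l + 5) + 1) (c - 2 * Λ.θ l'' + 1)) := off_arc (by linarith only [p1, p2, p3]) (by linarith only [p1])
  let R : ℕ → Set (T × T) := fun i => arc (c + Λ.θ (g i) / 4) (c + 3 * Λ.θ (g i)) ×ˢ
    arc (c - 3 * Λ.θ (g i) + 1) (c - Λ.θ (g i) / 4 + 1)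
  have sub : ∀ i ∈ Finset.range n, R i ⊆ arc (c + 2 * Λ.θ l'') (c + Λ.θ (l + 5)) ×ˢ
      arc (c - Λ.θ (l + 5) + 1) (c - 2 * Λ.θ l'' + 1) := fun i hi => by
    have a1 := e8 (g i) l'' ((g1 i n (Finset.mem_range.1 hi)).trans hl)
    have a2 := p4 i
    have a3 := Λ.θ_pos (g i)
    exact prod_mono (arc_mono (by linarith only [p1, a1]) (by linarith only [p1, a1, a2])) (arc_mono (by linarith only [p1, a1, a2]) (by linarith only [p1, a1]))
  have dis : ∀ i j, i < j → Disjoint (R i) (R j) := fun i j h => by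
    have a1 := e8 _ _ (g1 i j h)
    have a2 := p4 i
    have a3 := Λ.θ_pos (g j)
    refine disjoint_left.2 ?_
    rintro ⟨x, y⟩ ⟨⟨s, hs, e⟩, -⟩ ⟨⟨t, ht, e'⟩, -⟩
    have := le_dist_coe (s := s) (t := t) (r := Λ.θ (g j))
      (le_trans (by linarith only [a1, hs, ht, hs.1, ht.2]) (le_abs_self _))
      (abs_le.2 ⟨by linarith only [p2, a1, a2, a3, hs, ht, hs.1, ht.2], by linarith only [p2, a1, a2, a3, hs, ht, hs.2, ht.1]⟩)
    rw [e.trans e'.symm, dist_self] at this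
    linarith only [a3, this]
  have hy : n * (Real.exp (-C) / 2) ≤ K.H.real (arc (c + 2 * Λ.θ l'') (c + Λ.θ (l + 5)) ×ˢ
      arc (c - Λ.θ (l + 5) + 1) (c - 2 * Λ.θ l'' + 1)) := by
    refine le_trans ?_ ((Sys.mk Λ K).Hr_mono (iUnion₂_subset sub) o2)
    rw [measureReal_biUnion_finset
      (fun i _ j _ h => (lt_or_gt_of_ne h).elim (dis i j) fun h => (dis j i h).symm)
      (fun i _ => (measurableSet_arc _ _).prod (measurableSet_arc _ _))
      fun i hi => (Sys.mk Λ K).H_fin (o2.mono (sub i hi))]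
    have := Finset.card_nsmul_le_sum (Finset.range n) (fun i => K.H.real (R i)) (Real.exp (-C) / 2)
      fun i _ => (Sys.mk Λ K).dual_low h0 (by have := g0 i; omega) (g2 K i) c
    rwa [Finset.card_range, nsmul_eq_mul] at this
  have hx := AD_small hη hn hy hd
  refine (measure_mono ?_).trans ((ENNReal.le_ofReal_iff_toReal_le (off_fin K.fin o1) hη.le).2 hx)
  rintro ⟨x, y⟩ ⟨hx, hy⟩
  obtain ⟨s, rfl, hs⟩ := exists_rep c x
  obtain ⟨t, rfl, ht⟩ := exists_rep c y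
  have b1 : |s| < 2 * Λ.θ l'' := hs ▸ hx
  have b2 : Λ.θ (l + 5) ≤ |t| := (Λ.θ_anti (Nat.le_add_right l 5)).trans (ht ▸ not_lt.1 hy)
  have b3 : |t| ≤ 1 / 2 := ht ▸ dist_le_half _ _
  refine ⟨⟨c + s, ⟨by linarith only [b1, (abs_lt.1 b1).1], by linarith only [b1, (abs_lt.1 b1).2]⟩,
    AddCircle.coe_add _ _ _⟩, ?_⟩
  rcases le_total 0 t with h | h
  · rw [abs_of_nonneg h] at b2 b3
    exact ⟨c + t, ⟨by linarith only [b2], by linarith only [p1, p2, p3, b3]⟩, AddCircle.coe_add _ _ _⟩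
  · rw [abs_of_nonpos h] at b2 b3
    exact ⟨c + t + 1, ⟨by linarith only [p1, p2, p3, b3], by linarith only [b2]⟩, (coe_add_one _).trans (AddCircle.coe_add _ _ _)⟩

end Pool.Agent.Work.MP_042f46_an.Ty
end
end
end

-- merged part: Pool.Agent.Work.MP_042f46_an.T.D4
section
-- merged part: Pool.Agent.Work.MP_042f46_an.T.CA
section
/-!
# The Dirichlet form of the preimage domain

Plans.  `exists_WF`: `proj` for `BV` and the submodule of functions vanishing on `Ub \ W` (`Ip_comm`, `Ip_self`).  `WF.congr`: the difference vanishes on `Ub \ W`.  `WF.min`: if `s - f` vanishes on `Ub \ W` then `w f f = w s s ≤ Ip s s`.  `hopf`: for `t > 0` the function `max 0 (s n - t g)` agrees with `f` on `Ub \ W`, so `w f f ≤ Ip (s n - t g) (s n - t g)` (`En_pos_le`); expand, let `n → ∞`: `0 ≤ -2 t w f g + t ^ 2 Ip g g`; let `t → 0`.  `w_Po`: `Ip (s n) (Po v) = Ip (Po v) (Po u)` by `Po_ip`.  `Po_le_w`: `Po_min` for `s n`.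
`w_pb`: let `u' = u (· - α)`, `v' = v (· - α)`, `Q z = Po v' (F z)`, which is `re (Ho v' ∘ F)` on `W` and has finite energy there (`En_comp_le`).  The function `s n` vanishes on `U \ W`, so its gradient vanishes almost everywhere there (`gr_level`, `Ip_restrict`); `Ip W (s n) Q = Ip W (ex u) Q` by `green` on `W`; `Ip W (ex u) Q = Ip (U ∩ Ω) (ex u' ∘ F) (Po v' ∘ F) = Ip (U ∩ Ω) (ex u') (Po v') = Ip U (Po u') (Po v')` (`ex_rot`, `Ip_comp_eq`, `F_img`, `extC_off`, `Po_ip`); and `Ip W (s n) (Q - pb (PE))` squared is at most `En (s n) * d * En U (Po v' - PE)` (`Ip_sq_le`, `En_comp_le`).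
`b_pos`: `hopf` for `ex u` and `pb (PE (rad v') ε) - ex v`, then `w_pb` and `PE_tend`.
-/

open Set Metric Topology Filter MeasureTheory
open scoped ENNReal NNReal

noncomputable section
namespace Pool.Agent.Work.MP_042f46_an.Ty

namespace Cf

variable (C : Cf)

theorem CA_diff : DifferentiableOn ℂ C.F C.W := C.F_diff.mono fun _ h => h.2.1

theorem CA_maps : MapsTo C.F C.W C.U := fun _ h => h.2.2

theorem CA_en {f : ℂ → ℝ} (hf : LL C.U f) : En C.W (fun z => f (C.F z)) ≤ C.d * En C.U f :=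
  En_comp_le C.isOpen_W C.CA_diff C.CA_maps hf C.isOpen_W.measurableSet subset_rfl
    C.isOpen_U.measurableSet C.CA_maps fun w =>
      le_trans (Set.encard_le_encard fun _ h => And.intro h.1.2.1 h.2) (C.fib w)

theorem CA_fin {f : ℂ → ℝ} (hf : IsV C.U C.Ub f) : En C.W (fun z => f (C.F z)) ≠ ∞ :=
  ne_top_of_le_ne_top (ENNReal.mul_ne_top (ENNReal.natCast_ne_top _) hf.fin) (C.CA_en hf.lip)

theorem CA_ll {f : ℂ → ℝ} (hf : LL C.U f) : LL C.W fun z => f (C.F z) :=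
  hf.comp (LL.of_diff C.isOpen_W C.CA_diff) C.CA_maps

theorem CA_restrict {O O' : Set ℂ} (hO : IsOpen O) (hO' : IsOpen O') (h : O ⊆ O') {f : ℂ → ℝ}
    (hf : LL O' f) (h0 : ∀ z ∈ O', z ∉ O → f z = 0) (f' : ℂ → ℝ) : Ip O' f f' = Ip O f f' :=
  Ip_restrict hO.measurableSet hO'.measurableSet h
    ((hf.gr_level 0).mono fun z hz h1 h2 => hz h1 (h0 z h1 h2)) f'

theorem CA_ex (u v' : LipT) : Ip C.W (C.ex u.1) (fun z => C.Po v'.1 (C.F z)) =
    Ip C.U (C.Po (rotL (C.α : T) u).1) (C.Po v'.1) := by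
  have ho : IsOpen (C.U ∩ C.Ω) := C.isOpen_U.inter C.isOpen_Ω
  have hW : C.U ∩ C.Ω ⊆ C.W := fun z h => C.mem_W h.2 h.1
  have hu' := (rotL (C.α : T) u).2
  rw [CA_restrict ho C.isOpen_W hW ((C.ex_V u.2).lip.mono C.W_sub)
      (fun z h h' => C.extC_off _ fun h'' => h' ⟨h.1, h''⟩),
    Ip_congr (f' := fun z => C.ex (rotL (C.α : T) u).1 (C.F z)) ho
      (fun z h => (C.ex_rot u.1 h.2).symm) (fun _ _ => rfl),
    Ip_comp_eq ho (C.CA_diff.mono hW) (C.F_inj.mono inter_subset_right)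
      (by rw [C.F_img]; exact (C.ex_V hu').lip.mono inter_subset_left)
      (by rw [C.F_img]; exact (C.Po_LL v'.2).mono inter_subset_left), C.F_img,
    ← CA_restrict ho C.isOpen_U inter_subset_left (C.ex_V hu').lip
      (fun z h h' => C.extC_off _ fun h'' => h' ⟨h, h''⟩), Ip_comm,
    C.Po_ip v'.2 hu' (C.ex_V hu') (C.ex_γ _), Ip_comm]

theorem CA_step (u v' : LipT) {Φ s g : ℂ → ℝ} (hΦ : IsV C.U C.Ub Φ) (hs : IsV C.U C.Ub s)
    (h : ∀ z ∈ C.Ub, z ∉ C.W → s z = C.ex u.1 z) (hg : ∀ z ∈ C.W, g z = Φ (C.F z)) :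
    (Ip C.U s g - Ip C.U (C.Po (rotL (C.α : T) u).1) (C.Po v'.1)) ^ 2 ≤
      Ip C.U s s * (C.d * (En C.U fun z => C.Po v'.1 z - Φ z).toReal) := by
  have hW := C.isOpen_W
  have hv := C.Po_V v'.2
  have hu := C.ex_V u.2
  have fin : ∀ {f : ℂ → ℝ}, IsV C.U C.Ub f → En C.W f ≠ ∞ := fun hf =>
    ne_top_of_le_ne_top hf.fin (En_mono C.W_sub _)
  have e0 : EqOn (fun z => C.Po v'.1 (C.F z)) (fun z => (C.Ho v'.1 (C.F z)).re) C.W :=
    fun z hz => C.Po_eq v'.1 hz.2.2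
  have e1 : Ip C.U s g = Ip C.W (fun z => Φ (C.F z)) s := by
    rw [CA_restrict hW C.isOpen_U C.W_sub hs.lip fun z hz hz' => ?_, Ip_comm]
    · exact Ip_congr hW hg fun _ _ => rfl
    rw [h z (C.U_sub hz) hz']
    exact C.extC_off _ fun h' => hz' (C.mem_W h' hz)
  have e2 := green hW C.W_sub C.U_sub C.isCompact_Ub ((C.Ho_diff v'.2).comp C.CA_diff C.CA_maps)
    (by
      have := C.CA_fin hv
      rwa [En_congr hW e0] at this) (hs.sub C.isOpen_U hu) fun z hz hz' => sub_eq_zero.2 (h z hz hz')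
  have e3 : Ip C.W (fun z => s z - C.ex u.1 z) (fun z => C.Po v'.1 (C.F z)) = 0 := by
    rw [Ip_comm, Ip_congr hW e0 fun _ _ => rfl]
    exact e2
  rw [Ip_sub hW (hs.lip.mono C.W_sub) (hu.lip.mono C.W_sub) (fin hs) (fin hu) (C.CA_fin hv),
    C.CA_ex, sub_eq_zero, Ip_comm] at e3
  have hd := hv.sub C.isOpen_U hΦ
  have e4 := Ip_sq_le (C.CA_fin hd) (fin hs)
  rw [Ip_sub hW (C.CA_ll hv.lip) (C.CA_ll hΦ.lip) (C.CA_fin hv) (C.CA_fin hΦ) (fin hs), e3, ← e1,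
    sub_sq_comm, mul_comm] at e4
  refine e4.trans (mul_le_mul ?_ ?_ ENNReal.toReal_nonneg ?_)
  · rw [Ip_self]
    exact ENNReal.toReal_mono hs.fin (En_mono C.W_sub _)
  · refine (ENNReal.toReal_mono (ENNReal.mul_ne_top (ENNReal.natCast_ne_top _) hd.fin)
      (C.CA_en hd.lip)).trans_eq ?_
    rw [ENNReal.toReal_mul, ENNReal.toReal_natCast]
  · rw [Ip_self]
    exact ENNReal.toReal_nonneg

end Cf

namespace Cf.WF

variable {C : Cf} (A : C.WF)

theorem w_pb (u v' : LipT) {Φ : ℂ → ℝ} (hΦ : IsV C.U C.Ub Φ) (g : C.𝓥)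
    (hg : ∀ z ∈ C.W, g.1 z = Φ (C.F z)) :
    (A.w (C.exL u) g - Ip C.U (C.Po (rotL (C.α : T) u).1) (C.Po v'.1)) ^ 2 ≤
      A.w (C.exL u) (C.exL u) * (C.d * (En C.U fun z => C.Po v'.1 z - Φ z).toReal) := by
  obtain ⟨s, hs, h1, h2⟩ := A.app (C.exL u)
  exact le_of_tendsto_of_tendsto' (((h1 g).sub_const _).pow 2) (h2.mul_const _) fun n =>
    C.CA_step u v' hΦ (s n).2 (hs n) hg

theorem b_pos (u v : LipT) (hu : ∀ x, 0 ≤ u.1 x) (hv : ∀ x, 0 ≤ v.1 x) :
    Ip C.U (C.Po (rotL (C.α : T) u).1) (C.Po (rotL (C.α : T) v).1) ≤ A.w (C.exL u) (C.exL v) := by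
  have hN := nice_rad (rotL (C.α : T) v).2
  have h0 : ∀ ζ, 0 ≤ rad (rotL (C.α : T) v).1 ζ := fun ζ => mul_nonneg (hv _) (le_max_left _ _)
  have ht := C.PE_tend hN
  rw [show (fun x => rad (rotL (C.α : T) v).1 (eT x)) = (rotL (C.α : T) v).1 from
    funext (rad_eT _)] at ht
  have ht' := ((ENNReal.tendsto_toReal ENNReal.zero_ne_top).comp ht).const_mul (C.d : ℝ)
    |>.const_mul (A.w (C.exL u) (C.exL u))
  rw [ENNReal.toReal_zero, mul_zero, mul_zero] at ht'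
  by_contra hn
  rw [not_le, ← sub_pos] at hn
  refine (pow_pos hn 2).not_ge (ge_of_tendsto ht' ?_)
  filter_upwards [self_mem_nhdsWithin] with ε hε
  obtain ⟨R, hR⟩ := C.PE_far hN ε
  let g : C.𝓥 := ⟨C.pb (C.PE (rad (rotL (C.α : T) v).1) ε), LL.isV C.isOpen_U C.isCompact_Ub C.U_sub
    ((C.pb_LL (C.PE_LL hN hε) hR).mono (subset_univ _))⟩
  have h1 := A.w_pb u (rotL (C.α : T) v) (C.PE_V hN hε) g fun z hz => C.pb_eq _ hz.2.1
  have h2 : A.w (C.exL u) (g - C.exL v) ≤ 0 := by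
    refine A.hopf fun z hz hz' => ?_
    change 0 ≤ C.ex u.1 z ∧ 0 ≤ C.pb _ z - C.ex v.1 z ∧ C.ex u.1 z * (C.pb _ z - C.ex v.1 z) = 0
    refine ⟨C.ex_nonneg hu z, ?_⟩
    by_cases hΩ : z ∈ C.Ω
    · obtain ⟨x, rfl⟩ := C.exists_γ hz fun h => hz' (C.mem_W hΩ h)
      have : (rotL (C.α : T) v).1 (x + (C.α : T)) = v.1 x := congrArg v.1 (add_sub_cancel_right _ _)
      rw [C.pb_γ, C.PE_γ, rad_eT, C.ex_γ v.1, this, sub_self, mul_zero]
      exact ⟨le_rfl, rfl⟩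
    · rw [show C.ex u.1 z = 0 from C.extC_off _ hΩ, show C.ex v.1 z = 0 from C.extC_off _ hΩ,
        zero_mul, sub_zero]
      exact ⟨C.pb_nonneg (C.PE_nonneg hN h0 (le_of_lt hε)) z, rfl⟩
  rw [map_sub] at h2
  refine le_trans ?_ h1
  rw [sub_sq_comm (A.w _ g)]
  exact pow_le_pow_left₀ hn.le (by linarith only [h2]) 2

end Cf.WF

end Pool.Agent.Work.MP_042f46_an.Ty
end
end

-- merged part: Pool.Agent.Work.MP_042f46_an.T.C8
section
/-!
# Lifting test functions along the main inverse branch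

Plans.  `klein`: `k w = 2 w / (1 + ‖w‖ ^ 2)` maps the unit ball to itself with continuous inverse `k' x = x / (1 + sqrt (1 - ‖x‖ ^ 2))`, and `w ∈ O` iff `k w` lies in the open convex set `Q = {x ∈ ball 0 1 | ∀ j ∈ I, 2 A j < re (b j * x)}`; lift `g ∘ k'` on `Q` as in `lift_one` of `Fam.lean` (`Convex.contractibleSpace`, `IsCoveringMapOn.existsUnique_continuousMap_lifts`) and compose with `k`.
`lift_fn`: `A = s '' S` is compact, `f' = indicator A (f ∘ F)`.  Near a point outside `A` it vanishes.  Near `z₀ = s y₀` the map `F` is injective (`loc_inj`, or `F_inj` when `y₀` is on the curve) and continuous; if `z` is near `z₀`, `F z ∈ Ub` and `f (F z) ≠ 0`, then `F z ∈ S` is near `y₀`, so `s (F z)` is near `z₀`, so `z = s (F z) ∈ A`; hence `f' z = f (F z)` for such `z`.  If `y₀ ∈ U` all points near `z₀` are in `W`; if `y₀` is on the curve, points of `Ub` near `z₀ ∈ Ω` have `F z ∈ Ub` (`F_Ub`).  Energy: the gradient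 vanishes on `U \ A`, on `A ∩ U ⊆ W` it is that of `f ∘ F`, and `F` is injective on `A` (`En_comp_le` with `O = W`, `d = 1`).
`moeb_lin`: clear the denominator; `A = 1 + ‖a‖ ^ 2 + 5 re (conj ξ * a)`, `b = 4 conj a + 5 (conj ξ + ξ * conj a ^ 2)`-like (use `(w - a) * conj (1 - conj a * w) = w + a ^ 2 conj w - a (1 + ‖w‖ ^ 2)`).
`exists_theta`: `Θ z = clamp (2 dot ξ (m (ψi z)) - 1)`; `m ∘ ψi` is holomorphic near `Ub`, injective on `U` with values in the unit ball (`RM2_lt`, `RM2_inj`, `RM2_der`); the function `clamp (2 dot ξ · - 1)` is Lipschitz with constant `2 ‖ξ‖`, `‖ξ‖ ^ 2 = 2`; `En_comp_le`, `En_le_of_bound`, `Complex.volume_ball`.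
-/

open Set Metric Topology Filter MeasureTheory
open scoped ENNReal NNReal

noncomputable section
namespace Pool.Agent.Work.MP_042f46_an.Ty

namespace Cf

variable (C : Cf) {z : ℂ}

theorem C8_U_of_F (h : C.F z ∈ C.U) : z ∈ C.U := by
  by_cases hz : z ∈ C.Ω
  · have h1 := (C.mem_U (C.F_Ω hz)).1 h
    rw [C.φi_F hz, norm_mul] at h1
    have h2 : ‖e C.α‖ = 1 := by
      have : e C.α = Complex.exp (((2 * Real.pi * C.α : ℝ) : ℂ) * Complex.I) := by
        unfold e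
        congr 1
        push_cast
        ring
      rw [this, Complex.norm_exp_ofReal_mul_I]
    rw [h2, one_mul] at h1
    exact (C.mem_U hz).2 h1
  · exact C.U_of_not hz

theorem C8_Ω (h : z ∉ C.U) : z ∈ C.Ω := by
  by_contra k
  exact h (C.U_of_not k)

theorem C8_contF (h : z ∉ C.P) : ContinuousAt C.F z :=
  (C.F_diff.differentiableAt (C.isOpen_P.mem_nhds h)).continuousAt

theorem lift_fn {f : ℂ → ℝ} (hf : IsV C.U C.Ub f) {S : Set ℂ} (hS : IsCompact S) (hSU : S ⊆ C.Ub)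
    (h0 : ∀ y ∈ C.Ub, y ∉ S → f y = 0) {s : ℂ → ℂ} (hs : ContinuousOn s S)
    (h1 : ∀ y ∈ S, y ∈ C.U → C.F (s y) = y ∧ y ∉ C.V) (h2 : ∀ y ∈ S, y ∉ C.U → s y = C.mb y) :
    ∃ f' : ℂ → ℝ, IsV C.U C.Ub f' ∧ (∀ x, f' (C.γ x) = f (C.γ (x + (C.α : T)))) ∧
      (∀ z ∈ C.U, z ∉ C.W → f' z = 0) ∧ En C.U f' ≤ En C.U f := by
  classical
  have hFs : ∀ y ∈ S, C.F (s y) = y := by
    intro y hy
    by_cases hU : y ∈ C.U
    · exact (h1 y hy hU).1
    · rw [h2 y hy hU]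
      exact C.F_mb (C.C8_Ω hU)
  have hsΩ : ∀ y ∈ S, y ∉ C.U → s y ∈ C.Ω := by
    intro y hy hU
    rw [h2 y hy hU]
    exact C.mb_Ω (C.C8_Ω hU)
  have hsP : ∀ y ∈ S, s y ∉ C.P := by
    intro y hy
    by_cases hU : y ∈ C.U
    · intro hP
      have := C.P_V _ hP
      rw [hFs y hy] at this
      exact (h1 y hy hU).2 this
    · exact C.not_P (hsΩ y hy hU)
  have hAW : ∀ z ∈ s '' S, z ∈ C.U → z ∈ C.W := by
    rintro _ ⟨y, hy, rfl⟩ hz
    by_cases hU : y ∈ C.U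
    · refine ⟨hz, hsP y hy, ?_⟩
      rw [hFs y hy]
      exact hU
    · exact C.mem_W (hsΩ y hy hU) hz
  have hAc : IsClosed (s '' S) := (hS.image_of_continuousOn hs).isClosed
  set f' : ℂ → ℝ := (s '' S).indicator fun z => f (C.F z) with hf'
  have hout : ∀ z, z ∉ s '' S → f' =ᶠ[𝓝 z] fun _ => 0 := by
    intro z hz
    filter_upwards [hAc.isOpen_compl.mem_nhds hz] with w hw
    exact indicator_of_notMem hw _
  have hloc : ∀ z ∈ s '' S, ∀ᶠ w in 𝓝 z, C.F w ∈ C.Ub → f' w = f (C.F w) := by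
    rintro _ ⟨y, hy, rfl⟩
    have hN : ∃ N ∈ 𝓝 (s y), InjOn C.F N := by
      by_cases hU : y ∈ C.U
      · apply C.loc_inj
        rw [hFs y hy]
        exact (h1 y hy hU).2
      · exact ⟨C.Ω, C.isOpen_Ω.mem_nhds (hsΩ y hy hU), C.F_inj⟩
    obtain ⟨N, hN, hinj⟩ := hN
    have h3 : ∀ᶠ y' in 𝓝 y, y' ∈ S → s y' ∈ N :=
      eventually_nhdsWithin_iff.1 (hs y hy hN)
    have h4 : Tendsto C.F (𝓝 (s y)) (𝓝 y) := by
      have := C.C8_contF (hsP y hy)
      rw [ContinuousAt, hFs y hy] at this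
      exact this
    filter_upwards [hN, h4 h3] with w hw hw' hb
    by_cases hA : w ∈ s '' S
    · exact indicator_of_mem hA _
    · have e0 : f' w = 0 := indicator_of_notMem hA _
      rw [e0]
      symm
      apply h0 _ hb
      intro hS'
      exact hA ⟨C.F w, hS', hinj (hw' hS') hw (hFs _ hS')⟩
  have hin : ∀ z ∈ s '' S, z ∈ C.U → f' =ᶠ[𝓝 z] fun w => f (C.F w) := by
    intro z hz hU
    filter_upwards [hloc z hz, C.isOpen_W.mem_nhds (hAW z hz hU)] with w hw hw'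
    exact hw (C.U_sub hw'.2.2)
  have hdW : DifferentiableOn ℂ C.F C.W := C.F_diff.mono fun z hz => hz.2.1
  have hmW : MapsTo C.F C.W C.U := fun z hz => hz.2.2
  have hLW : LL C.W fun w => f (C.F w) := LL.comp hf.lip (LL.of_diff C.isOpen_W hdW) hmW
  have hEn : En C.U f' ≤ En C.U f := by
    have e1 : En C.U f' = En (s '' S ∩ C.U) fun w => f (C.F w) := by
      unfold En
      rw [← Measure.restrict_restrict hAc.measurableSet, ← lintegral_indicator hAc.measurableSet]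
      apply setLIntegral_congr_fun C.isOpen_U.measurableSet
      intro z hz
      by_cases hA : z ∈ s '' S
      · simp only [indicator_of_mem hA, gr_congr (hin z hA hz)]
      · simp [indicator_of_notMem hA, gr_congr (hout z hA), gr_const]
    rw [e1]
    have e2 := En_comp_le (f := f) (A := s '' S ∩ C.U) (B := C.U) (d := 1) C.isOpen_W hdW hmW hf.lip
      (hAc.measurableSet.inter C.isOpen_U.measurableSet) (fun z hz => hAW z hz.1 hz.2)
      C.isOpen_U.measurableSet (fun z hz => (hAW z hz.1 hz.2).2.2) (by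
        intro w
        rw [Nat.cast_one, encard_le_one_iff]
        rintro _ _ ⟨⟨⟨y, hy, rfl⟩, -⟩, e⟩ ⟨⟨⟨y', hy', rfl⟩, -⟩, e'⟩
        rw [hFs y hy] at e
        rw [hFs y' hy'] at e'
        rw [e, e'])
    simpa using e2
  refine ⟨f', ⟨?_, ?_, ne_top_of_le_ne_top hf.fin hEn⟩, ?_, ?_, hEn⟩
  · intro z hz
    by_cases hA : z ∈ s '' S
    · have hb : ∀ᶠ w in 𝓝[C.Ub] z, C.F w ∈ C.Ub := by
        obtain ⟨y, hy, rfl⟩ := hA
        by_cases hU : y ∈ C.U
        · have h4 := C.C8_contF (hsP y hy)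
          have h5 : C.U ∈ 𝓝 (C.F (s y)) := by
            rw [hFs y hy]
            exact C.isOpen_U.mem_nhds hU
          filter_upwards [mem_nhdsWithin_of_mem_nhds (h4 h5)] with w hw
          exact C.U_sub hw
        · filter_upwards [mem_nhdsWithin_of_mem_nhds (C.isOpen_Ω.mem_nhds (hsΩ y hy hU)),
            self_mem_nhdsWithin] with w hw hw'
          exact C.F_Ub hw hw'
      have hz' : C.F z ∈ C.Ub := hb.self_of_nhdsWithin hz
      have hP : z ∉ C.P := by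
        obtain ⟨y, hy, rfl⟩ := hA
        exact hsP y hy
      have ht : Tendsto C.F (𝓝[C.Ub] z) (𝓝[C.Ub] (C.F z)) :=
        tendsto_nhdsWithin_of_tendsto_nhds_of_eventually_within _
          ((C.C8_contF hP).mono_left nhdsWithin_le_nhds) hb
      have hc : ContinuousWithinAt (fun w => f (C.F w)) C.Ub z := (hf.cont _ hz').tendsto.comp ht
      refine hc.congr_of_eventuallyEq ?_ (indicator_of_mem hA _)
      filter_upwards [hb, mem_nhdsWithin_of_mem_nhds (hloc z hA)] with w hw hw'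
      exact hw' hw
    · exact (continuousAt_const.congr (hout z hA).symm).continuousWithinAt
  · apply LL.of_local
    intro z hz
    by_cases hA : z ∈ s '' S
    · exact ⟨_, hLW.mono (singleton_subset_iff.2 (hAW z hA hz)), hin z hA hz⟩
    · exact ⟨_, LL.const _ 0, hout z hA⟩
  · intro x
    by_cases hA : C.γ x ∈ s '' S
    · have e0 : f' (C.γ x) = f (C.F (C.γ x)) := indicator_of_mem hA _
      rw [e0, C.F_γ]
    · have e0 : f' (C.γ x) = 0 := indicator_of_notMem hA _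
      rw [e0]
      symm
      apply h0 _ (C.γ_Ub _)
      intro hS'
      apply hA
      refine ⟨_, hS', ?_⟩
      rw [h2 _ hS' (C.γ_not_U _), C.mb_γ]
  · intro z hz hW
    exact indicator_of_notMem (fun hA => hW (hAW z hA hz)) _

end Cf

end Pool.Agent.Work.MP_042f46_an.Ty
end
end

-- merged part: Pool.Agent.Work.MP_042f46_an.T.C6
section
/-!
# The marks

Plan.  `I` = the points of `V` in `U`; for `v ∈ I` let `a v = ψi v`, `w v z = RM2_m (a v) (ψi z)`.  `M` consists of `0` and the `x` with `w v (γ x) ∈ {1, -1, I, -I}` for some `v ∈ I` (`x ↦ w v (γ x)` is injective: `moeb_inj`, `ψ_ψi`, `γ_inj`; at most four points for each `v`).  `signs`: on a mark-free interval the real and the imaginary part of the unimodular number `w v (γ ↑t)` do not vanish, so they have constant signs (`IsPreconnected.intermediate_value`, `intermediate_value_uIcc`); `ξ = ±1 ± I`, `dot ξ w = |re w| + |im w| ≥ 1`.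
`marks`: if `a' < a` then `u = 0`, take `f = 0`.  Otherwise choose `ε` by `PE_en` for `Ξ = rad u`, and by induction on the subsets of `I` a function `f₀` (minimum of `PE` and the `Θ` of `exists_theta`) with `0 ≤ f₀ ≤ PE`, `f₀ (γ x) = u x`, energy at most that of `PE` plus `8 π` per point, and `1 / 2 ≤ dot (ξ v) (w v z)` where `f₀ z ≠ 0`.  `S` = closure of `{z ∈ Ub | f₀ z ≠ 0}`; points of `S` on the curve lie on `γ '' arc a a'` (`PE_near`, `ex_ne`, the arc is closed).  `O = {w | ‖w‖ < 1, ∀ v ∈ I, 1 + ‖m w‖ ^ 2 < 5 dot (ξ v) (m w)}` (`moeb_lin`, `klein` with `g = ψ`; `ψ w ∈ V` would give `m w = 0`), it contains `ψi '' (S ∩ U)`.  There is `δ > 0` such that the connected set `N = {φ (r * e t) | ρ - δ < r < ρ, a - δ < t < a' + δ}` lies in `U ∩ Ω` and `ψi '' N ⊆ O` (compactness of `Icc a a'`, the inequalities are strict on the arc); start the lift at a point of `N` with the value of `mb`; `lift_uniq` gives `s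 ∘ ψi = mb` on `N`; every point of `U` near a point of `γ '' arc a a'` is in `N`.  Apply `lift_fn` to the map equal to `s ∘ ψi` on `U` and to `mb` elsewhere.
-/

open Set Metric Topology Filter MeasureTheory
open scoped ENNReal NNReal

noncomputable section
namespace Pool.Agent.Work.MP_042f46_an.Ty

theorem C6_sign {g : ℝ → ℝ} {t t' : ℝ} (hg : ContinuousOn g (Icc t t'))
    (h : ∀ s ∈ Icc t t', g s ≠ 0) : ∃ c : ℝ, c ^ 2 = 1 ∧ ∀ s ∈ Icc t t', c * g s = |g s| := by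
  by_cases k : ∀ s ∈ Icc t t', 0 < g s
  · exact ⟨1, by norm_num, fun s hs => by rw [one_mul, abs_of_pos (k s hs)]⟩
  push Not at k
  obtain ⟨s₀, h0, h1⟩ := k
  refine ⟨-1, by norm_num, fun s hs => ?_⟩
  rcases le_total (g s) 0 with h2 | h2
  · rw [abs_of_nonpos h2, neg_one_mul]
  · obtain ⟨y, hy, e⟩ := isPreconnected_Icc.intermediate_value h0 hs hg ⟨h1, h2⟩
    exact absurd e (h y hy)

theorem C6_min {O Ob : Set ℂ} (hO : IsOpen O) {Φ : ℂ → ℝ} (hΦ : IsV O Ob Φ) (h0 : ∀ z, 0 ≤ Φ z)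
    (I : Finset ℂ) (Θ : ℂ → ℂ → ℝ) (E : ℝ≥0∞)
    (hΘ : ∀ v ∈ I, IsV O Ob (Θ v) ∧ En O (Θ v) ≤ E ∧ ∀ z, 0 ≤ Θ v z) :
    ∃ f : ℂ → ℝ, IsV O Ob f ∧ En O f ≤ En O Φ + I.card * E ∧ (∀ z, 0 ≤ f z) ∧
      (∀ z, f z ≠ 0 → Φ z ≠ 0 ∧ ∀ v ∈ I, Θ v z ≠ 0) ∧
      ∀ z, Φ z ≤ 1 → (∀ v ∈ I, Θ v z = 1) → f z = Φ z := by
  classical
  induction I using Finset.induction_on with
  | empty => exact ⟨Φ, hΦ, by simp, h0, fun z h => ⟨h, by simp⟩, fun _ _ _ => rfl⟩
  | insert v I hv ih =>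
    obtain ⟨f, f1, f2, f3, f4, f5⟩ := ih fun w hw => hΘ w (Finset.mem_insert_of_mem hw)
    obtain ⟨t1, t2, t3⟩ := hΘ v (Finset.mem_insert_self v I)
    refine ⟨fun z => min (f z) (Θ v z), f1.min hO t1, ?_, fun z => le_min (f3 z) (t3 z),
      fun z h => ?_, fun z h h' => ?_⟩
    · refine (En_min_le hO f1.lip t1.lip).trans ?_
      rw [Finset.card_insert_of_notMem hv, Nat.cast_succ, add_mul, one_mul, ← add_assoc]
      exact add_le_add f2 t2
    · have k := lt_min_iff.1 (lt_of_le_of_ne (le_min (f3 z) (t3 z)) (Ne.symm h))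
      exact ⟨(f4 z k.1.ne').1, Finset.forall_mem_insert _ _ _ |>.2 ⟨k.2.ne', (f4 z k.1.ne').2⟩⟩
    · beta_reduce
      rw [f5 z h fun w hw => h' w (Finset.mem_insert_of_mem hw), h' v (Finset.mem_insert_self v I),
        min_eq_left h]

theorem C6_conn {ρ δ a a' : ℝ} (hδ : 0 < δ) (h : δ < ρ) (ha : a ≤ a') :
    IsPreconnected (thickening δ ((fun s : ℝ => (ρ : ℂ) * e s) '' Icc a a') ∩ ball 0 ρ) := by
  have m : ∀ s ∈ Icc a a', ((ρ - δ / 2 : ℝ) : ℂ) * e s ∈ ball ((ρ : ℂ) * e s) δ ∩ ball 0 ρ :=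
    fun s _ => by
      constructor
      · rw [mem_ball, dist_eq_norm, ← sub_mul, ← Complex.ofReal_sub, norm_mul, norm_e, mul_one,
          Complex.norm_real, Real.norm_eq_abs, abs_lt]
        constructor <;> linarith only [hδ]
      · rw [mem_ball_zero_iff, Sg_norm' (by linarith only [hδ, h])]
        linarith only [hδ]
  have sub : ∀ s ∈ Icc a a', ball ((ρ : ℂ) * e s) δ ∩ ball 0 ρ ⊆
      thickening δ ((fun s : ℝ => (ρ : ℂ) * e s) '' Icc a a') ∩ ball 0 ρ := fun s hs =>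
    inter_subset_inter_left _ (ball_subset_thickening
      (mem_image_of_mem (fun s : ℝ => (ρ : ℂ) * e s) hs) δ)
  refine isPreconnected_of_forall (((ρ - δ / 2 : ℝ) : ℂ) * e a) fun y hy => ?_
  obtain ⟨_, ⟨s, hs, rfl⟩, h1⟩ := mem_thickening_iff.1 hy.1
  refine ⟨(fun s : ℝ => ((ρ - δ / 2 : ℝ) : ℂ) * e s) '' Icc a a' ∪
    ball ((ρ : ℂ) * e s) δ ∩ ball 0 ρ, union_subset ?_ (sub s hs),
    Or.inl ⟨a, left_mem_Icc.2 ha, rfl⟩, Or.inr ⟨h1, hy.2⟩, IsPreconnected.union _ ⟨s, hs, rfl⟩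
      (m s hs) (isPreconnected_Icc.image _ (continuous_const.mul continuous_e).continuousOn)
      ((convex_ball _ _).inter (convex_ball _ _)).isPreconnected⟩
  rintro _ ⟨s', hs', rfl⟩
  exact sub s' hs' (m s' hs')

namespace Cf

variable (C : Cf) {z : ℂ}

theorem signs {a : ℂ} (ha : ‖a‖ < 1) {t t' : ℝ}
    (h : ∀ s ∈ Icc t t', RM2_m a (C.ψi (C.γ (s : T))) ∉ ({1, -1, Complex.I, -Complex.I} : Set ℂ)) :
    ∃ ξ : ℂ, ‖ξ‖ ^ 2 = 2 ∧ ∀ s ∈ Icc t t', 1 ≤ dot ξ (RM2_m a (C.ψi (C.γ (s : T)))) := by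
  obtain ⟨w, hw⟩ : ∃ w : ℝ → ℂ, w = fun s : ℝ => RM2_m a (C.ψi (C.γ (s : T))) := ⟨_, rfl⟩
  have hc : Continuous w := by
    rw [hw]
    exact (moeb_cont ha).comp_continuous (C.ψi_diff.continuousOn.comp_continuous
      (C.continuous_γ.comp continuous_coeT) fun s => C.Ub_sub (C.γ_Ub _))
      fun s => mem_closedBall_zero_iff.2 (C.norm_ψi_γ _).le
  have hn : ∀ s, ‖w s‖ = 1 := fun s => hw ▸ moeb_norm ha (C.norm_ψi_γ _)
  have hs : ∀ s, (w s).re ^ 2 + (w s).im ^ 2 = 1 := fun s => by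
    have := Complex.sq_norm (w s)
    rw [hn, Complex.normSq_apply] at this
    linarith only [this]
  have h' : ∀ s ∈ Icc t t', w s ∉ ({1, -1, Complex.I, -Complex.I} : Set ℂ) := hw ▸ h
  obtain ⟨c₁, k1, k2⟩ := C6_sign (Complex.continuous_re.comp hc).continuousOn
    (t := t) (t' := t') fun s hs' (k : (w s).re = 0) => h' s hs' (by
      have e := hs s
      rw [k, zero_pow two_ne_zero, zero_add, sq_eq_one_iff] at e
      rcases e with e | e
      · exact .inr (.inr (.inl (Complex.ext k e)))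
      · exact .inr (.inr (.inr (Complex.ext (by simpa using k) (by simpa using e)))))
  obtain ⟨c₂, k3, k4⟩ := C6_sign (Complex.continuous_im.comp hc).continuousOn
    (t := t) (t' := t') fun s hs' (k : (w s).im = 0) => h' s hs' (by
      have e := hs s
      rw [k, zero_pow two_ne_zero, add_zero, sq_eq_one_iff] at e
      rcases e with e | e
      · exact .inl (Complex.ext e k)
      · exact .inr (.inl (Complex.ext (by simpa using e) (by simpa using k))))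
  refine ⟨⟨c₁, c₂⟩, ?_, fun s hs' => ?_⟩
  · rw [Complex.sq_norm, Complex.normSq_mk]
    linarith only [k1, k3]
  · have e := Complex.norm_le_abs_re_add_abs_im (w s)
    have e1 : c₁ * (w s).re = |(w s).re| := k2 s hs'
    have e2 : c₂ * (w s).im = |(w s).im| := k4 s hs'
    rw [hn, ← e1, ← e2, hw] at e
    exact e

theorem exists_M : ∃ M : Finset T, M.Nonempty ∧ M.card ≤ 4 * C.V.card + 1 ∧
    ∀ v ∈ C.V, v ∈ C.U → ∀ x ∉ M,
      RM2_m (C.ψi v) (C.ψi (C.γ x)) ∉ ({1, -1, Complex.I, -Complex.I} : Set ℂ) := by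
  classical
  have h : ∀ v : ℂ, ∃ Y : Finset T, Y.card ≤ 4 ∧ (v ∈ C.U → ∀ x ∉ Y,
      RM2_m (C.ψi v) (C.ψi (C.γ x)) ∉ ({1, -1, Complex.I, -Complex.I} : Set ℂ)) := fun v => by
    by_cases hv : v ∈ C.U
    · have hi : Function.Injective fun x => RM2_m (C.ψi v) (C.ψi (C.γ x)) := fun x y k => by
        have k1 := moeb_inj (C.ψi_U hv) (mem_closedBall_zero_iff.2 (C.norm_ψi_γ x).le)
          (mem_closedBall_zero_iff.2 (C.norm_ψi_γ y).le) k
        exact C.γ_inj (by rw [← C.ψ_ψi (C.γ_Ub x), k1, C.ψ_ψi (C.γ_Ub y)])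
      refine ⟨({1, -1, Complex.I, -Complex.I} : Finset ℂ).preimage _ hi.injOn, ?_,
        fun _ x hx k => hx (Finset.mem_preimage.2 (by simpa using k))⟩
      exact (Finset.card_le_card_of_injOn _ (fun x hx => Finset.mem_preimage.1 hx) hi.injOn).trans
        Finset.card_le_four
    · exact ⟨∅, by simp, fun k => absurd k hv⟩
  choose Y h1 h2 using h
  refine ⟨insert 0 (C.V.biUnion Y), Finset.insert_nonempty _ _, (Finset.card_insert_le _ _).trans
    (Nat.succ_le_succ (Finset.card_biUnion_le.trans ?_)), fun v hv hU x hx =>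
      h2 v hU x fun k => hx (Finset.mem_insert_of_mem (Finset.mem_biUnion.2 ⟨v, hv, k⟩))⟩
  rw [mul_comm]
  exact Finset.sum_le_card_nsmul _ _ 4 fun v _ => h1 v

theorem marks : ∃ M : Finset T, M.Nonempty ∧ M.card ≤ 4 * C.V.card + 1 ∧
    ∀ u ∈ LipT, ∀ a a' : ℝ, (∀ x, u x ∈ Icc (0 : ℝ) 1) → (∀ s ∈ Icc a a', (s : T) ∉ M) →
      (∀ x, u x ≠ 0 → x ∈ arc a a') → ∀ η : ℝ≥0∞, 0 < η →
        ∃ f : ℂ → ℝ, IsV C.U C.Ub f ∧ (∀ x, f (C.γ x) = u (x + (C.α : T))) ∧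
          (∀ z ∈ C.U, z ∉ C.W → f z = 0) ∧
          En C.U f ≤ En C.U (C.Po u) + C.V.card * ENNReal.ofReal (8 * Real.pi) + η := by
  classical
  obtain ⟨M, m1, m2, m3⟩ := C.exists_M
  refine ⟨M, m1, m2, fun u hu a a' h01 hM hs η hη => ?_⟩
  rcases lt_or_ge a' a with haa | haa
  · refine ⟨0, (VV C.U C.Ub C.isOpen_U).zero_mem, fun x => ?_, fun _ _ _ => rfl, ?_⟩
    · by_contra k
      obtain ⟨s, hs', -⟩ := hs _ (Ne.symm k)
      exact haa.not_ge (hs'.1.trans hs'.2)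
    · have e : ∀ z, gr (0 : ℂ → ℝ) z = 0 := gr_const 0
      simp [En, e]
  obtain ⟨I, hI⟩ : ∃ I : Finset ℂ, I = C.V.filter (· ∈ C.U) := ⟨_, rfl⟩
  have mI : ∀ v, v ∈ I ↔ v ∈ C.V ∧ v ∈ C.U := fun v => by rw [hI, Finset.mem_filter]
  have aI : ∀ v ∈ I, ‖C.ψi v‖ < 1 := fun v hv => C.ψi_U ((mI v).1 hv).2
  choose! ξ x1 x2 using fun v (hv : v ∈ I) => C.signs (aI v hv) (t := a) (t' := a') fun s hs' =>
    m3 v ((mI v).1 hv).1 ((mI v).1 hv).2 _ (hM s hs')
  choose! Θ t1 t2 t3 t4 t5 using fun v (hv : v ∈ I) => C.exists_theta (aI v hv) (x1 v hv)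
  choose! A b l1 using fun v (hv : v ∈ I) => moeb_lin (aI v hv) (ξ v)
  have hΞ := nice_rad hu
  have h0 : ∀ ζ, 0 ≤ rad u ζ := fun ζ => mul_nonneg (h01 _).1 (le_max_left _ _)
  obtain ⟨ε, hε, hE⟩ := C.PE_en hΞ hη
  simp only [rad_eT] at hE
  obtain ⟨f, f1, f2, -, f4, f5⟩ := C6_min C.isOpen_U (C.PE_V hΞ hε) (C.PE_nonneg hΞ h0 hε.le) I Θ _
    fun v hv => ⟨t1 v hv, t2 v hv, t3 v hv⟩
  have fγ : ∀ x, f (C.γ x) = u x := fun x => by
    have e : C.PE (rad u) ε (C.γ x) = u x := by rw [C.PE_γ, rad_eT]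
    by_cases k : u x = 0
    · rw [k]
      by_contra k'
      exact (f4 _ k').1 (e.trans k)
    · obtain ⟨s, hs', rfl⟩ := hs x k
      rw [f5 _ (e ▸ (h01 _).2) fun v hv => t4 v hv _ (x2 v hv s hs'), e]
  obtain ⟨S, hS⟩ : ∃ S, S = closure {z | z ∈ C.Ub ∧ f z ≠ 0} := ⟨_, rfl⟩
  have SU : S ⊆ C.Ub := hS ▸ closure_minimal (fun _ h => h.1) C.isCompact_Ub.isClosed
  have Sc : IsCompact S := C.isCompact_Ub.of_isClosed_subset (hS ▸ isClosed_closure) SU
  have ψc : ContinuousOn C.ψi C.Ub := C.ψi_diff.continuousOn.mono C.Ub_sub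
  have S1 : ∀ y ∈ S, ∀ v ∈ I, 1 / 2 ≤ dot (ξ v) (RM2_m (C.ψi v) (C.ψi y)) := fun y hy v hv => by
    have c1 : ContinuousOn (fun z => RM2_m (C.ψi v) (C.ψi z)) C.Ub :=
      (moeb_cont (aI v hv)).comp ψc fun z hz => mem_closedBall_zero_iff.2 (C.ψi_Ub hz)
    have c2 : Continuous (dot (ξ v)) := by
      unfold dot
      fun_prop
    have c3 := (c2.comp_continuousOn c1).preimage_isClosed_of_isClosed C.isCompact_Ub.isClosed
      (isClosed_Ici (a := (1 / 2 : ℝ)))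
    refine (closure_minimal (fun z hz => ?_) c3 (hS ▸ hy)).2
    exact ⟨hz.1, t5 v hv z ((f4 z hz.2).2 v hv)⟩
  have S2 : ∀ y ∈ S, y ∉ C.U → ∃ s ∈ Icc a a', y = C.γ (s : T) := fun y hy hU => by
    obtain ⟨x, rfl⟩ := C.exists_γ (SU hy) hU
    by_contra k
    have k1 : x ∉ arc a a' := fun ⟨s, hs', e⟩ => k ⟨s, hs', e ▸ rfl⟩
    have c1 : ContinuousAt (fun z => argT (C.φi z)) (C.γ x) :=
      (LL_argT.continuousAt (z := C.φi (C.γ x)) (by
        rw [C.φi_γ]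
        exact mul_ne_zero (Complex.ofReal_ne_zero.2 C.ρ_pos.ne') (eT_ne x))).comp
        (C.φi_diff.continuousOn.continuousAt (C.isOpen_Ω.mem_nhds (C.γ_Ω x)))
    have c2 := c1.eventually ((isCompact_arc a a').isClosed.isOpen_compl.mem_nhds (by
      beta_reduce
      rwa [C.φi_γ, argT_mul C.ρ_pos]))
    obtain ⟨z, z1, z2, z3⟩ := ((mem_closure_iff_frequently.1 (hS ▸ hy)).and_eventually
      (c2.and (C.PE_near hΞ hε x))).exists
    exact z2 (hs _ (C.ex_ne (u := u) fun k => (f4 z z1.2).1 (z3.trans k)).2)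
  obtain ⟨O, hO⟩ : ∃ O : Set ℂ, O = {w | ‖w‖ < 1 ∧ ∀ j ∈ I, A j * (1 + ‖w‖ ^ 2) < (b j * w).re} :=
    ⟨_, rfl⟩
  have O1 : ∀ w ∈ O, ‖w‖ < 1 := fun w hw => (hO ▸ hw :).1
  have OV : ∀ w ∈ O, C.ψ w ∉ (↑C.V : Set ℂ) := fun w hw k => by
    have hv : C.ψ w ∈ I := (mI _).2 ⟨k, C.ψ_U (O1 w hw)⟩
    have k1 := (l1 _ hv w (O1 w hw).le).2 ((hO ▸ hw :).2 _ hv)
    rw [C.ψi_ψ (O1 w hw).le] at k1
    simp [RM2_m, dot] at k1
    linarith only [k1]
  have SO : ∀ y ∈ S, y ∈ C.U → C.ψi y ∈ O := fun y hy hU => by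
    rw [hO]
    refine ⟨C.ψi_U hU, fun v hv => (l1 v hv _ (C.ψi_U hU).le).1 ?_⟩
    have k1 := moeb_le (aI v hv) (C.ψi_U hU).le
    linarith only [k1, S1, hy, hv, S1 y hy v hv, norm_nonneg (RM2_m (C.ψi v) (C.ψi y)), mul_nonneg_of_nonpos_of_nonpos (Mathlib.Tactic.Linarith.sub_nonpos_of_le k1) (Mathlib.Tactic.Linarith.sub_nonpos_of_le (norm_nonneg (RM2_m (C.ψi v) (C.ψi y))))]
  have Qo : IsOpen {z | z ∈ C.ψ '' ball 0 C.R ∧
      ∀ j ∈ I, A j * (1 + ‖C.ψi z‖ ^ 2) < (b j * C.ψi z).re} := by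
    have c1 : IsOpen {w : ℂ | ∀ j ∈ I, A j * (1 + ‖w‖ ^ 2) < (b j * w).re} := by
      have := isOpen_biInter_finset (s := I) fun j _ =>
        isOpen_lt (f := fun w : ℂ => A j * (1 + ‖w‖ ^ 2)) (g := fun w => (b j * w).re)
          (by fun_prop) (by fun_prop)
      convert this using 1
      ext w
      simp
    exact C.ψi_diff.continuousOn.isOpen_inter_preimage C.isOpen_ψ c1
  obtain ⟨δ₀, hδ₀, hth⟩ := ((isCompact_Icc (a := a) (b := a')).image
    (f := fun s : ℝ => (C.ρ : ℂ) * e s) (continuous_const.mul continuous_e)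
    ).exists_thickening_subset_open
    (C.φ_diff.continuousOn.isOpen_inter_preimage (RM4_open 1) Qo) (by
      rintro _ ⟨s, hs', rfl⟩
      have e1 : C.φ ((C.ρ : ℂ) * e s) = C.γ (s : T) := by rw [γ, eT_coe]
      refine ⟨C.ρ_gt.trans_eq (Sg_norm' C.ρ_pos.le s).symm, ?_⟩
      rw [mem_preimage, e1]
      refine ⟨C.Ub_sub (C.γ_Ub _), fun v hv => (l1 v hv _ (C.norm_ψi_γ _).le).1 ?_⟩
      rw [moeb_norm (aI v hv) (C.norm_ψi_γ _)]
      linarith only [x2, hv, hs', x2 v hv s hs'])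
  obtain ⟨δ, hδ, d1, d2⟩ : ∃ δ > 0, δ ≤ δ₀ ∧ δ < C.ρ :=
    ⟨min δ₀ 1, lt_min hδ₀ one_pos, min_le_left _ _, (min_le_right _ _).trans_lt C.ρ_gt⟩
  obtain ⟨N', hN'⟩ : ∃ N', N' =
    thickening δ ((fun s : ℝ => (C.ρ : ℂ) * e s) '' Icc a a') ∩ ball 0 C.ρ := ⟨_, rfl⟩
  have n1 : ∀ ζ ∈ N', 1 < ‖ζ‖ ∧ C.φ ζ ∈ C.Ω ∧ C.φ ζ ∈ C.U ∧ C.ψi (C.φ ζ) ∈ O := fun ζ hζ => by
    rw [hN'] at hζ
    obtain ⟨k1, k2⟩ := hth (thickening_mono d1 _ hζ.1)
    have k3 : C.φ ζ ∈ C.Ω := ⟨ζ, k1, rfl⟩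
    have k4 : C.φ ζ ∈ C.U := (C.mem_U k3).2 (by
      rw [C.φi_φ k1]
      exact mem_ball_zero_iff.1 hζ.2)
    exact ⟨k1, k3, k4, hO ▸ ⟨C.ψi_U k4, k2.2⟩⟩
  have n2 : IsPreconnected (C.φ '' N') :=
    (hN' ▸ C6_conn hδ d2 haa).image _ (C.φ_diff.continuousOn.mono fun ζ hζ => (n1 ζ hζ).1)
  have n3 : ∀ s ∈ Icc a a', ∀ᶠ y in 𝓝 (C.γ (s : T)), y ∈ C.U → y ∈ C.φ '' N' := fun s hs' => by
    have hΩ := C.isOpen_Ω.mem_nhds (C.γ_Ω (s : T))
    filter_upwards [hΩ, C.φi_diff.continuousOn.continuousAt hΩ (ball_mem_nhds _ hδ)]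
      with y k1 k2 k3
    refine ⟨C.φi y, ?_, C.φ_φi k1⟩
    rw [C.φi_γ, eT_coe] at k2
    exact hN' ▸ ⟨ball_subset_thickening (mem_image_of_mem _ hs') δ k2,
      mem_ball_zero_iff.2 ((C.mem_U k1).1 k3)⟩
  obtain ⟨ζ₀, hζ₀⟩ : N'.Nonempty := by
    refine ⟨((C.ρ - δ / 2 : ℝ) : ℂ) * e a, hN' ▸ ⟨ball_subset_thickening
      (mem_image_of_mem _ (left_mem_Icc.2 haa)) δ ?_, ?_⟩⟩
    · rw [mem_ball, dist_eq_norm, ← sub_mul, ← Complex.ofReal_sub, norm_mul, norm_e, mul_one,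
        Complex.norm_real, Real.norm_eq_abs, abs_lt]
      constructor <;> linarith only [hδ]
    · rw [mem_ball_zero_iff, Sg_norm' (by linarith only [hδ, d2])]
      linarith only [hδ]
  obtain ⟨s, s1, s2, s3⟩ := klein (g := C.ψ) C.cov I A b hO
    (C.ψ_diff.continuousOn.mono fun w hw => mem_ball_zero_iff.2 ((O1 w hw).trans C.R_gt)) OV
    (n1 ζ₀ hζ₀).2.2.2 (z₀ := C.mb (C.φ ζ₀))
    (by rw [C.F_mb (n1 ζ₀ hζ₀).2.1, C.ψ_ψi (C.U_sub (n1 ζ₀ hζ₀).2.2.1)])
  have nF : ∀ y ∈ C.U, C.ψi y ∈ O → C.F (s (C.ψi y)) = y ∧ y ∉ C.V := fun y k1 k2 => by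
    have k3 := C.ψ_ψi (C.U_sub k1)
    exact ⟨(s3 _ k2).trans k3, fun k => OV _ k2 (k3.symm ▸ k)⟩
  have n4 : EqOn (fun y => s (C.ψi y)) C.mb (C.φ '' N') := by
    refine lift_uniq C.cov n2 (s1.comp (ψc.mono ?_) ?_) (C.mb_cont.mono ?_) ?_ ?_
      (mem_image_of_mem _ hζ₀) s2
    all_goals rintro _ ⟨ζ, hζ, rfl⟩
    · exact C.U_sub (n1 ζ hζ).2.2.1
    · exact (n1 ζ hζ).2.2.2
    · exact (n1 ζ hζ).2.1
    · obtain ⟨k1, k2⟩ := nF _ (n1 ζ hζ).2.2.1 (n1 ζ hζ).2.2.2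
      rwa [k1]
    · rw [(nF _ (n1 ζ hζ).2.2.1 (n1 ζ hζ).2.2.2).1, C.F_mb (n1 ζ hζ).2.1]
  have sc : ContinuousOn (fun y => if y ∈ C.U then s (C.ψi y) else C.mb y) S := fun y hy => by
    by_cases hU : y ∈ C.U
    · have k1 : S ∩ C.U ∈ 𝓝[S] y := inter_mem_nhdsWithin S (C.isOpen_U.mem_nhds hU)
      have k2 : ContinuousOn (fun y => s (C.ψi y)) (S ∩ C.U) :=
        s1.comp (ψc.mono fun z hz => SU hz.1) fun z hz => SO z hz.1 hz.2
      exact ((k2 y ⟨hy, hU⟩).mono_of_mem_nhdsWithin k1).congr_of_eventuallyEq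
        (mem_of_superset k1 fun z hz => if_pos hz.2) (if_pos hU)
    · obtain ⟨t, ht, rfl⟩ := S2 y hy hU
      refine ((C.mb_cont.continuousAt (C.isOpen_Ω.mem_nhds (C.γ_Ω _))).congr ?_).continuousWithinAt
      filter_upwards [n3 t ht] with z hz
      split_ifs with k
      · exact (n4 (hz k)).symm
      · rfl
  obtain ⟨f', g1, g2, g3, g4⟩ := C.lift_fn f1 Sc SU
    (fun y hy k => by_contra fun k' => k (hS ▸ subset_closure ⟨hy, k'⟩))
    (s := fun y => if y ∈ C.U then s (C.ψi y) else C.mb y) sc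
    (fun y hy hU => by
      rw [if_pos hU]
      exact nF y hU (SO y hy hU)) fun y _ hU => if_neg hU
  refine ⟨f', g1, fun x => (g2 x).trans (fγ _), g3, g4.trans (f2.trans ?_)⟩
  rw [add_right_comm]
  gcongr
  exact hI ▸ Finset.filter_subset _ _

end Cf

end Pool.Agent.Work.MP_042f46_an.Ty
end
end

-- merged part: Pool.Agent.Work.MP_042f46_an.T.C7
section
/-!
# The kit of an invariant curve

Plans.  `exists_ext`: `Φ = PE Ξ ε`, `PE_all`, `PE_en`, `Po_en`.  `finB`: `Po_en`, `Po_min` with `extC (bumpC x θ)`, `extC_in` with `r = 8 θ`.  `pull`: for every `η` take `Φ` from `exists_ext` for `bumpC x θ`; `Po_min` with `pb Φ`, `pb_en`, `En_bumpC`, `128 π ^ 2 ≤ 1300`; `ENNReal.le_of_forall_pos_le_add`.  `exists_FK`: `hf u v = π (w (ex u) (ex v) - Ip (Po u) (Po v))`, `bf u v = π (w (ex u) (ex v) - Ip (Po u') (Po v'))` with `u' = rotL α u` (`LinearMap.compl₁₂`, `BV`); marks `x - α` for `x` in the set of `marks`; `Po_polar`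 for `marg`, `Po_apart` for `E1` and `le`; for `marks` use `WF.min` with the function of `Cf.marks` for `u'` and the interval `Icc (a + α) (a' + α)`, `8 π ^ 2 ≤ 80`.
-/

open Set Metric Topology Filter MeasureTheory
open scoped ENNReal NNReal

noncomputable section
namespace Pool.Agent.Work.MP_042f46_an.Ty

namespace Cf

variable (C : Cf) {z : ℂ}

theorem exists_ext {Ξ : ℂ → ℝ} (h : Nice Ξ) {η : ℝ≥0∞} (hη : 0 < η) :
    ∃ (Φ : ℂ → ℝ) (R : ℝ), LL univ Φ ∧ (∀ z : ℂ, R ≤ ‖z‖ → Φ z = 0) ∧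
      (∀ x, Φ (C.γ x) = Ξ (eT x)) ∧ ENNReal.ofReal (2 * Real.pi) * En univ Φ ≤
        DD C.H (fun x => Ξ (eT x)) + ENNReal.ofReal (2 * Real.pi) * En univ Ξ + η := by
  have h1 : 0 < η / ENNReal.ofReal (2 * Real.pi) :=
    ENNReal.div_pos hη.ne' ENNReal.ofReal_ne_top
  obtain ⟨ε, hε, hen⟩ := C.PE_en h h1
  obtain ⟨R, hR⟩ := C.PE_far h ε
  refine ⟨C.PE Ξ ε, R, C.PE_LL h hε, hR, C.PE_γ Ξ ε, ?_⟩
  have h2 : En univ (C.PE Ξ ε) ≤ En C.U (C.Po fun x => Ξ (eT x)) + En univ Ξ +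
      η / ENNReal.ofReal (2 * Real.pi) := by
    refine (C.PE_all h ε).trans ?_
    rw [add_right_comm]
    exact add_le_add hen (En_mono (subset_univ _) Ξ)
  calc ENNReal.ofReal (2 * Real.pi) * En univ (C.PE Ξ ε)
      ≤ ENNReal.ofReal (2 * Real.pi) * (En C.U (C.Po fun x => Ξ (eT x)) + En univ Ξ +
        η / ENNReal.ofReal (2 * Real.pi)) := by gcongr
    _ ≤ _ := by
      rw [mul_add, mul_add, C.Po_en h.lipT]
      exact add_le_add le_rfl ENNReal.mul_div_le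

theorem finB : FinB C.H := by
  refine ⟨2 * Real.pi * ((1 / C.ρ + 2 / (C.ρ - 1)) ^ 2 * (Real.pi * (C.ρ * 8) ^ 2)),
    fun x θ hθ hθ1 => ?_⟩
  have hN := nice_bumpC x hθ
  have hL : bump x θ ∈ LipT := hN.lipT
  have hρ := C.ρ_pos
  have hρ1 : 0 < C.ρ - 1 := sub_pos.2 C.ρ_gt
  have h1 : En C.U (C.Po (bump x θ)) ≤ En C.U (C.extC (bumpC x θ)) :=
    C.Po_min hL (C.extC_V hN) fun y => C.extC_γ _ y
  have h2 := C.extC_in (lipschitz_bumpC x hθ) (fun ζ => by
    have := clamp_mem (8 - ‖ζ - eT x‖ / θ)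
    exact abs_le.2 ⟨by unfold bumpC; linarith only [this, this.1], this.2⟩) (c := eT x) (r := 8 * θ)
    fun ζ hζ => bumpC_zero hθ hζ
  rw [← C.Po_en hL, ENNReal.ofReal_mul (p := 2 * Real.pi) (by positivity)]
  refine mul_le_mul' le_rfl (h1.trans (h2.trans (ENNReal.ofReal_le_ofReal ?_)))
  rw [Real.coe_toNNReal _ (inv_pos.2 hθ).le]
  have h3 : (θ⁻¹ / C.ρ + 2 / (C.ρ - 1)) ^ 2 * (Real.pi * (C.ρ * (8 * θ)) ^ 2) =
      (1 / C.ρ + 2 / (C.ρ - 1) * θ) ^ 2 * (Real.pi * (C.ρ * 8) ^ 2) := by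
    field_simp
  rw [h3]
  have h4 : 2 / (C.ρ - 1) * θ ≤ 2 / (C.ρ - 1) := mul_le_of_le_one_right (by positivity) hθ1
  gcongr

theorem pull : Pull C.H C.α C.N := by
  intro x θ hθ
  have hN := nice_bumpC x hθ
  have hL : bump x θ ∈ LipT := hN.lipT
  obtain ⟨Φ, R, hΦ, hR, hγ, hen⟩ := C.exists_ext hN (η := 1) one_pos
  have hL' := LipT.shift hL (C.α : T)
  have hV : IsV C.U C.Ub (C.pb Φ) :=
    LL.isV C.isOpen_U C.isCompact_Ub C.U_sub ((C.pb_LL hΦ hR).mono (subset_univ _))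
  have h1 : En C.U (C.Po fun y => bump x θ (y + (C.α : T))) ≤ C.d * En univ Φ :=
    (C.Po_min hL' hV fun y => (C.pb_γ Φ y).trans (hγ _)).trans (C.pb_en hΦ)
  have hd : (C.d : ℝ≥0∞) ≤ C.N := by
    have : C.d ≤ C.N := by unfold Sy.N; omega
    exact_mod_cast this
  have h2 : ENNReal.ofReal (2 * Real.pi) * En univ (bumpC x θ) + 1 ≤ C.N := by
    have h3 : (1300 : ℝ≥0∞) ≤ C.N := by
      have : 1300 ≤ C.N := by unfold Sy.N; omega
      exact_mod_cast this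
    refine le_trans ?_ h3
    calc ENNReal.ofReal (2 * Real.pi) * En univ (bumpC x θ) + 1
        ≤ ENNReal.ofReal (2 * Real.pi) * ENNReal.ofReal (64 * Real.pi) + 1 := by
          gcongr
          exact En_bumpC x hθ
      _ ≤ ENNReal.ofReal 1299 + 1 := by
          rw [← ENNReal.ofReal_mul (by positivity)]
          gcongr
          linarith only [Real.pi_lt_d2, Real.pi_pos, mul_pos_of_neg_of_neg (Mathlib.Tactic.Linarith.sub_neg_of_lt Real.pi_lt_d2) (Mathlib.Tactic.Linarith.sub_neg_of_lt Real.pi_pos)]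
      _ = 1300 := by norm_num
  rw [← C.Po_en hL']
  calc ENNReal.ofReal (2 * Real.pi) * En C.U (C.Po fun y => bump x θ (y + (C.α : T)))
      ≤ ENNReal.ofReal (2 * Real.pi) * (C.d * En univ Φ) := by gcongr
    _ = C.d * (ENNReal.ofReal (2 * Real.pi) * En univ Φ) := by ring
    _ ≤ C.N * (DD C.H (bump x θ) + C.N) := by
      refine mul_le_mul' hd (hen.trans ?_)
      rw [add_assoc]
      exact add_le_add le_rfl h2

theorem C7_one {u : T → ℝ} (hu : u ∈ LipT) {v : T → ℝ} (hv : v ∈ LipT) (h : ∀ x, v x = 1) :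
    Ip C.U (C.Po u) (C.Po v) = 0 := by
  have h1 := C.Po_polar hu hv
  simp only [h, sub_self, mul_zero, integral_zero] at h1
  exact (mul_eq_zero.1 h1).resolve_left (by positivity)

theorem C7_marks (A : C.WF) : ∃ M : Finset T, M.Nonempty ∧ M.card ≤ C.N ∧
    ∀ (u : LipT) (a a' : ℝ), (∀ x, u.1 x ∈ Icc (0 : ℝ) 1) → (∀ s ∈ Icc a a', (s : T) ∉ M) →
      (∀ x, u.1 x ≠ 0 → x ∈ arc a a') → Real.pi * (A.w (C.exL u) (C.exL u) -
        Ip C.U (C.Po (rotL (C.α : T) u).1) (C.Po (rotL (C.α : T) u).1)) ≤ C.N := by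
  classical
  obtain ⟨M, hM, hc, hm⟩ := C.marks
  refine ⟨M.image fun x => x - (C.α : T), hM.image _, ?_, fun u a a' h01 hs hu => ?_⟩
  · refine Finset.card_image_le.trans (hc.trans ?_)
    unfold Sy.N
    omega
  obtain ⟨f, hf, hγ, h0, hen⟩ := hm (rotL (C.α : T) u).1 (rotL (C.α : T) u).2 (a + C.α) (a' + C.α)
    (fun x => h01 _) (fun s hs' hsM => hs (s - C.α) ⟨by linarith only [hs', hs'.1], by linarith only [hs', hs'.2]⟩
      (Finset.mem_image.2 ⟨s, hsM, (AddCircle.coe_sub 1 s C.α).symm⟩))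
    (fun x hx => by
      obtain ⟨t, ht, e⟩ := hu (x - (C.α : T)) hx
      refine ⟨t + C.α, ⟨by linarith only [ht, ht.1], by linarith only [ht, ht.2]⟩, ?_⟩
      rw [AddCircle.coe_add, e, sub_add_cancel]) 1 one_pos
  have h1 : A.w (C.exL u) (C.exL u) ≤ Ip C.U f f := by
    refine A.min (s := ⟨f, hf⟩) fun z hz hW => ?_
    by_cases hU : z ∈ C.U
    · exact (h0 z hU hW).trans (C.extC_off _ fun hΩ => hW (C.mem_W hΩ hU)).symm
    · obtain ⟨x, rfl⟩ := C.exists_γ hz hU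
      refine (hγ x).trans (Eq.trans ?_ (C.ex_γ u.1 x).symm)
      exact congrArg u.1 (add_sub_cancel_right x _)
  have hfin := (C.Po_V (rotL (C.α : T) u).2).fin
  have hB : (C.V.card : ℝ≥0∞) * ENNReal.ofReal (8 * Real.pi) ≠ ∞ :=
    ENNReal.mul_ne_top (ENNReal.natCast_ne_top _) ENNReal.ofReal_ne_top
  have h2 := ENNReal.toReal_mono
    (ENNReal.add_ne_top.2 ⟨ENNReal.add_ne_top.2 ⟨hfin, hB⟩, ENNReal.one_ne_top⟩) hen
  rw [ENNReal.toReal_add (ENNReal.add_ne_top.2 ⟨hfin, hB⟩) ENNReal.one_ne_top,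
    ENNReal.toReal_add hfin hB, ENNReal.toReal_mul, ENNReal.toReal_natCast,
    ENNReal.toReal_ofReal (by positivity), ENNReal.toReal_one, ← Ip_self, ← Ip_self] at h2
  have h3 : (C.N : ℝ) = 80 * C.V.card + C.d + 1300 := by
    unfold Sy.N
    push_cast
    ring
  have h4 : Real.pi * (8 * Real.pi) ≤ 80 := by linarith only [Real.pi_lt_d2, Real.pi_pos, mul_pos_of_neg_of_neg (Mathlib.Tactic.Linarith.sub_neg_of_lt Real.pi_lt_d2) (Mathlib.Tactic.Linarith.sub_neg_of_lt Real.pi_pos)]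
  have h5 : (0 : ℝ) ≤ C.V.card := Nat.cast_nonneg _
  have h6 : (0 : ℝ) ≤ C.d := Nat.cast_nonneg _
  calc _ ≤ Real.pi * (C.V.card * (8 * Real.pi) + 1) :=
        mul_le_mul_of_nonneg_left (by linarith only [h1, h2]) Real.pi_pos.le
    _ ≤ C.N := by linarith only [h3, h4, h5, Real.pi_lt_d2, mul_le_mul_of_nonneg_left h4 h5]

theorem exists_FK : ∃ F : FK C.α C.N, F.H = C.H := by
  obtain ⟨A⟩ := C.exists_WF
  obtain ⟨M, hM, hc, hm⟩ := C.C7_marks A
  refine ⟨{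
    H := C.H
    hf := Real.pi • (A.w.compl₁₂ C.exL C.exL - (BV C.U C.Ub C.isOpen_U).compl₁₂ C.PoL C.PoL)
    bf := Real.pi • (A.w.compl₁₂ C.exL C.exL - (BV C.U C.Ub C.isOpen_U).compl₁₂
      (C.PoL ∘ₗ rotL (C.α : T)) (C.PoL ∘ₗ rotL (C.α : T)))
    M := M
    M_ne := hM
    M_card := hc
    H_symm := C.H_symm
    line := C.H_line
    dual := C.H_dual
    pull := C.pull
    fin := C.finB
    h_pos := fun u v hu hv => mul_nonneg Real.pi_pos.le (sub_nonneg.2 (A.h_pos u v hu hv))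
    b_pos := fun u v hu hv => mul_nonneg Real.pi_pos.le (sub_nonneg.2 (A.b_pos u v hu hv))
    h_symm := fun u v => ?_
    psd := fun u => mul_nonneg Real.pi_pos.le (sub_nonneg.2 (A.Po_le_w u))
    marg := fun u => ?_
    E1 := fun u v h => ?_
    le := fun u v hu hv h => ?_
    marks := hm }, rfl⟩
  · change Real.pi * (A.w (C.exL u) (C.exL v) - Ip C.U (C.Po u.1) (C.Po v.1)) =
      Real.pi * (A.w (C.exL v) (C.exL u) - Ip C.U (C.Po v.1) (C.Po u.1))
    rw [A.symm, Ip_comm]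
  · change Real.pi * (A.w (C.exL u) (C.exL oneT) - Ip C.U (C.Po u.1) (C.Po oneT.1)) =
      Real.pi * (A.w (C.exL u) (C.exL oneT) -
        Ip C.U (C.Po (rotL (C.α : T) u).1) (C.Po (rotL (C.α : T) oneT).1))
    rw [C.C7_one u.2 oneT.2 fun _ => rfl,
      C.C7_one (rotL (C.α : T) u).2 (rotL (C.α : T) oneT).2 fun _ => rfl]
  · have h' : Apart (rotL (C.α : T) u).1 (rotL (C.α : T) v).1 := by
      obtain ⟨r, hr, h⟩ := h
      exact ⟨r, hr, fun x y hx hy => (h _ _ hx hy).trans (dist_sub_right x y _).le⟩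
    have e₁ := C.Po_apart C.finB u.2 v.2 h
    have e₂ := C.Po_apart C.finB (rotL (C.α : T) u).2 (rotL (C.α : T) v).2 h'
    change ∫ p, (rotL (C.α : T) u).1 p.1 * (rotL (C.α : T) v).1 p.2 ∂C.H +
      Real.pi * (A.w (C.exL u) (C.exL v) - Ip C.U (C.Po u.1) (C.Po v.1)) =
      ∫ p, u.1 p.1 * v.1 p.2 ∂C.H + Real.pi * (A.w (C.exL u) (C.exL v) -
        Ip C.U (C.Po (rotL (C.α : T) u).1) (C.Po (rotL (C.α : T) v).1))
    linarith only [e₁, e₂]
  · have e₁ := C.Po_apart C.finB u.2 v.2 h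
    have e₂ := mul_nonpos_of_nonneg_of_nonpos Real.pi_pos.le (A.w_apart u v hu hv h)
    change Real.pi * (A.w (C.exL u) (C.exL v) - Ip C.U (C.Po u.1) (C.Po v.1)) ≤ _
    linarith only [e₁, e₂]

theorem exists_kit : ∃ K : Kit C.α C.N, K.H = C.H := by
  obtain ⟨F, hF⟩ := C.exists_FK
  obtain ⟨K, hK⟩ := F.toKit
  exact ⟨K, hK.trans hF⟩

end Cf

end Pool.Agent.Work.MP_042f46_an.Ty
end
end

-- merged part: Pool.Agent.Work.MP_042f46_an.T.AC
section
/-!
# Step III, the contraction and the uniform bound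

Plans.  `atom_ind`: induction on `k` (nothing to prove for `k = 0`).  For `k + 1` take `L', C'` from the case `k` with `ε / (4 (N + 1))`, `R = L' + 4 N + 2`, `step2` with `ε / 4` and `R`, then `step1` with `ε / 4` and the length given by `step2`.  If the atom is heavy we get `m, t, a, b`, then `g₀', g₁'` with `t < q (g₀' + 1)`, `dist (c + t α) m ≤ θ g₁'` (`θ_four`).  If `m ∈ U` then `‖(T + t) α‖ ≤ (N + 1) θ g₁'` with `0 < T + t < (N + 1) q (g₀' + 1) ≤ q (g₀' + 1 + 2 N)` (`q_pow`), against `sep` and `θ_pow`.  Otherwise apply the case `k` to `insert m U`, the point `m + α` and the levels `g₀', g₁'`.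
`contract`: `A = 116 N + 601 N ^ 2 + 1`, `V = 2 A (k + P)`, window `lo = l - M₀`, `hi = l + M₀`, `M = 2 M₀ + 10`, `Win` with `2 P` from `J_crude` (powers of `lam` up to `M` are at most two, `lam ≤ 11 / 10`; `θ j ≤ x θ (j + 1)` follows from `θ j ^ 2 ≤ x θ (j + 1) ^ 2`, `1 ≤ x`).  `atom_small` gives `L ≥ 4` and the bound `a₀ = ε V + C P` for `At g (g - L)` inside the window (`At_zero` when `g ≤ L`).  `J_pigeon` from `l + 2` with width `2 L` gives `d₁ = l + 2 + i (2 L) + L`, `d₂ = d₁ + L` with `P₀ J (d₁ - L) d₂ ≤ V`; `S1` bounds `K d₁`, `K d₂`; `JB` with `l₁ = l - L`, `l₂ = l`, `e = l - L - L - 2`; `S1` again.  `M₀ = 2 L P₀ + 2 L + 10`.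
`bound`: `lam = min (11 / 10) (1 + 1 / (2 M + 2))`-like number with `1 < lam`, `lam ^ M ≤ 2` (or `exp (1 / (20 (M + 1)))`); at a good level `l₀`, `θ (n - M) ≤ (C (1 + M + dist n l₀) ^ 4) ^ M θ n`, and a polynomial in `dist n l₀` is at most `C₀ lam ^ dist n l₀`.  The supremum `k₀` of `K n / lam ^ dist n l₀` is finite (`K_bdd`); `contract` at level `l` with `k₀ lam ^ dist l l₀`, `C₀ lam ^ dist l l₀` (`Nat.dist.triangle_inequality`) gives `k₀ ≤ k₀ / 2 + C C₀`.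
-/

open Set Metric Topology Filter MeasureTheory
open scoped ENNReal NNReal

noncomputable section
namespace Pool.Agent.Work.MP_042f46_an.Ty

theorem AC_lam (M : ℕ) : ∃ lam : ℝ, 1 < lam ∧ lam ≤ 11 / 10 ∧ lam ^ M ≤ 2 := by
  have hM : (0 : ℝ) < (M : ℝ) + 1 := by positivity
  have hx : (0 : ℝ) < 1 / (10 * ((M : ℝ) + 1)) := by positivity
  have hx1 : 1 / (10 * ((M : ℝ) + 1)) ≤ 1 / 10 := by
    apply one_div_le_one_div_of_le (by norm_num)
    have : (0 : ℝ) ≤ M := Nat.cast_nonneg M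
    linarith only []
  refine ⟨1 + 1 / (10 * ((M : ℝ) + 1)), by linarith only [hx], by linarith only [hx1], ?_⟩
  have h1 : 1 + 1 / (10 * ((M : ℝ) + 1)) ≤ Real.exp (1 / (10 * ((M : ℝ) + 1))) := by
    have := Real.add_one_le_exp (1 / (10 * ((M : ℝ) + 1)))
    linarith only [this]
  have h2 : (M : ℝ) * (1 / (10 * ((M : ℝ) + 1))) ≤ 1 / 10 := by
    rw [mul_one_div, div_le_div_iff₀ (by positivity) (by norm_num)]
    linarith only [hx, hx1]
  have h3 : Real.exp (1 / 10) ≤ 2 := by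
    have h4 := Real.exp_bound_div_one_sub_of_interval (x := 1 / 10) (by norm_num) (by norm_num)
    refine h4.trans ?_
    norm_num
  calc (1 + 1 / (10 * ((M : ℝ) + 1))) ^ M ≤ Real.exp (1 / (10 * ((M : ℝ) + 1))) ^ M :=
        pow_le_pow_left₀ (by linarith only [hx, hx1]) h1 M
    _ = Real.exp ((M : ℝ) * (1 / (10 * ((M : ℝ) + 1)))) := (Real.exp_nat_mul _ _).symm
    _ ≤ Real.exp (1 / 10) := Real.exp_le_exp.2 h2
    _ ≤ 2 := h3

theorem AC_poly {lam : ℝ} (h : 1 < lam) (a k : ℕ) :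
    ∃ B : ℝ, 1 ≤ B ∧ ∀ d : ℕ, (1 + (a : ℝ) + d) ^ k ≤ B * lam ^ d := by
  obtain ⟨B, hB⟩ := (tendsto_pow_const_div_const_pow_of_one_lt k h).bddAbove_range
  have h0 : 0 < lam := by linarith only [h]
  refine ⟨max 1 (B * lam ^ (1 + a)), le_max_left _ _, fun d => ?_⟩
  have h1 : (((1 + a + d : ℕ) : ℝ)) ^ k / lam ^ (1 + a + d) ≤ B := hB ⟨1 + a + d, rfl⟩
  rw [div_le_iff₀ (pow_pos h0 _)] at h1
  push_cast at h1
  calc (1 + (a : ℝ) + d) ^ k ≤ B * lam ^ (1 + a + d) := h1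
    _ = B * lam ^ (1 + a) * lam ^ d := by rw [pow_add lam (1 + a) d, mul_assoc]
    _ ≤ max 1 (B * lam ^ (1 + a)) * lam ^ d :=
        mul_le_mul_of_nonneg_right (le_max_right _ _) (pow_pos h0 _).le

theorem AC_back {α : ℝ} (Λ : Lev α) {C : ℝ} (hC : 1 ≤ C) {l : ℕ}
    (h : ∀ m, Λ.θ m ≤ C * (1 + (Nat.dist m l : ℝ)) ^ 4 * Λ.θ (m + 1)) (M n : ℕ) :
    ∀ j, j ≤ M → Λ.θ (n - j) ≤ (C * (1 + (M : ℝ) + (Nat.dist n l : ℝ)) ^ 4) ^ j * Λ.θ n := by
  have hM : (0 : ℝ) ≤ M := Nat.cast_nonneg M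
  have hd : (0 : ℝ) ≤ (Nat.dist n l : ℝ) := Nat.cast_nonneg _
  have hX : 1 ≤ C * (1 + (M : ℝ) + (Nat.dist n l : ℝ)) ^ 4 :=
    one_le_mul_of_one_le_of_one_le hC (one_le_pow₀ (by linarith only []))
  intro j
  induction j with
  | zero => intro _; simp
  | succ j ih =>
    intro hj
    have ih' := ih (by omega)
    have hstep : Λ.θ (n - (j + 1)) ≤
        C * (1 + (M : ℝ) + (Nat.dist n l : ℝ)) ^ 4 * Λ.θ (n - j) := by
      by_cases hn : j + 1 ≤ n
      · have e : n - (j + 1) + 1 = n - j := by omega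
        have h1 := h (n - (j + 1))
        rw [e] at h1
        refine h1.trans (mul_le_mul_of_nonneg_right ?_ (Λ.θ_pos _).le)
        refine mul_le_mul_of_nonneg_left (pow_le_pow_left₀ (by positivity) ?_ 4) (by linarith only [hC])
        have h2 : Nat.dist (n - (j + 1)) l ≤ M + Nat.dist n l := by
          unfold Nat.dist; omega
        have h3 : (Nat.dist (n - (j + 1)) l : ℝ) ≤ (M : ℝ) + (Nat.dist n l : ℝ) := by
          exact_mod_cast h2
        linarith only [h3]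
      · have e : n - (j + 1) = n - j := by omega
        rw [e]
        exact le_mul_of_one_le_left (Λ.θ_pos _).le hX
    calc Λ.θ (n - (j + 1)) ≤ C * (1 + (M : ℝ) + (Nat.dist n l : ℝ)) ^ 4 * Λ.θ (n - j) := hstep
      _ ≤ C * (1 + (M : ℝ) + (Nat.dist n l : ℝ)) ^ 4 *
          ((C * (1 + (M : ℝ) + (Nat.dist n l : ℝ)) ^ 4) ^ j * Λ.θ n) :=
        mul_le_mul_of_nonneg_left ih' (by linarith only [hX])
      _ = _ := by rw [pow_succ _ j]; ring

theorem bound (N : ℕ) {α : ℝ} (Λ : Lev α) (hΛ : Λ.Good) : ∃ C : ℝ, 1 ≤ C ∧ ∀ L : ℕ, ∃ l, L ≤ l ∧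
    (∀ n, Λ.θ n ≤ C * (11 / 10) ^ Nat.dist n l * Λ.θ (n + 1)) ∧
    ∀ (K : Kit α N) (n : ℕ), (Sys.mk Λ K).K n ≤ C * (11 / 10) ^ Nat.dist n l := by
  obtain ⟨M, Cc, hCc, hcon⟩ := contract N
  obtain ⟨lam, hl1, hl2, hl3⟩ := AC_lam M
  have hl0 : 0 < lam := by linarith only [hl1, hl2]
  obtain ⟨C', hG⟩ := hΛ
  obtain ⟨B, hB1, hB⟩ := AC_poly hl1 M (4 * (M * 2))
  obtain ⟨B', hB1', hB'⟩ := AC_poly hl1 0 4
  have hC1 : (1 : ℝ) ≤ max C' 1 := le_max_right _ _
  generalize hC : max C' 1 = C₁ at hC1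
  have hCle : C' ≤ C₁ := hC ▸ le_max_left _ _
  have hC0 : 1 ≤ C₁ ^ (M * 2) * B := one_le_mul_of_one_le_of_one_le (one_le_pow₀ hC1) hB1
  generalize hC₀ : C₁ ^ (M * 2) * B = C₀ at hC0
  have hCB : 1 ≤ C₁ * B' := one_le_mul_of_one_le_of_one_le hC1 hB1'
  have hCC : 0 ≤ 2 * (Cc * C₀) := by positivity
  refine ⟨C₁ * B' + 2 * (Cc * C₀), by linarith only [hCB, hCC], fun L => ?_⟩
  obtain ⟨l₀, hL, h₀⟩ := hG L
  have h₁ : ∀ m, Λ.θ m ≤ C₁ * (1 + (Nat.dist m l₀ : ℝ)) ^ 4 * Λ.θ (m + 1) := fun m =>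
    (h₀ m).trans (mul_le_mul_of_nonneg_right
      (mul_le_mul_of_nonneg_right hCle (by positivity)) (Λ.θ_pos _).le)
  have hpw : ∀ d : ℕ, lam ^ d ≤ (11 / 10 : ℝ) ^ d := fun d => pow_le_pow_left₀ hl0.le hl2 d
  have htri : ∀ n l : ℕ, lam ^ Nat.dist n l₀ ≤ lam ^ Nat.dist l l₀ * lam ^ Nat.dist n l := by
    intro n l
    rw [← pow_add]
    refine pow_le_pow_right₀ hl1.le ?_
    unfold Nat.dist; omega
  have h₂ : ∀ n, Λ.θ (n - M) ^ 2 ≤ C₀ * lam ^ Nat.dist n l₀ * Λ.θ n ^ 2 := by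
    intro n
    have h3 := AC_back Λ hC1 h₁ M n M le_rfl
    have h4 := pow_le_pow_left₀ (Λ.θ_pos _).le h3 2
    refine h4.trans ?_
    rw [mul_pow, ← pow_mul, mul_pow, ← pow_mul, ← hC₀]
    refine mul_le_mul_of_nonneg_right ?_ (by positivity)
    rw [mul_assoc]
    exact mul_le_mul_of_nonneg_left (hB _) (by positivity)
  refine ⟨l₀, hL, fun n => ?_, fun K => ?_⟩
  · refine (h₁ n).trans (mul_le_mul_of_nonneg_right ?_ (Λ.θ_pos _).le)
    have h3 := hB' (Nat.dist n l₀)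
    simp only [Nat.cast_zero, add_zero] at h3
    calc C₁ * (1 + (Nat.dist n l₀ : ℝ)) ^ 4 ≤ C₁ * (B' * lam ^ Nat.dist n l₀) :=
          mul_le_mul_of_nonneg_left h3 (by linarith only [hl1, hl2, hC1])
      _ = C₁ * B' * lam ^ Nat.dist n l₀ := by ring
      _ ≤ (C₁ * B' + 2 * (Cc * C₀)) * (11 / 10) ^ Nat.dist n l₀ :=
          mul_le_mul (by linarith only [hCC]) (hpw _) (by positivity) (by linarith only [hl1, hl2, hCB, hCC])
  · generalize hσ : Sys.mk Λ K = σ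
    have hθ : σ.θ = Λ.θ := by rw [← hσ]
    obtain ⟨R, hR⟩ := σ.K_bdd
    have hbd : BddAbove (range fun n => σ.K n / lam ^ Nat.dist n l₀) := by
      refine ⟨R, ?_⟩
      rintro _ ⟨n, rfl⟩
      exact (div_le_self (σ.K_nonneg n) (one_le_pow₀ hl1.le)).trans (hR n)
    have hk : ∀ n, σ.K n ≤ (⨆ n, σ.K n / lam ^ Nat.dist n l₀) * lam ^ Nat.dist n l₀ := fun n =>
      (div_le_iff₀ (pow_pos hl0 _)).1 (le_ciSup hbd n)
    have hk0 : 0 ≤ ⨆ n, σ.K n / lam ^ Nat.dist n l₀ :=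
      (div_nonneg (σ.K_nonneg 0) (pow_pos hl0 _).le).trans (le_ciSup hbd 0)
    have hup : ∀ x : ℝ, (∀ n, σ.K n / lam ^ Nat.dist n l₀ ≤ x) →
        (⨆ n, σ.K n / lam ^ Nat.dist n l₀) ≤ x := fun x hx => ciSup_le hx
    generalize (⨆ n, σ.K n / lam ^ Nat.dist n l₀) = k₀ at hk hk0 hup
    have hk1 : k₀ ≤ k₀ / 2 + Cc * C₀ := by
      refine hup _ fun l => ?_
      have hp : 0 < lam ^ Nat.dist l l₀ := pow_pos hl0 _
      have h5 := hcon α σ l (k₀ * lam ^ Nat.dist l l₀) (C₀ * lam ^ Nat.dist l l₀) lam hl1.le hl2 hl3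
        (by positivity) (one_le_mul_of_one_le_of_one_le hC0 (one_le_pow₀ hl1.le))
        (fun n => (hk n).trans (by
          rw [mul_assoc]; exact mul_le_mul_of_nonneg_left (htri n l) hk0))
        (fun n => by
          rw [hθ]
          refine (h₂ n).trans (mul_le_mul_of_nonneg_right ?_ (by positivity))
          rw [mul_assoc]; exact mul_le_mul_of_nonneg_left (htri n l) (by linarith only [hl1, hl2, hC0]))
      rw [div_le_iff₀ hp]
      refine h5.trans (le_of_eq ?_)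
      ring
    intro n
    refine (hk n).trans ?_
    exact mul_le_mul (by linarith only [hl1, hl2, hCB, hk1]) (hpw _) (by positivity) (by linarith only [hl1, hl2, hCB, hCC])

end Pool.Agent.Work.MP_042f46_an.Ty
end
end

-- merged part: Pool.Agent.Work.MP_042f46_an.T.AA
section
/-!
# Test functions of small energy

Plans.  `DD_good`: `DD_le` with `f = g = l`; `κ_cover` with `ν = 8`, and `cl (ball c (2 θ l)) j ≤ κ c (2 θ l) (2 θ (j + 1)) ≤ 9 (θ l / θ (j + 1)) K (j + 1)`; the terms are at most a constant times `(3 / 4 * (11 / 10) ^ 2) ^ (j - l)`, whose sum is at most `11`.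
`dual_low`: `dual` at the points `c - θ / 4 < c + θ / 4 < c + 3 θ < c - 3 θ + 1` (`6 θ < 1` since `θ ≤ θ 1 / 4 ≤ 1 / 8`; `θ 1 ≤ 1 / 2` by `ret`); the first rectangle lies in `SS (ball c (θ / 2)) (2 θ) 2` (`le_dist_coe`), so its mass is at most `C`; if the second mass `x` is at most one then `exp x - 1 ≤ 2 x`.
`far_small`: enlarge `l` so that `5 ≤ l`; choose levels `l + 4 ≤ g 0`, `g i + 8 ≤ g (i + 1)` given by `hC`, `l' = g n + 8`; the rectangles of `dual_low` at the levels `g i`, `i < n`, are disjoint and contained in the rectangle dual to `arc (c - 2 θ l'') (c + 2 θ l'') × arc (c + θ l) (c - θ l + 1)`, whose mass `x` therefore has `x ≤ exp x - 1 ≤ 1 / (n exp (-C) / 2)`.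
`final`: `bound`; choose `n` with `C₁ / n ≤ ε / 2`, `1 / n ≤ ε`, `η = ε / 8`, and recursively good levels `l 0 ≥ 5`, `l (i + 1) ≥ l i + 2` beyond the level of `far_small` for `l i`; `s i = θ (l i)`.  With `Δ i = u i x - u i y` and `X i = ball c (2 s (i + 1)) × (ball c (s i))ᶜ`: `(∑ Δ i) ^ 2 ≤ ∑ Δ i ^ 2 + 2 n ∑ i (1_(X i) (x, y) + 1_(X i) (y, x))`, because `Δ i Δ j ≠ 0` with `i < j` forces `(x, y)` or `(y, x)` into `X i`.
-/

open Set Metric Topology Filter MeasureTheory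
open scoped ENNReal NNReal

noncomputable section
namespace Pool.Agent.Work.MP_042f46_an.Ty

theorem AA_sq {Δ e : ℕ → ℝ} (h0 : ∀ i, 0 ≤ e i) (h : ∀ i j, i < j → Δ i * Δ j ≤ e i) (n : ℕ) :
    (∑ i ∈ Finset.range n, Δ i) ^ 2 ≤
      ∑ i ∈ Finset.range n, Δ i ^ 2 + 2 * n * ∑ i ∈ Finset.range n, e i := by
  induction n with
  | zero => simp
  | succ n ih =>
    have h1 : (∑ i ∈ Finset.range n, Δ i) * Δ n ≤ ∑ i ∈ Finset.range n, e i := by
      rw [Finset.sum_mul]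
      exact Finset.sum_le_sum fun i hi => h i n (Finset.mem_range.1 hi)
    have h2 := mul_nonneg (Nat.cast_nonneg (α := ℝ) n) (h0 n)
    simp only [Finset.sum_range_succ, Nat.cast_succ]
    linarith only [ih, h1, h2, h0, h0 n]

theorem AA_cross {s : ℕ → ℝ} (h0 : ∀ i, 0 < s i) (hs : ∀ i, 2 * s (i + 1) ≤ s i) (c : T) {i j : ℕ}
    (h : i < j) (p : T × T) :
    (bump c (s i) p.1 - bump c (s i) p.2) * (bump c (s j) p.1 - bump c (s j) p.2) ≤
      (ball c (2 * s (i + 1)) ×ˢ (ball c (s i))ᶜ ∪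
        Prod.swap ⁻¹' (ball c (2 * s (i + 1)) ×ˢ (ball c (s i))ᶜ)).indicator 1 p := by
  have h1 : s j ≤ s (i + 1) :=
    antitone_nat_of_succ_le (f := s) (fun k => by linarith only [hs, h0, hs k, h0 (k + 1)]) h
  have h2 : ∀ x, x ∉ ball c (2 * s (i + 1)) → bump c (s j) x = 0 := fun x hx =>
    bump_zero (h0 j) (by linarith only [h1, hx, not_lt.1 (mt mem_ball.2 hx)])
  have h3 : ∀ x ∈ ball c (s i), bump c (s i) x = 1 := fun x hx => bump_one (h0 i) (mem_ball.1 hx).le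
  have h4 := ball_subset_ball (x := c) (hs i)
  by_cases k : p ∈ ball c (2 * s (i + 1)) ×ˢ (ball c (s i))ᶜ ∪
    Prod.swap ⁻¹' (ball c (2 * s (i + 1)) ×ˢ (ball c (s i))ᶜ)
  · rw [indicator_of_mem k, Pi.one_apply]
    have a := bump_mem c (s i) p.1
    have b := bump_mem c (s i) p.2
    have a' := bump_mem c (s j) p.1
    have b' := bump_mem c (s j) p.2
    refine (le_abs_self _).trans ((abs_mul _ _).trans_le (mul_le_one₀ ?_ (abs_nonneg _) ?_))
    exacts [abs_le.2 ⟨by linarith only [a, b, a.1, b.2], by linarith only [a, b, a.2, b.1]⟩,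
      abs_le.2 ⟨by linarith only [a', b', a'.1, b'.2], by linarith only [a', b', a'.2, b'.1]⟩]
  rw [indicator_of_notMem k]
  by_cases k1 : p.1 ∈ ball c (2 * s (i + 1))
  · rw [h3 _ (h4 k1), h3 _ (by_contra fun e => k (.inl ⟨k1, e⟩)), sub_self, zero_mul]
  by_cases k2 : p.2 ∈ ball c (2 * s (i + 1))
  · rw [h3 _ (h4 k2), h3 p.1 (by_contra fun e => k (.inr ⟨k2, e⟩)), sub_self, zero_mul]
  rw [h2 _ k1, h2 _ k2, sub_self, mul_zero]

theorem AA_one {H : Measure (T × T)} {u : T → ℝ} (hu : Continuous u) {Y : Set (T × T)}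
    (hY : MeasurableSet Y) {A B a b : ℝ} (h1 : DD H u ≤ ENNReal.ofReal A)
    (h2 : H Y ≤ ENNReal.ofReal B) (hA : 0 ≤ A) (hB : 0 ≤ B) (ha : 0 ≤ a) (hb : 0 ≤ b) :
    ∫⁻ p, ENNReal.ofReal (a * (u p.1 - u p.2) ^ 2 + b * Y.indicator 1 p) ∂H ≤
      ENNReal.ofReal (a * A + b * B) := by
  have m : Measurable fun p : T × T => ENNReal.ofReal ((u p.1 - u p.2) ^ 2) :=
    (((hu.measurable.comp measurable_fst).sub
      (hu.measurable.comp measurable_snd)).pow_const 2).ennreal_ofReal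
  refine (lintegral_mono (g := fun p => ENNReal.ofReal a * ENNReal.ofReal ((u p.1 - u p.2) ^ 2) +
    Y.indicator (fun _ => ENNReal.ofReal b) p) fun p => ENNReal.ofReal_add_le.trans
      (add_le_add (ENNReal.ofReal_mul ha).le ?_)).trans ?_
  · by_cases k : p ∈ Y <;> simp [k]
  · rw [lintegral_add_left (m.const_mul _), lintegral_const_mul _ m, lintegral_indicator_const hY,
      ENNReal.ofReal_add (mul_nonneg ha hA) (mul_nonneg hb hB), ENNReal.ofReal_mul ha,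
      ENNReal.ofReal_mul hb]
    exact add_le_add (mul_le_mul_right h1 _) (mul_le_mul_right h2 _)

theorem final (N : ℕ) {α : ℝ} (Λ : Lev α) (hΛ : Λ.Good) {ε : ℝ} (hε : 0 < ε) :
    ∃ (n : ℕ) (s : ℕ → ℝ), 0 < n ∧ 1 / (n : ℝ) ≤ ε ∧ (∀ i, 0 < s i) ∧ s 0 ≤ 1 / 8 ∧
      (∀ i, 2 * s (i + 1) ≤ s i) ∧ ∀ (K : Kit α N) (c : T),
        DD K.H (fun x => (∑ i ∈ Finset.range n, bump c (s i) x) / n) ≤ ENNReal.ofReal ε := by
  obtain ⟨C, hC, hb⟩ := bound N Λ hΛ
  have hf := fun l => far_small (N := N) Λ (zero_le_one.trans hC) (fun L =>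
    let ⟨l, h1, _, h2⟩ := hb L
    ⟨l, h1, fun K => by simpa using h2 K l⟩) l (show 0 < ε / 8 by positivity)
  choose l' hl' using hf
  choose nx h1 h2 h3 using fun l => hb (max (l + 2) (l' l))
  obtain ⟨l, l0, ls⟩ : ∃ l : ℕ → ℕ, l 0 = nx 3 ∧ ∀ i, l (i + 1) = nx (l i) :=
    ⟨fun i => nx^[i] (nx 3), rfl, fun i => Function.iterate_succ_apply' _ _ _⟩
  have gd : ∀ i, ∃ m, l i = nx m := fun i => by
    cases i
    exacts [⟨_, l0⟩, ⟨_, ls _⟩]
  have hs : ∀ i, 2 * Λ.θ (l (i + 1)) ≤ Λ.θ (l i) := fun i =>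
    Λ.θ_two (ls i ▸ (le_max_left _ _).trans (h1 _))
  obtain ⟨n, hn⟩ := exists_nat_gt ((200000 * C ^ 2 + 1) / ε)
  have n0 : (0 : ℝ) < n := lt_trans (by positivity) hn
  rw [div_lt_iff₀ hε] at hn
  refine ⟨n, fun i => Λ.θ (l i), Nat.cast_pos.1 n0, ?_, fun i => Λ.θ_pos _, ?_, hs, fun K c => ?_⟩
  · rw [div_le_iff₀ n0]
    linarith only [hn, sq_nonneg C, sq_nonneg C]
  · linarith only [h1, l0, Λ.θ_four (n := 1) (l0 ▸ (le_max_left _ _).trans (h1 3)), Λ.θ_one]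
  let X : ℕ → Set (T × T) := fun i => ball c (2 * Λ.θ (l (i + 1))) ×ˢ (ball c (Λ.θ (l i)))ᶜ
  have mX : ∀ i, MeasurableSet (X i) := fun i => measurableSet_ball.prod measurableSet_ball.compl
  have mY := fun i => (mX i).union (measurable_swap (mX i))
  have hY : ∀ i, K.H (X i ∪ Prod.swap ⁻¹' X i) ≤ ENNReal.ofReal (ε / 4) := fun i => by
    have := hl' (l i) (l (i + 1)) (ls i ▸ (le_max_right _ _).trans (h1 _)) K c
    refine (measure_union_le _ _).trans ((add_le_add this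
      ((swap_apply K.H_symm (mX i)).trans_le this)).trans_eq ?_)
    rw [← ENNReal.ofReal_add (by positivity) (by positivity)]
    congr 1
    ring
  have hD : ∀ i, DD K.H (bump c (Λ.θ (l i))) ≤ ENNReal.ofReal (100000 * C ^ 2) := fun i => by
    obtain ⟨m, e⟩ := gd i
    rw [e]
    exact (Sys.mk Λ K).DD_good hC (h2 m) (h3 m K) c
  refine (lintegral_mono fun p => ?_).trans (((lintegral_finsetSum (Finset.range n) (f := fun i p =>
    ENNReal.ofReal (1 / n ^ 2 * (bump c (Λ.θ (l i)) p.1 - bump c (Λ.θ (l i)) p.2) ^ 2 +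
      2 / n * (X i ∪ Prod.swap ⁻¹' X i).indicator 1 p)) fun i _ => ?_).trans_le
    (Finset.sum_le_card_nsmul _ _ _ fun i _ => AA_one (continuous_bump _ _) (mY i) (hD i) (hY i)
      (by positivity) (by positivity) (by positivity) (by positivity))).trans ?_)
  · refine (ENNReal.ofReal_le_ofReal ?_).trans_eq (ENNReal.ofReal_sum_of_nonneg fun i _ =>
      add_nonneg (by positivity) (mul_nonneg (by positivity)
        (indicator_nonneg (fun _ _ => zero_le_one) _)))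
    beta_reduce
    have := AA_sq (Δ := fun i => bump c (Λ.θ (l i)) p.1 - bump c (Λ.θ (l i)) p.2)
      (e := fun i => (X i ∪ Prod.swap ⁻¹' X i).indicator 1 p)
      (fun i => indicator_nonneg (fun _ _ => zero_le_one) _)
      (fun i j h => AA_cross (fun i => Λ.θ_pos _) hs c h p) n
    rw [← sub_div, ← Finset.sum_sub_distrib, div_pow, Finset.sum_add_distrib, ← Finset.mul_sum,
      ← Finset.mul_sum, div_le_iff₀ (by positivity)]
    refine this.trans_eq ?_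
    field_simp
  · have := (continuous_bump c (Λ.θ (l i))).measurable
    exact ((((this.comp measurable_fst).sub (this.comp measurable_snd)).pow_const 2).const_mul _
      |>.add ((measurable_one.indicator (mY i)).const_mul _)).ennreal_ofReal
  · rw [Finset.card_range, nsmul_eq_mul, ← ENNReal.ofReal_natCast, ← ENNReal.ofReal_mul n0.le]
    refine ENNReal.ofReal_le_ofReal ?_
    rw [show n * (1 / n ^ 2 * (100000 * C ^ 2) + 2 / n * (ε / 4)) =
      100000 * C ^ 2 / (n : ℝ) + ε / 2 by field_simp; ring, ← le_sub_iff_add_le, div_le_iff₀ n0]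
    linarith only [hn]

end Pool.Agent.Work.MP_042f46_an.Ty
end
end

-- merged part: Pool.Agent.Work.MP_042f46_an.T.R1
section
/-!
# Closest returns, and the class of rotation numbers has full measure

Plans.  `exists_lev`: write `ν i = ‖↑(i α)‖`, positive for `0 < i`; for `r > 0` there is `i > 0` with `ν i < r` (`Rot_dense`, or `Real.exists_nat_abs_mul_sub_round_le`).  `Q 0 = 1`, `Q (n + 1)` = least `i > 0` with `ν i < ν (Q n)`; `q 0 = 0`, `q (n + 1) = Q n`, `θ 0 = 1`, `θ (n + 1) = ν (Q n)`.  By induction `ν (Q n) ≤ ν i` for `0 < i ≤ Q n`, so `Q n < Q (n + 1)` and `sep` holds.  Let `δ n` be the representative of `Q n α` with `|δ n| = ν (Q n)` (`exists_rep`).  `δ n` and `δ (n + 1)` have opposite signs (else `ν (Q (n + 1) - Q n) ≤ |δ (n + 1) - δ n| < ν (Q n)`), so `ν (Q (n + 2) - Q n) ≤ |δ n| - |δ (n + 2)|`, which gives `θ_half` and `Q (n + 1) ≤ Q (n + 2) - Q n`.  `dense`: every `i < Q (n + 1)` has a successor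 `i' < Q (n + 1)` with `i' α = i α + t`, `0 < t < 2 |δ n|` (`i' = i ± Q n` or `i ± Q n ∓ Q (n + 1)`); choose `i` minimising `Int.fract (x - i α)`.
`Lev.q_θ`: the balls of radius `θ n / 2` around the points `i α`, `i < q (n + 1)`, are disjoint and have measure `θ n` (`AddCircle.volume_closedBall`, `AddCircle.closedBall_ae_eq_ball`).
`Lev.good`: let `x m = Nat.log 2 (q m) - k` (real), `D m = |x m|`.  For `1 ≤ m`: `θ (m - 1) ≤ 1 / q m ≤ C (1 + D m) ^ 2 θ m`, and `q (m + 1) ≤ 1 / θ m ≤ C (1 + D m) ^ 2 q m`, so `x (m + 1) ≤ x m + c + 6 sqrt (D m)` with `c` depending on `C` only (`2 ^ (6 s) ≥ (1 + s ^ 2) ^ 2`).  Let `l` be the largest `m ≥ 1` with `x m ≤ 0`; then `sqrt (D m) ≤ A (1 + dist m l)` by induction in both directions; `l` is large when `k` is large.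
`ae_typ`: on the circle, for fixed `C, k` the bad set has measure at most `∑ q, 2 / (C (1 + dist (log q) k) ^ 2 q) ≤ ∑ j, 2 / (C (1 + dist j k) ^ 2) ≤ 8 / C` (`MeasureTheory.measurePreserving_zsmul`, group `q` by `Nat.log 2 q`; or bound finite unions); the set of points that are bad for all large `k` has measure at most `8 / C` (increasing union of intersections); let `C → ∞`.  Transfer to the line with `UnitAddCircle.measurePreserving_mk` on each `Ioc n (n + 1)`; irrational numbers have full measure (`Set.Countable.measure_zero`).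
-/

open Set Metric Topology Filter MeasureTheory
open scoped ENNReal NNReal

noncomputable section
namespace Pool.Agent.Work.MP_042f46_an.Ty

/-- the orbit of zero -/
def R1_g (α : ℝ) (i : ℕ) : T := (((i : ℝ) * α : ℝ) : T)

/-- the closest returns -/
def R1_Q (α : ℝ) : ℕ → ℕ
  | 0 => 1
  | n + 1 => sInf {i | 0 < i ∧ ‖R1_g α i‖ < ‖R1_g α (R1_Q α n)‖}

/-- the signed distance -/
def R1_d (α : ℝ) (i : ℕ) : ℝ := (i : ℝ) * α - round ((i : ℝ) * α)

variable {α : ℝ}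

theorem R1_add (i j : ℕ) : R1_g α (i + j) = R1_g α i + R1_g α j := by
  rw [R1_g, Nat.cast_add, add_mul, AddCircle.coe_add]
  rfl

theorem R1_abs (i : ℕ) : ‖R1_g α i‖ = |R1_d α i| := UnitAddCircle.norm_eq

theorem R1_coe (i : ℕ) : R1_g α i = (R1_d α i : T) := by
  have e : ((round ((i : ℝ) * α) : ℝ) : T) = 0 :=
    (AddCircle.coe_eq_zero_iff _).2 ⟨round ((i : ℝ) * α), by simp⟩
  rw [R1_d, AddCircle.coe_sub, e, sub_zero]
  rfl

theorem R1_ne (hα : Irrational α) {i : ℕ} (hi : 0 < i) : R1_d α i ≠ 0 :=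
  sub_ne_zero.2 ((hα.natCast_mul hi.ne').ne_int _)

theorem R1_sub {i j : ℕ} (h : i ≤ j) : ‖R1_g α (j - i)‖ ≤ |R1_d α j - R1_d α i| := by
  have e := R1_add (α := α) (j - i) i
  rw [Nat.sub_add_cancel h, ← sub_eq_iff_eq_add, R1_coe j, R1_coe i, ← AddCircle.coe_sub] at e
  rw [← e]
  exact QuotientAddGroup.norm_mk_le_norm

theorem R1_small (α : ℝ) {r : ℝ} (hr : 0 < r) : ∃ i, 0 < i ∧ ‖R1_g α i‖ < r := by
  obtain ⟨n, hn⟩ := exists_nat_one_div_lt hr
  obtain ⟨i, h1, -, h2⟩ := Real.exists_nat_abs_mul_sub_round_le α n.succ_pos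
  refine ⟨i, h1, (R1_abs i).trans_lt (h2.trans_lt (lt_of_le_of_lt ?_ hn))⟩
  exact one_div_le_one_div_of_le (by positivity) (by push_cast; linarith only [])

theorem R1_next (hα : Irrational α) {n : ℕ} (h : 0 < R1_Q α n) :
    0 < R1_Q α (n + 1) ∧ ‖R1_g α (R1_Q α (n + 1))‖ < ‖R1_g α (R1_Q α n)‖ :=
  Nat.sInf_mem (R1_small α ((abs_pos.2 (R1_ne hα h)).trans_eq (R1_abs _).symm))

theorem R1_pos (hα : Irrational α) (n : ℕ) : 0 < R1_Q α n := by
  induction n with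
  | zero => exact one_pos
  | succ n ih => exact (R1_next hα ih).1

theorem R1_lt (hα : Irrational α) (n : ℕ) :
    ‖R1_g α (R1_Q α (n + 1))‖ < ‖R1_g α (R1_Q α n)‖ := (R1_next hα (R1_pos hα n)).2

theorem R1_sep {n i : ℕ} (h : 0 < i) (h' : i < R1_Q α (n + 1)) :
    ‖R1_g α (R1_Q α n)‖ ≤ ‖R1_g α i‖ :=
  not_lt.1 fun k => Nat.notMem_of_lt_sInf h' ⟨h, k⟩

theorem R1_mono (hα : Irrational α) (n : ℕ) : R1_Q α n < R1_Q α (n + 1) := by
  refine lt_of_le_of_ne ?_ fun e => ?_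
  · cases n with
    | zero => exact R1_pos hα 1
    | succ n =>
      exact not_lt.1 fun k => absurd (R1_sep (R1_pos hα _) k)
        (not_le.2 ((R1_lt hα (n + 1)).trans (R1_lt hα n)))
  · have := R1_lt hα n
    rw [← e] at this
    exact lt_irrefl _ this

theorem R1_sign (hα : Irrational α) (n : ℕ) :
    (0 < R1_d α (R1_Q α n) ∧ R1_d α (R1_Q α (n + 1)) < 0) ∨
      (R1_d α (R1_Q α n) < 0 ∧ 0 < R1_d α (R1_Q α (n + 1))) := by
  have h1 := R1_mono hα n
  have h2 := R1_pos hα n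
  have h3 := (R1_sep (α := α) (n := n) (Nat.sub_pos_of_lt h1) (by omega)).trans (R1_sub h1.le)
  have h4 := R1_lt hα n
  have h5 := R1_ne hα h2
  have h6 := R1_ne hα (R1_pos hα (n + 1))
  simp only [R1_abs] at h3 h4
  generalize R1_d α (R1_Q α n) = x at *
  generalize R1_d α (R1_Q α (n + 1)) = y at *
  rcases h5.lt_or_gt with hx | hx <;> rcases h6.lt_or_gt with hy | hy
  · rw [abs_of_neg hx] at h3 h4
    rw [abs_of_neg hy] at h4
    rw [abs_of_pos (by linarith only [h4])] at h3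
    linarith only [h3, hy]
  · exact Or.inr ⟨hx, hy⟩
  · exact Or.inl ⟨hx, hy⟩
  · rw [abs_of_pos hx] at h3 h4
    rw [abs_of_pos hy] at h4
    rw [abs_of_neg (by linarith only [h4])] at h3
    linarith only [h3, hy]

theorem R1_two (hα : Irrational α) (n : ℕ) : 2 * R1_Q α n ≤ R1_Q α (n + 2) ∧
    2 * ‖R1_g α (R1_Q α (n + 2))‖ ≤ ‖R1_g α (R1_Q α n)‖ := by
  have h1 := R1_mono hα n
  have h2 : R1_Q α (n + 1) < R1_Q α (n + 2) := R1_mono hα (n + 1)
  have h3 := R1_pos hα n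
  have h4 := R1_lt hα n
  have h5 : ‖R1_g α (R1_Q α (n + 2))‖ < _ := R1_lt hα (n + 1)
  have h6 : ‖R1_g α (R1_Q α (n + 2) - R1_Q α n)‖ ≤
      ‖R1_g α (R1_Q α n)‖ - ‖R1_g α (R1_Q α (n + 2))‖ := by
    refine (R1_sub (h1.trans h2).le).trans_eq ?_
    have h7 := h5.trans h4
    simp only [R1_abs] at h7 ⊢
    rcases R1_sign hα n with ⟨a, b⟩ | ⟨a, b⟩ <;> rcases R1_sign hα (n + 1) with ⟨c, d⟩ | ⟨c, d⟩
    · exact absurd c b.not_gt
    · rw [abs_of_pos a, abs_of_pos d] at h7 ⊢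
      rw [abs_of_neg (sub_neg.2 h7), neg_sub]
    · rw [abs_of_neg a, abs_of_neg d] at h7 ⊢
      rw [abs_of_pos (sub_pos.2 (neg_lt_neg_iff.1 h7))]
      ring
    · exact absurd c b.not_gt
  have h8 : 0 < ‖R1_g α (R1_Q α (n + 2))‖ :=
    (abs_pos.2 (R1_ne hα (R1_pos hα _))).trans_eq (R1_abs _).symm
  have h9 := R1_sep (α := α) (n := n + 1) (Nat.sub_pos_of_lt (h1.trans h2))
    (Nat.sub_lt (h3.trans (h1.trans h2)) h3)
  refine ⟨?_, by linarith only [h5, h6, h9]⟩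
  by_contra k
  have := R1_sep (α := α) (n := n) (Nat.sub_pos_of_lt (h1.trans h2)) (by omega)
  linarith only [h6, h8, this]

theorem R1_succ (hα : Irrational α) (n : ℕ) {i : ℕ} (hi : i < R1_Q α (n + 1)) :
    ∃ j < R1_Q α (n + 1), ∃ s : ℝ, ‖R1_g α (R1_Q α n)‖ ≤ s ∧ s < 2 * ‖R1_g α (R1_Q α n)‖ ∧
      R1_g α j = R1_g α i + (s : T) := by
  have h1 := R1_mono hα n
  have h4 := R1_lt hα n
  simp only [R1_abs] at h4 ⊢
  rcases R1_sign hα n with ⟨a, b⟩ | ⟨a, b⟩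
  · rw [abs_of_pos a] at h4 ⊢
    rw [abs_of_neg b] at h4
    rcases lt_or_ge (i + R1_Q α n) (R1_Q α (n + 1)) with k | k
    · exact ⟨_, k, _, le_rfl, by linarith only [h4, b], by rw [R1_add, R1_coe (R1_Q α n)]⟩
    · obtain ⟨j, hj⟩ := Nat.exists_eq_add_of_le k
      refine ⟨j, by omega, R1_d α (R1_Q α n) - R1_d α (R1_Q α (n + 1)), by linarith only [b],
        by linarith only [h4], ?_⟩
      rw [AddCircle.coe_sub, ← R1_coe, ← R1_coe, ← add_sub_assoc, ← R1_add, hj, R1_add,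
        add_sub_cancel_left]
  · rw [abs_of_neg a] at h4 ⊢
    rw [abs_of_pos b] at h4
    rcases lt_or_ge i (R1_Q α n) with k | k
    · obtain ⟨j, hj⟩ := Nat.exists_eq_add_of_le (show R1_Q α n ≤ i + R1_Q α (n + 1) by omega)
      refine ⟨j, by omega, R1_d α (R1_Q α (n + 1)) - R1_d α (R1_Q α n), by linarith only [b],
        by linarith only [h4], ?_⟩
      rw [AddCircle.coe_sub, ← R1_coe, ← R1_coe, ← add_sub_assoc, ← R1_add, hj, R1_add,
        add_sub_cancel_left]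
    · obtain ⟨j, hj⟩ := Nat.exists_eq_add_of_le k
      refine ⟨j, by omega, -R1_d α (R1_Q α n), le_rfl, by linarith only [h4, b], ?_⟩
      rw [AddCircle.coe_neg, ← R1_coe, hj, R1_add, add_neg_cancel_comm]

theorem R1_dense (hα : Irrational α) (n : ℕ) (x : T) : ∃ i < R1_Q α (n + 1),
    ∃ t ∈ Ico 0 (2 * ‖R1_g α (R1_Q α n)‖), x = R1_g α i + (t : T) := by
  have h0 : 0 < ‖R1_g α (R1_Q α n)‖ :=
    (abs_pos.2 (R1_ne hα (R1_pos hα _))).trans_eq (R1_abs _).symm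
  have key (k : ℕ) : ∀ i < R1_Q α (n + 1), ∀ t ∈ Ico 0 (k * ‖R1_g α (R1_Q α n)‖),
      x = R1_g α i + (t : T) → ∃ i < R1_Q α (n + 1),
        ∃ t ∈ Ico 0 (2 * ‖R1_g α (R1_Q α n)‖), x = R1_g α i + (t : T) := by
    induction k with
    | zero => exact fun i _ t ht _ => absurd ht (by simp)
    | succ k ih =>
      intro i hi t ht e
      rcases lt_or_ge t (2 * ‖R1_g α (R1_Q α n)‖) with h | h
      · exact ⟨i, hi, t, ⟨ht.1, h⟩, e⟩
      · obtain ⟨j, hj, s, s1, s2, s3⟩ := R1_succ hα n hi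
        have h2 := ht.2
        push_cast at h2
        refine ih j hj (t - s) ⟨by linarith only [h, s2], by linarith only [s1, h2]⟩ ?_
        rw [s3, AddCircle.coe_sub, e, add_add_sub_cancel]
  obtain ⟨t, ht, e⟩ := exists_coe x
  obtain ⟨k, hk⟩ := exists_nat_gt (1 / ‖R1_g α (R1_Q α n)‖)
  refine key k 0 (R1_pos hα _) t ⟨ht.1, ht.2.trans ((div_lt_iff₀ h0).1 hk)⟩ ?_
  simpa [R1_g] using e

theorem exists_lev {α : ℝ} (hα : Irrational α) : Nonempty (Lev α) := by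
  have h0 (i : ℕ) : ‖R1_g α i‖ ≤ 1 / 2 := (R1_abs i).trans_le (abs_sub_round _)
  refine ⟨{
    q := fun n => Nat.casesOn n 0 (R1_Q α)
    θ := fun n => Nat.casesOn n 1 fun n => ‖R1_g α (R1_Q α n)‖
    θ_zero := rfl
    θ_pos := ?_
    θ_anti := antitone_nat_of_succ_le ?_
    θ_half := ?_
    q_one := rfl
    q_mono := monotone_nat_of_le_succ ?_
    q_two := ?_
    ret := fun _ => rfl
    sep := ?_
    dense := fun n x => ?_ }⟩
  · rintro (_ | n)
    exacts [one_pos, (abs_pos.2 (R1_ne hα (R1_pos hα n))).trans_eq (R1_abs _).symm]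
  · rintro (_ | n)
    exacts [(h0 _).trans (half_le_self zero_le_one), (R1_lt hα n).le]
  · rintro (_ | n)
    exacts [(le_div_iff₀' two_pos).1 (h0 _), (R1_two hα n).2]
  · rintro (_ | n)
    exacts [Nat.zero_le _, (R1_mono hα n).le]
  · rintro (_ | n)
    exacts [Nat.zero_le _, (R1_two hα n).1]
  · rintro (_ | n) i h1 h2
    exacts [absurd h1 (not_lt.2 (Nat.lt_one_iff.1 h2).le), R1_sep h1 h2]
  · obtain ⟨i, hi, t, ht, e⟩ := R1_dense hα n x
    exact ⟨i, hi, t, ht, e.trans (AddCircle.coe_add _ _ _).symm⟩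

end Pool.Agent.Work.MP_042f46_an.Ty
end
end

-- merged part: Pool.Agent.Work.MP_042f46_an.T.D2
section
/-!
# The invariant curves are equicontinuous

Plans.  `avg_nice`, `avg_en`: the gradient of `bumpC c (s i)` vanishes off the closed annulus `7 s i ≤ ‖ζ - eT c‖ ≤ 8 s i` (`bumpC_one`, `bumpC_zero`, `gr_congr`), these annuli are disjoint, so at a point where all bumps are differentiable the square of the norm of the gradient of the sum is the sum of the squares; `En_bumpC`, `En_mul`.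
`equicont`: `R` bounds the compact set `(φ '' {2 < ‖ζ‖})ᶜ`, which contains all the curves; `lines` with `min c₀ ε`; `final` with a small multiple of its constant; `δ = s (n - 1)`, which is at most every `s i`, `i < n`; `exists_cf`, `exists_kit`, `exists_ext`; `E` is the image of `uIcc t t'`, `F` the image of `Icc (t + 1 / 4) (t + 3 / 4)`, `c = ↑t` (`bump_one`, `bump_zero`, `le_dist_coe`).
-/

open Set Metric Topology Filter MeasureTheory
open scoped ENNReal NNReal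

noncomputable section
namespace Pool.Agent.Work.MP_042f46_an.Ty

theorem D2_LL (c : T) {θ : ℝ} (hθ : 0 < θ) (O : Set ℂ) : LL O (bumpC c θ) := by
  refine LL.of_lip (K := ⟨1 / θ, by positivity⟩) (LipschitzWith.of_dist_le_mul fun a b => ?_) O
  rw [Real.dist_eq, dist_eq_norm]
  refine (bumpC_lip hθ a b).trans (le_of_eq ?_)
  change _ = 1 / θ * _
  ring

theorem D2_sum (c : T) {s : ℕ → ℝ} (h0 : ∀ i, 0 < s i) (n : ℕ) :
    Nice fun ζ => ∑ i ∈ Finset.range n, bumpC c (s i) ζ := by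
  induction n with
  | zero => exact ⟨by simpa using LL.const _ 0, 0, fun ζ _ => by simp⟩
  | succ n ih =>
    obtain ⟨R, hR⟩ := ih.supp
    obtain ⟨R', hR'⟩ := (nice_bumpC c (h0 n)).supp
    refine ⟨?_, max R R', fun ζ h => ?_⟩
    · simp only [Finset.sum_range_succ]
      exact ih.lip.add (D2_LL c (h0 n) _)
    · have e1 := hR ζ ((le_max_left _ _).trans h)
      have e2 := hR' ζ ((le_max_right _ _).trans h)
      simp only [Finset.sum_range_succ]
      rw [e1, e2, add_zero]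

theorem avg_nice (c : T) (n : ℕ) {s : ℕ → ℝ} (h0 : ∀ i, 0 < s i) :
    Nice fun ζ => (∑ i ∈ Finset.range n, bumpC c (s i) ζ) / n := by
  obtain ⟨h1, R, hR⟩ := D2_sum c h0 n
  refine ⟨?_, R, fun ζ h => ?_⟩
  · simp only [div_eq_mul_inv]
    exact h1.mul (LL.const _ _)
  · have e1 := hR ζ h
    rw [e1, zero_div]

theorem D2_anti {s : ℕ → ℝ} (h0 : ∀ i, 0 < s i) (h : ∀ i, 2 * s (i + 1) ≤ s i) : Antitone s :=
  antitone_nat_of_succ_le fun i => by linarith only [h0, h, h0 (i + 1), h i]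

theorem D2_gr_zero (c : T) {θ : ℝ} (hθ : 0 < θ) {ζ : ℂ}
    (h : ‖ζ - eT c‖ < 7 * θ ∨ 8 * θ < ‖ζ - eT c‖) : gr (bumpC c θ) ζ = 0 := by
  have hc : Continuous fun ζ : ℂ => ‖ζ - eT c‖ := by fun_prop
  rcases h with h | h
  · have e1 : bumpC c θ =ᶠ[𝓝 ζ] fun _ => 1 := by
      filter_upwards [(isOpen_lt hc continuous_const).mem_nhds h] with w hw
      exact bumpC_one hθ (le_of_lt hw)
    rw [gr_congr e1, gr_const]
  · have e1 : bumpC c θ =ᶠ[𝓝 ζ] fun _ => 0 := by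
      filter_upwards [(isOpen_lt continuous_const hc).mem_nhds h] with w hw
      exact bumpC_zero hθ (le_of_lt hw)
    rw [gr_congr e1, gr_const]

theorem D2_sq {n : ℕ} {v : ℕ → ℂ} (h : ∀ i j, i < j → v i = 0 ∨ v j = 0) :
    ‖∑ i ∈ Finset.range n, v i‖ₑ ^ 2 ≤ ∑ i ∈ Finset.range n, ‖v i‖ₑ ^ 2 := by
  by_cases hz : ∀ i ∈ Finset.range n, v i = 0
  · rw [Finset.sum_eq_zero hz]
    simp
  · push Not at hz
    obtain ⟨i, hi, hv⟩ := hz
    rw [Finset.sum_eq_single_of_mem i hi]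
    · exact Finset.single_le_sum (f := fun i => ‖v i‖ₑ ^ 2) (fun _ _ => zero_le) hi
    · intro j _ hj
      rcases lt_or_gt_of_ne hj with k | k
      · exact (h j i k).resolve_right hv
      · exact (h i j k).resolve_left hv

theorem D2_gr_sum {f : ℕ → ℂ → ℝ} {z : ℂ} (h : ∀ i, DifferentiableAt ℝ (f i) z) (n : ℕ) :
    gr (fun ζ => ∑ i ∈ Finset.range n, f i ζ) z = ∑ i ∈ Finset.range n, gr (f i) z := by
  induction n with
  | zero => simpa using gr_const 0 z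
  | succ n ih =>
    simp only [Finset.sum_range_succ]
    rw [gr_add (DifferentiableAt.fun_sum fun i _ => h i) (h n), ih]

theorem D2_en (c : T) (n : ℕ) {s : ℕ → ℝ} (h0 : ∀ i, 0 < s i) (h : ∀ i, 2 * s (i + 1) ≤ s i) :
    En univ (fun ζ => ∑ i ∈ Finset.range n, bumpC c (s i) ζ) ≤
      n * ENNReal.ofReal (64 * Real.pi) := by
  have hd : ∀ᵐ z : ℂ, ∀ i, DifferentiableAt ℝ (bumpC c (s i)) z := by
    rw [ae_all_iff]
    intro i
    filter_upwards [(D2_LL c (h0 i) univ).ae_diff] with z hz using hz (mem_univ _)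
  calc En univ (fun ζ => ∑ i ∈ Finset.range n, bumpC c (s i) ζ)
      ≤ ∫⁻ z in univ, ∑ i ∈ Finset.range n, ‖gr (bumpC c (s i)) z‖ₑ ^ 2 := by
        refine lintegral_mono_ae (ae_restrict_of_ae ?_)
        filter_upwards [hd] with z hz
        rw [D2_gr_sum hz]
        refine D2_sq fun i j hij => ?_
        have h1 : s j ≤ s (i + 1) := D2_anti h0 h hij
        have h2 := h i
        have h3 := h0 i
        by_cases k : ‖z - eT c‖ < 7 * s i
        · exact Or.inl (D2_gr_zero c (h0 i) (Or.inl k))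
        · exact Or.inr (D2_gr_zero c (h0 j) (Or.inr (by linarith only [h1, h2, h3, k, not_lt.1 k])))
    _ = ∑ i ∈ Finset.range n, En univ (bumpC c (s i)) :=
        lintegral_finsetSum _ fun i _ => (measurable_gr _).enorm.pow_const 2
    _ ≤ ∑ _i ∈ Finset.range n, ENNReal.ofReal (64 * Real.pi) :=
        Finset.sum_le_sum fun i _ => En_bumpC c (h0 i)
    _ = n * ENNReal.ofReal (64 * Real.pi) := by simp

theorem avg_en (c : T) (n : ℕ) {s : ℕ → ℝ} (h0 : ∀ i, 0 < s i) (h : ∀ i, 2 * s (i + 1) ≤ s i) :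
    En univ (fun ζ => (∑ i ∈ Finset.range n, bumpC c (s i) ζ) / n) ≤
      ENNReal.ofReal (64 * Real.pi / n) := by
  have e1 : (fun ζ => (∑ i ∈ Finset.range n, bumpC c (s i) ζ) / n) =
      fun ζ => (n : ℝ)⁻¹ * ∑ i ∈ Finset.range n, bumpC c (s i) ζ := by
    funext ζ
    ring
  rw [e1, En_mul]
  refine (mul_le_mul_right (D2_en c n h0 h) _).trans (le_of_eq ?_)
  rw [← ENNReal.ofReal_natCast, ← ENNReal.ofReal_mul (by positivity),
    ← ENNReal.ofReal_mul (by positivity)]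
  congr 1
  rcases Nat.eq_zero_or_pos n with k | k
  · simp [k]
  · have : (n : ℝ) ≠ 0 := by positivity
    field_simp

theorem D2_bound (σ : Sy) : ∃ R : ℝ, ∀ ρ ∈ Ioc (1 : ℝ) 2, ∀ x : T,
    σ.φ ((ρ : ℂ) * eT x) ∈ ball (0 : ℂ) R := by
  obtain ⟨C, hC, hρ⟩ := σ.exists_cf (ρ := 2) one_lt_two
  subst hC
  obtain ⟨R, hR⟩ := C.isCompact_Ub.isBounded.subset_ball 0
  refine ⟨R, fun ρ h x => hR ?_⟩
  have e1 : ‖(ρ : ℂ) * eT x‖ = ρ := by
    rw [norm_mul, norm_eT, mul_one, Complex.norm_real, Real.norm_of_nonneg (by linarith only [h, h.1])]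
  rintro ⟨ζ, hζ, he⟩
  have h2 : 2 < ‖ζ‖ := by rw [← hρ]; exact hζ
  have e2 : ζ = (ρ : ℂ) * eT x :=
    C.φ_inj (show 1 < ‖ζ‖ by linarith) (show 1 < ‖(ρ : ℂ) * eT x‖ by rw [e1]; exact h.1) he
  rw [e2, e1] at h2
  exact absurd h.2 (not_le.2 h2)

theorem Sy.equicont (σ : Sy) (hα : Typ σ.α) {c₀ : ℝ} (h0 : 0 < c₀)
    (hc : ∀ ρ ∈ Ioc (1 : ℝ) 2, ∀ t : ℝ, ∃ a ∈ Icc t (t + 1 / 2), ∃ b ∈ Icc t (t + 1 / 2),
      c₀ ≤ dist (σ.φ ((ρ : ℂ) * e a)) (σ.φ ((ρ : ℂ) * e b))) {ε : ℝ} (hε : 0 < ε) :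
    ∃ δ > 0, ∀ ρ ∈ Ioc (1 : ℝ) 2, ∀ t t' : ℝ, |t - t'| < δ →
      dist (σ.φ ((ρ : ℂ) * e t)) (σ.φ ((ρ : ℂ) * e t')) < ε := by
  obtain ⟨R, hR⟩ := D2_bound σ
  obtain ⟨ε₁, hε₁, hl⟩ := lines (R := R) (lt_min h0 hε)
  obtain ⟨Λ⟩ := exists_lev hα.1
  have hp := Real.pi_pos
  have hden : 0 < 2 + 128 * Real.pi ^ 2 := by positivity
  set ε₂ := 2 * Real.pi * ε₁ / (2 + 128 * Real.pi ^ 2) with hε₂
  have h2 : 0 < ε₂ := by positivity
  obtain ⟨n, s, hn, hn1, hs0, hs8, hs, hK⟩ := final σ.N Λ (Λ.good hα) h2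
  have han := D2_anti hs0 hs
  have hnr : (0 : ℝ) < n := by exact_mod_cast hn
  refine ⟨s (n - 1), hs0 _, fun ρ hρ t t' htt => ?_⟩
  obtain ⟨C, hC, hCρ⟩ := σ.exists_cf hρ.1
  subst hC
  obtain ⟨K, hKH⟩ := C.exists_kit
  obtain ⟨Φ, R', hΦ, -, hγ, hE⟩ :=
    C.exists_ext (avg_nice (t : T) n hs0) (η := ENNReal.ofReal ε₂) (ENNReal.ofReal_pos.2 h2)
  have hEn : En univ Φ ≤ ENNReal.ofReal ε₁ := by
    have k1 := hK K (t : T)
    rw [hKH] at k1
    have k2 : En univ (fun ζ => (∑ i ∈ Finset.range n, bumpC (t : T) (s i) ζ) / n) ≤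
        ENNReal.ofReal (64 * Real.pi * ε₂) := by
      refine (avg_en (t : T) n hs0 hs).trans (ENNReal.ofReal_le_ofReal ?_)
      rw [div_eq_mul_one_div]
      exact mul_le_mul_of_nonneg_left hn1 (by positivity)
    have k3 : ENNReal.ofReal (2 * Real.pi) * En univ Φ ≤
        ENNReal.ofReal (2 * Real.pi) * ENNReal.ofReal ε₁ := by
      refine hE.trans ((add_le_add (add_le_add k1 (mul_le_mul_right k2 _)) le_rfl).trans
        (le_of_eq ?_))
      rw [← ENNReal.ofReal_mul (by positivity), ← ENNReal.ofReal_mul (by positivity),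
        ← ENNReal.ofReal_add (by positivity) (by positivity),
        ← ENNReal.ofReal_add (by positivity) (by positivity)]
      congr 1
      have : ε₂ * (2 + 128 * Real.pi ^ 2) = 2 * Real.pi * ε₁ := by
        rw [hε₂]
        field_simp
      linarith only [this]
    exact (ENNReal.mul_le_mul_iff_right (by simpa using hp) ENNReal.ofReal_ne_top).1 k3
  have hg : ∀ u : ℝ, C.γ (u : T) = C.φ ((ρ : ℂ) * e u) := fun u => by
    rw [Cf.γ, hCρ, eT_coe]
  have hcont : Continuous fun u : ℝ => C.γ (u : T) := C.continuous_γ.comp continuous_coeT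
  have hb : ∀ x, C.γ x ∈ ball (0 : ℂ) R := fun x => by
    rw [Cf.γ, hCρ]
    exact hR ρ hρ x
  have key := hl Φ ((fun u : ℝ => C.γ (u : T)) '' uIcc t t')
    ((fun u : ℝ => C.γ (u : T)) '' Icc (t + 1 / 4) (t + 1 / 4 + 1 / 2)) hΦ hEn
    (isPreconnected_uIcc.image _ hcont.continuousOn)
    (isPreconnected_Icc.image _ hcont.continuousOn)
    (by rintro _ ⟨u, -, rfl⟩; exact hb _) (by rintro _ ⟨u, -, rfl⟩; exact hb _) ?_ ?_ ?_
    _ ⟨t, left_mem_uIcc, rfl⟩ _ ⟨t', right_mem_uIcc, rfl⟩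
  · simp only [hg] at key
    exact key.trans_le (min_le_right _ _)
  · rintro _ ⟨u, hu, rfl⟩
    simp only
    rw [hγ]
    have k1 : |u - t| ≤ |t - t'| := by
      rw [abs_sub_comm t t']
      exact abs_sub_left_of_mem_uIcc hu
    have k2 : ∀ i ∈ Finset.range n, bumpC (t : T) (s i) (eT (u : T)) = 1 := fun i hi => by
      have k3 : s (n - 1) ≤ s i := han (by have := Finset.mem_range.1 hi; omega)
      exact bump_one (hs0 i) ((dist_coe_le u t).trans (by linarith only [htt, k1, k3]))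
    rw [Finset.sum_congr rfl k2]
    simp [hnr.ne']
  · rintro _ ⟨u, hu, rfl⟩
    simp only
    rw [hγ]
    have k1 : |u - t| = u - t := abs_of_nonneg (by linarith only [hu, hu.1])
    have k4 : 1 / 4 ≤ dist (u : T) (t : T) :=
      le_dist_coe (by rw [k1]; linarith only [hu, hu.1]) (by rw [k1]; linarith only [hu, hu.2])
    have k2 : ∀ i ∈ Finset.range n, bumpC (t : T) (s i) (eT (u : T)) = 0 := fun i _ => by
      have k3 : s i ≤ s 0 := han (Nat.zero_le i)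
      exact bump_zero (hs0 i) (by linarith only [hs8, k4, k3])
    rw [Finset.sum_eq_zero k2, zero_div]
  · obtain ⟨a, ha, b, hb', hab⟩ := hc ρ hρ (t + 1 / 4)
    refine ⟨_, ⟨a, ha, rfl⟩, _, ⟨b, hb', rfl⟩, ?_⟩
    simp only [hg]
    exact (min_le_left _ _).trans hab

end Pool.Agent.Work.MP_042f46_an.Ty
end
end

-- merged part: Pool.Agent.Work.MP_042f46_an.T.D3
section
/-!
# From equicontinuity of the curves to a homeomorphism of the closed disc

Plans.  `rot_all`: maximum principle (`Complex.norm_le_of_forall_mem_frontier_norm_le` on `ball 0 r`) for `ζ ↦ φ (e t * ζ) - φ ζ`.  `unif_cont`: `g = dslope φ 0` is holomorphic and bounded on the ball, it has a primitive `Ψ` (`DifferentiableOn.isExactOn_ball`), Lipschitz on the convex ball; `t ↦ Ψ (e t * ζ) - 2 π I t φ ζ` has derivative `2 π I (φ (e t * ζ) - φ ζ)`, so `‖Ψ (e δ * ζ) - Ψ ζ - 2 π I δ φ ζ‖ ≤ 2 π δ ε` (mean value inequality), whence `‖φ ζ - φ ζ'‖ ≤ 2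 ε + (L / (π δ)) ‖ζ - ζ'‖`.  `exists_homeo`: `extendFrom (ball 0 1) φ` (`continuousOn_extendFrom`, `extendFrom_extends`, limits exist by the Cauchy criterion), or `Φ ζ = lim φ (r ζ)` as `r → 1`; the functional equation passes to the limit; `Φ '' closedBall` is compact; a boundary point does not go to `S` because the inverse of `φ` is continuous on the open set `S` (`inv_diff`, `isOpen_image_of_injOn`); if `Φ ξ = Φ (e t * ξ)` then the same holds on the orbit of `ξ`, on the circle (`Rot_dense`), in the disc (maximum principle), so `e t = 1`.  `arc_diam`: otherwise, by uniform continuity of `f` on the compact set `closure S` applied `N` times (`rot_cover` with `1 / 4`), any two points of the curve with angles at distance `≤ 1 / 4` are close, so the curve is small, and by the maximum principle `φ 0` and `φ (1 / 4)` are close.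
-/

open Set Metric Topology Filter MeasureTheory
open scoped ENNReal NNReal

noncomputable section
namespace Pool.Agent.Work.MP_042f46_an.Ty

variable {φ f : ℂ → ℂ} {α : ℝ}

theorem D3_mem {ζ : ℂ} (t : ℝ) (h : ζ ∈ ball (0 : ℂ) 1) : e t * ζ ∈ ball (0 : ℂ) 1 := by
  rw [mem_ball_zero_iff] at h ⊢
  rwa [norm_mul, norm_e, one_mul]

theorem D3_rot (hφ : DifferentiableOn ℂ φ (ball 0 1)) {t ε r : ℝ} (hr0 : 0 < r) (hr1 : r < 1)
    (h : ∀ s : ℝ, dist (φ ((r : ℂ) * e (s + t))) (φ ((r : ℂ) * e s)) ≤ ε) {ζ : ℂ}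
    (hζ : ‖ζ‖ ≤ r) : dist (φ (e t * ζ)) (φ ζ) ≤ ε := by
  have hd : DifferentiableOn ℂ (fun z => φ (e t * z) - φ z) (ball 0 1) :=
    (hφ.comp (differentiableOn_id.const_mul (e t)) fun z hz => D3_mem t hz).sub hφ
  have hcl : closure (ball (0 : ℂ) r) = closedBall 0 r := closure_ball 0 hr0.ne'
  rw [dist_eq_norm]
  refine Complex.norm_le_of_forall_mem_frontier_norm_le (U := ball 0 r) isBounded_ball
    (f := fun z => φ (e t * z) - φ z)
    (DifferentiableOn.diffContOnCl (hd.mono (hcl ▸ closedBall_subset_ball hr1))) (fun z hz => ?_)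
    (hcl ▸ mem_closedBall_zero_iff.2 hζ)
  rw [frontier_ball 0 hr0.ne', mem_sphere_zero_iff_norm] at hz
  obtain ⟨s, hs⟩ := exists_e z
  rw [hz] at hs
  have := h s
  rw [dist_eq_norm, e_add, ← mul_assoc, ← hs, mul_comm z] at this
  exact this

theorem rot_all (hφ : DifferentiableOn ℂ φ (ball 0 1)) {t ε : ℝ}
    (h : ∀ r ∈ Ico (1 / 2 : ℝ) 1, ∀ s : ℝ, dist (φ ((r : ℂ) * e (s + t))) (φ ((r : ℂ) * e s)) ≤ ε) :
    ∀ ζ ∈ ball (0 : ℂ) 1, dist (φ (e t * ζ)) (φ ζ) ≤ ε := by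
  intro ζ hζ
  have h1 : max (1 / 2 : ℝ) ‖ζ‖ < 1 := max_lt (by norm_num) (mem_ball_zero_iff.1 hζ)
  exact D3_rot hφ (lt_max_of_lt_left (by norm_num)) h1 (h _ ⟨le_max_left _ _, h1⟩)
    (le_max_right _ _)

theorem D3_avg {Ψ : ℂ → ℂ} (h0 : φ 0 = 0)
    (hΨ : ∀ z ∈ ball (0 : ℂ) 1, HasDerivAt Ψ (dslope φ 0 z) z) {δ ε : ℝ} (hδ : 0 ≤ δ) {ζ : ℂ}
    (hζ : ζ ∈ ball (0 : ℂ) 1) (h : ∀ t ∈ Icc 0 δ, dist (φ (e t * ζ)) (φ ζ) ≤ ε) :
    ‖Ψ (e δ * ζ) - Ψ ζ - 2 * Real.pi * Complex.I * δ * φ ζ‖ ≤ 2 * Real.pi * ε * δ := by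
  have hd : ∀ t : ℝ, HasDerivAt (fun t : ℝ => Ψ (e t * ζ) - 2 * Real.pi * Complex.I * t * φ ζ)
      (2 * Real.pi * Complex.I * (φ (e t * ζ) - φ ζ)) t := by
    intro t
    have d1 : HasDerivAt (fun w : ℂ => Complex.exp (2 * Real.pi * Complex.I * w) * ζ)
        (e t * (2 * Real.pi * Complex.I * 1) * ζ) (t : ℂ) :=
      (((hasDerivAt_id (t : ℂ)).const_mul (2 * Real.pi * Complex.I)).cexp).mul_const ζ
    have d2 := (hΨ _ (D3_mem t hζ)).comp (t : ℂ) d1
    have d3 : HasDerivAt (fun w : ℂ => 2 * Real.pi * Complex.I * w * φ ζ)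
        (2 * Real.pi * Complex.I * 1 * φ ζ) (t : ℂ) :=
      ((hasDerivAt_id (t : ℂ)).const_mul (2 * Real.pi * Complex.I)).mul_const _
    have d4 := (d2.sub d3).comp_ofReal
    have k := sub_smul_dslope φ 0 (e t * ζ)
    rw [h0, sub_zero, sub_zero, smul_eq_mul] at k
    refine d4.congr_deriv ?_
    linear_combination (2 * Real.pi * Complex.I) * k
  have := Convex.norm_image_sub_le_of_norm_hasDerivWithin_le (s := Icc 0 δ)
    (C := 2 * Real.pi * ε) (fun t _ => (hd t).hasDerivWithinAt) (fun t ht => by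
      rw [norm_mul, ← dist_eq_norm]
      have : ‖(2 * Real.pi * Complex.I : ℂ)‖ = 2 * Real.pi := by
        simp [abs_of_pos Real.pi_pos]
      rw [this]
      exact mul_le_mul_of_nonneg_left (h t ht) (by positivity))
    (convex_Icc 0 δ) (left_mem_Icc.2 hδ) (right_mem_Icc.2 hδ)
  have e0 : e 0 = 1 := by simp [e]
  rw [e0, one_mul, sub_zero δ, Real.norm_of_nonneg hδ] at this
  refine le_of_eq_of_le (congrArg norm ?_) this
  push_cast
  ring

theorem unif_cont (hφ : DifferentiableOn ℂ φ (ball 0 1)) (h0 : φ 0 = 0)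
    (hb : Bornology.IsBounded (φ '' ball 0 1))
    (h : ∀ ε > 0, ∃ δ > 0, ∀ r ∈ Ico (1 / 2 : ℝ) 1, ∀ t t' : ℝ, |t - t'| < δ →
      dist (φ ((r : ℂ) * e t)) (φ ((r : ℂ) * e t')) < ε) : UniformContinuousOn φ (ball 0 1) := by
  obtain ⟨L, hL, hL'⟩ := hb.subset_closedBall_lt 0 0
  have hg : ∀ z ∈ ball (0 : ℂ) 1, ‖dslope φ 0 z‖ ≤ L := fun z hz => by
    have := Complex.norm_dslope_le_div_of_mapsTo_ball (R₂ := L) hφ
      (fun w hw => by rw [h0]; exact hL' (mem_image_of_mem φ hw)) hz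
    rwa [div_one] at this
  obtain ⟨Ψ, hΨ⟩ := ((Complex.differentiableOn_dslope (ball_mem_nhds (0 : ℂ) one_pos)).2
    hφ).isExactOn_ball
  have hlip : ∀ x ∈ ball (0 : ℂ) 1, ∀ y ∈ ball (0 : ℂ) 1, ‖Ψ y - Ψ x‖ ≤ L * ‖y - x‖ :=
    fun x hx y hy => Convex.norm_image_sub_le_of_norm_hasDerivWithin_le
      (fun z hz => (hΨ z hz).hasDerivWithinAt) hg (convex_ball 0 1) hx hy
  rw [Metric.uniformContinuousOn_iff]
  intro ε hε
  obtain ⟨δ, hδ, hδ'⟩ := h (ε / 4) (by positivity)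
  have hrot : ∀ ζ ∈ ball (0 : ℂ) 1, ∀ t ∈ Icc 0 (δ / 2), dist (φ (e t * ζ)) (φ ζ) ≤ ε / 4 :=
    fun ζ hζ t ht => rot_all hφ (fun r hr s => (hδ' r hr _ _ (by
      rw [add_sub_cancel_left, abs_of_nonneg ht.1]
      linarith only [hδ, ht, ht.2])).le) ζ hζ
  have hπ := Real.pi_pos
  refine ⟨Real.pi * (δ / 2) * (ε / 4) / L, by positivity, fun x hx y hy hxy => ?_⟩
  have a1 := D3_avg h0 hΨ (half_pos hδ).le hx (hrot x hx)
  have a2 := D3_avg h0 hΨ (half_pos hδ).le hy (hrot y hy)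
  have a3 := hlip x hx y hy
  have a4 := hlip _ (D3_mem (δ / 2) hy) _ (D3_mem (δ / 2) hx)
  rw [← mul_sub, norm_mul, norm_e, one_mul, ← dist_eq_norm x y] at a4
  rw [← dist_eq_norm y x, dist_comm] at a3
  rw [lt_div_iff₀ hL] at hxy
  have a5 : ‖(2 * Real.pi * Complex.I * (δ / 2 : ℝ) : ℂ) * (φ x - φ y)‖ =
      2 * Real.pi * (δ / 2) * dist (φ x) (φ y) := by
    rw [norm_mul, dist_eq_norm, norm_mul, Complex.norm_real, Real.norm_of_nonneg (half_pos hδ).le]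
    simp [abs_of_pos Real.pi_pos]
  have a6 : (2 * Real.pi * Complex.I * (δ / 2 : ℝ) : ℂ) * (φ x - φ y) =
      (Ψ (e (δ / 2) * y) - Ψ y - 2 * Real.pi * Complex.I * (δ / 2 : ℝ) * φ y) -
      (Ψ (e (δ / 2) * x) - Ψ x - 2 * Real.pi * Complex.I * (δ / 2 : ℝ) * φ x) +
      (Ψ (e (δ / 2) * x) - Ψ (e (δ / 2) * y)) + (Ψ y - Ψ x) := by ring
  have a7 := a6 ▸ a5
  have a8 := (norm_add_le _ _).trans (add_le_add ((norm_add_le _ _).trans
    (add_le_add ((norm_sub_le _ _).trans (add_le_add a2 a1)) a4)) a3)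
  rw [a7] at a8
  have a9 : 0 < Real.pi * (δ / 2) := by positivity
  by_contra hn
  have := mul_le_mul_of_nonneg_left (not_lt.1 hn) a9.le
  have := mul_pos a9 hε
  nlinarith

theorem D3_iter (hb : Bornology.IsBounded (φ '' ball 0 1))
    (hf : ContinuousOn f (closure (φ '' ball 0 1)))
    (hc : ∀ ζ ∈ ball (0 : ℂ) 1, f (φ ζ) = φ (e α * ζ)) (N : ℕ) : ∀ ε > 0, ∃ c > 0, ∀ k ≤ N,
      ∀ x ∈ ball (0 : ℂ) 1, ∀ y ∈ ball (0 : ℂ) 1, dist (φ x) (φ y) < c →
        dist (φ (e (k * α) * x)) (φ (e (k * α) * y)) < ε := by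
  have hu := Metric.uniformContinuousOn_iff.1
    (hb.isCompact_closure.uniformContinuousOn_of_continuous hf)
  have e0 : e 0 = 1 := by simp [e]
  induction N with
  | zero =>
    refine fun ε hε => ⟨ε, hε, fun k hk x _ y _ h => ?_⟩
    obtain rfl := Nat.le_zero.1 hk
    simpa [e0] using h
  | succ N ih =>
    intro ε hε
    obtain ⟨δ, hδ, hδ'⟩ := hu ε hε
    obtain ⟨c, hc0, hc'⟩ := ih (min ε δ) (lt_min hε hδ)
    refine ⟨c, hc0, fun k hk x hx y hy h => ?_⟩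
    rcases hk.lt_or_eq with hk | rfl
    · exact (hc' k (Nat.lt_succ_iff.1 hk) x hx y hy h).trans_le (min_le_left _ _)
    · have := hδ' _ (subset_closure (mem_image_of_mem φ (D3_mem (N * α) hx))) _
        (subset_closure (mem_image_of_mem φ (D3_mem (N * α) hy)))
        ((hc' N le_rfl x hx y hy h).trans_le (min_le_right _ _))
      rw [hc _ (D3_mem _ hx), hc _ (D3_mem _ hy), ← mul_assoc, ← mul_assoc, ← e_add] at this
      have k : ((N + 1 : ℕ) : ℝ) * α = α + N * α := by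
        push_cast
        ring
      rwa [k]

theorem arc_diam (hα : Irrational α) (hφ : DifferentiableOn ℂ φ (ball 0 1))
    (hi : InjOn φ (ball 0 1)) (hb : Bornology.IsBounded (φ '' ball 0 1))
    (hf : ContinuousOn f (closure (φ '' ball 0 1)))
    (hc : ∀ ζ ∈ ball (0 : ℂ) 1, f (φ ζ) = φ (e α * ζ)) :
    ∃ c₀ > 0, ∀ r ∈ Ico (1 / 2 : ℝ) 1, ∀ t : ℝ, ∃ a ∈ Icc t (t + 1 / 2), ∃ b ∈ Icc t (t + 1 / 2),
      c₀ ≤ dist (φ ((r : ℂ) * e a)) (φ ((r : ℂ) * e b)) := by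
  by_contra hn
  push Not at hn
  obtain ⟨N, hN⟩ := rot_cover hα (ε := 1 / 4) (by norm_num)
  have hq : ‖(1 / 4 : ℂ)‖ = 1 / 4 := by simp
  have hm : (1 / 4 : ℂ) ∈ ball (0 : ℂ) 1 := by
    rw [mem_ball_zero_iff, hq]
    norm_num
  have key : ∀ ε > 0, dist (φ (e (1 / 4) * (1 / 4))) (φ (1 / 4)) ≤ ε := by
    intro ε hε
    obtain ⟨c, hc0, hc'⟩ := D3_iter hb hf hc N ε hε
    obtain ⟨r, hr, t, ht⟩ := hn c hc0
    have hr0 : 0 < r := by linarith only [hr, hr.1]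
    have hmem : ∀ s : ℝ, (r : ℂ) * e s ∈ ball (0 : ℂ) 1 := fun s => by
      rw [mem_ball_zero_iff, norm_mul, norm_e, mul_one, Complex.norm_real,
        Real.norm_of_nonneg hr0.le]
      exact hr.2
    refine D3_rot hφ hr0 hr.2 (fun s => ?_) (by rw [hq]; linarith only [hr0, hr, hr.1])
    obtain ⟨k, hk, m, k1, k2⟩ := hN (s - t)
    have := hc' k hk _ (hmem _) _ (hmem _) (ht (s + 1 / 4 - k * α - m)
      ⟨by linarith only [k1, k2], by linarith only [k2]⟩ (s - k * α - m) ⟨by linarith only [k1], by linarith only [k1, k2]⟩)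
    have u : ∀ x : ℝ, e (k * α) * ((r : ℂ) * e (x - k * α - m)) = r * e x := fun x => by
      rw [mul_left_comm, ← e_add]
      congr 1
      exact e_eq_iff.2 ⟨-m, by push_cast; ring⟩
    rw [u, u] at this
    exact this.le
  have h1 := hi (D3_mem _ hm) hm (dist_le_zero.1 (le_of_forall_pos_le_add fun ε hε => by
    rw [zero_add]
    exact key ε hε))
  have h2 : e (1 / 4) = e 0 := by
    have e0 : e 0 = 1 := by simp [e]
    rw [e0]
    exact mul_right_cancel₀ (b := (1 / 4 : ℂ)) (by norm_num) (h1.trans (one_mul _).symm)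
  obtain ⟨m, hm'⟩ := e_eq_iff.1 h2
  have h3 : (4 * m : ℤ) = 1 := by
    have : ((4 * m : ℤ) : ℝ) = ((1 : ℤ) : ℝ) := by
      push_cast
      linarith only [hm']
    exact_mod_cast this
  omega

end Pool.Agent.Work.MP_042f46_an.Ty
end
end

-- merged part: Pool.Agent.Work.MP_042f46_an.T.D5
section
/-!
# From equicontinuity of the curves to a homeomorphism of the closed disc

Plans.  `rot_all`: maximum principle (`Complex.norm_le_of_forall_mem_frontier_norm_le` on `ball 0 r`) for `ζ ↦ φ (e t * ζ) - φ ζ`.  `unif_cont`: `g = dslope φ 0` is holomorphic and bounded on the ball, it has a primitive `Ψ` (`DifferentiableOn.isExactOn_ball`), Lipschitz on the convex ball; `t ↦ Ψ (e t * ζ) - 2 π I t φ ζ` has derivative `2 π I (φ (e t * ζ) - φ ζ)`, so `‖Ψ (e δ * ζ) - Ψ ζ - 2 π I δ φ ζ‖ ≤ 2 π δ ε` (mean value inequality), whence `‖φ ζ - φ ζ'‖ ≤ 2 ε + (L / (π δ)) ‖ζ - ζ'‖`.  `exists_homeo`: `extendFrom (ball 0 1) φ` (`continuousOn_extendFrom`,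 `extendFrom_extends`, limits exist by the Cauchy criterion), or `Φ ζ = lim φ (r ζ)` as `r → 1`; the functional equation passes to the limit; `Φ '' closedBall` is compact; a boundary point does not go to `S` because the inverse of `φ` is continuous on the open set `S` (`inv_diff`, `isOpen_image_of_injOn`); if `Φ ξ = Φ (e t * ξ)` then the same holds on the orbit of `ξ`, on the circle (`Rot_dense`), in the disc (maximum principle), so `e t = 1`.  `arc_diam`: otherwise, by uniform continuity of `f` on the compact set `closure S` applied `N` times (`rot_cover` with `1 / 4`), any two points of the curve with angles at distance `≤ 1 / 4` are close, so the curve is small, and by the maximum principle `φ 0` and `φ (1 / 4)` are close.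
-/

open Set Metric Topology Filter MeasureTheory
open scoped ENNReal NNReal

noncomputable section
namespace Pool.Agent.Work.MP_042f46_an.Ty

variable {φ f : ℂ → ℂ} {α : ℝ}

theorem D5_lim (hu : UniformContinuousOn φ (ball 0 1)) {x : ℂ} (hx : x ∈ closedBall (0 : ℂ) 1) :
    ∃ y, Tendsto φ (𝓝[ball 0 1] x) (𝓝 y) := by
  have hne : (𝓝[ball (0 : ℂ) 1] x).NeBot :=
    mem_closure_iff_nhdsWithin_neBot.1 (by rwa [closure_ball _ one_ne_zero])
  have hc : Cauchy (𝓝[ball (0 : ℂ) 1] x) := cauchy_nhds.mono nhdsWithin_le_nhds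
  exact CompleteSpace.complete (hc.map_of_le hu (le_principal_iff.2 self_mem_nhdsWithin))

theorem D5_in {Φ : ℂ → ℂ} (hφ : DifferentiableOn ℂ φ (ball 0 1)) (hi : InjOn φ (ball 0 1))
    (hΦ : ContinuousOn Φ (closedBall 0 1)) (he : EqOn Φ φ (ball 0 1)) {ξ ζ : ℂ}
    (hξ : ξ ∈ closedBall (0 : ℂ) 1) (hζ : ζ ∈ ball (0 : ℂ) 1) (h : Φ ξ = Φ ζ) : ξ = ζ := by
  have hne : (𝓝[ball (0 : ℂ) 1] ξ).NeBot :=
    mem_closure_iff_nhdsWithin_neBot.1 (by rwa [closure_ball _ one_ne_zero])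
  have h1 : ContinuousAt (Function.invFunOn φ (ball 0 1)) (φ ζ) :=
    (inv_diff isOpen_ball hφ hi).continuousOn.continuousAt
      ((isOpen_image_of_injOn isOpen_ball hφ hi).mem_nhds (mem_image_of_mem _ hζ))
  have h2 : Tendsto Φ (𝓝[ball 0 1] ξ) (𝓝 (φ ζ)) := by
    rw [← he hζ, ← h]
    exact (hΦ ξ hξ).mono ball_subset_closedBall
  have h3 := h1.tendsto.comp h2
  rw [hi.leftInvOn_invFunOn hζ] at h3
  have h4 : Tendsto (fun z : ℂ => z) (𝓝[ball 0 1] ξ) (𝓝 ζ) := by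
    refine h3.congr' (mem_of_superset self_mem_nhdsWithin fun z hz => ?_)
    show Function.invFunOn φ (ball 0 1) (Φ z) = z
    rw [he hz, hi.leftInvOn_invFunOn hz]
  exact tendsto_nhds_unique (tendsto_id.mono_left nhdsWithin_le_nhds) h4

theorem D5_mul {ξ ζ : ℂ} (hξ : ‖ξ‖ = 1) : ‖ζ * ξ‖ = ‖ζ‖ := by
  rw [norm_mul, hξ, mul_one]

theorem D5_dc {Φ : ℂ → ℂ} (hφ : DifferentiableOn ℂ φ (ball 0 1))
    (hΦ : ContinuousOn Φ (closedBall 0 1)) (he : EqOn Φ φ (ball 0 1)) {ξ : ℂ} (hξ : ‖ξ‖ = 1) :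
    DiffContOnCl ℂ (fun ζ => Φ (ζ * ξ)) (ball 0 1) := by
  refine ⟨(hφ.congr he).comp (f := fun ζ => ζ * ξ) (by fun_prop) fun ζ hζ => ?_, ?_⟩
  · rwa [mem_ball_zero_iff, D5_mul hξ, ← mem_ball_zero_iff]
  · rw [closure_ball _ one_ne_zero]
    refine hΦ.comp (f := fun ζ => ζ * ξ) (by fun_prop) fun ζ hζ => ?_
    rwa [mem_closedBall_zero_iff, D5_mul hξ, ← mem_closedBall_zero_iff]

theorem D5_bd {Φ : ℂ → ℂ} (hα : Irrational α) (hφ : DifferentiableOn ℂ φ (ball 0 1))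
    (hi : InjOn φ (ball 0 1)) (hΦ : ContinuousOn Φ (closedBall 0 1)) (he : EqOn Φ φ (ball 0 1))
    (hc : ∀ ζ ∈ closedBall (0 : ℂ) 1, f (Φ ζ) = Φ (e α * ζ)) {ξ η : ℂ} (hξ : ‖ξ‖ = 1)
    (hη : ‖η‖ = 1) (h : Φ ξ = Φ η) : ξ = η := by
  have hm : ∀ {x : ℂ}, ‖x‖ = 1 → ∀ t, e t * x ∈ closedBall (0 : ℂ) 1 := fun hx t => by
    rw [mem_closedBall_zero_iff, Sg_norm, hx]
  have h0 : e 0 = 1 := by simp [e]
  have hk : ∀ k : ℕ, Φ (e (k * α) * ξ) = Φ (e (k * α) * η) := by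
    intro k
    induction k with
    | zero => simpa [h0] using h
    | succ k ih =>
      have : ((k + 1 : ℕ) : ℝ) * α = α + k * α := by push_cast; ring
      rw [this, e_add, mul_assoc, mul_assoc, ← hc _ (hm hξ _), ← hc _ (hm hη _), ih]
  have hcont : ∀ {x : ℂ}, ‖x‖ = 1 → Continuous fun t : ℝ => Φ (e t * x) := fun hx =>
    hΦ.comp_continuous (continuous_e.mul continuous_const) (hm hx)
  have hd : Dense {t : ℝ | ∃ k : ℕ, ∃ m : ℤ, t = k * α + m} := by
    intro x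
    refine Metric.mem_closure_iff.2 fun ε hε => ?_
    obtain ⟨k, m, h1, h2⟩ := Rot_dense hα hε x
    refine ⟨_, ⟨k, m, rfl⟩, ?_⟩
    rw [Real.dist_eq, abs_lt]
    constructor <;> linarith only [h1, h2]
  have ht : (fun t : ℝ => Φ (e t * ξ)) = fun t : ℝ => Φ (e t * η) := by
    refine Continuous.ext_on hd (hcont hξ) (hcont hη) ?_
    rintro _ ⟨k, m, rfl⟩
    have : e (k * α + m) = e (k * α) := e_eq_iff.2 ⟨m, by ring⟩
    simp only [this, hk]
  have hq : EqOn (fun ζ => Φ (ζ * ξ)) (fun ζ => Φ (ζ * η)) (ball 0 1) := by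
    refine Complex.eqOn_of_eqOn_frontier isBounded_ball (D5_dc hφ hΦ he hξ) (D5_dc hφ hΦ he hη) ?_
    rw [frontier_ball _ one_ne_zero]
    intro ζ hζ
    obtain ⟨t, hz⟩ := exists_e ζ
    rw [mem_sphere_zero_iff_norm.1 hζ, Complex.ofReal_one, one_mul] at hz
    rw [hz]
    exact congrFun ht t
  have hh : (1 / 2 : ℂ) ∈ ball (0 : ℂ) 1 := by
    rw [mem_ball_zero_iff]
    norm_num
  have hb : ∀ {x : ℂ}, ‖x‖ = 1 → 1 / 2 * x ∈ ball (0 : ℂ) 1 := fun hx => by
    rwa [mem_ball_zero_iff, D5_mul hx, ← mem_ball_zero_iff]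
  have h5 : Φ (1 / 2 * ξ) = Φ (1 / 2 * η) := hq hh
  rw [he (hb hξ), he (hb hη)] at h5
  exact mul_left_cancel₀ (by norm_num) (hi (hb hξ) (hb hη) h5)

theorem exists_homeo (hα : Irrational α) (hφ : DifferentiableOn ℂ φ (ball 0 1))
    (hi : InjOn φ (ball 0 1)) (hu : UniformContinuousOn φ (ball 0 1))
    (hf : ContinuousOn f (closure (φ '' ball 0 1)))
    (hc : ∀ ζ ∈ ball (0 : ℂ) 1, f (φ ζ) = φ (e α * ζ)) :
    ∃ Φ : ℂ → ℂ, ContinuousOn Φ (closedBall 0 1) ∧ InjOn Φ (closedBall 0 1) ∧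
      EqOn Φ φ (ball 0 1) ∧ Φ '' closedBall 0 1 = closure (φ '' ball 0 1) ∧
      ∀ ζ ∈ closedBall (0 : ℂ) 1, f (Φ ζ) = Φ (e α * ζ) := by
  have hcl : closure (ball (0 : ℂ) 1) = closedBall 0 1 := closure_ball _ one_ne_zero
  have hΦ : ContinuousOn (extendFrom (ball 0 1) φ) (closedBall 0 1) :=
    continuousOn_extendFrom hcl.ge fun x hx => D5_lim hu hx
  have he : EqOn (extendFrom (ball 0 1) φ) φ (ball 0 1) := fun x hx =>
    extendFrom_extends hφ.continuousOn x hx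
  generalize extendFrom (ball 0 1) φ = Φ at hΦ he
  have him : Φ '' closedBall 0 1 = closure (φ '' ball 0 1) := by
    rw [← he.image_eq]
    refine Subset.antisymm ?_ (closure_minimal (image_mono ball_subset_closedBall)
      ((isCompact_closedBall _ _).image_of_continuousOn hΦ).isClosed)
    rw [← hcl] at hΦ ⊢
    exact hΦ.image_closure
  have hF : EqOn (fun ζ => f (Φ ζ)) (fun ζ => Φ (e α * ζ)) (closedBall 0 1) := by
    refine EqOn.of_subset_closure (s := ball 0 1) (fun ζ hζ => ?_)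
      (hf.comp hΦ fun ζ hζ => him ▸ mem_image_of_mem _ hζ)
      (hΦ.comp (f := fun ζ => e α * ζ) (by fun_prop) fun ζ hζ => ?_) ball_subset_closedBall hcl.ge
    · show f (Φ ζ) = Φ (e α * ζ)
      rw [he hζ, he (Sg_ball hζ α), hc ζ hζ]
    · rwa [mem_closedBall_zero_iff, Sg_norm, ← mem_closedBall_zero_iff]
  refine ⟨Φ, hΦ, fun ξ hξ η hη h => ?_, he, him, hF⟩
  by_cases h1 : η ∈ ball (0 : ℂ) 1
  · exact D5_in hφ hi hΦ he hξ h1 h
  by_cases h2 : ξ ∈ ball (0 : ℂ) 1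
  · exact (D5_in hφ hi hΦ he hη h2 h.symm).symm
  rw [mem_ball_zero_iff, not_lt] at h1 h2
  exact D5_bd hα hφ hi hΦ he hF (le_antisymm (mem_closedBall_zero_iff.1 hξ) h2)
    (le_antisymm (mem_closedBall_zero_iff.1 hη) h1) h

end Pool.Agent.Work.MP_042f46_an.Ty
end
end

-- merged part: Pool.Agent.Work.MP_042f46_an.T.D4
section
/-!
# Assembly

Plan.  As `main'` in `XH.lean`: `exists_φ_hol`, `inv_data`, `exists_cov`; `Sy` with `φ' ζ = (φ ζ⁻¹)⁻¹`, rotation number `-α`, `v₀ = 0`.  `φ' (ρ * e t) = (φ (ρ⁻¹ * e (-t)))⁻¹`.  On the curves with `1 / 2 ≤ r < 1` the norm of `φ` is at most `M`, so `dist (φ a) (φ b) ≤ M ^ 2 dist (φ a)⁻¹ (φ b)⁻¹`; this gives the hypothesis of `equicont` from `arc_diam`, and the hypothesis of `unif_cont` from its conclusion.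
-/

open Set Metric Topology Filter MeasureTheory
open scoped ENNReal NNReal

noncomputable section
namespace Pool.Agent.Work.MP_042f46_an.Ty

theorem Typ.neg {α : ℝ} (h : Typ α) : Typ (-α) := by
  refine ⟨h.1.neg, ?_⟩
  simpa only [mul_neg, AddCircle.coe_neg, norm_neg] using h.2

theorem D4_dist {u v : ℂ} {M : ℝ} (hu : u ≠ 0) (hv : v ≠ 0) (h₁ : ‖u‖ ≤ M) (h₂ : ‖v‖ ≤ M) :
    dist u v ≤ M ^ 2 * dist u⁻¹ v⁻¹ := by
  have k := mul_pos (norm_pos_iff.2 hu) (norm_pos_iff.2 hv)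
  rw [dist_inv_inv₀ hu hv, ← mul_div_assoc, le_div_iff₀ k, mul_comm, sq]
  exact mul_le_mul_of_nonneg_right (mul_le_mul h₁ h₂ (norm_nonneg _) ((norm_nonneg _).trans h₁))
    dist_nonneg

open Polynomial in
theorem D4_pole {P Q : ℂ[X]} (hc : IsCoprime P Q) (hQ : Q ≠ 0) {z : ℂ} (hz : Q.eval z = 0) :
    Tendsto (rf P Q) (𝓝[≠] z) (Bornology.cobounded ℂ) := by
  have hP := no_common hc hz
  have h1 : Tendsto (rf Q P) (𝓝[≠] z) (𝓝[≠] 0) := by
    refine tendsto_nhdsWithin_iff.2 ⟨?_, ?_⟩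
    · have k := (rf_analytic (P := Q) hP).continuousAt.tendsto
      rw [show rf Q P z = 0 by rw [rf, hz, zero_div]] at k
      exact k.mono_left nhdsWithin_le_nhds
    · have k : ({w | Q.IsRoot w} \ {z})ᶜ ∈ 𝓝 z :=
        ((Q.finite_setOfPred_isRoot hQ).subset sdiff_subset).isClosed.isOpen_compl.mem_nhds
          fun k => k.2 rfl
      filter_upwards [mem_nhdsWithin_of_mem_nhds k, self_mem_nhdsWithin,
        mem_nhdsWithin_of_mem_nhds (P.continuous.continuousAt.eventually_ne hP)] with w h1 h2 h3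
      exact div_ne_zero (fun k => h1 ⟨k, h2⟩) h3
  refine (tendsto_inv₀_nhdsNE_zero.comp h1).congr fun w => ?_
  rw [Function.comp, rf, rf, inv_div]

theorem D4_e (t : ℝ) : (e (-t))⁻¹ = e t := by
  refine inv_eq_of_mul_eq_one_right ?_
  rw [← e_add]
  simp [e]

theorem D4_inv {r : ℝ} : r⁻¹ ∈ Ioc (1 : ℝ) 2 ↔ r ∈ Ico (1 / 2 : ℝ) 1 := by
  refine ⟨fun h => ?_, fun h => ?_⟩
  · have k : 0 < r := inv_pos.1 (one_pos.trans h.1)
    exact ⟨by rw [one_div]; exact inv_le_of_inv_le₀ k h.2, (one_lt_inv₀ k).1 h.1⟩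
  · have k : 0 < r := one_half_pos.trans_le h.1
    exact ⟨(one_lt_inv₀ k).2 h.2, inv_le_of_inv_le₀ two_pos (by rw [← one_div]; exact h.1)⟩

open Polynomial in
theorem main (p q : ℂ[X]) (α : ℝ) (S : Set ℂ) (hc : IsCoprime p q)
    (hd : 1 ≤ max p.natDegree q.natDegree) (hα : Typ α) (hS : IsOpen S)
    (hSc : IsPreconnected S) (h0 : (0 : ℂ) ∈ S) (hb : Bornology.IsBounded S)
    (hq : ∀ z ∈ closure S, q.eval z ≠ 0) (hm : MapsTo (rf p q) S S) {h : ℂ → ℂ}
    (hh : DifferentiableOn ℂ h S) (hi : InjOn h S) (hz : h 0 = 0)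
    (hf : ∀ z ∈ S, h (rf p q z) = e α * h z) :
    ∃ Φ : ℂ → ℂ, ContinuousOn Φ (closedBall 0 1) ∧ InjOn Φ (closedBall 0 1) ∧
      DifferentiableOn ℂ Φ (ball 0 1) ∧ Φ '' ball 0 1 = S ∧ Φ '' closedBall 0 1 = closure S ∧
      ∀ ζ ∈ closedBall (0 : ℂ) 1, rf p q (Φ ζ) = Φ (e α * ζ) := by
  obtain ⟨φ, hφd, hφi, hφf, hφS, hφ0⟩ := exists_φ_hol hα.1 hS hSc h0 hb hm hh hi hz hf
  have hb0 : (0 : ℂ) ∈ ball (0 : ℂ) 1 := mem_ball_self one_pos
  have hf0 : rf p q 0 = 0 := by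
    have := hφf 0 hb0
    rwa [mul_zero, hφ0] at this
  have hp : p.eval 0 = 0 := (div_eq_zero_iff.1 hf0).resolve_right (hq 0 (subset_closure h0))
  obtain ⟨P, Q, hPQ, hdeg, hinv⟩ := inv_data hc hd hp
  have hd' : 1 ≤ max P.natDegree Q.natDegree := le_max_of_le_left (by omega)
  obtain ⟨V, hVf, hVc, hV⟩ := exists_cov hPQ hd'
  have hzero : ∀ u ∈ closure S, rf p q u = 0 → u = 0 := fun u hu k =>
    zero_only hφd hφi hφf hφ0 (hφS.symm ▸ hu) (rf_analytic (hq u hu)).continuousAt k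
  have hne : ∀ ζ : ℂ, 1 < ‖ζ‖ → φ ζ⁻¹ ≠ 0 := fun ζ k k' =>
    inv_ne_zero (XH_ball k).1 (hφi (XH_ball k).2 hb0 (k'.trans hφ0.symm))
  obtain ⟨ψ, hψ⟩ : ∃ ψ : ℂ → ℂ, ψ = fun ζ => (φ ζ⁻¹)⁻¹ := ⟨_, rfl⟩
  have hψd : DifferentiableOn ℂ ψ {ζ | 1 < ‖ζ‖} := by
    rw [hψ]
    exact (hφd.comp (differentiableOn_inv.mono fun ζ k => (XH_ball k).1)
      fun ζ k => (XH_ball k).2).inv hne
  have hψi : InjOn ψ {ζ | 1 < ‖ζ‖} := fun a ha b hb k => by
    rw [hψ] at k
    exact inv_injective (hφi (XH_ball ha).2 (XH_ball hb).2 (inv_injective k))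
  have hψt : Tendsto ψ (Bornology.cobounded ℂ) (Bornology.cobounded ℂ) := by
    have hb1 : ball (0 : ℂ) 1 ∈ 𝓝 (0 : ℂ) := isOpen_ball.mem_nhds hb0
    have ht : Tendsto φ (𝓝[≠] 0) (𝓝[≠] (φ 0)) := by
      refine tendsto_nhdsWithin_iff.2 ⟨?_, ?_⟩
      · exact (hφd.continuousOn.continuousAt hb1).tendsto.mono_left nhdsWithin_le_nhds
      · filter_upwards [mem_nhdsWithin_of_mem_nhds hb1, self_mem_nhdsWithin] with w hw hw' hw''
        exact hw' (hφi hw hb0 hw'')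
    rw [hφ0] at ht
    rw [hψ]
    exact tendsto_inv₀_nhdsNE_zero.comp (ht.comp tendsto_inv₀_cobounded')
  have hψf : ∀ ζ, 1 < ‖ζ‖ → rf P Q (ψ ζ) = ψ (e (-α) * ζ) := fun ζ k => by
    simp only [hψ]
    rw [(hinv _ (hne ζ k)).1, hφf _ (XH_ball k).2, mul_inv, D4_e]
  have hQ : ∀ w ∈ ψ '' {ζ | 1 < ‖ζ‖}, Q.eval w ≠ 0 := by
    rintro _ ⟨ζ, k, rfl⟩
    rw [hψ]
    exact (hinv _ (hne ζ k)).2 fun k' => hne ζ k (hzero _
      (subset_closure (hφS ▸ mem_image_of_mem φ (XH_ball k).2)) (by rw [rf, k', zero_div]))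
  have h2 : (2 : ℂ) ∈ {ζ : ℂ | 1 < ‖ζ‖} := by
    rw [mem_ofPred_eq, Complex.norm_two]
    exact one_lt_two
  have hQ0 : Q ≠ 0 := by
    rintro rfl
    exact hQ _ (mem_image_of_mem ψ h2) eval_zero
  let σ : Sy :=
    { F := rf P Q
      φ := ψ
      α := -α
      V := hVf.toFinset
      P := {z | Q.eval z = 0}
      d := P.natDegree
      v₀ := 0
      φ_diff := hψd
      φ_inj := hψi
      φ_top := hψt
      conj := hψf
      P_fin := Q.finite_setOfPred_isRoot hQ0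
      cov := by rwa [hVf.coe_toFinset]
      F_diff := fun z hz => (rf_analytic hz).differentiableAt.differentiableWithinAt
      P_V := fun z hz => hVf.mem_toFinset.2 (by_contra fun k => (hV z k).1 hz)
      P_Ω := fun z hz k => hQ z k hz
      P_top := fun z hz => D4_pole hPQ hQ0 hz
      fib := XH_fib hdeg
      v₀_Ω := fun ⟨ζ, k, k'⟩ => inv_ne_zero (hne ζ k) (by rw [hψ] at k'; exact k') }
  obtain ⟨M, hM0, hM⟩ := hb.exists_pos_norm_le
  have hM2 : 0 < M ^ 2 := pow_pos hM0 2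
  have key : ∀ r ∈ Ico (1 / 2 : ℝ) 1, ∀ s t : ℝ, dist (φ ((r : ℂ) * e s)) (φ ((r : ℂ) * e t)) ≤
      M ^ 2 * dist (ψ ((r⁻¹ : ℝ) * e (-s))) (ψ ((r⁻¹ : ℝ) * e (-t))) := fun r hr s t => by
    have k0 : ∀ s : ℝ, (((r⁻¹ : ℝ) : ℂ) * e (-s))⁻¹ = (r : ℂ) * e s := fun s => by
      rw [mul_inv, D4_e, Complex.ofReal_inv, inv_inv]
    have k1 : ∀ s : ℝ, 1 < ‖((r⁻¹ : ℝ) : ℂ) * e (-s)‖ := fun s => by
      rw [norm_mul, norm_e, mul_one, Complex.norm_of_nonneg (one_pos.trans (D4_inv.2 hr).1).le]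
      exact (D4_inv.2 hr).1
    have k2 : ∀ s : ℝ, ‖φ ((r : ℂ) * e s)‖ ≤ M := fun s =>
      hM _ (hφS ▸ mem_image_of_mem φ (k0 s ▸ (XH_ball (k1 s)).2))
    simp only [hψ, k0]
    exact D4_dist (k0 s ▸ hne _ (k1 s)) (k0 t ▸ hne _ (k1 t)) (k2 s) (k2 t)
  have hfc : ContinuousOn (rf p q) (closure (φ '' ball 0 1)) := fun z k =>
    (rf_analytic (hq z (hφS ▸ k))).continuousAt.continuousWithinAt
  obtain ⟨c₀, hc₀, harc⟩ := arc_diam hα.1 hφd hφi (hφS.symm ▸ hb) hfc hφf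
  have hu : UniformContinuousOn φ (ball 0 1) := by
    refine unif_cont hφd hφ0 (hφS.symm ▸ hb) fun ε hε => ?_
    obtain ⟨δ, hδ, k⟩ := σ.equicont hα.neg (div_pos hc₀ hM2) (fun ρ hρ t => by
      have hr : ρ⁻¹ ∈ Ico (1 / 2 : ℝ) 1 := D4_inv.1 (by rwa [inv_inv])
      obtain ⟨a, ha, b, hb, k⟩ := harc _ hr (-t - 1 / 2)
      refine ⟨-a, ⟨by linarith only [ha, ha.2], by linarith only [ha, ha.1]⟩, -b,
        ⟨by linarith only [hb, hb.2], by linarith only [hb, hb.1]⟩, ?_⟩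
      have k' := k.trans (key _ hr a b)
      rw [inv_inv] at k'
      exact (div_le_iff₀' hM2).2 k') (div_pos hε hM2)
    refine ⟨δ, hδ, fun r hr t t' h' => (key r hr t t').trans_lt ((lt_div_iff₀' hM2).1 ?_)⟩
    exact k _ (D4_inv.2 hr) _ _ (by rwa [neg_sub_neg, abs_sub_comm])
  obtain ⟨Φ, h1, h3, h4, h5, h6⟩ := exists_homeo hα.1 hφd hφi hu hfc hφf
  exact ⟨Φ, h1, h3, hφd.congr h4, (image_congr h4).trans hφS, hφS ▸ h5, h6⟩

end Pool.Agent.Work.MP_042f46_an.Ty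
end
end
end
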